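import Mathlib

section

section

/-!
# PB: change of the argument along a path

`ac f a b` is the change of a continuous argument of `f` along `[a, b]` (for `f` continuous without
zeros there).  `exists_log`: extend `f` by `f ∘ projIcc` (or `Set.projIcc`) to a continuous function on `ℝ`
without zeros and lift through the covering `Complex.exp`
(`Complex.isCoveringMapOn_exp.existsUnique_continuousMap_lifts`, see for example
`Pool/Agent/Lib/MP_b1931f_gt/HairyBall.lean`).  `ac_eq`: two continuous logarithms on an interval differ by a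
constant (`exp` of the difference is `1`, so the difference divided by `2 π i` is a continuous integer
valued function on a preconnected set).
-/

set_option autoImplicit false

open Set Complex

namespace Pool.Agent.Lib.MP_e9314e_an.PB

/-- `f` is continuous and has no zero on `[a, b]`. -/
def NZ (f : ℝ → ℂ) (a b : ℝ) : Prop := ContinuousOn f (Icc a b) ∧ ∀ t ∈ Icc a b, f t ≠ 0

open Classical in
/-- Change of the argument of `f` along `[a, b]`. -/
noncomputable def ac (f : ℝ → ℂ) (a b : ℝ) : ℝ :=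
  if h : ∃ g : ℝ → ℂ, ContinuousOn g (Icc a b) ∧ ∀ t ∈ Icc a b, exp (g t) = f t then
    (h.choose b - h.choose a).im
  else 0

theorem exists_log {f : ℝ → ℂ} {a b : ℝ} (hab : a ≤ b) (hf : NZ f a b) :
    ∃ g : ℝ → ℂ, ContinuousOn g (Icc a b) ∧ ∀ t ∈ Icc a b, exp (g t) = f t := by
  let F : C(ℝ, ℂ) := ⟨fun t => f (projIcc a b hab t), by
    have h1 : Continuous (fun t : Icc a b => f t) := hf.1.domRestrict
    exact h1.comp continuous_projIcc⟩
  have h0 : ∀ t, F t ≠ 0 := fun t => hf.2 _ (projIcc a b hab t).2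
  obtain ⟨L, ⟨-, hL⟩, -⟩ := isCoveringMapOn_exp.existsUnique_continuousMap_lifts
    F (a₀ := (0 : ℝ)) (exp_log (h0 0)) (fun t => h0 t)
  refine ⟨L, L.continuous.continuousOn, fun t ht => ?_⟩
  have h1 := congrFun hL t
  have h2 : F t = f t := by
    change f (projIcc a b hab t) = f t
    rw [projIcc_of_mem hab ht]
  rw [← h2]
  exact h1

theorem ac_eq {f g : ℝ → ℂ} {a b : ℝ} (hab : a ≤ b) (hg : ContinuousOn g (Icc a b))
    (h : ∀ t ∈ Icc a b, exp (g t) = f t) : ac f a b = (g b - g a).im := by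
  have hex : ∃ g : ℝ → ℂ, ContinuousOn g (Icc a b) ∧ ∀ t ∈ Icc a b, exp (g t) = f t := ⟨g, hg, h⟩
  rw [ac, dif_pos hex]
  obtain ⟨hc, he⟩ := hex.choose_spec
  set g' := hex.choose with hg'
  congr 1
  -- the difference is constant
  let d : ℝ → ℝ := fun t => ((g' t - g t).im) / (2 * Real.pi)
  have hpi := Real.pi_pos
  have hd : ContinuousOn d (Icc a b) := by
    apply ContinuousOn.div_const
    exact continuous_im.comp_continuousOn (hc.sub hg)
  have hk : ∀ t ∈ Icc a b, ∃ k : ℤ, g' t - g t = k * (2 * Real.pi * I) := by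
    intro t ht
    obtain ⟨k, hk⟩ := exp_eq_exp_iff_exists_int.1 ((he t ht).trans (h t ht).symm)
    exact ⟨k, by rw [hk]; ring⟩
  have hdk : ∀ t ∈ Icc a b, ∃ k : ℤ, d t = k ∧ g' t - g t = k * (2 * Real.pi * I) := by
    intro t ht
    obtain ⟨k, hk⟩ := hk t ht
    refine ⟨k, ?_, hk⟩
    simp only [d, hk]
    simp
  have hconst : d a = d b := by
    by_contra hne
    obtain ⟨ka, hka, -⟩ := hdk a (left_mem_Icc.2 hab)
    obtain ⟨kb, hkb, -⟩ := hdk b (right_mem_Icc.2 hab)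
    have hsub := intermediate_value_uIcc (a := a) (b := b) (f := d) (by rwa [uIcc_of_le hab])
    have hmem : (min (ka : ℝ) kb + 1 / 2) ∈ uIcc (d a) (d b) := by
      rw [hka, hkb] at hne ⊢
      have hne' : ka ≠ kb := by
        intro hh
        exact hne (by rw [hh])
      rcases lt_or_gt_of_ne hne' with hlt | hlt
      · have h1 : (ka : ℝ) + 1 ≤ kb := by exact_mod_cast hlt
        rw [min_eq_left (by linarith), uIcc_of_le (by linarith)]
        constructor <;> linarith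
      · have h1 : (kb : ℝ) + 1 ≤ ka := by exact_mod_cast hlt
        rw [min_eq_right (by linarith), uIcc_of_ge (by linarith)]
        constructor <;> linarith
    obtain ⟨t, ht, hdt⟩ := hsub hmem
    rw [uIcc_of_le hab] at ht
    obtain ⟨k, hk1, -⟩ := hdk t ht
    rw [hk1] at hdt
    have h2 : ((2 * k : ℤ) : ℝ) = ((2 * min ka kb + 1 : ℤ) : ℝ) := by
      push_cast
      linarith
    have h3 : 2 * k = 2 * min ka kb + 1 := by exact_mod_cast h2
    omega
  obtain ⟨ka, hka, hka'⟩ := hdk a (left_mem_Icc.2 hab)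
  obtain ⟨kb, hkb, hkb'⟩ := hdk b (right_mem_Icc.2 hab)
  have hkk : (ka : ℂ) = kb := by
    rw [hka, hkb] at hconst
    exact_mod_cast hconst
  rw [← hkk] at hkb'
  linear_combination hkb' - hka'

open Classical in
private noncomputable def acP (P : (ℝ → ℂ) → Prop) (a b : ℝ) : ℝ :=
  if h : ∃ g : ℝ → ℂ, P g then (h.choose b - h.choose a).im else 0

theorem ac_congr {f f' : ℝ → ℂ} {a b : ℝ} (h : ∀ t ∈ Icc a b, f t = f' t) :
    ac f a b = ac f' a b := by
  have hP : (fun g : ℝ → ℂ => ContinuousOn g (Icc a b) ∧ ∀ t ∈ Icc a b, exp (g t) = f t) =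
      fun g : ℝ → ℂ => ContinuousOn g (Icc a b) ∧ ∀ t ∈ Icc a b, exp (g t) = f' t := by
    funext g
    apply propext
    constructor
    · rintro ⟨h1, h2⟩
      exact ⟨h1, fun t ht => (h2 t ht).trans (h t ht)⟩
    · rintro ⟨h1, h2⟩
      exact ⟨h1, fun t ht => (h2 t ht).trans (h t ht).symm⟩
  exact congrArg (fun P => acP P a b) hP

end Pool.Agent.Lib.MP_e9314e_an.PB
end

section

/-!
# PB: calculus of the change of the argument

All by `exists_log` and `ac_eq`.  `ac_slit`: `log ∘ f` is a continuous logarithm.  `ac_int`: `exp (g t) = f t`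
gives `(g t).im = arg (f t) + 2 π k`.  `ac_near`: `g / f` has values in the slit plane
(`Complex.mem_slitPlane_of_norm_lt_one`), use `ac_div` and `ac_slit`.
-/

set_option autoImplicit false

open Set Complex

namespace Pool.Agent.Lib.MP_e9314e_an.PB

theorem ac_mul {f g : ℝ → ℂ} {a b : ℝ} (hab : a ≤ b) (hf : NZ f a b) (hg : NZ g a b) :
    ac (fun t => f t * g t) a b = ac f a b + ac g a b := by
  obtain ⟨F, hF1, hF2⟩ := exists_log hab hf
  obtain ⟨G, hG1, hG2⟩ := exists_log hab hg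
  rw [ac_eq hab hF1 hF2, ac_eq hab hG1 hG2,
    ac_eq (g := fun t => F t + G t) hab (hF1.add hG1)
      (fun t ht => by rw [exp_add, hF2 t ht, hG2 t ht])]
  simp only [sub_im, add_im]
  ring

theorem ac_div {f g : ℝ → ℂ} {a b : ℝ} (hab : a ≤ b) (hf : NZ f a b) (hg : NZ g a b) :
    ac (fun t => f t / g t) a b = ac f a b - ac g a b := by
  obtain ⟨F, hF1, hF2⟩ := exists_log hab hf
  obtain ⟨G, hG1, hG2⟩ := exists_log hab hg
  rw [ac_eq hab hF1 hF2, ac_eq hab hG1 hG2,
    ac_eq (g := fun t => F t - G t) hab (hF1.sub hG1)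
      (fun t ht => by rw [exp_sub, hF2 t ht, hG2 t ht])]
  simp only [sub_im]
  ring

theorem ac_const_mul {f : ℝ → ℂ} {a b : ℝ} (hab : a ≤ b) (hf : NZ f a b) {c : ℂ} (hc : c ≠ 0) :
    ac (fun t => c * f t) a b = ac f a b := by
  obtain ⟨F, hF1, hF2⟩ := exists_log hab hf
  rw [ac_eq hab hF1 hF2,
    ac_eq (g := fun t => log c + F t) hab (continuousOn_const.add hF1)
      (fun t ht => by rw [exp_add, hF2 t ht, exp_log hc])]
  simp only [sub_im, add_im]
  ring

theorem ac_neg {f : ℝ → ℂ} {a b : ℝ} (hab : a ≤ b) (hf : NZ f a b) :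
    ac (fun t => - f t) a b = ac f a b := by
  have h := ac_const_mul hab hf (c := -1) (by norm_num)
  simpa using h

theorem ac_concat {f : ℝ → ℂ} {a b c : ℝ} (hab : a ≤ b) (hbc : b ≤ c) (hf : NZ f a c) :
    ac f a b + ac f b c = ac f a c := by
  obtain ⟨F, hF1, hF2⟩ := exists_log (hab.trans hbc) hf
  have h1 : Icc a b ⊆ Icc a c := Icc_subset_Icc_right hbc
  have h2 : Icc b c ⊆ Icc a c := Icc_subset_Icc_left hab
  rw [ac_eq (hab.trans hbc) hF1 hF2, ac_eq hab (hF1.mono h1) (fun t ht => hF2 t (h1 ht)),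
    ac_eq hbc (hF1.mono h2) (fun t ht => hF2 t (h2 ht))]
  simp only [sub_im]
  ring

theorem ac_slit {f : ℝ → ℂ} {a b : ℝ} (hab : a ≤ b) (hf : ContinuousOn f (Icc a b))
    (h : ∀ t ∈ Icc a b, f t ∈ slitPlane) : ac f a b = arg (f b) - arg (f a) := by
  rw [ac_eq (g := fun t => log (f t)) hab (hf.clog h)
    (fun t ht => exp_log (slitPlane_ne_zero (h t ht)))]
  simp only [sub_im, log_im]

theorem ac_int {f : ℝ → ℂ} {a b : ℝ} (hab : a ≤ b) (hf : NZ f a b) :
    ∃ k : ℤ, ac f a b = arg (f b) - arg (f a) + 2 * Real.pi * k := by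
  obtain ⟨F, hF1, hF2⟩ := exists_log hab hf
  have key : ∀ t ∈ Icc a b, ∃ k : ℤ, (F t).im = arg (f t) + 2 * Real.pi * k := by
    intro t ht
    have h0 : f t ≠ 0 := hf.2 t ht
    have h1 : exp (F t) = exp (log (f t)) := by rw [hF2 t ht, exp_log h0]
    obtain ⟨k, hk⟩ := exp_eq_exp_iff_exists_int.1 h1
    refine ⟨k, ?_⟩
    rw [hk]
    simp only [add_im, log_im]
    congr 1
    simp
    ring
  obtain ⟨ka, hka⟩ := key a (left_mem_Icc.2 hab)
  obtain ⟨kb, hkb⟩ := key b (right_mem_Icc.2 hab)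
  refine ⟨kb - ka, ?_⟩
  rw [ac_eq hab hF1 hF2, sub_im, hka, hkb]
  push_cast
  ring

theorem ac_affine {f : ℝ → ℂ} {a b : ℝ} (hab : a ≤ b) (hf : NZ f a b) :
    ac (fun θ => f (a + θ * (b - a))) 0 1 = ac f a b := by
  obtain ⟨F, hF1, hF2⟩ := exists_log hab hf
  have hm : ∀ θ ∈ Icc (0 : ℝ) 1, a + θ * (b - a) ∈ Icc a b := by
    intro θ hθ
    constructor
    · nlinarith [hθ.1, hθ.2]
    · nlinarith [hθ.1, hθ.2]
  have hc : ContinuousOn (fun θ : ℝ => F (a + θ * (b - a))) (Icc 0 1) :=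
    hF1.comp (by fun_prop) hm
  rw [ac_eq hab hF1 hF2, ac_eq zero_le_one hc (fun θ hθ => hF2 _ (hm θ hθ))]
  simp

theorem ac_affine_rev {f : ℝ → ℂ} {a b : ℝ} (hab : a ≤ b) (hf : NZ f a b) :
    ac (fun θ => f (b - θ * (b - a))) 0 1 = - ac f a b := by
  obtain ⟨F, hF1, hF2⟩ := exists_log hab hf
  have hm : ∀ θ ∈ Icc (0 : ℝ) 1, b - θ * (b - a) ∈ Icc a b := by
    intro θ hθ
    constructor
    · nlinarith [hθ.1, hθ.2]
    · nlinarith [hθ.1, hθ.2]
  have hc : ContinuousOn (fun θ : ℝ => F (b - θ * (b - a))) (Icc 0 1) :=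
    hF1.comp (by fun_prop) hm
  rw [ac_eq hab hF1 hF2, ac_eq zero_le_one hc (fun θ hθ => hF2 _ (hm θ hθ))]
  simp

theorem ac_near {f g : ℝ → ℂ} {a b : ℝ} (hab : a ≤ b) (hf : NZ f a b)
    (hg : ContinuousOn g (Icc a b)) (h : ∀ t ∈ Icc a b, ‖g t - f t‖ < ‖f t‖) :
    ac g a b = ac f a b + arg (g b / f b) - arg (g a / f a) := by
  have hg0 : ∀ t ∈ Icc a b, g t ≠ 0 := by
    intro t ht h0
    have h1 := h t ht
    rw [h0, zero_sub, norm_neg] at h1
    exact lt_irrefl _ h1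
  have hs : ∀ t ∈ Icc a b, g t / f t ∈ slitPlane := by
    intro t ht
    have hft := hf.2 t ht
    have h2 : g t / f t = 1 + (g t - f t) / f t := by
      field_simp
      ring
    rw [h2]
    apply mem_slitPlane_of_norm_lt_one
    rw [norm_div, div_lt_one (norm_pos_iff.2 hft)]
    exact h t ht
  have h3 := ac_div hab ⟨hg, hg0⟩ hf
  have h4 := ac_slit (f := fun t => g t / f t) hab (hg.div hf.1 hf.2) hs
  linarith

/-- `arg` of a number near `1`: `sin |arg x| ≤ ‖x - 1‖` (distance of `1` to the line through `0` and `x`; `re x > 0`) and Jordan's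
inequality `2 / π * θ ≤ sin θ` (`Real.mul_le_sin`). -/
theorem arg_near {x : ℂ} (hx : ‖x - 1‖ ≤ 1 / 2) : |arg x| ≤ Real.pi / 2 * ‖x - 1‖ := by
  have hre0 : |(x - 1).re| ≤ 1 / 2 := (abs_re_le_norm _).trans hx
  have hre : 0 < x.re := by
    have := (abs_le.1 hre0).1
    simp only [sub_re, one_re] at this
    linarith
  have hx0 : x ≠ 0 := by
    intro h0
    rw [h0] at hre
    simp at hre
  have hn : 0 < ‖x‖ := norm_pos_iff.2 hx0
  have hlt : |arg x| < Real.pi / 2 := abs_arg_lt_pi_div_two_iff.2 (Or.inl hre)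
  have hj : 2 / Real.pi * |arg x| ≤ Real.sin |arg x| := Real.mul_le_sin (abs_nonneg _) hlt.le
  have hsin : Real.sin |arg x| = |x.im| / ‖x‖ := by
    rcases abs_cases (arg x) with ⟨h1, h2⟩ | ⟨h1, h2⟩
    · have him : 0 ≤ x.im := arg_nonneg_iff.1 h2
      rw [h1, sin_arg, abs_of_nonneg him]
    · have him : x.im < 0 := arg_neg_iff.1 h2
      rw [h1, Real.sin_neg, sin_arg, abs_of_neg him]
      ring
  have hd : |x.im| / ‖x‖ ≤ ‖x - 1‖ := by
    rw [div_le_iff₀ hn]
    have h5 : ‖x - 1‖ ^ 2 = (x.re - 1) ^ 2 + x.im ^ 2 := by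
      rw [← normSq_eq_norm_sq, normSq_apply]
      simp
      ring
    have h6 : ‖x‖ ^ 2 = x.re ^ 2 + x.im ^ 2 := by
      rw [← normSq_eq_norm_sq, normSq_apply]
      ring
    have h7 : |x.im| ^ 2 ≤ (‖x - 1‖ * ‖x‖) ^ 2 := by
      rw [mul_pow, h5, h6, sq_abs]
      nlinarith [sq_nonneg (x.re ^ 2 + x.im ^ 2 - x.re)]
    exact (pow_le_pow_iff_left₀ (abs_nonneg _) (by positivity) two_ne_zero).1 h7
  have hpi := Real.pi_pos
  have h8 : 2 / Real.pi * |arg x| ≤ ‖x - 1‖ := by linarith [hj, hsin, hd]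
  calc |arg x| = Real.pi / 2 * (2 / Real.pi * |arg x|) := by field_simp
    _ ≤ Real.pi / 2 * ‖x - 1‖ := by gcongr

end Pool.Agent.Lib.MP_e9314e_an.PB
end

section

/-!
# PB: continuous logarithms on a rectangle, continuity in a parameter

`exists_log2`: as `exists_log`, with `fun p => f (projIcc p.1, projIcc p.2)` and the covering
lifting on `ℝ × ℝ`.
`ac_continuousAt`: by compactness of `[a, b]` (`IsCompact.eventually_forall_of_forall_eventually`) for `x` near `x₀`
one has `‖F x t - F x₀ t‖ < ‖F x₀ t‖` for all `t ∈ [a, b]`; use `ac_near` and continuity of `arg` at `1`.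
-/

set_option autoImplicit false

open Set Complex Topology

namespace Pool.Agent.Lib.MP_e9314e_an.PB

theorem exists_log2 {f : ℝ × ℝ → ℂ} {a b c d : ℝ} (hab : a ≤ b) (hcd : c ≤ d)
    (hf : ContinuousOn f (Icc a b ×ˢ Icc c d)) (h0 : ∀ p ∈ Icc a b ×ˢ Icc c d, f p ≠ 0) :
    ∃ g : ℝ × ℝ → ℂ, ContinuousOn g (Icc a b ×ˢ Icc c d) ∧
      ∀ p ∈ Icc a b ×ˢ Icc c d, exp (g p) = f p := by
  let P : ℝ × ℝ → ℝ × ℝ := fun p => ((projIcc a b hab p.1 : ℝ), (projIcc c d hcd p.2 : ℝ))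
  have hPmem : ∀ p, P p ∈ Icc a b ×ˢ Icc c d := fun p => ⟨(projIcc a b hab p.1).2, (projIcc c d hcd p.2).2⟩
  have hPc : Continuous P :=
    (continuous_subtype_val.comp (continuous_projIcc.comp continuous_fst)).prodMk
      (continuous_subtype_val.comp (continuous_projIcc.comp continuous_snd))
  have hPid : ∀ p ∈ Icc a b ×ˢ Icc c d, P p = p := by
    rintro ⟨x, y⟩ ⟨hx, hy⟩
    simp only [P, projIcc_of_mem hab hx, projIcc_of_mem hcd hy]
  have hFc : Continuous fun p => f (P p) := by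
    rw [← continuousOn_univ]
    exact hf.comp hPc.continuousOn fun p _ => hPmem p
  let F : C(ℝ × ℝ, ℂ) := ⟨fun p => f (P p), hFc⟩
  have h0' : ∀ p, F p ≠ 0 := fun p => h0 _ (hPmem p)
  obtain ⟨L, ⟨-, hL⟩, -⟩ := isCoveringMapOn_exp.existsUnique_continuousMap_lifts
    F (a₀ := ((0 : ℝ), (0 : ℝ))) (exp_log (h0' (0, 0))) (fun t => h0' t)
  refine ⟨L, L.continuous.continuousOn, fun p hp => ?_⟩
  have h1 := congrFun hL p
  have h2 : F p = f p := by
    change f (P p) = f p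
    rw [hPid p hp]
  rw [← h2]
  exact h1

/-- The rectangle rule. -/
theorem ac_rect {f : ℝ × ℝ → ℂ} {a b c d : ℝ} (hab : a ≤ b) (hcd : c ≤ d)
    (hf : ContinuousOn f (Icc a b ×ˢ Icc c d)) (h0 : ∀ p ∈ Icc a b ×ˢ Icc c d, f p ≠ 0) :
    ac (fun s => f (s, c)) a b + ac (fun t => f (b, t)) c d =
      ac (fun t => f (a, t)) c d + ac (fun s => f (s, d)) a b := by
  obtain ⟨g, hg, he⟩ := exists_log2 hab hcd hf h0
  have ha : a ∈ Icc a b := left_mem_Icc.2 hab
  have hb : b ∈ Icc a b := right_mem_Icc.2 hab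
  have hc : c ∈ Icc c d := left_mem_Icc.2 hcd
  have hd : d ∈ Icc c d := right_mem_Icc.2 hcd
  have hor : ∀ y ∈ Icc c d, ac (fun s => f (s, y)) a b = (g (b, y) - g (a, y)).im := by
    intro y hy
    refine ac_eq (g := fun s => g (s, y)) hab ?_ fun t ht => he (t, y) ⟨ht, hy⟩
    exact hg.comp (by fun_prop) fun t ht => ⟨ht, hy⟩
  have ver : ∀ x ∈ Icc a b, ac (fun t => f (x, t)) c d = (g (x, d) - g (x, c)).im := by
    intro x hx
    refine ac_eq (g := fun t => g (x, t)) hcd ?_ fun t ht => he (x, t) ⟨hx, ht⟩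
    exact hg.comp (by fun_prop) fun t ht => ⟨hx, ht⟩
  rw [hor c hc, hor d hd, ver a ha, ver b hb]
  simp only [sub_im]
  ring

theorem ac_continuousAt {X : Type*} [TopologicalSpace X] {F : X × ℝ → ℂ} (hF : Continuous F)
    {a b : ℝ} (hab : a ≤ b) {x₀ : X} (h0 : ∀ t ∈ Icc a b, F (x₀, t) ≠ 0) :
    ContinuousAt (fun x => ac (fun t => F (x, t)) a b) x₀ := by
  have hnear : ∀ᶠ x in 𝓝 x₀, ∀ t ∈ Icc a b, ‖F (x, t) - F (x₀, t)‖ < ‖F (x₀, t)‖ := by
    refine isCompact_Icc.eventually_forall_of_forall_eventually ?_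
    intro t ht
    have h1 : ContinuousAt (fun q : X × ℝ => ‖F (q.1, q.2) - F (x₀, q.2)‖) (x₀, t) := by
      have : Continuous fun q : X × ℝ => ‖F (q.1, q.2) - F (x₀, q.2)‖ :=
        ((hF.comp (by fun_prop)).sub (hF.comp (by fun_prop))).norm
      exact this.continuousAt
    have h2 : ContinuousAt (fun q : X × ℝ => ‖F (x₀, q.2)‖) (x₀, t) := by
      have : Continuous fun q : X × ℝ => ‖F (x₀, q.2)‖ := (hF.comp (by fun_prop)).norm
      exact this.continuousAt
    refine h1.eventually_lt h2 ?_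
    simp only [sub_self, norm_zero]
    exact norm_pos_iff.2 (h0 t ht)
  have hNZ : NZ (fun t => F (x₀, t)) a b := ⟨(hF.comp (by fun_prop)).continuousOn, h0⟩
  have hEq : ∀ᶠ x in 𝓝 x₀, ac (fun t => F (x, t)) a b =
      ac (fun t => F (x₀, t)) a b + arg (F (x, b) / F (x₀, b)) - arg (F (x, a) / F (x₀, a)) := by
    filter_upwards [hnear] with x hx
    exact ac_near hab hNZ (hF.comp (by fun_prop)).continuousOn hx
  have hargc : ∀ t ∈ Icc a b, ContinuousAt (fun x => arg (F (x, t) / F (x₀, t))) x₀ := by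
    intro t ht
    have h1 : ContinuousAt (fun x => F (x, t) / F (x₀, t)) x₀ :=
      ((hF.comp (by fun_prop : Continuous fun x : X => (x, t))).continuousAt).div_const _
    have h2 : F (x₀, t) / F (x₀, t) = 1 := div_self (h0 t ht)
    have h3 : ContinuousAt arg (F (x₀, t) / F (x₀, t)) := by
      rw [h2]
      exact continuousAt_arg one_mem_slitPlane
    exact ContinuousAt.comp (f := fun x => F (x, t) / F (x₀, t)) (g := arg) h3 h1
  have hc : ContinuousAt (fun x => ac (fun t => F (x₀, t)) a b + arg (F (x, b) / F (x₀, b)) -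
      arg (F (x, a) / F (x₀, a))) x₀ :=
    (continuousAt_const.add (hargc b (right_mem_Icc.2 hab))).sub (hargc a (left_mem_Icc.2 hab))
  exact hc.congr (hEq.mono fun x hx => hx.symm)

end Pool.Agent.Lib.MP_e9314e_an.PB
end
end

section

section

/-!
# PB: the three term Plücker relation for determinants

`det_pluck`: let `B x y = det (M with row i := x, row k := y)`.  With `N = M[i := c, k := d]`, Cramer's rule
gives `det N • a = B a d • c + B c a • d + ∑_{l ≠ i, k} det (N[l := a]) • M l`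
(`Matrix.mulVec_cramer` for the transpose, or `Matrix.cramer_transpose_row_self`).  Apply the linear functional `x ↦ B b x`, which kills the
rows `M l` (`l ≠ i, k`, two equal rows): `B c d * B b a = B a d * B b c + B c a * B b d`.  Then use `B x y = - B y x`
(`det_swap_rows`).
-/

set_option autoImplicit false

open Matrix

namespace Pool.Agent.Lib.MP_e9314e_an.PB

theorem det_swap_rows {n : ℕ} (M : Matrix (Fin n) (Fin n) ℂ) {i k : Fin n} (hik : i ≠ k)
    (x y : Fin n → ℂ) :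
    ((M.updateRow i x).updateRow k y).det = - ((M.updateRow i y).updateRow k x).det := by
  have h := Matrix.det_permute (Equiv.swap i k) ((M.updateRow i y).updateRow k x)
  rw [Equiv.Perm.sign_swap hik] at h
  have h2 : ((M.updateRow i y).updateRow k x).submatrix (Equiv.swap i k) id =
      (M.updateRow i x).updateRow k y := by
    ext r s
    rw [Matrix.submatrix_apply, id]
    by_cases hr : r = k
    · subst hr
      rw [Equiv.swap_apply_right, Matrix.updateRow_self, Matrix.updateRow_ne hik,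
        Matrix.updateRow_self]
    · by_cases hr2 : r = i
      · subst hr2
        rw [Equiv.swap_apply_left, Matrix.updateRow_self, Matrix.updateRow_ne hr,
          Matrix.updateRow_self]
      · rw [Equiv.swap_apply_of_ne_of_ne hr2 hr, Matrix.updateRow_ne hr, Matrix.updateRow_ne hr2,
          Matrix.updateRow_ne hr, Matrix.updateRow_ne hr2]
  rw [h2] at h
  rw [h]
  simp

theorem det_pluck {n : ℕ} (M : Matrix (Fin n) (Fin n) ℂ) {i k : Fin n} (hik : i ≠ k)
    (a b c d : Fin n → ℂ) :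
    ((M.updateRow i a).updateRow k b).det * ((M.updateRow i c).updateRow k d).det -
      ((M.updateRow i a).updateRow k c).det * ((M.updateRow i b).updateRow k d).det +
      ((M.updateRow i a).updateRow k d).det * ((M.updateRow i b).updateRow k c).det = 0 := by
  set N := (M.updateRow i c).updateRow k d with hN
  -- Cramer
  have h1 : N.det • a = ∑ l, (N.updateRow l a).det • N l := by
    have h := Matrix.mulVec_cramer Nᵀ a
    rw [Matrix.det_transpose] at h
    rw [← h]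
    funext s
    rw [Matrix.mulVec, dotProduct, Finset.sum_apply]
    refine Finset.sum_congr rfl fun l _ => ?_
    rw [Matrix.cramer_transpose_apply, Matrix.transpose_apply, Pi.smul_apply, smul_eq_mul, mul_comm]
  -- the linear functional
  have h2 : N.det * ((M.updateRow i b).updateRow k a).det =
      ∑ l, (N.updateRow l a).det * ((M.updateRow i b).updateRow k (N l)).det := by
    have h3 : ∀ x : Fin n → ℂ, ((M.updateRow i b).updateRow k x).det =
        (Matrix.detRowAlternating.toMultilinearMap.toLinearMap (M.updateRow i b) k) x := by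
      intro x
      rfl
    rw [h3, ← smul_eq_mul, ← map_smul, h1, map_sum]
    refine Finset.sum_congr rfl fun l _ => ?_
    rw [map_smul, smul_eq_mul, h3]
  have h4 : ∑ l, (N.updateRow l a).det * ((M.updateRow i b).updateRow k (N l)).det =
      (N.updateRow i a).det * ((M.updateRow i b).updateRow k (N i)).det +
      (N.updateRow k a).det * ((M.updateRow i b).updateRow k (N k)).det := by
    rw [← Finset.sum_subset (Finset.subset_univ {i, k}), Finset.sum_pair hik]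
    intro l _ hl
    rw [Finset.mem_insert, Finset.mem_singleton, not_or] at hl
    have h5 : N l = M l := by
      rw [hN, Matrix.updateRow_ne hl.2, Matrix.updateRow_ne hl.1]
    have h6 : ((M.updateRow i b).updateRow k (N l)).det = 0 := by
      refine Matrix.det_zero_of_row_eq (i := k) (j := l) (Ne.symm hl.2) ?_
      rw [Matrix.updateRow_self, Matrix.updateRow_ne hl.2, Matrix.updateRow_ne hl.1, h5]
    rw [h6, mul_zero]
  have hNi : N i = c := by rw [hN, Matrix.updateRow_ne hik, Matrix.updateRow_self]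
  have hNk : N k = d := by rw [hN, Matrix.updateRow_self]
  have hUi : (N.updateRow i a).det = ((M.updateRow i a).updateRow k d).det := by
    congr 1
    ext r s
    by_cases hr : r = i
    · subst hr
      rw [Matrix.updateRow_self, Matrix.updateRow_ne hik, Matrix.updateRow_self]
    · rw [Matrix.updateRow_ne hr, hN]
      by_cases hr2 : r = k
      · subst hr2
        rw [Matrix.updateRow_self, Matrix.updateRow_self]
      · rw [Matrix.updateRow_ne hr2, Matrix.updateRow_ne hr, Matrix.updateRow_ne hr2,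
          Matrix.updateRow_ne hr]
  have hUk : (N.updateRow k a).det = ((M.updateRow i c).updateRow k a).det := by
    congr 1
    ext r s
    by_cases hr : r = k
    · subst hr
      rw [Matrix.updateRow_self, Matrix.updateRow_self]
    · rw [Matrix.updateRow_ne hr, hN, Matrix.updateRow_ne hr, Matrix.updateRow_ne hr]
  rw [h4, hNi, hNk, hUi, hUk, det_swap_rows M hik b a, det_swap_rows M hik c a] at h2
  linear_combination (-1) * h2

end Pool.Agent.Lib.MP_e9314e_an.PB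
end

section

/-!
# PB: Chebyshev systems on a suspension

`Sys T m`: a map `F : C × ℝ → ℂ^(m+2)` compatible with `(c, s + 1) ∼ (T c, s)`, with `det ≠ 0` at
pairwise inequivalent points.
-/

set_option autoImplicit false

open Set Complex

namespace Pool.Agent.Lib.MP_e9314e_an.PB

variable {C : Type*} [TopologicalSpace C]

/-- Equivalence of points of `C × ℝ` in the suspension of `T`. -/
def Eqv (T : C ≃ₜ C) (p q : C × ℝ) : Prop :=
  (∃ k : ℕ, q.1 = T^[k] p.1 ∧ p.2 = q.2 + k) ∨ (∃ k : ℕ, p.1 = T^[k] q.1 ∧ q.2 = p.2 + k)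

/-- A complex Chebyshev system of `m + 2` functions on the suspension of `T`. -/
structure Sys (T : C ≃ₜ C) (m : ℕ) where
  /-- the vector of the functions -/
  F : C × ℝ → (Fin (m + 2) → ℂ)
  cont : Continuous F
  shift : ∀ c s, F (c, s + 1) = F (T c, s)
  indep : ∀ x : Fin (m + 2) → C × ℝ, (∀ i j, i ≠ j → ¬ Eqv T (x i) (x j)) →
    (Matrix.of fun i => F (x i)).det ≠ 0

theorem Eqv.symm {T : C ≃ₜ C} {p q : C × ℝ} (h : Eqv T p q) : Eqv T q p := h.elim Or.inr Or.inl

theorem Eqv.eq_of_lt {T : C ≃ₜ C} {p q : C × ℝ} (h : Eqv T p q) (hlt : |p.2 - q.2| < 1) : p = q := by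
  rcases h with ⟨k, h1, h2⟩ | ⟨k, h1, h2⟩
  · have hk : k = 0 := by
      by_contra hk
      have : (1 : ℝ) ≤ k := by exact_mod_cast Nat.one_le_iff_ne_zero.2 hk
      rw [h2] at hlt
      have := abs_lt.1 hlt
      linarith [this.2]
    subst hk
    simp only [Function.iterate_zero, id_eq, Nat.cast_zero, add_zero] at h1 h2
    exact (Prod.ext h1 h2.symm).symm
  · have hk : k = 0 := by
      by_contra hk
      have : (1 : ℝ) ≤ k := by exact_mod_cast Nat.one_le_iff_ne_zero.2 hk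
      rw [h2] at hlt
      have := abs_lt.1 hlt
      linarith [this.1]
    subst hk
    simp only [Function.iterate_zero, id_eq, Nat.cast_zero, add_zero] at h1 h2
    exact Prod.ext h1 h2.symm

/-- Equivalence of two points with times in `[0, 1]`. -/
theorem Eqv.cases01 {T : C ≃ₜ C} {p q : C × ℝ} (h : Eqv T p q) (hp : p.2 ∈ Icc (0 : ℝ) 1)
    (hq : q.2 ∈ Icc (0 : ℝ) 1) : p = q ∨ (q.1 = T p.1 ∧ p.2 = 1 ∧ q.2 = 0) ∨ (p.1 = T q.1 ∧ q.2 = 1 ∧ p.2 = 0) := by
  rcases h with ⟨k, h1, h2⟩ | ⟨k, h1, h2⟩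
  · rcases Nat.lt_or_ge k 1 with hk | hk
    · have hk : k = 0 := by omega
      subst hk
      simp only [Function.iterate_zero, id_eq, Nat.cast_zero, add_zero] at h1 h2
      exact Or.inl (Prod.ext h1 h2.symm).symm
    · have h3 : (k : ℝ) ≤ 1 := by linarith [hp.2, hq.1]
      have hk1 : k = 1 := by
        have : k ≤ 1 := by exact_mod_cast h3
        omega
      subst hk1
      right; left
      simp only [Function.iterate_one, Nat.cast_one] at h1 h2
      exact ⟨h1, by linarith [hp.2, hq.1], by linarith [hp.2, hq.1]⟩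
  · rcases Nat.lt_or_ge k 1 with hk | hk
    · have hk : k = 0 := by omega
      subst hk
      simp only [Function.iterate_zero, id_eq, Nat.cast_zero, add_zero] at h1 h2
      exact Or.inl (Prod.ext h1 h2.symm)
    · have h3 : (k : ℝ) ≤ 1 := by linarith [hp.1, hq.2]
      have hk1 : k = 1 := by
        have : k ≤ 1 := by exact_mod_cast h3
        omega
      subst hk1
      right; right
      simp only [Function.iterate_one, Nat.cast_one] at h1 h2
      exact ⟨h1, by linarith [hp.1, hq.2], by linarith [hp.1, hq.2]⟩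

namespace Sys

variable {T : C ≃ₜ C} {m : ℕ} (Φ : Sys T m)

/-- The determinant at the points `b, Y 0, …, Y m`. -/
noncomputable def D (Y : Fin (m + 1) → C × ℝ) (b : C × ℝ) : ℂ :=
  (Matrix.of fun i => Φ.F ((Fin.cons b Y : Fin (m + 2) → C × ℝ) i)).det

/-- The viewers `X 0, …, X m` at time `1 / 2`. -/
noncomputable def vw (X : Fin (m + 1) → C) : Fin (m + 1) → C × ℝ := fun l => (X l, 1 / 2)

/-- The determinant with viewer `j` replaced by `a` and moving point `b`. -/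
noncomputable def D1 (X : Fin (m + 1) → C) (j : Fin (m + 1)) (a b : C × ℝ) : ℂ :=
  Φ.D (Function.update (vw X) j a) b

/-- The determinant with viewer `0` replaced by `a`, viewer `j` by `q` and moving point `b` (`j ≠ 0`). -/
noncomputable def D2 (X : Fin (m + 1) → C) (j : Fin (m + 1)) (a q b : C × ℝ) : ℂ :=
  Φ.D (Function.update (Function.update (vw X) 0 a) j q) b

end Sys

end Pool.Agent.Lib.MP_e9314e_an.PB
end

section

/-!
# PB: algebra of the determinants `D`, `D1`, `D2`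

Signs and the Plücker relations: write the matrix as `M.updateRow`: row `0` is the moving point, row `l.succ` is the viewer
`l`; use `det_swap_rows` and `det_pluck`.
-/

set_option autoImplicit false

open Set Complex

namespace Pool.Agent.Lib.MP_e9314e_an.PB

variable {C : Type*} [TopologicalSpace C] {T : C ≃ₜ C} {m : ℕ} (Φ : Sys T m)

namespace Sys

private theorem cons_eq (Y : Fin (m + 1) → C × ℝ) (j : Fin (m + 1)) (a b : C × ℝ) :
    Φ.D (Function.update Y j a) b =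
      (((Matrix.of fun i => Φ.F ((Fin.cons (Y 0) Y : Fin (m + 2) → C × ℝ) i)).updateRow j.succ
        (Φ.F a)).updateRow 0 (Φ.F b)).det := by
  unfold D
  congr 1
  ext i k
  refine Fin.cases ?_ (fun l => ?_) i
  · rw [Matrix.updateRow_self, Matrix.of_apply, Fin.cons_zero]
  · rcases eq_or_ne l j with rfl | h
    · rw [Matrix.updateRow_ne (Fin.succ_ne_zero l), Matrix.updateRow_self, Matrix.of_apply, Fin.cons_succ,
        Function.update_self]
    · rw [Matrix.updateRow_ne (Fin.succ_ne_zero l), Matrix.updateRow_ne (fun h' => h (Fin.succ_injective _ h')),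
        Matrix.of_apply, Matrix.of_apply, Fin.cons_succ, Fin.cons_succ, Function.update_of_ne h]

private theorem D_swap (Y : Fin (m + 1) → C × ℝ) (j : Fin (m + 1)) (a b : C × ℝ) :
    Φ.D (Function.update Y j a) b = - Φ.D (Function.update Y j b) a := by
  rw [cons_eq, cons_eq, det_swap_rows _ (Fin.succ_ne_zero j)]

private theorem D_pluck (Y : Fin (m + 1) → C × ℝ) (j : Fin (m + 1)) (a b c d : C × ℝ) :
    Φ.D (Function.update Y j a) b * Φ.D (Function.update Y j c) d -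
      Φ.D (Function.update Y j a) c * Φ.D (Function.update Y j b) d +
      Φ.D (Function.update Y j a) d * Φ.D (Function.update Y j b) c = 0 := by
  simp only [cons_eq]
  exact det_pluck _ (Fin.succ_ne_zero j) _ _ _ _

private theorem D_congr {Y Y' : Fin (m + 1) → C × ℝ} {b b' : C × ℝ} (h : ∀ i, Φ.F (Y i) = Φ.F (Y' i))
    (hb : Φ.F b = Φ.F b') : Φ.D Y b = Φ.D Y' b' := by
  unfold D
  congr 1
  ext i k
  refine Fin.cases ?_ (fun l => ?_) i
  · simp [hb]
  · simp [h l]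

omit [TopologicalSpace C] in
private theorem vw_update (X : Fin (m + 1) → C) (j : Fin (m + 1)) (x : C) :
    vw (Function.update X j x) = Function.update (vw X) j (x, 1 / 2) := by
  funext l
  rcases eq_or_ne l j with rfl | h
  · simp [vw]
  · simp [vw, Function.update_of_ne h]

theorem D_ne {Y : Fin (m + 1) → C × ℝ} {b : C × ℝ} (hY : ∀ i j, i ≠ j → ¬ Eqv T (Y i) (Y j))
    (hb : ∀ i, ¬ Eqv T (Y i) b) : Φ.D Y b ≠ 0 := by
  unfold D
  apply Φ.indep
  intro i j
  refine Fin.cases ?_ (fun i' => ?_) i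
  · refine Fin.cases ?_ (fun j' => ?_) j
    · intro h
      exact absurd rfl h
    · intro _ h
      rw [Fin.cons_zero, Fin.cons_succ] at h
      exact hb j' h.symm
  · refine Fin.cases ?_ (fun j' => ?_) j
    · intro _ h
      rw [Fin.cons_zero, Fin.cons_succ] at h
      exact hb i' h
    · intro h h'
      rw [Fin.cons_succ, Fin.cons_succ] at h'
      exact hY i' j' (fun h'' => h (by rw [h''])) h'

theorem continuous_D : Continuous fun p : (Fin (m + 1) → C × ℝ) × (C × ℝ) => Φ.D p.1 p.2 := by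
  unfold D
  apply Continuous.matrix_det
  refine continuous_pi fun i => ?_
  refine Fin.cases ?_ (fun l => ?_) i
  · exact Φ.cont.comp continuous_snd
  · exact Φ.cont.comp ((continuous_apply l).comp continuous_fst)

private theorem continuous_vw : Continuous fun X : Fin (m + 1) → C => vw X :=
  continuous_pi fun l => (continuous_apply l).prodMk continuous_const

theorem continuous_D1 (j : Fin (m + 1)) :
    Continuous fun p : (Fin (m + 1) → C) × (C × ℝ) × (C × ℝ) => Φ.D1 p.1 j p.2.1 p.2.2 := by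
  have h : Continuous fun p : (Fin (m + 1) → C) × (C × ℝ) × (C × ℝ) =>
      (Function.update (vw p.1) j p.2.1, p.2.2) :=
    ((continuous_vw.comp continuous_fst).update j (continuous_fst.comp continuous_snd)).prodMk
      (continuous_snd.comp continuous_snd)
  exact Φ.continuous_D.comp h

theorem continuous_D2 (j : Fin (m + 1)) :
    Continuous fun p : (Fin (m + 1) → C) × (C × ℝ) × (C × ℝ) × (C × ℝ) =>
      Φ.D2 p.1 j p.2.1 p.2.2.1 p.2.2.2 := by
  have h : Continuous fun p : (Fin (m + 1) → C) × (C × ℝ) × (C × ℝ) × (C × ℝ) =>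
      (Function.update (Function.update (vw p.1) 0 p.2.1) j p.2.2.1, p.2.2.2) :=
    (((continuous_vw.comp continuous_fst).update 0 (continuous_fst.comp continuous_snd)).update j
      (continuous_fst.comp (continuous_snd.comp continuous_snd))).prodMk
      (continuous_snd.comp (continuous_snd.comp continuous_snd))
  exact Φ.continuous_D.comp h

theorem D1_shift (X : Fin (m + 1) → C) (j : Fin (m + 1)) (a : C × ℝ) (c : C) (s : ℝ) :
    Φ.D1 X j a (c, s + 1) = Φ.D1 X j a (T c, s) :=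
  Φ.D_congr (fun _ => rfl) (Φ.shift c s)

theorem D1_shift' (X : Fin (m + 1) → C) (j : Fin (m + 1)) (c : C) (s : ℝ) (b : C × ℝ) :
    Φ.D1 X j (c, s + 1) b = Φ.D1 X j (T c, s) b := by
  refine Φ.D_congr (fun i => ?_) rfl
  rcases eq_or_ne i j with rfl | h
  · rw [Function.update_self, Function.update_self]
    exact Φ.shift c s
  · rw [Function.update_of_ne h, Function.update_of_ne h]

theorem D1_update (X : Fin (m + 1) → C) (j : Fin (m + 1)) (x : C) (a b : C × ℝ) :
    Φ.D1 (Function.update X j x) j a b = Φ.D1 X j a b := by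
  unfold D1
  rw [vw_update, Function.update_idem]

theorem D2_update_zero (X : Fin (m + 1) → C) {j : Fin (m + 1)} (hj : j ≠ 0) (x : C) (a q b : C × ℝ) :
    Φ.D2 (Function.update X 0 x) j a q b = Φ.D2 X j a q b := by
  unfold D2
  rw [vw_update, Function.update_idem]

theorem D2_update (X : Fin (m + 1) → C) {j : Fin (m + 1)} (x : C) (a q b : C × ℝ) :
    Φ.D2 (Function.update X j x) j a q b = Φ.D2 X j a q b := by
  unfold D2
  rw [vw_update]
  rcases eq_or_ne j 0 with rfl | h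
  · rw [Function.update_idem, Function.update_idem, Function.update_idem]
  · rw [Function.update_comm h, Function.update_idem]

/-- `D2` with viewer `j` at its own place is `D1` for the box `0`. -/
theorem D2_self (X : Fin (m + 1) → C) {j : Fin (m + 1)} (hj : j ≠ 0) (x : C) (a b : C × ℝ) :
    Φ.D2 X j a (x, 1 / 2) b = Φ.D1 (Function.update X j x) 0 a b := by
  unfold D2 D1
  rw [vw_update, Function.update_comm hj]

/-- `D2` with viewer `0` at time `1 / 2` is `D1` for the box `j`. -/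
theorem D2_zero (X : Fin (m + 1) → C) {j : Fin (m + 1)} (hj : j ≠ 0) (x : C) (q b : C × ℝ) :
    Φ.D2 X j (x, 1 / 2) q b = Φ.D1 (Function.update X 0 x) j q b := by
  unfold D2 D1
  rw [vw_update]

theorem D1_swap (X : Fin (m + 1) → C) (j : Fin (m + 1)) (a b : C × ℝ) :
    Φ.D1 X j a b = - Φ.D1 X j b a :=
  Φ.D_swap _ j a b

theorem D2_swap (X : Fin (m + 1) → C) {j : Fin (m + 1)} (hj : j ≠ 0) (a q b : C × ℝ) :
    Φ.D2 X j a q b = - Φ.D2 X j a b q :=
  Φ.D_swap _ j q b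

private theorem D2_eq (X : Fin (m + 1) → C) {j : Fin (m + 1)} (hj : j ≠ 0) (a q b : C × ℝ) :
    Φ.D2 X j a q b = Φ.D (Function.update (Function.update (vw X) j q) 0 a) b := by
  unfold D2
  rw [Function.update_comm hj]

theorem D2_swap' (X : Fin (m + 1) → C) {j : Fin (m + 1)} (hj : j ≠ 0) (a q b : C × ℝ) :
    Φ.D2 X j a q b = - Φ.D2 X j b q a := by
  rw [Φ.D2_eq X hj, Φ.D2_eq X hj]
  exact Φ.D_swap _ 0 a b

theorem D1_pluck (X : Fin (m + 1) → C) (j : Fin (m + 1)) (a b c d : C × ℝ) :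
    Φ.D1 X j a b * Φ.D1 X j c d - Φ.D1 X j a c * Φ.D1 X j b d + Φ.D1 X j a d * Φ.D1 X j b c = 0 :=
  Φ.D_pluck _ j a b c d

theorem D2_pluck (X : Fin (m + 1) → C) {j : Fin (m + 1)} (hj : j ≠ 0) (q a b c d : C × ℝ) :
    Φ.D2 X j a q b * Φ.D2 X j c q d - Φ.D2 X j a q c * Φ.D2 X j b q d +
      Φ.D2 X j a q d * Φ.D2 X j b q c = 0 := by
  simp only [Φ.D2_eq X hj]
  exact Φ.D_pluck _ 0 a b c d

end Sys

end Pool.Agent.Lib.MP_e9314e_an.PB
end

section

/-!
# PB: transversals and nonvanishing of the determinants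

All from `Sys.D_ne`, `Eqv.eq_of_lt` (times at distance `< 1`: equivalent points are equal) and, for two strands of the same box,
`Eqv.cases01` and `TS`.  Viewers are at time `1/2`.
-/

set_option autoImplicit false

open Set Complex

namespace Pool.Agent.Lib.MP_e9314e_an.PB

variable {C : Type*} [TopologicalSpace C] {T : C ≃ₜ C} {m : ℕ}

/-- Disjoint clopen transversals `S j` around the points `z j`, not containing `e`, `g`, and disjoint from their images. -/
structure Pre (T : C ≃ₜ C) (z : Fin (m + 1) → C) (e g : C) (S : Fin (m + 1) → Set C) : Prop where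
  clopen : ∀ j, IsClopen (S j)
  disj : ∀ i j, i ≠ j → Disjoint (S i) (S j)
  zS : ∀ j, z j ∈ S j
  eS : ∀ j, e ∉ S j
  gS : ∀ j, g ∉ S j
  eg : e ≠ g
  TS : ∀ j, ∀ c ∈ S j, T c ∉ S j

namespace Pre

theorem mono {z : Fin (m + 1) → C} {e g : C} {S S' : Fin (m + 1) → Set C} (hS : Pre T z e g S)
    (h : ∀ j, S' j ⊆ S j) (hc : ∀ j, IsClopen (S' j)) (hz : ∀ j, z j ∈ S' j) : Pre T z e g S' where
  clopen := hc
  disj i j hij := (hS.disj i j hij).mono (h i) (h j)
  zS := hz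
  eS j he := hS.eS j (h j he)
  gS j hg := hS.gS j (h j hg)
  eg := hS.eg
  TS j c hc' hT := hS.TS j c (h j hc') (h j hT)


/-! Auxiliary lemmas. -/

private theorem nE {x y : C} {s t : ℝ} (h : |s - t| < 1) (hne : x ≠ y ∨ s ≠ t) :
    ¬ Eqv T (x, s) (y, t) := by
  intro hE
  have h1 := hE.eq_of_lt h
  have h2 := (Prod.mk.injEq x s y t).mp h1
  rcases hne with h3 | h3
  · exact h3 h2.1
  · exact h3 h2.2

private theorem habs {s : ℝ} (hs : s ∈ Icc (0 : ℝ) 1) : |1 / 2 - s| < 1 := by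
  rw [abs_lt]
  constructor <;> linarith [hs.1, hs.2]

private theorem habs' {s : ℝ} (hs : s ∈ Icc (0 : ℝ) 1) : |s - 1 / 2| < 1 := by
  rw [abs_lt]
  constructor <;> linarith [hs.1, hs.2]

private theorem habs2 {s t : ℝ} (hs : s ∈ Ioo (0 : ℝ) 1) (ht : t ∈ Icc (0 : ℝ) 1) : |s - t| < 1 := by
  rw [abs_lt]
  constructor <;> linarith [hs.1, hs.2, ht.1, ht.2]

private theorem habs3 {s t : ℝ} (hs : s ∈ Icc (0 : ℝ) 1) (ht : t ∈ Ioo (0 : ℝ) 1) : |s - t| < 1 := by
  rw [abs_lt]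
  constructor <;> linarith [hs.1, hs.2, ht.1, ht.2]

private theorem hhalf : (1 / 2 : ℝ) ∈ Icc (0 : ℝ) 1 := ⟨by norm_num, by norm_num⟩

private theorem D1_aux (Φ : Sys T m) {X : Fin (m + 1) → C} {j : Fin (m + 1)} {p b : C × ℝ}
    (hXX : ∀ i k, i ≠ k → X i ≠ X k) (hp : ∀ l, l ≠ j → ¬ Eqv T (X l, 1 / 2) p)
    (hb : ∀ l, l ≠ j → ¬ Eqv T (X l, 1 / 2) b) (hpb : ¬ Eqv T p b) : Φ.D1 X j p b ≠ 0 := by
  unfold Sys.D1
  apply Sys.D_ne
  · intro i k hik
    by_cases hi : i = j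
    · by_cases hk : k = j
      · exact absurd (hi.trans hk.symm) hik
      · rw [hi, Function.update_self, Function.update_of_ne hk]
        exact fun h => hp k hk h.symm
    · by_cases hk : k = j
      · rw [hk, Function.update_self, Function.update_of_ne hi]
        exact hp i hi
      · rw [Function.update_of_ne hi, Function.update_of_ne hk]
        exact nE (by norm_num) (Or.inl (hXX i k hik))
  · intro i
    by_cases hi : i = j
    · rw [hi, Function.update_self]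
      exact hpb
    · rw [Function.update_of_ne hi]
      exact hb i hi

private theorem D2_aux (Φ : Sys T m) {X : Fin (m + 1) → C} {j : Fin (m + 1)} (hj : j ≠ 0)
    {p q b : C × ℝ}
    (hXX : ∀ i k, i ≠ k → X i ≠ X k) (hp : ∀ l, l ≠ j → l ≠ 0 → ¬ Eqv T (X l, 1 / 2) p)
    (hq : ∀ l, l ≠ j → l ≠ 0 → ¬ Eqv T (X l, 1 / 2) q)
    (hb : ∀ l, l ≠ j → l ≠ 0 → ¬ Eqv T (X l, 1 / 2) b) (hpq : ¬ Eqv T p q) (hpb : ¬ Eqv T p b)
    (hqb : ¬ Eqv T q b) : Φ.D2 X j p q b ≠ 0 := by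
  unfold Sys.D2
  have e1 : Function.update (Function.update (Sys.vw X) 0 p) j q j = q := Function.update_self ..
  have e2 : Function.update (Function.update (Sys.vw X) 0 p) j q 0 = p := by
    rw [Function.update_of_ne (Ne.symm hj), Function.update_self]
  have e3 : ∀ l, l ≠ j → l ≠ 0 → Function.update (Function.update (Sys.vw X) 0 p) j q l =
      (X l, 1 / 2) := by
    intro l h1 h2
    rw [Function.update_of_ne h1, Function.update_of_ne h2]
    rfl
  apply Sys.D_ne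
  · intro i k hik
    by_cases hi : i = j
    · rw [hi, e1]
      by_cases hk : k = 0
      · rw [hk, e2]
        exact fun h => hpq h.symm
      · have hkj : k ≠ j := fun h => hik (hi.trans h.symm)
        rw [e3 k hkj hk]
        exact fun h => hq k hkj hk h.symm
    · by_cases hi0 : i = 0
      · rw [hi0, e2]
        by_cases hk : k = j
        · rw [hk, e1]
          exact hpq
        · have hk0 : k ≠ 0 := fun h => hik (hi0.trans h.symm)
          rw [e3 k hk hk0]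
          exact fun h => hp k hk hk0 h.symm
      · rw [e3 i hi hi0]
        by_cases hk : k = j
        · rw [hk, e1]
          exact hq i hi hi0
        · by_cases hk0 : k = 0
          · rw [hk0, e2]
            exact hp i hi hi0
          · rw [e3 k hk hk0]
            exact nE (by norm_num) (Or.inl (hXX i k hik))
  · intro i
    by_cases hi : i = j
    · rw [hi, e1]
      exact hqb
    · by_cases hi0 : i = 0
      · rw [hi0, e2]
        exact hpb
      · rw [e3 i hi hi0]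
        exact hb i hi hi0

variable {z : Fin (m + 1) → C} {e g : C} {S : Fin (m + 1) → Set C} (hS : Pre T z e g S) (Φ : Sys T m)

include hS

private theorem neS {i k : Fin (m + 1)} (hik : i ≠ k) {x y : C} (hx : x ∈ S i) (hy : y ∈ S k) :
    x ≠ y := by
  intro h
  exact Set.disjoint_left.1 (hS.disj i k hik) hx (h ▸ hy)

private theorem neX {X : Fin (m + 1) → C} (hX : ∀ l, X l ∈ S l) : ∀ i k, i ≠ k → X i ≠ X k :=
  fun i k hik => hS.neS hik (hX i) (hX k)

private theorem nee {i : Fin (m + 1)} {x : C} (hx : x ∈ S i) : x ≠ e :=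
  fun h => hS.eS i (h ▸ hx)

private theorem neg' {i : Fin (m + 1)} {x : C} (hx : x ∈ S i) : x ≠ g :=
  fun h => hS.gS i (h ▸ hx)

private theorem box {j : Fin (m + 1)} {a b : C} (ha : a ∈ S j)
    (hb : b ∈ S j) {s t : ℝ} (hs : s ∈ Icc (0 : ℝ) 1) (ht : t ∈ Icc (0 : ℝ) 1)
    (hab : a ≠ b ∨ s ≠ t) : ¬ Eqv T (a, s) (b, t) := by
  intro hE
  rcases hE.cases01 hs ht with h | ⟨h, _, _⟩ | ⟨h, _, _⟩
  · have h2 := (Prod.mk.injEq a s b t).mp h
    rcases hab with h3 | h3
    · exact h3 h2.1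
    · exact h3 h2.2
  · exact hS.TS j a ha (h ▸ hb)
  · exact hS.TS j b hb (h ▸ ha)

/-- Viewer `j` moved to `(a, s)`, `a ∈ S j`; moving point `(b, t)` different from the other viewers and from `(a, s)`. -/
theorem D1_ne {X : Fin (m + 1) → C} (hX : ∀ l, X l ∈ S l) {j : Fin (m + 1)} {a b : C} (ha : a ∈ S j)
    {s t : ℝ} (hs : s ∈ Icc (0 : ℝ) 1) (ht : t ∈ Icc (0 : ℝ) 1) (hb : ∀ l, l ≠ j → b ≠ X l)
    (hab : ¬ Eqv T (a, s) (b, t)) : Φ.D1 X j (a, s) (b, t) ≠ 0 := D1_aux Φ (hS.neX hX) (fun l hl => nE (habs hs) (Or.inl (hS.neS hl (hX l) ha)))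
    (fun l hl => nE (habs ht) (Or.inl fun h => hb l hl h.symm)) hab

/-- Moving point `(e, 1/2)`. -/
theorem D1_ne_e {X : Fin (m + 1) → C} (hX : ∀ l, X l ∈ S l) {j : Fin (m + 1)} {a : C} (ha : a ∈ S j)
    {s : ℝ} (hs : s ∈ Icc (0 : ℝ) 1) : Φ.D1 X j (a, s) (e, 1 / 2) ≠ 0 := D1_aux Φ (hS.neX hX) (fun l hl => nE (habs hs) (Or.inl (hS.neS hl (hX l) ha)))
    (fun l _ => nE (habs hhalf) (Or.inl (hS.nee (hX l)))) (nE (habs' hs) (Or.inl (hS.nee ha)))

/-- Moving point `(e, 1/2)`; viewer `0` moved to `(q, t)` with `q ∈ S j`. -/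
theorem D1_ne_q {X : Fin (m + 1) → C} (hX : ∀ l, X l ∈ S l) {j : Fin (m + 1)} (hj : j ≠ 0) {q : C}
    (hq : q ∈ S j) (hqX : q ≠ X j) {t : ℝ} (ht : t ∈ Icc (0 : ℝ) 1) :
    Φ.D1 X 0 (q, t) (e, 1 / 2) ≠ 0 := by
  have hl' : ∀ l, X l ≠ q := by
    intro l
    by_cases hl : l = j
    · rw [hl]
      exact hqX.symm
    · exact hS.neS hl (hX l) hq
  exact D1_aux Φ (hS.neX hX) (fun l _ => nE (habs ht) (Or.inl (hl' l)))
    (fun l _ => nE (habs hhalf) (Or.inl (hS.nee (hX l)))) (nE (habs' ht) (Or.inl (hS.nee hq)))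

theorem D1_ne_ge {X : Fin (m + 1) → C} (hX : ∀ l, X l ∈ S l) (j : Fin (m + 1)) :
    Φ.D1 X j (g, 1 / 2) (e, 1 / 2) ≠ 0 := D1_aux Φ (hS.neX hX) (fun l _ => nE (habs hhalf) (Or.inl (hS.neg' (hX l))))
    (fun l _ => nE (habs hhalf) (Or.inl (hS.nee (hX l)))) (nE (habs hhalf) (Or.inl hS.eg.symm))

/-- Two strands of the same box, different or at different times. -/
theorem D1_ne_S {X : Fin (m + 1) → C} (hX : ∀ l, X l ∈ S l) {j : Fin (m + 1)} {a b : C} (ha : a ∈ S j)
    (hb : b ∈ S j) {s t : ℝ} (hs : s ∈ Icc (0 : ℝ) 1) (ht : t ∈ Icc (0 : ℝ) 1) (hab : a ≠ b ∨ s ≠ t) :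
    Φ.D1 X j (a, s) (b, t) ≠ 0 := D1_aux Φ (hS.neX hX) (fun l hl => nE (habs hs) (Or.inl (hS.neS hl (hX l) ha)))
    (fun l hl => nE (habs ht) (Or.inl (hS.neS hl (hX l) hb))) (hS.box ha hb hs ht hab)

/-- Viewer `0` at a time in `(0, 1)`, moving point in `S j`, `j ≠ 0`. -/
theorem D1_ne_0j {X : Fin (m + 1) → C} (hX : ∀ l, X l ∈ S l) {j : Fin (m + 1)} (hj : j ≠ 0) {a q : C}
    (ha : a ∈ S 0) (hq : q ∈ S j) (hqX : q ≠ X j) {s t : ℝ} (hs : s ∈ Ioo (0 : ℝ) 1)
    (ht : t ∈ Icc (0 : ℝ) 1) : Φ.D1 X 0 (a, s) (q, t) ≠ 0 := by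
  have hl' : ∀ l, X l ≠ q := by
    intro l
    by_cases hl : l = j
    · rw [hl]
      exact hqX.symm
    · exact hS.neS hl (hX l) hq
  exact D1_aux Φ (hS.neX hX)
    (fun l hl => nE (habs ⟨hs.1.le, hs.2.le⟩) (Or.inl (hS.neS hl (hX l) ha)))
    (fun l _ => nE (habs ht) (Or.inl (hl' l))) (nE (habs2 hs ht) (Or.inl (hS.neS hj.symm ha hq)))

/-- Viewers `0` and `j` moved, moving point a reference point. -/
theorem D2_ne_e {X : Fin (m + 1) → C} (hX : ∀ l, X l ∈ S l) {j : Fin (m + 1)} (hj : j ≠ 0) {a q : C}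
    (ha : a ∈ S 0) (hq : q ∈ S j) {s t : ℝ} (hs : s ∈ Ioo (0 : ℝ) 1) (ht : t ∈ Icc (0 : ℝ) 1) :
    Φ.D2 X j (a, s) (q, t) (e, 1 / 2) ≠ 0 := D2_aux Φ hj (hS.neX hX)
    (fun l _ hl0 => nE (habs ⟨hs.1.le, hs.2.le⟩) (Or.inl (hS.neS hl0 (hX l) ha)))
    (fun l hl _ => nE (habs ht) (Or.inl (hS.neS hl (hX l) hq)))
    (fun l _ _ => nE (habs hhalf) (Or.inl (hS.nee (hX l))))
    (nE (habs2 hs ht) (Or.inl (hS.neS hj.symm ha hq)))
    (nE (habs' ⟨hs.1.le, hs.2.le⟩) (Or.inl (hS.nee ha))) (nE (habs' ht) (Or.inl (hS.nee hq)))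

/-- Viewers `0` and `j` moved, moving point in `S 0`. -/
theorem D2_ne_S0 {X : Fin (m + 1) → C} (hX : ∀ l, X l ∈ S l) {j : Fin (m + 1)} (hj : j ≠ 0) {a q b : C}
    (ha : a ∈ S 0) (hq : q ∈ S j) (hb : b ∈ S 0) {s t r : ℝ} (hs : s ∈ Ioo (0 : ℝ) 1)
    (ht : t ∈ Icc (0 : ℝ) 1) (hr : r ∈ Ioo (0 : ℝ) 1) (hab : a ≠ b ∨ s ≠ r) :
    Φ.D2 X j (a, s) (q, t) (b, r) ≠ 0 := D2_aux Φ hj (hS.neX hX)
    (fun l _ hl0 => nE (habs ⟨hs.1.le, hs.2.le⟩) (Or.inl (hS.neS hl0 (hX l) ha)))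
    (fun l hl _ => nE (habs ht) (Or.inl (hS.neS hl (hX l) hq)))
    (fun l _ hl0 => nE (habs ⟨hr.1.le, hr.2.le⟩) (Or.inl (hS.neS hl0 (hX l) hb)))
    (nE (habs2 hs ht) (Or.inl (hS.neS hj.symm ha hq)))
    (nE (habs2 hs ⟨hr.1.le, hr.2.le⟩) hab) (nE (habs3 ht hr) (Or.inl (hS.neS hj hq hb)))

/-- Viewers `0` and `j` moved, moving point in `S j`. -/
theorem D2_ne_Sj {X : Fin (m + 1) → C} (hX : ∀ l, X l ∈ S l) {j : Fin (m + 1)} (hj : j ≠ 0) {a q b : C}
    (ha : a ∈ S 0) (hq : q ∈ S j) (hb : b ∈ S j) {s t r : ℝ} (hs : s ∈ Ioo (0 : ℝ) 1)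
    (ht : t ∈ Icc (0 : ℝ) 1) (hr : r ∈ Icc (0 : ℝ) 1) (hqb : q ≠ b ∨ t ≠ r) :
    Φ.D2 X j (a, s) (q, t) (b, r) ≠ 0 := D2_aux Φ hj (hS.neX hX)
    (fun l _ hl0 => nE (habs ⟨hs.1.le, hs.2.le⟩) (Or.inl (hS.neS hl0 (hX l) ha)))
    (fun l hl _ => nE (habs ht) (Or.inl (hS.neS hl (hX l) hq)))
    (fun l hl _ => nE (habs hr) (Or.inl (hS.neS hl (hX l) hb)))
    (nE (habs2 hs ht) (Or.inl (hS.neS hj.symm ha hq)))
    (nE (habs2 hs hr) (Or.inl (hS.neS hj.symm ha hb))) (hS.box hq hb ht hr hqb)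

end Pre

end Pool.Agent.Lib.MP_e9314e_an.PB
end
end

section

section

/-!
# PB: the order of parallel arcs in the plane

`Γ : [u, v] → ℂ` is an arc whose end points are at maximal distance.  Arcs `A`, `B` close to `Γ` and disjoint are
ordered: the argument of `A s - B t` along the path from `(v, u)` to `(u, v)` changes by about `π` or about `-π`,
according to the sign of `y A - y B`, where `y A` is the (rotated) imaginary part of `A` at the last time at which the (rotated)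
real part equals a fixed level.

Proof.  Let `d = ‖Γ v - Γ u‖ > 0`, `ω = conj (Γ v - Γ u) / d`, `Γ' s = ω * (Γ s - Γ u)`, so `Γ' u = 0`, `Γ' v = d`.
(1) For `s ∈ (u, v]`: `0 < Re Γ' s` (otherwise `‖Γ' s - d‖ ≥ d - Re Γ' s ≥ d`, with equality only for `Γ' s = 0 = Γ' u`, against
injectivity); for `s ∈ [u, v)`: `Re Γ' s < d` (since `‖Γ' s‖ ≤ d`, equality only for `Γ' s = d`).
(2) `t₁ = (u + v) / 2`, `m₁ = min Re Γ'` on `[t₁, v]`, `M₁ = max Re Γ'` on `[u, t₁]`: `0 < m₁`, `M₁ < d`.  Level `L = m₁ / 2`,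
`ε = min (m₁ / 4) (min ((d - M₁) / 4) (d / 100))`.
(3) For an arc `A` with `‖A s - Γ s‖ ≤ ε` put `A' s = ω * (A s - Γ u)`; `Re A' u < L`, `Re A' s > L` for `s ∈ [t₁, v]`.
`σ A = sSup {s ∈ [u, v] | Re A' s ≤ L}` satisfies `u ≤ σ A ≤ t₁`, `Re A' (σ A) = L`, `Re A' s > L` for `s ∈ (σ A, v]`.
`y A = Im A' (σ A)`.
(4) Let `g` be a continuous logarithm of `(s, t) ↦ A' s - B' t = ω * (A s - B t)` on `[u, v]²` (`exists_log2`).  Along
`(v, u) → (v, σ B) → (σ A, σ B)` the real part is positive (first part: `Re A' v > d - ε > M₁ + ε ≥ Re B' t` for `t ≤ t₁`;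
second part: `Re A' s - L ≥ 0`) except at the last point where the value is `i (y A - y B) ≠ 0`; so the values are in the slit
plane and `Im g` changes by `arg (i (y A - y B)) - arg (A' v - B' u)`.  Along `(σ A, σ B) → (σ A, v) → (u, v)` the
negative values are in the slit plane and `Im g` changes by `arg (-(A' u - B' v)) - arg (-i (y A - y B))`.
The total is `± π + arg (B' v - A' u) - arg (A' v - B' u)` with sign `+` iff `y A > y B`, and both numbers `B' v - A' u`,
`A' v - B' u` are within `d / 50` of `d`, so their arguments are at most `π / 16`.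
The change along the straight path from `(v, u)` to `(u, v)` is the same number (`ac_eq` with `g` composed with
the path).
-/

set_option autoImplicit false

open Set Complex

namespace Pool.Agent.Lib.MP_e9314e_an.PB

/-- `y` orders the arcs which are `ε`-close to `Γ` on `[u, v]`. -/
def PlaneOK (u v : ℝ) (Γ : ℝ → ℂ) (ε : ℝ) (y : (ℝ → ℂ) → ℝ) : Prop :=
  ∀ A B : ℝ → ℂ, ContinuousOn A (Icc u v) → ContinuousOn B (Icc u v) →
    (∀ s ∈ Icc u v, ‖A s - Γ s‖ ≤ ε) → (∀ s ∈ Icc u v, ‖B s - Γ s‖ ≤ ε) →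
    (∀ s ∈ Icc u v, ∀ t ∈ Icc u v, A s ≠ B t) →
    (y B < y A ∧ |ac (fun θ => A (v - θ * (v - u)) - B (u + θ * (v - u))) 0 1 - Real.pi| ≤ Real.pi / 8) ∨
    (y A < y B ∧ |ac (fun θ => A (v - θ * (v - u)) - B (u + θ * (v - u))) 0 1 + Real.pi| ≤ Real.pi / 8)

private theorem seg {f G : ℝ → ℂ} {p q : ℝ} (hpq : p ≤ q) (hG : ContinuousOn G (Icc p q)) {κ : ℂ} (hκ : κ ≠ 0)
    (he : ∀ t ∈ Icc p q, exp (G t) = f t) (hs : ∀ t ∈ Icc p q, κ * f t ∈ slitPlane) :
    (G q - G p).im = arg (κ * f q) - arg (κ * f p) := by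
  have h1 : ac (fun t => κ * f t) p q = ((G q + log κ) - (G p + log κ)).im := by
    refine ac_eq hpq (g := fun t => G t + log κ) (hG.add continuousOn_const) ?_
    intro t ht
    rw [exp_add, he t ht, exp_log hκ, mul_comm]
  have hc : ContinuousOn (fun t => κ * f t) (Icc p q) := by
    refine ContinuousOn.congr (f := fun t => κ * exp (G t)) ?_ ?_
    · exact continuousOn_const.mul (continuous_exp.comp_continuousOn hG)
    · intro t ht
      show κ * f t = κ * exp (G t)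
      rw [he t ht]
  have h2 := ac_slit hpq hc hs
  rw [← h2, h1]
  congr 1
  ring

private theorem core {u v a b : ℝ} (huv : u ≤ v) (ha : a ∈ Icc u v) (hb : b ∈ Icc u v) {A B : ℝ → ℂ}
    (hA : ContinuousOn A (Icc u v)) (hB : ContinuousOn B (Icc u v))
    (hne : ∀ s ∈ Icc u v, ∀ t ∈ Icc u v, A s ≠ B t) {ω : ℂ} (hω : ω ≠ 0)
    (h1 : ∀ t ∈ Icc u b, 0 ≤ (ω * (A v - B t)).re) (h2 : ∀ s ∈ Icc a v, 0 ≤ (ω * (A s - B b)).re)
    (h3 : ∀ t ∈ Icc b v, 0 ≤ (ω * (B t - A a)).re) (h4 : ∀ s ∈ Icc u a, 0 ≤ (ω * (B v - A s)).re) :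
    ac (fun θ => A (v - θ * (v - u)) - B (u + θ * (v - u))) 0 1 =
      (arg (ω * (A a - B b)) - arg (ω * (B b - A a))) + (arg (ω * (B v - A u)) - arg (ω * (A v - B u))) := by
  have huI : u ∈ Icc u v := left_mem_Icc.2 huv
  have hvI : v ∈ Icc u v := right_mem_Icc.2 huv
  have hf : ContinuousOn (fun p : ℝ × ℝ => A p.1 - B p.2) (Icc u v ×ˢ Icc u v) := by
    refine ContinuousOn.sub ?_ ?_
    · exact hA.comp continuousOn_fst fun p hp => hp.1
    · exact hB.comp continuousOn_snd fun p hp => hp.2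
  have h0 : ∀ p ∈ Icc u v ×ˢ Icc u v, A p.1 - B p.2 ≠ 0 := fun p hp =>
    sub_ne_zero.2 (hne p.1 hp.1 p.2 hp.2)
  obtain ⟨g, hg, hge⟩ := exists_log2 huv huv hf h0
  have slit : ∀ {w : ℂ}, w ≠ 0 → 0 ≤ w.re → w ∈ slitPlane := by
    intro w hw hre
    rw [mem_slitPlane_iff]
    rcases eq_or_lt_of_le hre with h | h
    · right
      intro him
      exact hw (Complex.ext h.symm him)
    · exact Or.inl h
  have hnz : ∀ s ∈ Icc u v, ∀ t ∈ Icc u v, ω * (A s - B t) ≠ 0 := fun s hs t ht =>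
    mul_ne_zero hω (sub_ne_zero.2 (hne s hs t ht))
  have hnz' : ∀ s ∈ Icc u v, ∀ t ∈ Icc u v, ω * (B t - A s) ≠ 0 := fun s hs t ht =>
    mul_ne_zero hω (sub_ne_zero.2 (hne s hs t ht).symm)
  have hga : ∀ s ∈ Icc u v, ∀ p q : ℝ, u ≤ p → q ≤ v → ContinuousOn (fun t => g (s, t)) (Icc p q) := by
    intro s hs p q hp hq
    refine hg.comp (by fun_prop) ?_
    intro t ht
    exact ⟨hs, hp.trans ht.1, ht.2.trans hq⟩
  have hgb : ∀ t ∈ Icc u v, ∀ p q : ℝ, u ≤ p → q ≤ v → ContinuousOn (fun s => g (s, t)) (Icc p q) := by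
    intro t ht p q hp hq
    refine hg.comp (by fun_prop) ?_
    intro s hs
    exact ⟨⟨hp.trans hs.1, hs.2.trans hq⟩, ht⟩
  -- the four segments
  have s1 : (g (v, b) - g (v, u)).im = arg (ω * (A v - B b)) - arg (ω * (A v - B u)) := by
    refine seg (f := fun t => A v - B t) (G := fun t => g (v, t)) hb.1 (hga v hvI u b le_rfl hb.2) hω ?_ ?_
    · intro t ht
      exact hge (v, t) ⟨hvI, ht.1, ht.2.trans hb.2⟩
    · intro t ht
      exact slit (hnz v hvI t ⟨ht.1, ht.2.trans hb.2⟩) (h1 t ht)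
  have s2 : (g (v, b) - g (a, b)).im = arg (ω * (A v - B b)) - arg (ω * (A a - B b)) := by
    refine seg (f := fun s => A s - B b) (G := fun s => g (s, b)) ha.2 (hgb b hb a v ha.1 le_rfl) hω ?_ ?_
    · intro t ht
      exact hge (t, b) ⟨⟨ha.1.trans ht.1, ht.2⟩, hb⟩
    · intro t ht
      exact slit (hnz t ⟨ha.1.trans ht.1, ht.2⟩ b hb) (h2 t ht)
  have s3 : (g (a, v) - g (a, b)).im = arg (-ω * (A a - B v)) - arg (-ω * (A a - B b)) := by
    refine seg (f := fun t => A a - B t) (G := fun t => g (a, t)) hb.2 (hga a ha b v hb.1 le_rfl)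
      (neg_ne_zero.2 hω) ?_ ?_
    · intro t ht
      exact hge (a, t) ⟨ha, hb.1.trans ht.1, ht.2⟩
    · intro t ht
      have e1 : -ω * (A a - B t) = ω * (B t - A a) := by ring
      rw [e1]
      exact slit (hnz' a ha t ⟨hb.1.trans ht.1, ht.2⟩) (h3 t ht)
  have s4 : (g (a, v) - g (u, v)).im = arg (-ω * (A a - B v)) - arg (-ω * (A u - B v)) := by
    refine seg (f := fun s => A s - B v) (G := fun s => g (s, v)) ha.1 (hgb v hvI u a le_rfl ha.2)
      (neg_ne_zero.2 hω) ?_ ?_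
    · intro t ht
      exact hge (t, v) ⟨⟨ht.1, ht.2.trans ha.2⟩, hvI⟩
    · intro t ht
      have e1 : -ω * (A t - B v) = ω * (B v - A t) := by ring
      rw [e1]
      exact slit (hnz' t ⟨ht.1, ht.2.trans ha.2⟩ v hvI) (h4 t ht)
  -- the straight path
  have hpath : ∀ θ ∈ Icc (0 : ℝ) 1, v - θ * (v - u) ∈ Icc u v ∧ u + θ * (v - u) ∈ Icc u v := by
    intro θ hθ
    have k1 : 0 ≤ θ * (v - u) := mul_nonneg hθ.1 (by linarith)
    have k2 : θ * (v - u) ≤ v - u := mul_le_of_le_one_left (by linarith) hθ.2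
    exact ⟨⟨by linarith, by linarith⟩, ⟨by linarith, by linarith⟩⟩
  have s5 : ac (fun θ => A (v - θ * (v - u)) - B (u + θ * (v - u))) 0 1 = (g (u, v) - g (v, u)).im := by
    have k := ac_eq (f := fun θ => A (v - θ * (v - u)) - B (u + θ * (v - u)))
      (g := fun θ => g (v - θ * (v - u), u + θ * (v - u))) (zero_le_one' ℝ) ?_ ?_
    · rw [k]
      have e1 : v - 1 * (v - u) = u := by ring
      have e2 : u + 1 * (v - u) = v := by ring
      have e3 : v - 0 * (v - u) = v := by ring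
      have e4 : u + 0 * (v - u) = u := by ring
      rw [e1, e2, e3, e4]
    · refine hg.comp (by fun_prop) ?_
      intro θ hθ
      exact ⟨(hpath θ hθ).1, (hpath θ hθ).2⟩
    · intro θ hθ
      exact hge _ ⟨(hpath θ hθ).1, (hpath θ hθ).2⟩
  have e1 : -ω * (A a - B b) = ω * (B b - A a) := by ring
  have e2 : -ω * (A u - B v) = ω * (B v - A u) := by ring
  rw [e1] at s3
  rw [e2] at s4
  rw [s5]
  simp only [sub_im] at s1 s2 s3 s4 ⊢
  linarith

private theorem level {u v t₁ L : ℝ} {h : ℝ → ℝ} (hh : ContinuousOn h (Icc u v)) (h1 : u ≤ t₁) (h2 : t₁ ≤ v)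
    (hu : h u ≤ L) (ht : ∀ s ∈ Icc t₁ v, L < h s) :
    sSup {s | s ∈ Icc u v ∧ h s ≤ L} ∈ Icc u t₁ ∧ h (sSup {s | s ∈ Icc u v ∧ h s ≤ L}) = L ∧
      ∀ s ∈ Icc (sSup {s | s ∈ Icc u v ∧ h s ≤ L}) v, L ≤ h s := by
  set S := {s | s ∈ Icc u v ∧ h s ≤ L} with hS
  have hcomp : IsCompact S := by
    have e : S = Icc u v ∩ h ⁻¹' Iic L := rfl
    rw [e]
    exact isCompact_Icc.of_isClosed_subset (hh.preimage_isClosed_of_isClosed isClosed_Icc isClosed_Iic)
      inter_subset_left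
  have hne : S.Nonempty := ⟨u, ⟨le_rfl, h1.trans h2⟩, hu⟩
  have hmem : sSup S ∈ S := hcomp.sSup_mem hne
  have hle : ∀ s ∈ S, s ≤ sSup S := fun s hs => le_csSup hcomp.bddAbove hs
  have hlt : sSup S ≤ t₁ := by
    by_contra hc
    push Not at hc
    exact absurd hmem.2 (not_le.2 (ht _ ⟨hc.le, hmem.1.2⟩))
  have heq : h (sSup S) = L := by
    apply le_antisymm hmem.2
    by_contra hc
    push Not at hc
    have hv : L < h v := ht v ⟨h2, le_rfl⟩
    have hiv := intermediate_value_Icc hmem.1.2 (hh.mono (Icc_subset_Icc_left hmem.1.1))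
    obtain ⟨s, hs, hsL⟩ := hiv ⟨hc.le, hv.le⟩
    have k1 := hle s ⟨⟨hmem.1.1.trans hs.1, hs.2⟩, hsL.le⟩
    have k2 : s = sSup S := le_antisymm k1 hs.1
    rw [k2] at hsL
    exact absurd hsL hc.ne
  refine ⟨⟨hmem.1.1, hlt⟩, heq, ?_⟩
  intro s hs
  rcases eq_or_lt_of_le hs.1 with h3 | h3
  · rw [← h3, heq]
  · by_contra hc
    push Not at hc
    exact absurd (hle s ⟨⟨hmem.1.1.trans hs.1, hs.2⟩, hc.le⟩) (not_le.2 h3)

private theorem arg_small {d : ℝ} (hd : 0 < d) {x : ℂ} (hx : ‖x - d‖ ≤ d / 50) : |arg x| ≤ Real.pi / 16 := by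
  have hd' : (d : ℂ) ≠ 0 := by exact_mod_cast hd.ne'
  have e1 : x = (d : ℂ) * (x / d) := by field_simp
  have h1 : ‖x / d - 1‖ ≤ 1 / 50 := by
    have e2 : x / d - 1 = (x - d) / d := by field_simp
    rw [e2, norm_div, norm_real, Real.norm_of_nonneg hd.le, div_le_iff₀ hd]
    linarith
  have h2 := arg_near (x := x / d) (h1.trans (by norm_num))
  rw [e1, arg_real_mul _ hd]
  have h3 : Real.pi / 2 * ‖x / d - 1‖ ≤ Real.pi / 2 * (1 / 50) := by
    have := Real.pi_pos
    gcongr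
  have := Real.pi_pos
  linarith

theorem plane_order {u v : ℝ} (huv : u < v) {Γ : ℝ → ℂ} (hΓ : ContinuousOn Γ (Icc u v))
    (hinj : InjOn Γ (Icc u v))
    (hd : ∀ s ∈ Icc u v, ∀ t ∈ Icc u v, ‖Γ s - Γ t‖ ≤ ‖Γ v - Γ u‖) :
    ∃ ε > 0, ∃ y : (ℝ → ℂ) → ℝ, PlaneOK u v Γ ε y := by
  have huI : u ∈ Icc u v := left_mem_Icc.2 huv.le
  have hvI : v ∈ Icc u v := right_mem_Icc.2 huv.le
  have hne : Γ v - Γ u ≠ 0 := fun h => huv.ne' (hinj hvI huI (sub_eq_zero.1 h))
  obtain ⟨d, hdd⟩ : ∃ d : ℝ, d = ‖Γ v - Γ u‖ := ⟨_, rfl⟩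
  rw [← hdd] at hd
  have hd0 : 0 < d := by rw [hdd]; exact norm_pos_iff.2 hne
  obtain ⟨ω, hω, hω2⟩ : ∃ ω : ℂ, ‖ω‖ = 1 ∧ ω * (Γ v - Γ u) = d := by
    refine ⟨(starRingEnd ℂ) (Γ v - Γ u) / d, ?_, ?_⟩
    · rw [norm_div, RCLike.norm_conj, norm_real, Real.norm_of_nonneg hd0.le, ← hdd, div_self hd0.ne']
    · rw [div_mul_eq_mul_div, mul_comm, mul_conj, normSq_eq_norm_sq, ← hdd]
      have hd' : (d : ℂ) ≠ 0 := by exact_mod_cast hd0.ne'
      push_cast
      field_simp
  have hω0 : ω ≠ 0 := by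
    intro h
    rw [h, norm_zero] at hω
    exact one_ne_zero hω.symm
  have hnorm : ∀ w : ℂ, ‖ω * w‖ = ‖w‖ := fun w => by rw [norm_mul, hω, one_mul]
  have hsq : ∀ w : ℂ, w.re ^ 2 + w.im ^ 2 = ‖w‖ ^ 2 := by
    intro w
    rw [← normSq_eq_norm_sq, normSq_apply]
    ring
  -- the real part of the rotated arc
  have hpos : ∀ s ∈ Icc u v, s ≠ u → 0 < (ω * (Γ s - Γ u)).re := by
    intro s hs hsu
    by_contra hc
    push Not at hc
    have k1 : ‖ω * (Γ s - Γ u) - d‖ ≤ d := by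
      rw [← hω2, ← mul_sub, hnorm]
      have e1 : Γ s - Γ u - (Γ v - Γ u) = Γ s - Γ v := by ring
      rw [e1]
      exact hd s hs v hvI
    have k2 := hsq (ω * (Γ s - Γ u) - d)
    have k3 : ‖ω * (Γ s - Γ u) - d‖ ^ 2 ≤ d ^ 2 := by
      gcongr
    simp only [sub_re, sub_im, ofReal_re, ofReal_im, sub_zero] at k2
    have k4 : (ω * (Γ s - Γ u)).re ^ 2 + (ω * (Γ s - Γ u)).im ^ 2 ≤ 2 * d * (ω * (Γ s - Γ u)).re := by
      nlinarith
    have k5 : 2 * d * (ω * (Γ s - Γ u)).re ≤ 0 := mul_nonpos_of_nonneg_of_nonpos (by linarith) hc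
    have k6 := hsq (ω * (Γ s - Γ u))
    have k7 : ‖ω * (Γ s - Γ u)‖ ^ 2 ≤ 0 := by linarith
    have k8 : ω * (Γ s - Γ u) = 0 := by
      rw [← norm_eq_zero]
      exact pow_eq_zero_iff (two_ne_zero) |>.1 (le_antisymm k7 (sq_nonneg _))
    rcases mul_eq_zero.1 k8 with k9 | k9
    · exact hω0 k9
    · exact hsu (hinj hs huI (sub_eq_zero.1 k9))
  have hlt : ∀ s ∈ Icc u v, s ≠ v → (ω * (Γ s - Γ u)).re < d := by
    intro s hs hsv
    by_contra hc
    push Not at hc
    have k1 : ‖ω * (Γ s - Γ u)‖ ≤ d := by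
      rw [hnorm]
      exact hd s hs u huI
    have k2 := hsq (ω * (Γ s - Γ u))
    have k3 : ‖ω * (Γ s - Γ u)‖ ^ 2 ≤ d ^ 2 := by
      gcongr
    have k4 : d ^ 2 ≤ (ω * (Γ s - Γ u)).re ^ 2 := by
      gcongr
    have k5 : (ω * (Γ s - Γ u)).im = 0 := by
      have : (ω * (Γ s - Γ u)).im ^ 2 ≤ 0 := by linarith
      exact pow_eq_zero_iff (two_ne_zero) |>.1 (le_antisymm this (sq_nonneg _))
    have k6 : (ω * (Γ s - Γ u)).re ≤ d := (re_le_norm _).trans k1
    have k7 : ω * (Γ s - Γ u) = ω * (Γ v - Γ u) := by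
      rw [hω2]
      apply Complex.ext
      · rw [ofReal_re]
        exact le_antisymm k6 hc
      · rw [ofReal_im]
        exact k5
    have k8 := mul_left_cancel₀ hω0 k7
    exact hsv (hinj hs hvI (sub_left_inj.1 k8))
  have hR : ContinuousOn (fun s => (ω * (Γ s - Γ u)).re) (Icc u v) :=
    continuous_re.comp_continuousOn (continuousOn_const.mul (hΓ.sub continuousOn_const))
  obtain ⟨t₁, ht₁⟩ : ∃ t₁ : ℝ, t₁ = (u + v) / 2 := ⟨_, rfl⟩
  have hut : u < t₁ := by rw [ht₁]; linarith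
  have htv : t₁ < v := by rw [ht₁]; linarith
  obtain ⟨a₁, ha₁, hmin⟩ := isCompact_Icc.exists_isMinOn (nonempty_Icc.2 htv.le)
    (hR.mono (Icc_subset_Icc_left hut.le))
  obtain ⟨b₁, hb₁, hmax⟩ := isCompact_Icc.exists_isMaxOn (nonempty_Icc.2 hut.le)
    (hR.mono (Icc_subset_Icc_right htv.le))
  obtain ⟨m, hm⟩ : ∃ m : ℝ, m = (ω * (Γ a₁ - Γ u)).re := ⟨_, rfl⟩
  obtain ⟨M, hM⟩ : ∃ M : ℝ, M = (ω * (Γ b₁ - Γ u)).re := ⟨_, rfl⟩
  have hm0 : 0 < m := by
    rw [hm]
    exact hpos a₁ ⟨hut.le.trans ha₁.1, ha₁.2⟩ (hut.trans_le ha₁.1).ne'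
  have hMd : M < d := by
    rw [hM]
    exact hlt b₁ ⟨hb₁.1, hb₁.2.trans htv.le⟩ (hb₁.2.trans_lt htv).ne
  have hmin' : ∀ s ∈ Icc t₁ v, m ≤ (ω * (Γ s - Γ u)).re := fun s hs => by
    rw [hm]; exact hmin hs
  have hmax' : ∀ s ∈ Icc u t₁, (ω * (Γ s - Γ u)).re ≤ M := fun s hs => by
    rw [hM]; exact hmax hs
  obtain ⟨ε, hε⟩ : ∃ ε : ℝ, ε = min (m / 4) (min ((d - M) / 4) (d / 100)) := ⟨_, rfl⟩
  have hε0 : 0 < ε := by
    rw [hε]
    exact lt_min (by linarith) (lt_min (by linarith) (by linarith))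
  have hε1 : ε ≤ m / 4 := by rw [hε]; exact min_le_left _ _
  have hε2 : ε ≤ (d - M) / 4 := by rw [hε]; exact (min_le_right _ _).trans (min_le_left _ _)
  have hε3 : ε ≤ d / 100 := by rw [hε]; exact (min_le_right _ _).trans (min_le_right _ _)
  -- arcs near `Γ`
  have hnear : ∀ A : ℝ → ℂ, (∀ s ∈ Icc u v, ‖A s - Γ s‖ ≤ ε) → ∀ s ∈ Icc u v,
      |(ω * (A s - Γ u)).re - (ω * (Γ s - Γ u)).re| ≤ ε := by
    intro A hA s hs
    rw [← sub_re, ← mul_sub]
    have e1 : A s - Γ u - (Γ s - Γ u) = A s - Γ s := by ring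
    rw [e1]
    exact (abs_re_le_norm _).trans ((hnorm _).le.trans (hA s hs))
  have hlev : ∀ A : ℝ → ℂ, ContinuousOn A (Icc u v) → (∀ s ∈ Icc u v, ‖A s - Γ s‖ ≤ ε) →
      sSup {s | s ∈ Icc u v ∧ (ω * (A s - Γ u)).re ≤ m / 2} ∈ Icc u t₁ ∧
      (ω * (A (sSup {s | s ∈ Icc u v ∧ (ω * (A s - Γ u)).re ≤ m / 2}) - Γ u)).re = m / 2 ∧
      ∀ s ∈ Icc (sSup {s | s ∈ Icc u v ∧ (ω * (A s - Γ u)).re ≤ m / 2}) v, m / 2 ≤ (ω * (A s - Γ u)).re := by
    intro A hAc hA
    refine level (h := fun s => (ω * (A s - Γ u)).re)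
      (continuous_re.comp_continuousOn (continuousOn_const.mul (hAc.sub continuousOn_const))) hut.le htv.le ?_ ?_
    · have k1 := abs_le.1 (hnear A hA u huI)
      have k2 : (ω * (Γ u - Γ u)).re = 0 := by rw [sub_self, mul_zero, zero_re]
      rw [k2] at k1
      show (ω * (A u - Γ u)).re ≤ m / 2
      linarith [k1.2]
    · intro s hs
      have k1 := abs_le.1 (hnear A hA s ⟨hut.le.trans hs.1, hs.2⟩)
      have k2 := hmin' s hs
      show m / 2 < (ω * (A s - Γ u)).re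
      linarith [k1.1]
  refine ⟨ε, hε0, fun A => (ω * (A (sSup {s | s ∈ Icc u v ∧ (ω * (A s - Γ u)).re ≤ m / 2}) - Γ u)).im, ?_⟩
  intro A B hAc hBc hA hB hAB
  obtain ⟨a, ea⟩ : ∃ a, a = sSup {s | s ∈ Icc u v ∧ (ω * (A s - Γ u)).re ≤ m / 2} := ⟨_, rfl⟩
  obtain ⟨b, eb⟩ : ∃ b, b = sSup {s | s ∈ Icc u v ∧ (ω * (B s - Γ u)).re ≤ m / 2} := ⟨_, rfl⟩
  obtain ⟨ha, haL, haS⟩ := hlev A hAc hA
  obtain ⟨hb, hbL, hbS⟩ := hlev B hBc hB
  simp only []
  rw [← ea] at ha haL haS ⊢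
  rw [← eb] at hb hbL hbS ⊢
  have haI : a ∈ Icc u v := ⟨ha.1, ha.2.trans htv.le⟩
  have hbI : b ∈ Icc u v := ⟨hb.1, hb.2.trans htv.le⟩
  have esub : ∀ x y : ℂ, ω * (x - y) = ω * (x - Γ u) - ω * (y - Γ u) := fun x y => by ring
  have hRu : (ω * (Γ u - Γ u)).re = 0 := by rw [sub_self, mul_zero, zero_re]
  have hRv : (ω * (Γ v - Γ u)).re = d := by rw [hω2, ofReal_re]
  have hcore := core huv.le haI hbI hAc hBc hAB hω0
    (by
      intro t ht
      rw [esub, sub_re]
      have k1 := abs_le.1 (hnear A hA v hvI)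
      have k2 := abs_le.1 (hnear B hB t ⟨ht.1, ht.2.trans hbI.2⟩)
      have k3 := hmax' t ⟨ht.1, ht.2.trans hb.2⟩
      rw [hRv] at k1
      linarith [k1.1, k2.2])
    (by
      intro s hs
      rw [esub, sub_re, hbL]
      linarith [haS s hs])
    (by
      intro t ht
      rw [esub, sub_re, haL]
      linarith [hbS t ht])
    (by
      intro s hs
      rw [esub, sub_re]
      have k1 := abs_le.1 (hnear B hB v hvI)
      have k2 := abs_le.1 (hnear A hA s ⟨hs.1, hs.2.trans haI.2⟩)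
      have k3 := hmax' s ⟨hs.1, hs.2.trans ha.2⟩
      rw [hRv] at k1
      linarith [k1.1, k2.2])
  -- the two end values
  have hend : ∀ A B : ℝ → ℂ, (∀ s ∈ Icc u v, ‖A s - Γ s‖ ≤ ε) → (∀ s ∈ Icc u v, ‖B s - Γ s‖ ≤ ε) →
      |arg (ω * (A v - B u))| ≤ Real.pi / 16 := by
    intro A B hA hB
    refine arg_small hd0 ?_
    rw [← hω2, ← mul_sub, hnorm]
    have e1 : A v - B u - (Γ v - Γ u) = (A v - Γ v) - (B u - Γ u) := by ring
    rw [e1]
    refine (norm_sub_le _ _).trans ?_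
    have k1 := hA v hvI
    have k2 := hB u huI
    linarith
  have hE1 := abs_le.1 (hend B A hB hA)
  have hE2 := abs_le.1 (hend A B hA hB)
  -- the middle value
  obtain ⟨r, hr⟩ : ∃ r : ℝ, r = (ω * (A a - Γ u)).im - (ω * (B b - Γ u)).im := ⟨_, rfl⟩
  have hw : ω * (A a - B b) = r * I := by
    rw [esub]
    apply Complex.ext
    · rw [sub_re, haL, hbL]
      simp
    · rw [sub_im, ← hr]
      simp
  have hw' : ω * (B b - A a) = (-r : ℝ) * I := by
    have e1 : ω * (B b - A a) = -(ω * (A a - B b)) := by ring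
    rw [e1, hw]
    push_cast
    ring
  have hr0 : r ≠ 0 := by
    intro h
    rw [h, ofReal_zero, zero_mul] at hw
    rcases mul_eq_zero.1 hw with k | k
    · exact hω0 k
    · exact hAB a haI b hbI (sub_eq_zero.1 k)
  have harg : ∀ x : ℝ, 0 < x → arg (x * I) = Real.pi / 2 := fun x hx => by
    rw [arg_real_mul _ hx, arg_I]
  have harg' : ∀ x : ℝ, 0 < x → arg ((-x : ℝ) * I) = -(Real.pi / 2) := fun x hx => by
    have e1 : ((-x : ℝ) : ℂ) * I = (x : ℂ) * (-I) := by push_cast; ring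
    rw [e1, arg_real_mul _ hx, arg_neg_I]
  rw [hcore, hw, hw']
  rcases lt_or_gt_of_ne hr0 with h | h
  · right
    have e1 : arg ((r : ℂ) * I) = -(Real.pi / 2) := by
      have := harg' (-r) (by linarith)
      rwa [neg_neg] at this
    rw [e1, harg (-r) (by linarith)]
    refine ⟨by linarith, ?_⟩
    rw [abs_le]
    constructor <;> linarith [hE1.1, hE1.2, hE2.1, hE2.2]
  · left
    rw [harg r h, harg' r h]
    refine ⟨by linarith, ?_⟩
    rw [abs_le]
    constructor <;> linarith [hE1.1, hE1.2, hE2.1, hE2.2]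

end Pool.Agent.Lib.MP_e9314e_an.PB
end

section

/-!
# PB: charts

`chart_sub`: `D1_pluck` with `(a, b, (g, 1/2), (e, 1/2))`.
`chart_inj`: `chart_sub`, `D1_ne_S`.  `chart_continuous`: `continuous_D1`, `D1_ne_e`.
-/

set_option autoImplicit false

open Set Complex

namespace Pool.Agent.Lib.MP_e9314e_an.PB

variable {C : Type*} [TopologicalSpace C] {T : C ≃ₜ C} {m : ℕ}

/-- The chart of box `j` with reference points `(e, 1/2)`, `(g, 1/2)`. -/
noncomputable def Sys.chart (Φ : Sys T m) (e g : C) (X : Fin (m + 1) → C) (j : Fin (m + 1))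
    (a : C × ℝ) : ℂ := Φ.D1 X j a (g, 1 / 2) / Φ.D1 X j a (e, 1 / 2)

/-- Differences of chart values. -/
theorem Sys.chart_sub (Φ : Sys T m) {e g : C} (X : Fin (m + 1) → C) (j : Fin (m + 1)) (a b : C × ℝ)
    (ha : Φ.D1 X j a (e, 1 / 2) ≠ 0) (hb : Φ.D1 X j b (e, 1 / 2) ≠ 0)
    (hg : Φ.D1 X j (g, 1 / 2) (e, 1 / 2) ≠ 0) :
    Φ.D1 X j a b = (Φ.chart e g X j a - Φ.chart e g X j b) *
      (Φ.D1 X j a (e, 1 / 2) * Φ.D1 X j b (e, 1 / 2) / Φ.D1 X j (g, 1 / 2) (e, 1 / 2)) := by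
  have h := Φ.D1_pluck X j a b (g, 1 / 2) (e, 1 / 2)
  unfold Sys.chart
  generalize Φ.D1 X j a (e, 1 / 2) = ae at *
  generalize Φ.D1 X j b (e, 1 / 2) = be at *
  generalize Φ.D1 X j (g, 1 / 2) (e, 1 / 2) = ge at *
  generalize Φ.D1 X j a (g, 1 / 2) = ag at *
  generalize Φ.D1 X j b (g, 1 / 2) = bg at *
  generalize Φ.D1 X j a b = ab at *
  field_simp
  linear_combination h

private theorem Sys.chart_continuousAt (Φ : Sys T m) (e g : C) (j : Fin (m + 1)) {W : Type*} [TopologicalSpace W]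
    {X : W → Fin (m + 1) → C} {a : W → C × ℝ} (hX : Continuous X) (ha : Continuous a) {w : W}
    (h0 : Φ.D1 (X w) j (a w) (e, 1 / 2) ≠ 0) :
    ContinuousAt (fun w => Φ.chart e g (X w) j (a w)) w := by
  unfold Sys.chart
  have h1 : Continuous fun w => Φ.D1 (X w) j (a w) (g, 1 / 2) :=
    (Φ.continuous_D1 j).comp (hX.prodMk (ha.prodMk continuous_const))
  have h2 : Continuous fun w => Φ.D1 (X w) j (a w) (e, 1 / 2) :=
    (Φ.continuous_D1 j).comp (hX.prodMk (ha.prodMk continuous_const))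
  exact h1.continuousAt.div h2.continuousAt h0

namespace Pre

variable {z : Fin (m + 1) → C} {e g : C} {S : Fin (m + 1) → Set C} (hS : Pre T z e g S) (Φ : Sys T m)

include hS

theorem chart_ne {X : Fin (m + 1) → C} (hX : ∀ l, X l ∈ S l) {j : Fin (m + 1)} {a b : C} (ha : a ∈ S j)
    (hb : b ∈ S j) {s t : ℝ} (hs : s ∈ Icc (0 : ℝ) 1) (ht : t ∈ Icc (0 : ℝ) 1) (hab : a ≠ b ∨ s ≠ t) :
    Φ.chart e g X j (a, s) ≠ Φ.chart e g X j (b, t) := by
  intro h
  have h1 := Φ.chart_sub X j (a, s) (b, t) (hS.D1_ne_e Φ hX ha hs) (hS.D1_ne_e Φ hX hb ht) (hS.D1_ne_ge Φ hX j)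
  rw [h, sub_self, zero_mul] at h1
  exact hS.D1_ne_S Φ hX ha hb hs ht hab h1

theorem chart_continuousOn {X : Fin (m + 1) → C} (hX : ∀ l, X l ∈ S l) {j : Fin (m + 1)} {a : C}
    (ha : a ∈ S j) : ContinuousOn (fun s : ℝ => Φ.chart e g X j (a, s)) (Icc 0 1) := by
  intro s hs
  exact (Φ.chart_continuousAt e g j (X := fun _ : ℝ => X) (a := fun s : ℝ => (a, s)) continuous_const
    (by fun_prop) (hS.D1_ne_e Φ hX ha hs)).continuousWithinAt

/-- Charts of strands near the base strand. -/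
theorem ev_c5 {u v ε : ℝ} (hu : 0 ≤ u) (hv : v ≤ 1) (hε : 0 < ε) (j : Fin (m + 1)) :
    ∀ᶠ p : (Fin (m + 1) → C) × C in nhds (z, z j), ∀ s ∈ Icc u v,
      ‖Φ.chart e g p.1 j (p.2, s) - Φ.chart e g z j (z j, s)‖ ≤ ε := by
  refine IsCompact.eventually_forall_of_forall_eventually isCompact_Icc
    (P := fun (p : (Fin (m + 1) → C) × C) (s : ℝ) => ‖Φ.chart e g p.1 j (p.2, s) - Φ.chart e g z j (z j, s)‖ ≤ ε) ?_
  intro s hs
  have hs' : s ∈ Icc (0 : ℝ) 1 := ⟨hu.trans hs.1, hs.2.trans hv⟩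
  have hne : Φ.D1 z j (z j, s) (e, 1 / 2) ≠ 0 := hS.D1_ne_e Φ hS.zS (hS.zS j) hs'
  have h1 : ContinuousAt (fun w : ((Fin (m + 1) → C) × C) × ℝ => Φ.chart e g w.1.1 j (w.1.2, w.2)) ((z, z j), s) :=
    Φ.chart_continuousAt e g j (X := fun w : ((Fin (m + 1) → C) × C) × ℝ => w.1.1)
      (a := fun w : ((Fin (m + 1) → C) × C) × ℝ => (w.1.2, w.2)) (by fun_prop) (by fun_prop) hne
  have h2 : ContinuousAt (fun w : ((Fin (m + 1) → C) × C) × ℝ => Φ.chart e g z j (z j, w.2)) ((z, z j), s) :=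
    Φ.chart_continuousAt e g j (X := fun _ : ((Fin (m + 1) → C) × C) × ℝ => z)
      (a := fun w : ((Fin (m + 1) → C) × C) × ℝ => (z j, w.2)) (by fun_prop) (by fun_prop) hne
  have h3 := (h1.sub h2).norm
  have h4 : ∀ᶠ w : ((Fin (m + 1) → C) × C) × ℝ in nhds ((z, z j), s),
      ‖Φ.chart e g w.1.1 j (w.1.2, w.2) - Φ.chart e g z j (z j, w.2)‖ < ε := by
    refine h3.eventually_lt continuousAt_const ?_
    simpa using hε
  filter_upwards [h4] with w hw
  exact hw.le

end Pre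

end Pool.Agent.Lib.MP_e9314e_an.PB
end
end
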