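import Mathlib
import Pool.Agent.Lib.MP_e9314e_an.PB.Chart

section

section

/-!
# PB: winding number of a path whose end points are near `1`

`wn f = (ac f 0 1 - arg (f 1) + arg (f 0)) / (2 π)` is an integer by `ac_int`.
`wn_homotopy`: by `exists_log2`: with a continuous logarithm `g` of `F` on the square,
`ac (F (·, θ)) 0 1 = Im (g (1, θ) - g (0, θ))`, and along the left and right side `Im g - arg F` is constant (`ac_slit`; numbers with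
`‖x - 1‖ < 1` are in the slit plane).
-/

set_option autoImplicit false

open Set Complex

namespace Pool.Agent.Lib.MP_e9314e_an.PB

/-- Winding number of a path `[0, 1] → ℂ` (corrected by the principal arguments at the end points). -/
noncomputable def wn (f : ℝ → ℂ) : ℝ := (ac f 0 1 - arg (f 1) + arg (f 0)) / (2 * Real.pi)

theorem wn_int {f : ℝ → ℂ} (hf : NZ f 0 1) : ∃ k : ℤ, wn f = k := by
  obtain ⟨k, hk⟩ := ac_int zero_le_one hf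
  refine ⟨k, ?_⟩
  have hpi := Real.pi_pos
  rw [wn, hk, div_eq_iff (by positivity)]
  ring

theorem wn_slit {f : ℝ → ℂ} (hf : ContinuousOn f (Icc 0 1)) (h : ∀ t ∈ Icc (0 : ℝ) 1, f t ∈ slitPlane) :
    wn f = 0 := by
  rw [wn, ac_slit zero_le_one hf h]
  have h1 : arg (f 1) - arg (f 0) - arg (f 1) + arg (f 0) = 0 := by ring
  rw [h1, zero_div]

theorem wn_congr {f f' : ℝ → ℂ} (h : ∀ t ∈ Icc (0 : ℝ) 1, f t = f' t) : wn f = wn f' := by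
  rw [wn, wn, ac_congr h, h 0 ⟨le_rfl, zero_le_one⟩, h 1 ⟨zero_le_one, le_rfl⟩]

/-- If both end points are near `1` then `wn f ≠ 0` iff the change of the argument is large. -/
theorem wn_ne_zero {f : ℝ → ℂ} (hf : NZ f 0 1) (h0 : ‖f 0 - 1‖ ≤ 1 / 2) (h1 : ‖f 1 - 1‖ ≤ 1 / 2)
    (h : wn f ≠ 0) : Real.pi ≤ |ac f 0 1| := by
  obtain ⟨k, hk⟩ := wn_int hf
  have hpi := Real.pi_pos
  have hk0 : k ≠ 0 := by
    rintro rfl
    exact h (by rw [hk]; simp)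
  have hac : ac f 0 1 = arg (f 1) - arg (f 0) + 2 * Real.pi * k := by
    have h2 := hk
    rw [wn, div_eq_iff (by positivity)] at h2
    linarith
  have ha0 : |arg (f 0)| ≤ Real.pi / 4 := by
    have := arg_near h0
    nlinarith [norm_nonneg (f 0 - 1)]
  have ha1 : |arg (f 1)| ≤ Real.pi / 4 := by
    have := arg_near h1
    nlinarith [norm_nonneg (f 1 - 1)]
  rw [abs_le] at ha0 ha1
  obtain ⟨b1, b2⟩ := ha0
  obtain ⟨c1, c2⟩ := ha1
  rcases lt_or_gt_of_ne hk0 with hneg | hpos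
  · have h3 : (k : ℝ) ≤ -1 := by exact_mod_cast Int.le_sub_one_of_lt hneg
    rw [le_abs]
    right
    rw [hac]
    nlinarith
  · have h3 : (1 : ℝ) ≤ k := by exact_mod_cast hpos
    rw [le_abs]
    left
    rw [hac]
    nlinarith

theorem wn_homotopy {F : ℝ × ℝ → ℂ} (hF : ContinuousOn F (Icc 0 1 ×ˢ Icc 0 1))
    (h0 : ∀ p ∈ Icc (0 : ℝ) 1 ×ˢ Icc (0 : ℝ) 1, F p ≠ 0)
    (hl : ∀ θ ∈ Icc (0 : ℝ) 1, ‖F (0, θ) - 1‖ ≤ 1 / 2) (hr : ∀ θ ∈ Icc (0 : ℝ) 1, ‖F (1, θ) - 1‖ ≤ 1 / 2) :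
    wn (fun s => F (s, 0)) = wn (fun s => F (s, 1)) := by
  have hrect := ac_rect (f := F) zero_le_one zero_le_one hF h0
  have hslit : ∀ x : ℂ, ‖x - 1‖ ≤ 1 / 2 → x ∈ slitPlane := by
    intro x hx
    have h1 : ‖x - 1‖ < 1 := by linarith
    have h2 := mem_slitPlane_of_norm_lt_one h1
    have h3 : 1 + (x - 1) = x := by ring
    rwa [h3] at h2
  have hcl : ContinuousOn (fun t : ℝ => F (0, t)) (Icc 0 1) := by
    apply hF.comp (continuous_const.prodMk continuous_id).continuousOn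
    intro t ht
    exact ⟨left_mem_Icc.2 zero_le_one, ht⟩
  have hcr : ContinuousOn (fun t : ℝ => F (1, t)) (Icc 0 1) := by
    apply hF.comp (continuous_const.prodMk continuous_id).continuousOn
    intro t ht
    exact ⟨right_mem_Icc.2 zero_le_one, ht⟩
  have h3 := ac_slit zero_le_one hcl fun t ht => hslit _ (hl t ht)
  have h4 := ac_slit zero_le_one hcr fun t ht => hslit _ (hr t ht)
  rw [h3, h4] at hrect
  unfold wn
  congr 1
  linarith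

end Pool.Agent.Lib.MP_e9314e_an.PB
end

section

/-!
# PB: configurations of boxes
-/

set_option autoImplicit false

open Set Complex

namespace Pool.Agent.Lib.MP_e9314e_an.PB

variable {C : Type*} [TopologicalSpace C] {T : C ≃ₜ C} {m : ℕ}

/-- A configuration of `m + 1` boxes `S j × [u j, v j]` with base points `z j`. -/
structure Cfg (Φ : Sys T m) where
  /-- base points -/
  z : Fin (m + 1) → C
  /-- reference point -/
  e : C
  /-- reference point -/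
  g : C
  /-- transversals -/
  S : Fin (m + 1) → Set C
  /-- half length of the time window -/
  h : ℝ
  /-- start of the window -/
  u : Fin (m + 1) → ℝ
  /-- end of the window -/
  v : Fin (m + 1) → ℝ
  /-- closeness of the arcs -/
  ε : Fin (m + 1) → ℝ
  /-- order function of arcs -/
  y : Fin (m + 1) → (ℝ → ℂ) → ℝ
  pre : Pre T z e g S
  h0 : 0 < h
  h4 : h ≤ 1 / 4
  hu : ∀ j, 1 / 2 - h ≤ u j
  uv : ∀ j, u j < v j
  hv : ∀ j, v j ≤ 1 / 2 + h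
  c1 : ∀ j, ∀ X : Fin (m + 1) → C, (∀ l, X l ∈ S l) → ∀ a ∈ S j, ∀ s ∈ Icc (1 / 2 - h) (1 / 2 + h),
    ‖Φ.D1 X j (a, s) (e, 1 / 2) / Φ.D1 z j (z j, 1 / 2) (e, 1 / 2) - 1‖ ≤ 1 / 1000
  c2 : ∀ j, j ≠ 0 → ∀ X : Fin (m + 1) → C, (∀ l, X l ∈ S l) → ∀ a ∈ S 0,
    ∀ s ∈ Icc (1 / 2 - h) (1 / 2 + h), ∀ q ∈ S j, ∀ t ∈ Icc (0 : ℝ) 1,
    ‖Φ.D2 X j (a, s) (q, t) (e, 1 / 2) / Φ.D2 z j (z 0, 1 / 2) (q, t) (e, 1 / 2) - 1‖ ≤ 1 / 1000
  c3 : ∀ j, j ≠ 0 → ∀ X : Fin (m + 1) → C, (∀ l, X l ∈ S l) → ∀ a ∈ S 0,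
    ∀ s ∈ Icc (1 / 2 - h) (1 / 2 + h), ∀ p ∈ S j, ∀ q ∈ S j, ∀ t, (t = 0 ∨ t = 1) →
    ‖Φ.D2 X j (a, s) (p, 1 / 2) (q, t) / Φ.D2 z j (z 0, 1 / 2) (p, 1 / 2) (q, t) - 1‖ ≤ 1 / 100
  c4 : ∀ j, j ≠ 0 → ∀ X : Fin (m + 1) → C, (∀ l, X l ∈ S l) → ∀ a ∈ S 0, ∀ b ∈ S 0,
    ∀ q ∈ S j, ∀ t ∈ Icc (0 : ℝ) 1,
    ‖Φ.D2 X j (a, v 0) (q, t) (b, u 0) / Φ.D2 z j (z 0, v 0) (q, t) (z 0, u 0) - 1‖ ≤ 1 / 100
  c4' : ∀ j, j ≠ 0 → ∀ X : Fin (m + 1) → C, (∀ l, X l ∈ S l) → ∀ a ∈ S 0, ∀ b ∈ S 0,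
    ∀ q ∈ S j, ∀ t ∈ Icc (0 : ℝ) 1,
    ‖Φ.D2 X j (a, u 0) (q, t) (b, v 0) / Φ.D2 z j (z 0, u 0) (q, t) (z 0, v 0) - 1‖ ≤ 1 / 100
  c5 : ∀ j, ∀ X : Fin (m + 1) → C, (∀ l, X l ∈ S l) → ∀ a ∈ S j, ∀ s ∈ Icc (u j) (v j),
    ‖Φ.chart e g X j (a, s) - Φ.chart e g z j (z j, s)‖ ≤ ε j
  c6 : ∀ j, ε j ≤ ‖Φ.chart e g z j (z j, v j) - Φ.chart e g z j (z j, u j)‖ / 1000
  c7 : ∀ j, ∀ s ∈ Icc (u j) (v j), ∀ t ∈ Icc (u j) (v j),
    ‖Φ.chart e g z j (z j, s) - Φ.chart e g z j (z j, t)‖ ≤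
      ‖Φ.chart e g z j (z j, v j) - Φ.chart e g z j (z j, u j)‖
  c8 : ∀ j, PlaneOK (u j) (v j) (fun s => Φ.chart e g z j (z j, s)) (ε j) (y j)

namespace Cfg

variable {Φ : Sys T m} (c : Cfg Φ)

/-- The viewers are in the transversals. -/
def Adm (X : Fin (m + 1) → C) : Prop := ∀ l, X l ∈ c.S l

/-- Change of the argument of the determinant along the diagonal path of box `j` for the strands `a`, `b`. -/
noncomputable def Om (X : Fin (m + 1) → C) (j : Fin (m + 1)) (a b : C) : ℝ :=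
  ac (fun θ => Φ.D1 X j (a, c.v j - θ * (c.v j - c.u j)) (b, c.u j + θ * (c.v j - c.u j))) 0 1

/-- Height of the strand `a` in box `j`. -/
noncomputable def yy (X : Fin (m + 1) → C) (j : Fin (m + 1)) (a : C) : ℝ :=
  c.y j (fun s => Φ.chart c.e c.g X j (a, s))

open Classical in
/-- `1` if strand `a` is above strand `b` in box `j`, `0` otherwise. -/
noncomputable def sg (X : Fin (m + 1) → C) (j : Fin (m + 1)) (a b : C) : ℝ :=
  if 0 < c.Om X j a b then 1 else 0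

theorem Adm.update {c : Cfg Φ} {X : Fin (m + 1) → C} (hX : c.Adm X) {j : Fin (m + 1)} {x : C}
    (hx : x ∈ c.S j) : c.Adm (Function.update X j x) := by
  intro l
  rcases eq_or_ne l j with rfl | h
  · rw [Function.update_self]
    exact hx
  · rw [Function.update_of_ne h]
    exact hX l

end Cfg

end Pool.Agent.Lib.MP_e9314e_an.PB
end
end

section

section

/-!
# PB: elementary estimates for the four point lemma
-/

set_option autoImplicit false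

namespace Pool.Agent.Lib.MP_e9314e_an.PB

/-- Numbers near `1`: quotient. -/
theorem div_near {x y : ℂ} {r : ℝ} (hr : r ≤ 1 / 100) (hx : ‖x - 1‖ ≤ r) (hy : ‖y - 1‖ ≤ r) :
    ‖x / y - 1‖ ≤ 5 / 2 * r := by
  have hr0 : 0 ≤ r := (norm_nonneg _).trans hx
  have hy1 : 99 / 100 ≤ ‖y‖ := by
    have h1 : ‖(1 : ℂ)‖ ≤ ‖y‖ + ‖y - 1‖ := by
      have := norm_sub_le y (y - 1)
      rwa [sub_sub_cancel] at this
    rw [norm_one] at h1
    linarith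
  have hy0 : y ≠ 0 := by
    rintro rfl
    rw [norm_zero] at hy1
    linarith
  have h2 : x / y - 1 = (x - y) / y := by field_simp
  have h3 : ‖x - y‖ ≤ 2 * r := by
    have := norm_sub_le (x - 1) (y - 1)
    rw [sub_sub_sub_cancel_right] at this
    linarith
  rw [h2, norm_div, div_le_iff₀ (by linarith)]
  nlinarith

private theorem near_aux {r x₁ x₂ : ℂ} (hr : 1 / 4 ≤ ‖r - 1‖) (h₁ : ‖x₁ - 1‖ ≤ 1 / 1000)
    (h₂ : ‖x₂ - 1‖ ≤ 1 / 1000) : ‖(r * x₁ - x₂) - (r - 1)‖ ≤ 9 / 1000 * ‖r - 1‖ := by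
  have h : (r * x₁ - x₂) - (r - 1) = r * (x₁ - 1) - (x₂ - 1) := by ring
  have hr1 : ‖r‖ ≤ ‖r - 1‖ + 1 := by
    have := norm_add_le (r - 1) 1
    rwa [sub_add_cancel, norm_one] at this
  rw [h]
  refine (norm_sub_le _ _).trans ?_
  rw [norm_mul]
  have h3 : ‖r‖ * ‖x₁ - 1‖ ≤ (‖r - 1‖ + 1) * (1 / 1000) :=
    mul_le_mul hr1 h₁ (norm_nonneg _) (by positivity)
  linarith

/-- The quotient of two numbers `r x₁ - x₂` with `xᵢ` near `1`, if `r` is not near `1`: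
`r x₁ - x₂ = (r - 1) (1 + δ)`, `‖δ‖ ≤ (‖r‖ + 1) / 1000 / ‖r - 1‖ ≤ (2 + ‖r - 1‖) / (1000 ‖r - 1‖) ≤ 9 / 1000`. -/
theorem quot_near {r x₁ x₂ x₃ x₄ : ℂ} (hr : 1 / 4 ≤ ‖r - 1‖) (h₁ : ‖x₁ - 1‖ ≤ 1 / 1000)
    (h₂ : ‖x₂ - 1‖ ≤ 1 / 1000) (h₃ : ‖x₃ - 1‖ ≤ 1 / 1000) (h₄ : ‖x₄ - 1‖ ≤ 1 / 1000) :
    r * x₁ - x₂ ≠ 0 ∧ r * x₃ - x₄ ≠ 0 ∧ ‖(r * x₁ - x₂) / (r * x₃ - x₄) - 1‖ ≤ 1 / 10 := by
  have ha := near_aux hr h₁ h₂
  have hb := near_aux hr h₃ h₄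
  set p := r * x₁ - x₂ with hp
  set q := r * x₃ - x₄ with hq
  set R := ‖r - 1‖ with hR
  have hlow : ∀ w : ℂ, ‖w - (r - 1)‖ ≤ 9 / 1000 * R → 991 / 1000 * R ≤ ‖w‖ := by
    intro w hw
    have h1 : ‖r - 1‖ ≤ ‖w‖ + ‖w - (r - 1)‖ := by
      have := norm_sub_le w (w - (r - 1))
      rwa [sub_sub_cancel] at this
    rw [← hR] at h1
    linarith
  have hp1 := hlow p ha
  have hq1 := hlow q hb
  have hp0 : p ≠ 0 := by
    intro h
    rw [h, norm_zero] at hp1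
    linarith
  have hq0 : q ≠ 0 := by
    intro h
    rw [h, norm_zero] at hq1
    linarith
  refine ⟨hp0, hq0, ?_⟩
  have h2 : p / q - 1 = (p - q) / q := by field_simp
  have h3 : ‖p - q‖ ≤ 18 / 1000 * R := by
    have := norm_sub_le (p - (r - 1)) (q - (r - 1))
    rw [sub_sub_sub_cancel_right] at this
    linarith
  rw [h2, norm_div, div_le_iff₀ (by linarith)]
  linarith

/-- If the quotient for the pair `A, B` is far from `1` then `l` is at distance at most `2.1 d` from `B`, so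
the quotient for the pair `v, u` is far from `1`.
Proof: with `L = ‖B - l‖`: the number `(A - l) / (B - l) * x - 1 = ((A - B) + (x - 1) (A - l)) / (B - l)` has norm at most
`(1.01 d + (1.01 d + L) / 400) / L`, hence `L ≤ 2.1 d`; then `‖u - l‖ ≤ 3.2 d`, and
`(v - l) / (u - l) * x₀ - 1 = ((v - u) x₀ + (x₀ - 1) (u - l)) / (u - l)` has norm at least
`0.99 d (1 - 1/400) / (3.2 d) - 1/400 ≥ 1/4`. -/
theorem far_alg {A B v u l x x₀ : ℂ} {d : ℝ} (hd : 0 < d) (hx : ‖x - 1‖ ≤ 1 / 400)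
    (hx₀ : ‖x₀ - 1‖ ≤ 1 / 400) (hAB : ‖A - B‖ ≤ 101 / 100 * d) (hBu : ‖B - u‖ ≤ 101 / 100 * d)
    (hvu : 99 / 100 * d ≤ ‖v - u‖) (hBl : B ≠ l) (hul : u ≠ l)
    (h : 1 / 2 ≤ ‖(A - l) / (B - l) * x - 1‖) : 1 / 4 ≤ ‖(v - l) / (u - l) * x₀ - 1‖ := by
  have hBl0 : B - l ≠ 0 := sub_ne_zero.2 hBl
  have hul0 : u - l ≠ 0 := sub_ne_zero.2 hul
  set L := ‖B - l‖ with hL
  set M := ‖u - l‖ with hM
  have hLpos : 0 < L := norm_pos_iff.2 hBl0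
  have hMpos : 0 < M := norm_pos_iff.2 hul0
  have hLle : L ≤ 21 / 10 * d := by
    have h1 : (A - l) / (B - l) * x - 1 = ((A - B) + (x - 1) * (A - l)) / (B - l) := by
      field_simp
      ring
    rw [h1, norm_div, le_div_iff₀ hLpos] at h
    have h2 : ‖A - l‖ ≤ 101 / 100 * d + L := by
      have := norm_add_le (A - B) (B - l)
      rw [sub_add_sub_cancel] at this
      linarith
    have h3 : ‖(A - B) + (x - 1) * (A - l)‖ ≤ 101 / 100 * d + 1 / 400 * (101 / 100 * d + L) := by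
      refine (norm_add_le _ _).trans ?_
      rw [norm_mul]
      have := mul_le_mul hx h2 (norm_nonneg _) (by norm_num)
      linarith
    linarith
  have hMle : M ≤ 32 / 10 * d := by
    have h1 := norm_sub_le (B - l) (B - u)
    rw [sub_sub_sub_cancel_left] at h1
    rw [← hL, ← hM] at h1
    linarith
  have h4 : (v - l) / (u - l) * x₀ - 1 = ((v - u) * x₀ + (x₀ - 1) * (u - l)) / (u - l) := by
    field_simp
    ring
  have hx₀1 : 399 / 400 ≤ ‖x₀‖ := by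
    have h1 : ‖(1 : ℂ)‖ ≤ ‖x₀‖ + ‖x₀ - 1‖ := by
      have := norm_sub_le x₀ (x₀ - 1)
      rwa [sub_sub_cancel] at this
    rw [norm_one] at h1
    linarith
  have h5 : ‖(v - u) * x₀‖ ≤ ‖(v - u) * x₀ + (x₀ - 1) * (u - l)‖ + ‖(x₀ - 1) * (u - l)‖ := by
    have := norm_sub_le ((v - u) * x₀ + (x₀ - 1) * (u - l)) ((x₀ - 1) * (u - l))
    rwa [add_sub_cancel_right] at this
  rw [norm_mul, norm_mul] at h5
  have h6 : 99 / 100 * d * (399 / 400) ≤ ‖v - u‖ * ‖x₀‖ :=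
    mul_le_mul hvu hx₀1 (by norm_num) (norm_nonneg _)
  have h7 : ‖x₀ - 1‖ * ‖u - l‖ ≤ 1 / 400 * M := mul_le_mul_of_nonneg_right hx₀ (norm_nonneg _)
  rw [h4, norm_div, ← hM, le_div_iff₀ hMpos]
  linarith

end Pool.Agent.Lib.MP_e9314e_an.PB
end

section

/-!
# PB: the Poincaré–Miranda theorem in the square

Otherwise `G = A + i B` has no zero on the square; take a continuous logarithm `g`
(`exists_log2`).  `Im g` lies in `(-π/2, π/2) + 2 π k₁` on the right side (`Re G > 0`), in `(0, π) + 2 π k₂` on the top,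
in `(π/2, 3π/2) + 2 π k₃` on the left, in `(π, 2π) + 2 π k₄` on the bottom; the corners give `k₁ = k₂ = k₃ = k₄` and `k₁ = k₄ + 1`.
(Instead one can use `ac_rect` and `ac_slit`: the four changes of the argument along the sides add up to `0`, but with signs they
add up to `2 π`.)
-/

set_option autoImplicit false

open Set Complex

namespace Pool.Agent.Lib.MP_e9314e_an.PB

/-- A continuous angle with positive cosine increases if the sine changes its sign from negative to positive. -/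
private theorem angle_lt {ψ : ℝ → ℝ} (hψ : ContinuousOn ψ (Icc 0 1))
    (hc : ∀ s ∈ Icc (0 : ℝ) 1, 0 < Real.cos (ψ s)) (h0 : Real.sin (ψ 0) < 0)
    (h1 : 0 < Real.sin (ψ 1)) : ψ 0 < ψ 1 := by
  have m0 : (0 : ℝ) ∈ Icc (0 : ℝ) 1 := ⟨le_rfl, zero_le_one⟩
  have m1 : (1 : ℝ) ∈ Icc (0 : ℝ) 1 := ⟨zero_le_one, le_rfl⟩
  have c0 := hc 0 m0
  have c1 := hc 1 m1
  by_contra hlt
  push Not at hlt
  -- `ψ 1 ≤ ψ 0`
  have hgt : ψ 0 - Real.pi < ψ 1 := by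
    by_contra hle
    push Not at hle
    have hmem : ψ 0 - Real.pi ∈ Icc (ψ 1) (ψ 0) := ⟨hle, by linarith [Real.pi_pos]⟩
    obtain ⟨s, hs, hse⟩ := intermediate_value_Icc' (zero_le_one) hψ hmem
    have := hc s hs
    rw [hse, Real.cos_sub_pi] at this
    linarith
  have hs : 0 < Real.sin (ψ 1 - ψ 0) := by
    rw [Real.sin_sub]
    nlinarith [mul_pos h1 c0, mul_pos c1 (neg_pos.2 h0)]
  have hs' : Real.sin (ψ 1 - ψ 0) ≤ 0 :=
    Real.sin_nonpos_of_nonpos_of_neg_pi_le (by linarith) (by linarith)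
  linarith

theorem miranda {A B : ℝ × ℝ → ℝ} (hA : ContinuousOn A (Icc 0 1 ×ˢ Icc 0 1))
    (hB : ContinuousOn B (Icc 0 1 ×ˢ Icc 0 1))
    (hl : ∀ θ ∈ Icc (0 : ℝ) 1, A (0, θ) < 0) (hr : ∀ θ ∈ Icc (0 : ℝ) 1, 0 < A (1, θ))
    (hb : ∀ t ∈ Icc (0 : ℝ) 1, B (t, 0) < 0) (ht : ∀ t ∈ Icc (0 : ℝ) 1, 0 < B (t, 1)) :
    ∃ p ∈ Icc (0 : ℝ) 1 ×ˢ Icc (0 : ℝ) 1, A p = 0 ∧ B p = 0 := by
  by_contra hno
  push Not at hno
  have hG : ContinuousOn (fun p : ℝ × ℝ => (A p : ℂ) + (B p : ℂ) * I) (Icc (0 : ℝ) 1 ×ˢ Icc (0 : ℝ) 1) :=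
    (continuous_ofReal.comp_continuousOn hA).add
      ((continuous_ofReal.comp_continuousOn hB).mul continuousOn_const)
  have hG0 : ∀ p ∈ Icc (0 : ℝ) 1 ×ˢ Icc (0 : ℝ) 1, (A p : ℂ) + (B p : ℂ) * I ≠ 0 := by
    intro p hp h0
    have h1 := congrArg Complex.re h0
    have h2 := congrArg Complex.im h0
    simp at h1 h2
    exact hno p hp h1 h2
  obtain ⟨g, hg, hge⟩ := exists_log2 zero_le_one zero_le_one hG hG0
  set φ : ℝ × ℝ → ℝ := fun p => (g p).im with hφ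
  have hφc : ContinuousOn φ (Icc (0 : ℝ) 1 ×ˢ Icc (0 : ℝ) 1) := continuous_im.comp_continuousOn hg
  have hre : ∀ p ∈ Icc (0 : ℝ) 1 ×ˢ Icc (0 : ℝ) 1, A p = Real.exp (g p).re * Real.cos (φ p) := by
    intro p hp
    have h1 := congrArg Complex.re (hge p hp)
    rw [Complex.exp_re] at h1
    simp at h1
    exact h1.symm
  have him : ∀ p ∈ Icc (0 : ℝ) 1 ×ˢ Icc (0 : ℝ) 1, B p = Real.exp (g p).re * Real.sin (φ p) := by
    intro p hp
    have h1 := congrArg Complex.im (hge p hp)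
    rw [Complex.exp_im] at h1
    simp at h1
    exact h1.symm
  have m0 : (0 : ℝ) ∈ Icc (0 : ℝ) 1 := ⟨le_rfl, zero_le_one⟩
  have m1 : (1 : ℝ) ∈ Icc (0 : ℝ) 1 := ⟨zero_le_one, le_rfl⟩
  have cr : ∀ θ ∈ Icc (0 : ℝ) 1, 0 < Real.cos (φ (1, θ)) := by
    intro θ hθ
    have h1 := hr θ hθ
    rw [hre (1, θ) ⟨m1, hθ⟩] at h1
    exact pos_of_mul_pos_right h1 (Real.exp_pos _).le
  have cl : ∀ θ ∈ Icc (0 : ℝ) 1, Real.cos (φ (0, θ)) < 0 := by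
    intro θ hθ
    have h1 := hl θ hθ
    rw [hre (0, θ) ⟨m0, hθ⟩] at h1
    by_contra h2
    push Not at h2
    linarith [mul_nonneg (Real.exp_pos (g (0, θ)).re).le h2]
  have st : ∀ t ∈ Icc (0 : ℝ) 1, 0 < Real.sin (φ (t, 1)) := by
    intro t ht'
    have h1 := ht t ht'
    rw [him (t, 1) ⟨ht', m1⟩] at h1
    exact pos_of_mul_pos_right h1 (Real.exp_pos _).le
  have sb : ∀ t ∈ Icc (0 : ℝ) 1, Real.sin (φ (t, 0)) < 0 := by
    intro t ht'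
    have h1 := hb t ht'
    rw [him (t, 0) ⟨ht', m0⟩] at h1
    by_contra h2
    push Not at h2
    linarith [mul_nonneg (Real.exp_pos (g (t, 0)).re).le h2]
  have mflip : ∀ s ∈ Icc (0 : ℝ) 1, 1 - s ∈ Icc (0 : ℝ) 1 := fun s hs => ⟨by linarith [hs.2], by linarith [hs.1]⟩
  -- right side
  have e1 : φ (1, 0) < φ (1, 1) := by
    refine angle_lt (ψ := fun s => φ (1, s)) ?_ cr (sb 1 m1) (st 1 m1)
    exact hφc.comp (by fun_prop) fun s hs => ⟨m1, hs⟩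
  -- top
  have e2 : φ (1, 1) < φ (0, 1) := by
    have := angle_lt (ψ := fun s => φ (1 - s, 1) - Real.pi / 2) ?_ ?_ ?_ ?_
    · simp only [sub_zero, sub_self] at this
      linarith
    · exact (hφc.comp (by fun_prop) fun s hs => ⟨mflip s hs, m1⟩).sub continuousOn_const
    · intro s hs
      rw [Real.cos_sub_pi_div_two]
      exact st _ (mflip s hs)
    · rw [Real.sin_sub_pi_div_two, sub_zero]
      linarith [cr 1 m1]
    · rw [Real.sin_sub_pi_div_two, sub_self]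
      linarith [cl 1 m1]
  -- left side
  have e3 : φ (0, 1) < φ (0, 0) := by
    have := angle_lt (ψ := fun s => φ (0, 1 - s) - Real.pi) ?_ ?_ ?_ ?_
    · simp only [sub_zero, sub_self] at this
      linarith
    · exact (hφc.comp (by fun_prop) fun s hs => ⟨m0, mflip s hs⟩).sub continuousOn_const
    · intro s hs
      rw [Real.cos_sub_pi]
      linarith [cl _ (mflip s hs)]
    · rw [Real.sin_sub_pi, sub_zero]
      linarith [st 0 m0]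
    · rw [Real.sin_sub_pi, sub_self]
      linarith [sb 0 m0]
  -- bottom
  have e4 : φ (0, 0) < φ (1, 0) := by
    have := angle_lt (ψ := fun s => φ (s, 0) + Real.pi / 2) ?_ ?_ ?_ ?_
    · simpa using this
    · exact (hφc.comp (by fun_prop) fun s hs => ⟨hs, m0⟩).add continuousOn_const
    · intro s hs
      rw [Real.cos_add_pi_div_two]
      linarith [sb s hs]
    · rw [Real.sin_add_pi_div_two]
      exact cl 0 m0
    · rw [Real.sin_add_pi_div_two]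
      exact cr 0 m0
  linarith

end Pool.Agent.Lib.MP_e9314e_an.PB
end

section

/-!
# PB: the commutation lemma

`pm`: take continuous logarithms `gf` of `f` and `gh` of `h` on the square with `gf (0, 0) = log (f (0, 0))`,
`gh (0, 0) = log (h (0, 0))`.  Then `Im gf = arg f ∈ [-π/6, π/6]` on the left side (`ac_slit`),
`Im gf = arg f + 2 π W` on the right side with an integer `W` which does not depend on `θ`; similarly
`Im gh = arg h` on the bottom and `arg h + 2 π N` on the top.  If `W = 0` the first alternative holds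
(`|ac| ≤ π/3`), if `N = 0` the second.  Otherwise apply `miranda` to `sgn W * Im gf - π` and
`sgn N * Im gh - π`: at the zero `f` and `h` are both negative real numbers, so neither `‖f - 1‖ < 1/2` nor
`‖h - 1‖ < 1/2`.
-/

set_option autoImplicit false

open Set Complex

namespace Pool.Agent.Lib.MP_e9314e_an.PB

private theorem arg_lt {x : ℂ} (hx : ‖x - 1‖ < 1 / 2) : |arg x| < Real.pi / 2 := by
  have h1 := arg_near hx.le
  have hpi := Real.pi_pos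
  have h2 : Real.pi / 2 * ‖x - 1‖ < Real.pi / 2 * 1 := by
    apply mul_lt_mul_of_pos_left _ (by positivity)
    linarith
  linarith

private theorem slit_of {x : ℂ} (hx : ‖x - 1‖ < 1 / 2) : x ∈ slitPlane := by
  have := Complex.mem_slitPlane_of_norm_lt_one (z := x - 1) (by linarith)
  simpa using this

/-- along a side where `f` is near `1` -/
private theorem side {f : ℝ → ℂ} {g : ℝ → ℂ} (hf : ContinuousOn f (Icc 0 1))
    (hg : ContinuousOn g (Icc 0 1)) (h : ∀ t ∈ Icc (0 : ℝ) 1, exp (g t) = f t)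
    (hn : ∀ t ∈ Icc (0 : ℝ) 1, ‖f t - 1‖ < 1 / 2) :
    ∃ n : ℤ, ∀ t ∈ Icc (0 : ℝ) 1, (g t).im = arg (f t) + 2 * Real.pi * n := by
  have h0 : (0 : ℝ) ∈ Icc (0 : ℝ) 1 := ⟨le_rfl, zero_le_one⟩
  have hne : ∀ t ∈ Icc (0 : ℝ) 1, f t ≠ 0 := fun t ht => by
    rw [← h t ht]
    exact exp_ne_zero _
  obtain ⟨n, hn0⟩ : ∃ n : ℤ, (g 0).im = arg (f 0) + 2 * Real.pi * n := by
    have e1 : exp (g 0) = exp (log (f 0)) := by rw [h 0 h0, exp_log (hne 0 h0)]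
    obtain ⟨n, hn⟩ := Complex.exp_eq_exp_iff_exists_int.1 e1
    refine ⟨n, ?_⟩
    rw [hn]
    simp [Complex.log_im]
    ring
  refine ⟨n, fun t ht => ?_⟩
  have hsub : Icc (0 : ℝ) t ⊆ Icc 0 1 := Icc_subset_Icc le_rfl ht.2
  have e1 := ac_eq ht.1 (hg.mono hsub) (fun s hs => h s (hsub hs))
  have e2 := ac_slit ht.1 (hf.mono hsub) (fun s hs => slit_of (hn s (hsub hs)))
  rw [e1, sub_im] at e2
  linarith

private theorem arg_fun {f : ℝ × ℝ → ℂ} (hf : ContinuousOn f (Icc 0 1 ×ˢ Icc 0 1))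
    (hf0 : ∀ p ∈ Icc (0 : ℝ) 1 ×ˢ Icc (0 : ℝ) 1, f p ≠ 0)
    (hl : ∀ θ ∈ Icc (0 : ℝ) 1, ‖f (0, θ) - 1‖ < 1 / 2)
    (hr : ∀ θ ∈ Icc (0 : ℝ) 1, ‖f (1, θ) - 1‖ < 1 / 2) :
    ∃ (α : ℝ × ℝ → ℝ) (W : ℤ), ContinuousOn α (Icc 0 1 ×ˢ Icc 0 1) ∧
      (∀ p ∈ Icc (0 : ℝ) 1 ×ˢ Icc (0 : ℝ) 1, ∃ x : ℝ, f p = exp ((x : ℂ) + (α p : ℂ) * I)) ∧
      (∀ θ ∈ Icc (0 : ℝ) 1, |α (0, θ)| < Real.pi / 2) ∧
      (∀ θ ∈ Icc (0 : ℝ) 1, |α (1, θ) - 2 * Real.pi * W| < Real.pi / 2) ∧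
      ∀ θ ∈ Icc (0 : ℝ) 1, ac (fun t => f (t, θ)) 0 1 = α (1, θ) - α (0, θ) := by
  obtain ⟨g, hg, hgf⟩ := exists_log2 zero_le_one zero_le_one hf hf0
  have h0 : (0 : ℝ) ∈ Icc (0 : ℝ) 1 := ⟨le_rfl, zero_le_one⟩
  have h1 : (1 : ℝ) ∈ Icc (0 : ℝ) 1 := ⟨zero_le_one, le_rfl⟩
  have hv : ∀ x ∈ Icc (0 : ℝ) 1, ∀ {F : ℝ × ℝ → ℂ}, ContinuousOn F (Icc 0 1 ×ˢ Icc 0 1) →
      ContinuousOn (fun t => F (x, t)) (Icc 0 1) := by
    intro x hx F hF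
    exact hF.comp (by fun_prop) fun t ht => ⟨hx, ht⟩
  have hh : ∀ x ∈ Icc (0 : ℝ) 1, ∀ {F : ℝ × ℝ → ℂ}, ContinuousOn F (Icc 0 1 ×ˢ Icc 0 1) →
      ContinuousOn (fun t => F (t, x)) (Icc 0 1) := by
    intro x hx F hF
    exact hF.comp (by fun_prop) fun t ht => ⟨ht, hx⟩
  obtain ⟨n0, hn0⟩ := side (hv 0 h0 hf) (hv 0 h0 hg) (fun t ht => hgf _ ⟨h0, ht⟩) hl
  obtain ⟨n1, hn1⟩ := side (hv 1 h1 hf) (hv 1 h1 hg) (fun t ht => hgf _ ⟨h1, ht⟩) hr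
  refine ⟨fun p => (g p).im - 2 * Real.pi * n0, n1 - n0, ?_, ?_, ?_, ?_, ?_⟩
  · exact (Complex.continuous_im.comp_continuousOn hg).sub continuousOn_const
  · intro p hp
    refine ⟨(g p).re, ?_⟩
    rw [← hgf p hp]
    apply Complex.exp_eq_exp_iff_exists_int.2
    refine ⟨n0, ?_⟩
    apply Complex.ext
    · simp
    · simp
      ring
  · intro θ hθ
    have e1 := hn0 θ hθ
    have e2 := arg_lt (hl θ hθ)
    show |(g (0, θ)).im - 2 * Real.pi * n0| < Real.pi / 2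
    rw [show (g (0, θ)).im - 2 * Real.pi * n0 = arg (f (0, θ)) by linarith]
    exact e2
  · intro θ hθ
    have e1 := hn1 θ hθ
    have e2 := arg_lt (hr θ hθ)
    show |(g (1, θ)).im - 2 * Real.pi * n0 - 2 * Real.pi * ((n1 - n0 : ℤ) : ℝ)| < Real.pi / 2
    have e3 : (g (1, θ)).im - 2 * Real.pi * n0 - 2 * Real.pi * ((n1 - n0 : ℤ) : ℝ) =
        arg (f (1, θ)) := by
      push_cast
      linarith
    rw [e3]
    exact e2
  · intro θ hθ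
    have e1 := ac_eq zero_le_one (hh θ hθ hg) (fun t ht => hgf (t, θ) ⟨ht, hθ⟩)
    rw [e1, sub_im]
    ring

private theorem neg_far {x : ℂ} {y α : ℝ} (hx : x = exp ((y : ℂ) + (α : ℂ) * I))
    (hα : α = Real.pi ∨ α = - Real.pi) : ¬ ‖x - 1‖ < 1 / 2 := by
  have h1 : x = ((- Real.exp y : ℝ) : ℂ) := by
    rw [hx, exp_add]
    rcases hα with rfl | rfl
    · rw [exp_pi_mul_I]
      push_cast
      ring
    · have : exp (((-Real.pi : ℝ) : ℂ) * I) = -1 := by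
        push_cast
        rw [neg_mul, exp_neg, exp_pi_mul_I]
        norm_num
      rw [this]
      push_cast
      ring
  have h2 : x - 1 = ((- Real.exp y - 1 : ℝ) : ℂ) := by
    rw [h1]
    push_cast
    ring
  rw [h2, Complex.norm_real, Real.norm_eq_abs, abs_of_neg (by have := Real.exp_pos y; linarith)]
  have := Real.exp_pos y
  linarith

private theorem sign_mul_abs {W : ℤ} (hW : W ≠ 0) : ∃ s : ℝ, (s = 1 ∨ s = -1) ∧ 1 ≤ s * W := by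
  rcases lt_or_gt_of_ne hW with h | h
  · refine ⟨-1, Or.inr rfl, ?_⟩
    have : (W : ℝ) ≤ -1 := by exact_mod_cast (by omega : W ≤ -1)
    linarith
  · refine ⟨1, Or.inl rfl, ?_⟩
    have : (1 : ℝ) ≤ W := by exact_mod_cast (by omega : 1 ≤ W)
    linarith

theorem pm {f h : ℝ × ℝ → ℂ} (hf : ContinuousOn f (Icc 0 1 ×ˢ Icc 0 1))
    (hf0 : ∀ p ∈ Icc (0 : ℝ) 1 ×ˢ Icc (0 : ℝ) 1, f p ≠ 0)
    (hh : ContinuousOn h (Icc 0 1 ×ˢ Icc 0 1))
    (hh0 : ∀ p ∈ Icc (0 : ℝ) 1 ×ˢ Icc (0 : ℝ) 1, h p ≠ 0)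
    (hl : ∀ θ ∈ Icc (0 : ℝ) 1, ‖f (0, θ) - 1‖ < 1 / 2)
    (hr : ∀ θ ∈ Icc (0 : ℝ) 1, ‖f (1, θ) - 1‖ < 1 / 2)
    (hb : ∀ t ∈ Icc (0 : ℝ) 1, ‖h (t, 0) - 1‖ < 1 / 2)
    (ht : ∀ t ∈ Icc (0 : ℝ) 1, ‖h (t, 1) - 1‖ < 1 / 2)
    (hor : ∀ p ∈ Icc (0 : ℝ) 1 ×ˢ Icc (0 : ℝ) 1, ‖f p - 1‖ < 1 / 2 ∨ ‖h p - 1‖ < 1 / 2) :
    (∀ θ ∈ Icc (0 : ℝ) 1, |ac (fun t => f (t, θ)) 0 1| < Real.pi) ∨
      ∀ t ∈ Icc (0 : ℝ) 1, |ac (fun θ => h (t, θ)) 0 1| < Real.pi := by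
  have hpi := Real.pi_pos
  obtain ⟨α, W, hα1, hα2, hα3, hα4, hα5⟩ := arg_fun hf hf0 hl hr
  have hswap : ContinuousOn (fun p : ℝ × ℝ => h (p.2, p.1)) (Icc 0 1 ×ˢ Icc 0 1) :=
    hh.comp (by fun_prop) fun p hp => ⟨hp.2, hp.1⟩
  obtain ⟨β, N, hβ1, hβ2, hβ3, hβ4, hβ5⟩ := arg_fun (f := fun p : ℝ × ℝ => h (p.2, p.1)) hswap
    (fun p hp => hh0 _ ⟨hp.2, hp.1⟩) hb ht
  by_cases hW : W = 0
  · left
    intro θ hθ
    rw [hα5 θ hθ]
    have e1 := abs_lt.1 (hα3 θ hθ)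
    have e2 := abs_lt.1 (hα4 θ hθ)
    rw [hW] at e2
    push_cast at e2
    rw [abs_lt]
    constructor <;> linarith [e1.1, e1.2, e2.1, e2.2]
  by_cases hN : N = 0
  · right
    intro t ht'
    have e0 := hβ5 t ht'
    simp only at e0
    rw [e0]
    have e1 := abs_lt.1 (hβ3 t ht')
    have e2 := abs_lt.1 (hβ4 t ht')
    rw [hN] at e2
    push_cast at e2
    rw [abs_lt]
    constructor <;> linarith [e1.1, e1.2, e2.1, e2.2]
  exfalso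
  obtain ⟨s, hs, hsW⟩ := sign_mul_abs hW
  obtain ⟨s', hs', hsN⟩ := sign_mul_abs hN
  have hmul : ∀ (s x : ℝ), (s = 1 ∨ s = -1) → |x| < Real.pi / 2 →
      -(Real.pi / 2) < s * x ∧ s * x < Real.pi / 2 := by
    intro s x hs hx
    have := abs_lt.1 hx
    rcases hs with rfl | rfl
    · constructor <;> linarith [this.1, this.2]
    · constructor <;> linarith [this.1, this.2]
  obtain ⟨p, hp, hpA, hpB⟩ := miranda (A := fun p => s * α p - Real.pi)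
    (B := fun p => s' * β (p.2, p.1) - Real.pi)
    ((continuousOn_const.mul hα1).sub continuousOn_const)
    ((continuousOn_const.mul (hβ1.comp (by fun_prop) fun p hp => ⟨hp.2, hp.1⟩)).sub
      continuousOn_const)
    (fun θ hθ => by
      have := hmul s _ hs (hα3 θ hθ)
      linarith [this.2])
    (fun θ hθ => by
      have h1 := hmul s _ hs (hα4 θ hθ)
      have h2 : s * (α (1, θ) - 2 * Real.pi * W) = s * α (1, θ) - 2 * Real.pi * (s * W) := by ring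
      rw [h2] at h1
      have h3 : 2 * Real.pi * 1 ≤ 2 * Real.pi * (s * W) :=
        mul_le_mul_of_nonneg_left hsW (by positivity)
      show 0 < s * α (1, θ) - Real.pi
      linarith [h1.1])
    (fun t ht => by
      have := hmul s' _ hs' (hβ3 t ht)
      show s' * β (0, t) - Real.pi < 0
      linarith [this.2])
    (fun t ht => by
      have h1 := hmul s' _ hs' (hβ4 t ht)
      have h2 : s' * (β (1, t) - 2 * Real.pi * N) = s' * β (1, t) - 2 * Real.pi * (s' * N) := by ring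
      rw [h2] at h1
      have h3 : 2 * Real.pi * 1 ≤ 2 * Real.pi * (s' * N) :=
        mul_le_mul_of_nonneg_left hsN (by positivity)
      show 0 < s' * β (1, t) - Real.pi
      linarith [h1.1])
  have hval : ∀ (s x : ℝ), (s = 1 ∨ s = -1) → s * x - Real.pi = 0 →
      x = Real.pi ∨ x = - Real.pi := by
    intro s x hs hx
    rcases hs with rfl | rfl
    · left; linarith
    · right; linarith
  obtain ⟨x, hx⟩ := hα2 p hp
  obtain ⟨y, hy⟩ := hβ2 (p.2, p.1) ⟨hp.2, hp.1⟩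
  rcases hor p hp with h1 | h1
  · exact neg_far hx (hval s _ hs hpA) h1
  · exact neg_far (x := h p) hy (hval s' _ hs' hpB) h1

end Pool.Agent.Lib.MP_e9314e_an.PB
end

section

/-!
# PB: the strands of a box are linearly ordered

`order` (`Sys.chart_sub`, `Pre.chart_ne`, `Pre.chart_continuousOn` with `c.pre`): the arcs `s ↦ chart X j (a, s)`, `a ∈ S j`, are continuous on `[u j, v j]`, `ε j`-close to the base arc (`c5`) and disjoint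
(`chart_sub`, `Pre.D1_ne_S`, `Pre.D1_ne_e`, `Pre.D1_ne_ge`, with `c.pre`).  By `chart_sub` the function in `Om` is `(chart a - chart b) * D1 a e * D1 b e / D1 g e`; the factors `D1 a e` stay within a
factor `D(1, 1/1000)` of a constant (`c1`), so their arguments change by at most `π / 1000` each (`ac_slit`, `arg_near` after division
by the constant).  Use `c8`, `ac_mul`, `ac_const_mul`.
-/

set_option autoImplicit false

open Set Complex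

namespace Pool.Agent.Lib.MP_e9314e_an.PB

variable {C : Type*} [TopologicalSpace C] {T : C ≃ₜ C} {m : ℕ} {Φ : Sys T m} (c : Cfg Φ)

private theorem ord_ac_small {f : ℝ → ℂ} (hf : ContinuousOn f (Icc 0 1))
    (h : ∀ t ∈ Icc (0 : ℝ) 1, ‖f t - 1‖ ≤ 1 / 1000) : |ac f 0 1| ≤ Real.pi / 1000 := by
  have hs : ∀ t ∈ Icc (0 : ℝ) 1, f t ∈ slitPlane := by
    intro t ht
    have h1 : ‖f t - 1‖ < 1 := lt_of_le_of_lt (h t ht) (by norm_num)
    have h2 := mem_slitPlane_of_norm_lt_one h1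
    rwa [add_sub_cancel] at h2
  rw [ac_slit zero_le_one hf hs]
  have h0 : (0 : ℝ) ∈ Icc (0 : ℝ) 1 := left_mem_Icc.2 zero_le_one
  have h1 : (1 : ℝ) ∈ Icc (0 : ℝ) 1 := right_mem_Icc.2 zero_le_one
  have a0 := arg_near (x := f 0) ((h 0 h0).trans (by norm_num))
  have a1 := arg_near (x := f 1) ((h 1 h1).trans (by norm_num))
  have hpi := Real.pi_pos
  have b0 : Real.pi / 2 * ‖f 0 - 1‖ ≤ Real.pi / 2 * (1 / 1000) :=
    mul_le_mul_of_nonneg_left (h 0 h0) (by positivity)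
  have b1 : Real.pi / 2 * ‖f 1 - 1‖ ≤ Real.pi / 2 * (1 / 1000) :=
    mul_le_mul_of_nonneg_left (h 1 h1) (by positivity)
  have a0' := abs_le.1 a0
  have a1' := abs_le.1 a1
  rw [abs_le]
  constructor <;> linarith [a0'.1, a0'.2, a1'.1, a1'.2]

namespace Cfg

private theorem ord_win {c : Cfg Φ} (j : Fin (m + 1)) {s : ℝ} (hs : s ∈ Icc (c.u j) (c.v j)) :
    s ∈ Icc (1 / 2 - c.h) (1 / 2 + c.h) :=
  ⟨(c.hu j).trans hs.1, hs.2.trans (c.hv j)⟩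

private theorem ord_win01 {c : Cfg Φ} (j : Fin (m + 1)) {s : ℝ} (hs : s ∈ Icc (c.u j) (c.v j)) :
    s ∈ Icc (0 : ℝ) 1 := by
  have h1 := ord_win j hs
  have h2 := c.h4
  have h3 := c.h0
  exact ⟨by linarith [h1.1], by linarith [h1.2]⟩

private theorem ord_down {c : Cfg Φ} (j : Fin (m + 1)) {θ : ℝ} (hθ : θ ∈ Icc (0 : ℝ) 1) :
    c.v j - θ * (c.v j - c.u j) ∈ Icc (c.u j) (c.v j) := by
  have h := c.uv j
  have h1 : 0 ≤ θ * (c.v j - c.u j) := mul_nonneg hθ.1 (by linarith)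
  have h2 : θ * (c.v j - c.u j) ≤ 1 * (c.v j - c.u j) :=
    mul_le_mul_of_nonneg_right hθ.2 (by linarith)
  exact ⟨by linarith, by linarith⟩

private theorem ord_up {c : Cfg Φ} (j : Fin (m + 1)) {θ : ℝ} (hθ : θ ∈ Icc (0 : ℝ) 1) :
    c.u j + θ * (c.v j - c.u j) ∈ Icc (c.u j) (c.v j) := by
  have h := c.uv j
  have h1 : 0 ≤ θ * (c.v j - c.u j) := mul_nonneg hθ.1 (by linarith)
  have h2 : θ * (c.v j - c.u j) ≤ 1 * (c.v j - c.u j) :=
    mul_le_mul_of_nonneg_right hθ.2 (by linarith)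
  exact ⟨by linarith, by linarith⟩

private theorem ord_Om {X : Fin (m + 1) → C} (hX : c.Adm X) {j : Fin (m + 1)} {a b : C}
    (ha : a ∈ c.S j) (hb : b ∈ c.S j) (hab : a ≠ b) :
    |c.Om X j a b - ac (fun θ => Φ.chart c.e c.g X j (a, c.v j - θ * (c.v j - c.u j)) -
      Φ.chart c.e c.g X j (b, c.u j + θ * (c.v j - c.u j))) 0 1| ≤ Real.pi / 8 := by
  set W : ℂ := Φ.D1 c.z j (c.z j, 1 / 2) (c.e, 1 / 2) with hW
  have hW0 : W ≠ 0 := c.pre.D1_ne_e Φ c.pre.zS (c.pre.zS j) (by constructor <;> norm_num)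
  set R : ℂ := Φ.D1 X j (c.g, 1 / 2) (c.e, 1 / 2) with hR
  have hR0 : R ≠ 0 := c.pre.D1_ne_ge Φ hX j
  set P : ℝ → ℂ := fun θ => Φ.D1 X j (a, c.v j - θ * (c.v j - c.u j)) (c.e, 1 / 2) with hP
  set Q : ℝ → ℂ := fun θ => Φ.D1 X j (b, c.u j + θ * (c.v j - c.u j)) (c.e, 1 / 2) with hQ
  set A : ℝ → ℂ := fun s => Φ.chart c.e c.g X j (a, s) with hA
  set B : ℝ → ℂ := fun s => Φ.chart c.e c.g X j (b, s) with hB
  have hP0 : ∀ θ ∈ Icc (0 : ℝ) 1, P θ ≠ 0 := fun θ hθ =>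
    c.pre.D1_ne_e Φ hX ha (ord_win01 j (ord_down j hθ))
  have hQ0 : ∀ θ ∈ Icc (0 : ℝ) 1, Q θ ≠ 0 := fun θ hθ =>
    c.pre.D1_ne_e Φ hX hb (ord_win01 j (ord_up j hθ))
  have hPc : Continuous P := by
    have h1 : Continuous fun θ : ℝ => ((X, ((a, c.v j - θ * (c.v j - c.u j)), (c.e, 1 / 2))) :
        (Fin (m + 1) → C) × (C × ℝ) × (C × ℝ)) := by fun_prop
    exact (Φ.continuous_D1 j).comp h1
  have hQc : Continuous Q := by
    have h1 : Continuous fun θ : ℝ => ((X, ((b, c.u j + θ * (c.v j - c.u j)), (c.e, 1 / 2))) :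
        (Fin (m + 1) → C) × (C × ℝ) × (C × ℝ)) := by fun_prop
    exact (Φ.continuous_D1 j).comp h1
  have hPW : ∀ θ ∈ Icc (0 : ℝ) 1, ‖P θ / W - 1‖ ≤ 1 / 1000 := fun θ hθ =>
    c.c1 j X hX a ha _ (ord_win j (ord_down j hθ))
  have hQW : ∀ θ ∈ Icc (0 : ℝ) 1, ‖Q θ / W - 1‖ ≤ 1 / 1000 := fun θ hθ =>
    c.c1 j X hX b hb _ (ord_win j (ord_up j hθ))
  have hdc : ContinuousOn (fun θ => A (c.v j - θ * (c.v j - c.u j)) -
      B (c.u j + θ * (c.v j - c.u j))) (Icc 0 1) := by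
    apply ContinuousOn.sub
    · exact (c.pre.chart_continuousOn Φ hX ha).comp (Continuous.continuousOn (by fun_prop))
        (fun θ hθ => ord_win01 j (ord_down j hθ))
    · exact (c.pre.chart_continuousOn Φ hX hb).comp (Continuous.continuousOn (by fun_prop))
        (fun θ hθ => ord_win01 j (ord_up j hθ))
  have hd0 : ∀ θ ∈ Icc (0 : ℝ) 1, A (c.v j - θ * (c.v j - c.u j)) -
      B (c.u j + θ * (c.v j - c.u j)) ≠ 0 := fun θ hθ =>
    sub_ne_zero.2 (c.pre.chart_ne Φ hX ha hb (ord_win01 j (ord_down j hθ))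
      (ord_win01 j (ord_up j hθ)) (Or.inl hab))
  have hK : W ^ 2 / R ≠ 0 := div_ne_zero (pow_ne_zero 2 hW0) hR0
  have hPn : NZ (fun θ => P θ / W) 0 1 :=
    ⟨(hPc.div_const W).continuousOn, fun θ hθ => div_ne_zero (hP0 θ hθ) hW0⟩
  have hQn : NZ (fun θ => Q θ / W) 0 1 :=
    ⟨(hQc.div_const W).continuousOn, fun θ hθ => div_ne_zero (hQ0 θ hθ) hW0⟩
  have hPQ : NZ (fun θ => P θ / W * (Q θ / W)) 0 1 :=
    ⟨hPn.1.mul hQn.1, fun θ hθ => mul_ne_zero (hPn.2 θ hθ) (hQn.2 θ hθ)⟩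
  have hKPQ : NZ (fun θ => W ^ 2 / R * (P θ / W * (Q θ / W))) 0 1 :=
    ⟨continuousOn_const.mul hPQ.1, fun θ hθ => mul_ne_zero hK (hPQ.2 θ hθ)⟩
  have hOm : c.Om X j a b = ac (fun θ => (A (c.v j - θ * (c.v j - c.u j)) -
      B (c.u j + θ * (c.v j - c.u j))) * (W ^ 2 / R * (P θ / W * (Q θ / W)))) 0 1 := by
    unfold Om
    apply ac_congr
    intro θ hθ
    rw [Φ.chart_sub (e := c.e) (g := c.g) X j _ _ (hP0 θ hθ) (hQ0 θ hθ) hR0]
    have e1 : W ^ 2 / R * (P θ / W * (Q θ / W)) = P θ * Q θ / R := by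
      field_simp
    rw [e1]
  rw [hOm, ac_mul zero_le_one ⟨hdc, hd0⟩ hKPQ, ac_const_mul zero_le_one hPQ hK,
    ac_mul zero_le_one hPn hQn]
  have e1 := abs_le.1 (ord_ac_small hPn.1 hPW)
  have e2 := abs_le.1 (ord_ac_small hQn.1 hQW)
  have hpi := Real.pi_pos
  rw [abs_le]
  constructor <;> linarith [e1.1, e1.2, e2.1, e2.2]

theorem order {X : Fin (m + 1) → C} (hX : c.Adm X) {j : Fin (m + 1)} {a b : C} (ha : a ∈ c.S j)
    (hb : b ∈ c.S j) (hab : a ≠ b) :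
    (c.yy X j b < c.yy X j a ∧ |c.Om X j a b - Real.pi| ≤ Real.pi / 4) ∨
      (c.yy X j a < c.yy X j b ∧ |c.Om X j a b + Real.pi| ≤ Real.pi / 4) := by
  have hsub : Icc (c.u j) (c.v j) ⊆ Icc (0 : ℝ) 1 := fun s hs => ord_win01 j hs
  have h := c.c8 j (fun s => Φ.chart c.e c.g X j (a, s)) (fun s => Φ.chart c.e c.g X j (b, s))
    ((c.pre.chart_continuousOn Φ hX ha).mono hsub) ((c.pre.chart_continuousOn Φ hX hb).mono hsub)
    (fun s hs => c.c5 j X hX a ha s hs) (fun s hs => c.c5 j X hX b hb s hs)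
    (fun s hs t ht => c.pre.chart_ne Φ hX ha hb (hsub hs) (hsub ht) (Or.inl hab))
  have hO := abs_le.1 (ord_Om c hX ha hb hab)
  rcases h with ⟨h1, h2⟩ | ⟨h1, h2⟩
  · left
    refine ⟨h1, ?_⟩
    have h3 := abs_le.1 h2
    rw [abs_le]
    constructor <;> linarith [h3.1, h3.2, hO.1, hO.2]
  · right
    refine ⟨h1, ?_⟩
    have h3 := abs_le.1 h2
    rw [abs_le]
    constructor <;> linarith [h3.1, h3.2, hO.1, hO.2]

theorem sg_eq_one_iff {X : Fin (m + 1) → C} (hX : c.Adm X) {j : Fin (m + 1)} {a b : C} (ha : a ∈ c.S j)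
    (hb : b ∈ c.S j) (hab : a ≠ b) : c.sg X j a b = 1 ↔ c.yy X j b < c.yy X j a := by
  have hpi := Real.pi_pos
  unfold sg
  rcases c.order hX ha hb hab with ⟨h1, h2⟩ | ⟨h1, h2⟩
  · have h3 := abs_le.1 h2
    rw [if_pos (by linarith [h3.1])]
    exact ⟨fun _ => h1, fun _ => rfl⟩
  · have h3 := abs_le.1 h2
    rw [if_neg (by linarith [h3.2])]
    constructor
    · intro h
      norm_num at h
    · intro h
      exact absurd h (lt_asymm h1)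

theorem sg_cases (X : Fin (m + 1) → C) (j : Fin (m + 1)) (a b : C) :
    c.sg X j a b = 0 ∨ c.sg X j a b = 1 := by
  unfold sg
  split_ifs
  · exact Or.inr rfl
  · exact Or.inl rfl

private theorem ord_ne {X : Fin (m + 1) → C} (hX : c.Adm X) {j : Fin (m + 1)} {a b : C}
    (ha : a ∈ c.S j) (hb : b ∈ c.S j) (hab : a ≠ b) : c.yy X j a ≠ c.yy X j b := by
  rcases c.order hX ha hb hab with ⟨h1, _⟩ | ⟨h1, _⟩
  · exact ne_of_gt h1
  · exact ne_of_lt h1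

private theorem ord_one {X : Fin (m + 1) → C} (hX : c.Adm X) {j : Fin (m + 1)} {a b : C}
    (ha : a ∈ c.S j) (hb : b ∈ c.S j) (hab : a ≠ b) (h : c.yy X j b < c.yy X j a) :
    c.sg X j a b = 1 := (c.sg_eq_one_iff hX ha hb hab).2 h

private theorem ord_zero {X : Fin (m + 1) → C} (hX : c.Adm X) {j : Fin (m + 1)} {a b : C}
    (ha : a ∈ c.S j) (hb : b ∈ c.S j) (hab : a ≠ b) (h : c.yy X j a < c.yy X j b) :
    c.sg X j a b = 0 := by
  rcases c.sg_cases X j a b with h0 | h1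
  · exact h0
  · exact absurd ((c.sg_eq_one_iff hX ha hb hab).1 h1) (lt_asymm h)

theorem sg_swap {X : Fin (m + 1) → C} (hX : c.Adm X) {j : Fin (m + 1)} {a b : C} (ha : a ∈ c.S j)
    (hb : b ∈ c.S j) (hab : a ≠ b) : c.sg X j a b + c.sg X j b a = 1 := by
  rcases lt_or_gt_of_ne (ord_ne c hX ha hb hab) with h | h
  · rw [ord_zero c hX ha hb hab h, ord_one c hX hb ha hab.symm h, zero_add]
  · rw [ord_one c hX ha hb hab h, ord_zero c hX hb ha hab.symm h, add_zero]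

/-- Monotonicity used for the box `0`. -/
theorem sg_mono {X : Fin (m + 1) → C} (hX : c.Adm X) {j : Fin (m + 1)} {a b x : C} (ha : a ∈ c.S j)
    (hb : b ∈ c.S j) (hx : x ∈ c.S j) (hab : a ≠ b) (hxa : x ≠ a) (hxb : x ≠ b) :
    0 ≤ (c.sg X j a b - 1 / 2) * (c.sg X j a x - c.sg X j b x) := by
  rcases lt_or_gt_of_ne (ord_ne c hX ha hb hab) with h | h
  · rw [ord_zero c hX ha hb hab h]
    rcases lt_or_gt_of_ne (ord_ne c hX ha hx hxa.symm) with h1 | h1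
    · rw [ord_zero c hX ha hx hxa.symm h1]
      rcases c.sg_cases X j b x with h2 | h2 <;> rw [h2] <;> norm_num
    · rw [ord_one c hX ha hx hxa.symm h1, ord_one c hX hb hx hxb.symm (h1.trans h)]
      norm_num
  · rw [ord_one c hX ha hb hab h]
    rcases lt_or_gt_of_ne (ord_ne c hX hb hx hxb.symm) with h1 | h1
    · rw [ord_zero c hX hb hx hxb.symm h1]
      rcases c.sg_cases X j a x with h2 | h2 <;> rw [h2] <;> norm_num
    · rw [ord_one c hX hb hx hxb.symm h1, ord_one c hX ha hx hxa.symm (h1.trans h)]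
      norm_num

/-- Of three different strands one is strictly between the two others. -/
theorem sg_between {X : Fin (m + 1) → C} (hX : c.Adm X) {j : Fin (m + 1)} {a b x : C} (ha : a ∈ c.S j)
    (hb : b ∈ c.S j) (hx : x ∈ c.S j) (hab : a ≠ b) (hxa : x ≠ a) (hxb : x ≠ b) :
    c.sg X j a x ≠ c.sg X j b x ∨ c.sg X j a b ≠ c.sg X j x b ∨ c.sg X j b a ≠ c.sg X j x a := by
  rcases lt_or_gt_of_ne (ord_ne c hX ha hb hab) with h | h <;>
  rcases lt_or_gt_of_ne (ord_ne c hX ha hx hxa.symm) with h1 | h1 <;>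
  rcases lt_or_gt_of_ne (ord_ne c hX hb hx hxb.symm) with h2 | h2
  · -- a < b < x
    right; left
    rw [ord_zero c hX ha hb hab h, ord_one c hX hx hb hxb h2]
    norm_num
  · -- a < x < b
    left
    rw [ord_zero c hX ha hx hxa.symm h1, ord_one c hX hb hx hxb.symm h2]
    norm_num
  · exact absurd (h.trans h2) (lt_asymm h1)
  · -- x < a < b
    right; right
    rw [ord_one c hX hb ha hab.symm h, ord_zero c hX hx ha hxa h1]
    norm_num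
  · -- b < a < x
    right; right
    rw [ord_zero c hX hb ha hab.symm h, ord_one c hX hx ha hxa h1]
    norm_num
  · exact absurd (h1.trans h2) (lt_asymm h)
  · -- b < x < a
    left
    rw [ord_one c hX ha hx hxa.symm h1, ord_zero c hX hb hx hxb.symm h2]
    norm_num
  · -- x < b < a
    right; left
    rw [ord_one c hX ha hb hab h, ord_zero c hX hx hb hxb h2]
    norm_num

end Cfg

end Pool.Agent.Lib.MP_e9314e_an.PB
end

section

/-!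
# PB: estimates for the four point lemma

Notation: box `0`, box `j ≠ 0`, viewers `X`, `A = (a, s)`, `B = (b, s')` in box `0`, `Q = (q, t)` with `q ∈ S j`, `q ≠ X j`, and
`r = D1 X 0 A Q / D1 X 0 B Q`.

`four_end`: `D1 X 0 A Q = D2 X j A (X j, 1/2) Q` (`D2_self`, `Function.update_eq_self`), `c3`, `div_near`.

`four_far`: charts of box `0` at `X`; `λ = chart Q`; `chart_sub` gives `r = (chart A - λ) / (chart B - λ) * (D1 A e / D1 B e)`; the last factor is within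
`1/400` of `1` (`c1`, `div_near`).  `c5`, `c6`, `c7` for `j = 0` give the distances in `far_alg` with
`d = ‖chart (z 0, v 0) - chart (z 0, u 0)‖` at `X = z`; `d > 0` since `c8`, ... or since `chart_sub` and `D1_ne_S` give
`chart (z 0, v 0) ≠ chart (z 0, u 0)`.  Apply `far_alg` with `v = chart X (z 0, v 0)`, `u = chart X (z 0, u 0)`.

`four_pluck`: from `D2_pluck` with middle point `P = (X j, 1/2)` for `(A, B, Q, E)` and with middle point `Q` for `(A, B, P, E)`, and `D2_swap`: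
`B_P(A,B) B_P(Q,E) = B_P(A,Q) B_P(B,E) - B_P(B,Q) B_P(A,E)`, `B_Q(A,B) B_P(Q,E) = B_P(A,Q) B_Q(B,E) - B_P(B,Q) B_Q(A,E)`
where `B_P(x, y) = D2 X j x P y = D1 X 0 x y`, `B_Q(x, y) = D2 X j x Q y`.

`four_near`: `four_pluck` divided by `B_P(B,Q)`, then `quot_near` with
`x₁ = D1 X 0 B E / D1 z 0 (z 0, 1/2) E` etc. (`c1` for `D1`, `c2` for `D2`; in `c2` the base value `D2 z j (z 0, 1/2) Q E`).
-/

set_option autoImplicit false

open Set Complex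

namespace Pool.Agent.Lib.MP_e9314e_an.PB

variable {C : Type*} [TopologicalSpace C] {T : C ≃ₜ C} {m : ℕ} {Φ : Sys T m} (c : Cfg Φ)

namespace Cfg

private theorem ne_of_near {x y : ℂ} {r : ℝ} (hr : r < 1) (h : ‖x / y - 1‖ ≤ r) : x ≠ 0 ∧ y ≠ 0 := by
  constructor
  · rintro rfl
    rw [zero_div, zero_sub, norm_neg, norm_one] at h
    linarith
  · rintro rfl
    rw [div_zero, zero_sub, norm_neg, norm_one] at h
    linarith

private theorem D1_eq_D2 (Φ : Sys T m) (X : Fin (m + 1) → C) {j : Fin (m + 1)} (hj : j ≠ 0) (A Q : C × ℝ) :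
    Φ.D1 X 0 A Q = Φ.D2 X j A (X j, 1 / 2) Q := by
  rw [Φ.D2_self X hj, Function.update_eq_self]

private theorem mem01 {c : Cfg Φ} {s : ℝ} (hs : s ∈ Icc (1 / 2 - c.h) (1 / 2 + c.h)) : s ∈ Ioo (0 : ℝ) 1 := by
  have h4 := c.h4
  exact ⟨by linarith [hs.1], by linarith [hs.2]⟩

private theorem memh {c : Cfg Φ} {s : ℝ} (j : Fin (m + 1)) (hs : s ∈ Icc (c.u j) (c.v j)) :
    s ∈ Icc (1 / 2 - c.h) (1 / 2 + c.h) :=
  ⟨(c.hu j).trans hs.1, hs.2.trans (c.hv j)⟩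

theorem four_end {X : Fin (m + 1) → C} (hX : c.Adm X) {j : Fin (m + 1)} (hj : j ≠ 0) {q a b : C}
    (hq : q ∈ c.S j) (ha : a ∈ c.S 0) (hb : b ∈ c.S 0) {s s' t : ℝ}
    (hs : s ∈ Icc (1 / 2 - c.h) (1 / 2 + c.h)) (hs' : s' ∈ Icc (1 / 2 - c.h) (1 / 2 + c.h))
    (ht : t = 0 ∨ t = 1) : ‖Φ.D1 X 0 (a, s) (q, t) / Φ.D1 X 0 (b, s') (q, t) - 1‖ ≤ 1 / 40 := by
  have h1 := c.c3 j hj X hX a ha s hs (X j) (hX j) q hq t ht
  have h2 := c.c3 j hj X hX b hb s' hs' (X j) (hX j) q hq t ht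
  rw [← D1_eq_D2 Φ X hj] at h1 h2
  obtain ⟨_, hR⟩ := ne_of_near (by norm_num) h1
  have h3 := div_near (r := 1 / 100) le_rfl h1 h2
  rw [div_div_div_cancel_right₀ hR] at h3
  refine h3.trans ?_
  norm_num

private theorem quot_eq {X : Fin (m + 1) → C} (hX : c.Adm X) {j : Fin (m + 1)} (hj : j ≠ 0) {q a b : C}
    (hq : q ∈ c.S j) (hqX : q ≠ X j) (ha : a ∈ c.S 0) (hb : b ∈ c.S 0) {s s' t : ℝ}
    (hs : s ∈ Icc (c.u 0) (c.v 0)) (hs' : s' ∈ Icc (c.u 0) (c.v 0)) (ht : t ∈ Icc (0 : ℝ) 1) :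
    Φ.chart c.e c.g X 0 (b, s') ≠ Φ.chart c.e c.g X 0 (q, t) ∧
    Φ.D1 X 0 (a, s) (q, t) / Φ.D1 X 0 (b, s') (q, t) =
      (Φ.chart c.e c.g X 0 (a, s) - Φ.chart c.e c.g X 0 (q, t)) /
        (Φ.chart c.e c.g X 0 (b, s') - Φ.chart c.e c.g X 0 (q, t)) *
        (Φ.D1 X 0 (a, s) (c.e, 1 / 2) / Φ.D1 X 0 (b, s') (c.e, 1 / 2)) ∧
    ‖Φ.D1 X 0 (a, s) (c.e, 1 / 2) / Φ.D1 X 0 (b, s') (c.e, 1 / 2) - 1‖ ≤ 1 / 400 := by
  have hs1 := mem01 (memh 0 hs)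
  have hs2 := mem01 (memh 0 hs')
  have hA := c.pre.D1_ne_e Φ hX ha (Ioo_subset_Icc_self hs1)
  have hB := c.pre.D1_ne_e Φ hX hb (Ioo_subset_Icc_self hs2)
  have hQ := c.pre.D1_ne_q Φ hX hj hq hqX ht
  have hG := c.pre.D1_ne_ge Φ hX 0
  have hBQ := c.pre.D1_ne_0j Φ hX hj hb hq hqX hs2 ht
  have e1 := Φ.chart_sub X 0 (a, s) (q, t) hA hQ hG
  have e2 := Φ.chart_sub X 0 (b, s') (q, t) hB hQ hG
  have hne : Φ.chart c.e c.g X 0 (b, s') ≠ Φ.chart c.e c.g X 0 (q, t) := by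
    intro h
    rw [h, sub_self, zero_mul] at e2
    exact hBQ e2
  refine ⟨hne, ?_, ?_⟩
  · have hne' := sub_ne_zero.2 hne
    rw [e1, e2]
    generalize Φ.D1 X 0 (a, s) (c.e, 1 / 2) = dA at hA ⊢
    generalize Φ.D1 X 0 (b, s') (c.e, 1 / 2) = dB at hB ⊢
    generalize Φ.D1 X 0 (q, t) (c.e, 1 / 2) = dQ at hQ ⊢
    generalize Φ.D1 X 0 (c.g, 1 / 2) (c.e, 1 / 2) = dG at hG ⊢
    generalize Φ.chart c.e c.g X 0 (b, s') - Φ.chart c.e c.g X 0 (q, t) = w at hne' ⊢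
    generalize Φ.chart c.e c.g X 0 (a, s) - Φ.chart c.e c.g X 0 (q, t) = w'
    field_simp
  · have h1 := c.c1 0 X hX a ha s (memh 0 hs)
    have h2 := c.c1 0 X hX b hb s' (memh 0 hs')
    obtain ⟨_, hR⟩ := ne_of_near (by norm_num) h1
    have h3 := div_near (r := 1 / 1000) (by norm_num) h1 h2
    rw [div_div_div_cancel_right₀ hR] at h3
    refine h3.trans ?_
    norm_num

theorem four_far {X : Fin (m + 1) → C} (hX : c.Adm X) {j : Fin (m + 1)} (hj : j ≠ 0) {q a b : C}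
    (hq : q ∈ c.S j) (hqX : q ≠ X j) (ha : a ∈ c.S 0) (hb : b ∈ c.S 0) {s s' t : ℝ}
    (hs : s ∈ Icc (c.u 0) (c.v 0)) (hs' : s' ∈ Icc (c.u 0) (c.v 0)) (ht : t ∈ Icc (0 : ℝ) 1)
    (h : 1 / 2 ≤ ‖Φ.D1 X 0 (a, s) (q, t) / Φ.D1 X 0 (b, s') (q, t) - 1‖) :
    1 / 4 ≤ ‖Φ.D1 X 0 (c.z 0, c.v 0) (q, t) / Φ.D1 X 0 (c.z 0, c.u 0) (q, t) - 1‖ := by
  have hu : c.u 0 ∈ Icc (c.u 0) (c.v 0) := ⟨le_rfl, (c.uv 0).le⟩
  have hv : c.v 0 ∈ Icc (c.u 0) (c.v 0) := ⟨(c.uv 0).le, le_rfl⟩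
  have hz : c.z 0 ∈ c.S 0 := c.pre.zS 0
  have hzA : ∀ l, c.z l ∈ c.S l := c.pre.zS
  obtain ⟨n1, e1, x1⟩ := c.quot_eq hX hj hq hqX ha hb hs hs' ht
  obtain ⟨n2, e2, x2⟩ := c.quot_eq hX hj hq hqX hz hz hv hu ht
  set d := ‖Φ.chart c.e c.g c.z 0 (c.z 0, c.v 0) - Φ.chart c.e c.g c.z 0 (c.z 0, c.u 0)‖ with hd
  have hd0 : 0 < d := by
    rw [hd, norm_pos_iff, sub_ne_zero]
    exact c.pre.chart_ne Φ hzA hz hz (Ioo_subset_Icc_self (mem01 (memh 0 hv)))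
      (Ioo_subset_Icc_self (mem01 (memh 0 hu))) (Or.inr (c.uv 0).ne')
  have hε := c.c6 0
  rw [← hd] at hε
  have hclose : ∀ a ∈ c.S 0, ∀ s ∈ Icc (c.u 0) (c.v 0),
      ‖Φ.chart c.e c.g X 0 (a, s) - Φ.chart c.e c.g c.z 0 (c.z 0, s)‖ ≤ d / 1000 := fun a ha s hs =>
    (c.c5 0 X hX a ha s hs).trans hε
  have hup : ∀ a ∈ c.S 0, ∀ b ∈ c.S 0, ∀ s ∈ Icc (c.u 0) (c.v 0), ∀ s' ∈ Icc (c.u 0) (c.v 0),
      ‖Φ.chart c.e c.g X 0 (a, s) - Φ.chart c.e c.g X 0 (b, s')‖ ≤ 101 / 100 * d := by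
    intro a ha b hb s hs s' hs'
    have h1 := hclose a ha s hs
    have h2 := hclose b hb s' hs'
    have h3 := c.c7 0 s hs s' hs'
    rw [← hd] at h3
    have e : Φ.chart c.e c.g X 0 (a, s) - Φ.chart c.e c.g X 0 (b, s') =
        (Φ.chart c.e c.g X 0 (a, s) - Φ.chart c.e c.g c.z 0 (c.z 0, s)) +
        (Φ.chart c.e c.g c.z 0 (c.z 0, s) - Φ.chart c.e c.g c.z 0 (c.z 0, s')) -
        (Φ.chart c.e c.g X 0 (b, s') - Φ.chart c.e c.g c.z 0 (c.z 0, s')) := by ring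
    rw [e]
    refine (norm_sub_le _ _).trans ?_
    have h4 := norm_add_le (Φ.chart c.e c.g X 0 (a, s) - Φ.chart c.e c.g c.z 0 (c.z 0, s))
      (Φ.chart c.e c.g c.z 0 (c.z 0, s) - Φ.chart c.e c.g c.z 0 (c.z 0, s'))
    linarith
  have hlow : 99 / 100 * d ≤ ‖Φ.chart c.e c.g X 0 (c.z 0, c.v 0) - Φ.chart c.e c.g X 0 (c.z 0, c.u 0)‖ := by
    have h1 := hclose (c.z 0) hz (c.v 0) hv
    have h2 := hclose (c.z 0) hz (c.u 0) hu
    have e : Φ.chart c.e c.g c.z 0 (c.z 0, c.v 0) - Φ.chart c.e c.g c.z 0 (c.z 0, c.u 0) =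
        (Φ.chart c.e c.g X 0 (c.z 0, c.v 0) - Φ.chart c.e c.g X 0 (c.z 0, c.u 0)) -
        (Φ.chart c.e c.g X 0 (c.z 0, c.v 0) - Φ.chart c.e c.g c.z 0 (c.z 0, c.v 0)) +
        (Φ.chart c.e c.g X 0 (c.z 0, c.u 0) - Φ.chart c.e c.g c.z 0 (c.z 0, c.u 0)) := by ring
    have h3 : d ≤ ‖Φ.chart c.e c.g X 0 (c.z 0, c.v 0) - Φ.chart c.e c.g X 0 (c.z 0, c.u 0)‖ +
        ‖Φ.chart c.e c.g X 0 (c.z 0, c.v 0) - Φ.chart c.e c.g c.z 0 (c.z 0, c.v 0)‖ +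
        ‖Φ.chart c.e c.g X 0 (c.z 0, c.u 0) - Φ.chart c.e c.g c.z 0 (c.z 0, c.u 0)‖ := by
      rw [hd, e]
      exact (norm_add_le _ _).trans (add_le_add_left (norm_sub_le _ _) _)
    linarith
  rw [e1] at h
  rw [e2]
  exact far_alg hd0 x1 x2 (hup a ha b hb s hs s' hs') (hup b hb (c.z 0) hz s' hs' (c.u 0) hu) hlow n1 n2 h

theorem four_pluck {X : Fin (m + 1) → C} {j : Fin (m + 1)} (hj : j ≠ 0) (A B Q E : C × ℝ) :
    Φ.D1 X 0 A B * Φ.D1 X 0 Q E =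
        Φ.D1 X 0 A Q * Φ.D1 X 0 B E - Φ.D1 X 0 B Q * Φ.D1 X 0 A E ∧
      Φ.D2 X j A Q B * Φ.D1 X 0 Q E =
        Φ.D1 X 0 A Q * Φ.D2 X j B Q E - Φ.D1 X 0 B Q * Φ.D2 X j A Q E := by
  constructor
  · have h := Φ.D1_pluck X 0 A B Q E
    linear_combination h
  · have h := Φ.D2_pluck X hj Q A B (X j, 1 / 2) E
    have h1 : Φ.D2 X j A Q (X j, 1 / 2) = - Φ.D1 X 0 A Q := by
      rw [Φ.D2_swap X hj, D1_eq_D2 Φ X hj]
    have h2 : Φ.D2 X j B Q (X j, 1 / 2) = - Φ.D1 X 0 B Q := by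
      rw [Φ.D2_swap X hj, D1_eq_D2 Φ X hj]
    have h3 : Φ.D2 X j (X j, 1 / 2) Q E = - Φ.D1 X 0 Q E := by
      rw [D1_eq_D2 Φ X hj, Φ.D2_swap X hj, Φ.D2_swap' X hj, Φ.D2_swap X hj Q E, neg_neg]
    rw [h1, h2, h3] at h
    linear_combination -h

theorem four_near {X : Fin (m + 1) → C} (hX : c.Adm X) {j : Fin (m + 1)} (hj : j ≠ 0) {q a b : C}
    (hq : q ∈ c.S j) (hqX : q ≠ X j) (ha : a ∈ c.S 0) (hb : b ∈ c.S 0) {s s' t : ℝ}
    (hs : s ∈ Icc (1 / 2 - c.h) (1 / 2 + c.h)) (hs' : s' ∈ Icc (1 / 2 - c.h) (1 / 2 + c.h))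
    (ht : t ∈ Icc (0 : ℝ) 1)
    (h : 1 / 4 ≤ ‖Φ.D1 X 0 (a, s) (q, t) / Φ.D1 X 0 (b, s') (q, t) - 1‖) :
    ‖Φ.D1 X 0 (a, s) (b, s') / Φ.D2 X j (a, s) (q, t) (b, s') *
      (Φ.D2 c.z j (c.z 0, 1 / 2) (q, t) (c.e, 1 / 2) / Φ.D1 c.z 0 (c.z 0, 1 / 2) (c.e, 1 / 2)) - 1‖ ≤ 1 / 10 := by
  have hQ := c.pre.D1_ne_q Φ hX hj hq hqX ht
  have hBQ := c.pre.D1_ne_0j Φ hX hj hb hq hqX (mem01 hs') ht
  obtain ⟨p1, p2⟩ := four_pluck (Φ := Φ) (X := X) hj (a, s) (b, s') (q, t) (c.e, 1 / 2)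
  have x1 := c.c1 0 X hX b hb s' hs'
  have x2 := c.c1 0 X hX a ha s hs
  have x3 := c.c2 j hj X hX b hb s' hs' q hq t ht
  have x4 := c.c2 j hj X hX a ha s hs q hq t ht
  obtain ⟨_, hR1⟩ := ne_of_near (by norm_num) x1
  obtain ⟨_, hR2⟩ := ne_of_near (by norm_num) x3
  obtain ⟨_, n2, n3⟩ := quot_near h x1 x2 x3 x4
  refine le_trans (le_of_eq ?_) n3
  congr 2
  generalize Φ.D1 X 0 (q, t) (c.e, 1 / 2) = dQ at hQ p1 p2 ⊢
  generalize Φ.D1 X 0 (b, s') (q, t) = dBQ at hBQ p1 p2 n2 ⊢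
  generalize Φ.D1 X 0 (a, s) (q, t) = dAQ at p1 p2 n2 ⊢
  generalize Φ.D1 X 0 (b, s') (c.e, 1 / 2) = dBE at p1 p2 n2 ⊢
  generalize Φ.D1 X 0 (a, s) (c.e, 1 / 2) = dAE at p1 p2 n2 ⊢
  generalize Φ.D2 X j (b, s') (q, t) (c.e, 1 / 2) = eB at p1 p2 n2 ⊢
  generalize Φ.D2 X j (a, s) (q, t) (c.e, 1 / 2) = eA at p1 p2 n2 ⊢
  generalize Φ.D2 c.z j (c.z 0, 1 / 2) (q, t) (c.e, 1 / 2) = r2 at hR2 n2 ⊢
  generalize Φ.D1 c.z 0 (c.z 0, 1 / 2) (c.e, 1 / 2) = r1 at hR1 ⊢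
  generalize Φ.D1 X 0 (a, s) (b, s') = dAB at p1 ⊢
  generalize Φ.D2 X j (a, s) (q, t) (b, s') = eAB at p2 ⊢
  have k1 : dAB = (dAQ * dBE - dBQ * dAE) / dQ := by
    rw [eq_div_iff hQ]
    exact p1
  have k2 : eAB = (dAQ * eB - dBQ * eA) / dQ := by
    rw [eq_div_iff hQ]
    exact p2
  have k3 : dAQ / dBQ * (dBE / r1) - dAE / r1 = (dAQ * dBE - dBQ * dAE) / (dBQ * r1) := by
    field_simp
  have k4 : dAQ / dBQ * (eB / r2) - eA / r2 = (dAQ * eB - dBQ * eA) / (dBQ * r2) := by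
    field_simp
  have k5 : dAQ * eB - dBQ * eA ≠ 0 := by
    intro h0
    rw [k4, h0, zero_div] at n2
    exact n2 rfl
  rw [k3, k4, k1, k2]
  field_simp

end Cfg

end Pool.Agent.Lib.MP_e9314e_an.PB
end

section

/-!
# PB: the four point lemma

`W X a b x` is the winding number of the quotient of the determinants with viewer `0` at `a` and at `b` when the moving point
makes one circuit along the strand of `x`.

Proof of `four`.  `f (t, θ) = D1 X 0 (a, s θ) (q, t) / D1 X 0 (b, s' θ) (q, t)`, `s θ = v - θ (v - u)`, `s' θ = u + θ (v - u)` (`u = c.u 0`,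
`v = c.v 0`), and `h (t, θ) = R (t, θ) / R₀ t` with `R (t, θ) = D1 X 0 (a, s θ) (b, s' θ) / D2 X j (a, s θ) (q, t) (b, s' θ)` and
`R₀ t = D1 X 0 (z 0, v) (z 0, u) / D2 X j (z 0, v) (q, t) (z 0, u)`.
* `f` is near `1` for `t = 0, 1` (`four_end`).
* `h` is near `1` for `θ = 0`: four numbers near `1` by `c4` (for `D1` use `D2_self`: `D1 X 0 A B = D2 X j A (X j, 1/2) B`); for `θ = 1` by `c4'` and
  `c4`, using the signs `D1_swap`, `D2_swap'`.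
* If `‖f - 1‖ ≥ 1/2` then `‖f₀ - 1‖ ≥ 1/4` for the pair `(z 0, v)`, `(z 0, u)` (`four_far`), and `four_near` for both pairs gives
  `‖h - 1‖ < 1/2` (quotient of two numbers within `1/10` of `1`).
* `pm` gives two alternatives.  The first one is excluded: `W ≠ 0`, by `wn_homotopy` for
  `F (t, θ) = D1 X 0 (a, 1/2 + θ (v - 1/2)) (q, t) / D1 X 0 (b, 1/2 + θ (u - 1/2)) (q, t)` (`four_end`) also `wn (f (·, 0)) ≠ 0`, `wn_ne_zero`.
* The second one at `t = 1/2`: `|ac (h (1/2, ·)) 0 1| < π`, and this number is `Om X 0 a b - Om (update X j q) 0 a b` (`ac_div`, `D2_self`, the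
  constant `R₀ (1/2)`).  By `order` both are within `π/4` of `± π`, so they have the same sign.
-/

set_option autoImplicit false

open Set Complex

namespace Pool.Agent.Lib.MP_e9314e_an.PB

variable {C : Type*} [TopologicalSpace C] {T : C ≃ₜ C} {m : ℕ}

/-- Winding of the quotient for one circuit of the strand of `x`. -/
noncomputable def Sys.W (Φ : Sys T m) (X : Fin (m + 1) → C) (a b x : C) : ℝ :=
  wn (fun s => Φ.D1 X 0 (a, 1 / 2) (x, s) / Φ.D1 X 0 (b, 1 / 2) (x, s))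

variable {Φ : Sys T m} (c : Cfg Φ)

private theorem fb_div {x y : ℂ} (hx : ‖x - 1‖ ≤ 1 / 10) (hy : ‖y - 1‖ ≤ 1 / 10) :
    ‖x / y - 1‖ < 1 / 2 := by
  have hy1 : 9 / 10 ≤ ‖y‖ := by
    have h1 : ‖(1 : ℂ)‖ ≤ ‖y‖ + ‖y - 1‖ := by
      have := norm_sub_le y (y - 1)
      rwa [sub_sub_cancel] at this
    rw [norm_one] at h1
    linarith
  have hy0 : y ≠ 0 := by
    rintro rfl
    rw [norm_zero] at hy1
    linarith
  have h2 : x / y - 1 = (x - y) / y := by field_simp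
  have h3 : ‖x - y‖ ≤ 2 / 10 := by
    have := norm_sub_le (x - 1) (y - 1)
    rw [sub_sub_sub_cancel_right] at this
    linarith
  rw [h2, norm_div, div_lt_iff₀ (by linarith)]
  linarith

private theorem fb_quot {d₁ d₂ d₃ d₄ p q p' q' : ℂ} (h₁ : ‖d₁ / p' - 1‖ ≤ 1 / 100)
    (h₂ : ‖d₂ / q' - 1‖ ≤ 1 / 100) (h₃ : ‖d₃ / p - 1‖ ≤ 1 / 100) (h₄ : ‖d₄ / q - 1‖ ≤ 1 / 100)
    (hpq : q' / p' = q / p) (h0 : q / p ≠ 0) : ‖d₁ / d₂ / (d₃ / d₄) - 1‖ < 1 / 2 := by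
  have e1 := div_near le_rfl h₁ h₂
  have e2 := div_near le_rfl h₃ h₄
  have e3 : d₁ / p' / (d₂ / q') = d₁ / d₂ * (q / p) := by
    rw [← hpq, div_div_div_eq, div_mul_div_comm, mul_comm d₂ p', mul_comm p' d₂]
  have e4 : d₃ / p / (d₄ / q) = d₃ / d₄ * (q / p) := by
    rw [div_div_div_eq, div_mul_div_comm, mul_comm p d₄]
  have e5 := fb_div (x := d₁ / p' / (d₂ / q')) (y := d₃ / p / (d₄ / q)) (e1.trans (by norm_num))
    (e2.trans (by norm_num))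
  rw [e3, e4, mul_div_mul_right _ _ h0] at e5
  exact e5

private theorem fb_D1_D2 (Φ : Sys T m) (X : Fin (m + 1) → C) {j : Fin (m + 1)} (hj : j ≠ 0) (A Q : C × ℝ) :
    Φ.D1 X 0 A Q = Φ.D2 X j A (X j, 1 / 2) Q := by
  rw [Φ.D2_self X hj, Function.update_eq_self]

theorem Cfg.four {X : Fin (m + 1) → C} (hX : c.Adm X) {j : Fin (m + 1)} (hj : j ≠ 0) {q a b : C}
    (hq : q ∈ c.S j) (hqX : q ≠ X j) (ha : a ∈ c.S 0) (hb : b ∈ c.S 0) (hab : a ≠ b)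
    (hW : Φ.W X a b q ≠ 0) : c.sg X 0 a b = c.sg (Function.update X j q) 0 a b := by
  have hpi := Real.pi_pos
  have huv := c.uv 0
  have hu : c.u 0 ∈ Icc (c.u 0) (c.v 0) := ⟨le_rfl, huv.le⟩
  have hv : c.v 0 ∈ Icc (c.u 0) (c.v 0) := ⟨huv.le, le_rfl⟩
  have hz : c.z 0 ∈ c.S 0 := c.pre.zS 0
  have hzA : ∀ l, c.z l ∈ c.S l := c.pre.zS
  have win : ∀ {s : ℝ}, s ∈ Icc (c.u 0) (c.v 0) → s ∈ Icc (1 / 2 - c.h) (1 / 2 + c.h) :=
    fun hs => ⟨(c.hu 0).trans hs.1, hs.2.trans (c.hv 0)⟩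
  have w01 : ∀ {s : ℝ}, s ∈ Icc (1 / 2 - c.h) (1 / 2 + c.h) → s ∈ Ioo (0 : ℝ) 1 := by
    intro s hs
    have h4 := c.h4
    exact ⟨by linarith [hs.1], by linarith [hs.2]⟩
  have dn : ∀ {θ : ℝ}, θ ∈ Icc (0 : ℝ) 1 → c.v 0 - θ * (c.v 0 - c.u 0) ∈ Icc (c.u 0) (c.v 0) := by
    intro θ hθ
    have h1 : 0 ≤ θ * (c.v 0 - c.u 0) := mul_nonneg hθ.1 (by linarith)
    have h2 : θ * (c.v 0 - c.u 0) ≤ 1 * (c.v 0 - c.u 0) :=
      mul_le_mul_of_nonneg_right hθ.2 (by linarith)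
    exact ⟨by linarith, by linarith⟩
  have up : ∀ {θ : ℝ}, θ ∈ Icc (0 : ℝ) 1 → c.u 0 + θ * (c.v 0 - c.u 0) ∈ Icc (c.u 0) (c.v 0) := by
    intro θ hθ
    have h1 : 0 ≤ θ * (c.v 0 - c.u 0) := mul_nonneg hθ.1 (by linarith)
    have h2 : θ * (c.v 0 - c.u 0) ≤ 1 * (c.v 0 - c.u 0) :=
      mul_le_mul_of_nonneg_right hθ.2 (by linarith)
    exact ⟨by linarith, by linarith⟩
  -- the functions
  let N1 : ℝ × ℝ → ℂ := fun p => Φ.D1 X 0 (a, c.v 0 - p.2 * (c.v 0 - c.u 0)) (q, p.1)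
  let N2 : ℝ × ℝ → ℂ := fun p => Φ.D1 X 0 (b, c.u 0 + p.2 * (c.v 0 - c.u 0)) (q, p.1)
  let M1 : ℝ × ℝ → ℂ := fun p => Φ.D1 X 0 (a, c.v 0 - p.2 * (c.v 0 - c.u 0))
    (b, c.u 0 + p.2 * (c.v 0 - c.u 0))
  let M2 : ℝ × ℝ → ℂ := fun p => Φ.D2 X j (a, c.v 0 - p.2 * (c.v 0 - c.u 0)) (q, p.1)
    (b, c.u 0 + p.2 * (c.v 0 - c.u 0))
  let K1 : ℂ := Φ.D1 X 0 (c.z 0, c.v 0) (c.z 0, c.u 0)
  let K2 : ℝ → ℂ := fun t => Φ.D2 X j (c.z 0, c.v 0) (q, t) (c.z 0, c.u 0)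
  have cN1 : Continuous N1 := by
    have h1 : Continuous fun p : ℝ × ℝ => ((X, ((a, c.v 0 - p.2 * (c.v 0 - c.u 0)), (q, p.1))) :
        (Fin (m + 1) → C) × (C × ℝ) × (C × ℝ)) := by fun_prop
    exact (Φ.continuous_D1 0).comp h1
  have cN2 : Continuous N2 := by
    have h1 : Continuous fun p : ℝ × ℝ => ((X, ((b, c.u 0 + p.2 * (c.v 0 - c.u 0)), (q, p.1))) :
        (Fin (m + 1) → C) × (C × ℝ) × (C × ℝ)) := by fun_prop
    exact (Φ.continuous_D1 0).comp h1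
  have cM1 : Continuous M1 := by
    have h1 : Continuous fun p : ℝ × ℝ => ((X, ((a, c.v 0 - p.2 * (c.v 0 - c.u 0)),
        (b, c.u 0 + p.2 * (c.v 0 - c.u 0)))) : (Fin (m + 1) → C) × (C × ℝ) × (C × ℝ)) := by fun_prop
    exact (Φ.continuous_D1 0).comp h1
  have cM2 : Continuous M2 := by
    have h1 : Continuous fun p : ℝ × ℝ => ((X, ((a, c.v 0 - p.2 * (c.v 0 - c.u 0)), (q, p.1),
        (b, c.u 0 + p.2 * (c.v 0 - c.u 0)))) :
        (Fin (m + 1) → C) × (C × ℝ) × (C × ℝ) × (C × ℝ)) := by fun_prop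
    exact (Φ.continuous_D2 j).comp h1
  have cK2 : Continuous K2 := by
    have h1 : Continuous fun t : ℝ => ((X, ((c.z 0, c.v 0), (q, t), (c.z 0, c.u 0))) :
        (Fin (m + 1) → C) × (C × ℝ) × (C × ℝ) × (C × ℝ)) := by fun_prop
    exact (Φ.continuous_D2 j).comp h1
  have nN1 : ∀ p ∈ Icc (0 : ℝ) 1 ×ˢ Icc (0 : ℝ) 1, N1 p ≠ 0 := fun p hp =>
    c.pre.D1_ne_0j Φ hX hj ha hq hqX (w01 (win (dn hp.2))) hp.1
  have nN2 : ∀ p ∈ Icc (0 : ℝ) 1 ×ˢ Icc (0 : ℝ) 1, N2 p ≠ 0 := fun p hp =>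
    c.pre.D1_ne_0j Φ hX hj hb hq hqX (w01 (win (up hp.2))) hp.1
  have nM1 : ∀ p ∈ Icc (0 : ℝ) 1 ×ˢ Icc (0 : ℝ) 1, M1 p ≠ 0 := fun p hp =>
    c.pre.D1_ne_S Φ hX ha hb (Ioo_subset_Icc_self (w01 (win (dn hp.2))))
      (Ioo_subset_Icc_self (w01 (win (up hp.2)))) (Or.inl hab)
  have nM2 : ∀ p ∈ Icc (0 : ℝ) 1 ×ˢ Icc (0 : ℝ) 1, M2 p ≠ 0 := fun p hp =>
    c.pre.D2_ne_S0 Φ hX hj ha hq hb (w01 (win (dn hp.2))) hp.1 (w01 (win (up hp.2))) (Or.inl hab)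
  have nK1 : K1 ≠ 0 :=
    c.pre.D1_ne_S Φ hX hz hz (Ioo_subset_Icc_self (w01 (win hv))) (Ioo_subset_Icc_self (w01 (win hu)))
      (Or.inr huv.ne')
  have nK2 : ∀ t ∈ Icc (0 : ℝ) 1, K2 t ≠ 0 := fun t ht =>
    c.pre.D2_ne_S0 Φ hX hj hz hq hz (w01 (win hv)) ht (w01 (win hu)) (Or.inr huv.ne')
  let f : ℝ × ℝ → ℂ := fun p => N1 p / N2 p
  let h : ℝ × ℝ → ℂ := fun p => M1 p / M2 p / (K1 / K2 p.1)
  have hf : ContinuousOn f (Icc 0 1 ×ˢ Icc 0 1) := cN1.continuousOn.div cN2.continuousOn nN2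
  have hf0 : ∀ p ∈ Icc (0 : ℝ) 1 ×ˢ Icc (0 : ℝ) 1, f p ≠ 0 := fun p hp =>
    div_ne_zero (nN1 p hp) (nN2 p hp)
  have hh : ContinuousOn h (Icc 0 1 ×ˢ Icc 0 1) := by
    refine (cM1.continuousOn.div cM2.continuousOn nM2).div ?_ ?_
    · exact continuousOn_const.div (cK2.comp continuous_fst).continuousOn fun p hp => nK2 _ hp.1
    · exact fun p hp => div_ne_zero nK1 (nK2 _ hp.1)
  have hh0 : ∀ p ∈ Icc (0 : ℝ) 1 ×ˢ Icc (0 : ℝ) 1, h p ≠ 0 := fun p hp =>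
    div_ne_zero (div_ne_zero (nM1 p hp) (nM2 p hp)) (div_ne_zero nK1 (nK2 _ hp.1))
  have hlr : ∀ t : ℝ, (t = 0 ∨ t = 1) → ∀ θ ∈ Icc (0 : ℝ) 1, ‖f (t, θ) - 1‖ < 1 / 2 := by
    intro t ht θ hθ
    exact lt_of_le_of_lt (c.four_end hX hj hq ha hb (win (dn hθ)) (win (up hθ)) ht) (by norm_num)
  have h12 : (1 / 2 : ℝ) ∈ Icc (0 : ℝ) 1 := by constructor <;> norm_num
  have nP : Φ.D2 c.z j (c.z 0, c.v 0) (X j, 1 / 2) (c.z 0, c.u 0) ≠ 0 :=
    c.pre.D2_ne_S0 Φ hzA hj hz (hX j) hz (w01 (win hv)) h12 (w01 (win hu)) (Or.inr huv.ne')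
  have nQ : ∀ t ∈ Icc (0 : ℝ) 1, Φ.D2 c.z j (c.z 0, c.v 0) (q, t) (c.z 0, c.u 0) ≠ 0 := fun t ht =>
    c.pre.D2_ne_S0 Φ hzA hj hz hq hz (w01 (win hv)) ht (w01 (win hu)) (Or.inr huv.ne')
  have hbot : ∀ t ∈ Icc (0 : ℝ) 1, ‖h (t, 0) - 1‖ < 1 / 2 := by
    intro t ht
    have x1 := c.c4 j hj X hX a ha b hb (X j) (hX j) (1 / 2) h12
    have x2 := c.c4 j hj X hX a ha b hb q hq t ht
    have x3 := c.c4 j hj X hX (c.z 0) hz (c.z 0) hz (X j) (hX j) (1 / 2) h12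
    have x4 := c.c4 j hj X hX (c.z 0) hz (c.z 0) hz q hq t ht
    rw [← fb_D1_D2 Φ X hj] at x1 x3
    have e1 := fb_quot x1 x2 x3 x4 rfl (div_ne_zero (nQ t ht) nP)
    have e2 : c.v 0 - 0 * (c.v 0 - c.u 0) = c.v 0 := by ring
    have e3 : c.u 0 + 0 * (c.v 0 - c.u 0) = c.u 0 := by ring
    simp only [h, M1, M2, K1, K2, e2, e3]
    exact e1
  have htop : ∀ t ∈ Icc (0 : ℝ) 1, ‖h (t, 1) - 1‖ < 1 / 2 := by
    intro t ht
    have x1 := c.c4' j hj X hX a ha b hb (X j) (hX j) (1 / 2) h12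
    have x2 := c.c4' j hj X hX a ha b hb q hq t ht
    have x3 := c.c4 j hj X hX (c.z 0) hz (c.z 0) hz (X j) (hX j) (1 / 2) h12
    have x4 := c.c4 j hj X hX (c.z 0) hz (c.z 0) hz q hq t ht
    rw [← fb_D1_D2 Φ X hj] at x1 x3
    have e1 := fb_quot x1 x2 x3 x4
      (by
        rw [Φ.D2_swap' c.z hj (c.z 0, c.u 0) (q, t) (c.z 0, c.v 0),
          Φ.D2_swap' c.z hj (c.z 0, c.u 0) (X j, 1 / 2) (c.z 0, c.v 0), neg_div_neg_eq])
      (div_ne_zero (nQ t ht) nP)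
    have e2 : c.v 0 - 1 * (c.v 0 - c.u 0) = c.u 0 := by ring
    have e3 : c.u 0 + 1 * (c.v 0 - c.u 0) = c.v 0 := by ring
    simp only [h, M1, M2, K1, K2, e2, e3]
    exact e1
  have hor : ∀ p ∈ Icc (0 : ℝ) 1 ×ˢ Icc (0 : ℝ) 1, ‖f p - 1‖ < 1 / 2 ∨ ‖h p - 1‖ < 1 / 2 := by
    rintro ⟨t, θ⟩ ⟨ht, hθ⟩
    by_cases hcase : ‖f (t, θ) - 1‖ < 1 / 2
    · exact Or.inl hcase
    right
    have hge : 1 / 2 ≤ ‖f (t, θ) - 1‖ := not_lt.1 hcase
    have hfar := c.four_far hX hj hq hqX ha hb (dn hθ) (up hθ) ht hge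
    have y1 := c.four_near hX hj hq hqX ha hb (win (dn hθ)) (win (up hθ)) ht
      (le_trans (by norm_num) hge)
    have y2 := c.four_near hX hj hq hqX hz hz (win hv) (win hu) ht hfar
    have y3 := fb_div y1 y2
    have hκ : Φ.D2 c.z j (c.z 0, 1 / 2) (q, t) (c.e, 1 / 2) / Φ.D1 c.z 0 (c.z 0, 1 / 2) (c.e, 1 / 2) ≠ 0 := by
      intro h0
      rw [h0, mul_zero, zero_sub, norm_neg, norm_one] at y1
      norm_num at y1
    rw [mul_div_mul_right _ _ hκ] at y3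
    exact y3
  rcases pm hf hf0 hh hh0 (hlr 0 (Or.inl rfl)) (hlr 1 (Or.inr rfl)) hbot htop hor with hA | hB
  · -- excluded
    exfalso
    have h1 := hA 0 ⟨le_rfl, zero_le_one⟩
    have wa : ∀ {θ : ℝ}, θ ∈ Icc (0 : ℝ) 1 → 1 / 2 + θ * (c.v 0 - 1 / 2) ∈
        Icc (1 / 2 - c.h) (1 / 2 + c.h) := by
      intro θ hθ
      have hv' := win hv
      have h0 := c.h0
      constructor
      · nlinarith [hθ.1, hθ.2, hv'.1, hv'.2]
      · nlinarith [hθ.1, hθ.2, hv'.1, hv'.2]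
    have wb : ∀ {θ : ℝ}, θ ∈ Icc (0 : ℝ) 1 → 1 / 2 + θ * (c.u 0 - 1 / 2) ∈
        Icc (1 / 2 - c.h) (1 / 2 + c.h) := by
      intro θ hθ
      have hu' := win hu
      have h0 := c.h0
      constructor
      · nlinarith [hθ.1, hθ.2, hu'.1, hu'.2]
      · nlinarith [hθ.1, hθ.2, hu'.1, hu'.2]
    let G1 : ℝ × ℝ → ℂ := fun p => Φ.D1 X 0 (a, 1 / 2 + p.2 * (c.v 0 - 1 / 2)) (q, p.1)
    let G2 : ℝ × ℝ → ℂ := fun p => Φ.D1 X 0 (b, 1 / 2 + p.2 * (c.u 0 - 1 / 2)) (q, p.1)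
    have cG1 : Continuous G1 := by
      have h1 : Continuous fun p : ℝ × ℝ => ((X, ((a, 1 / 2 + p.2 * (c.v 0 - 1 / 2)), (q, p.1))) :
          (Fin (m + 1) → C) × (C × ℝ) × (C × ℝ)) := by fun_prop
      exact (Φ.continuous_D1 0).comp h1
    have cG2 : Continuous G2 := by
      have h1 : Continuous fun p : ℝ × ℝ => ((X, ((b, 1 / 2 + p.2 * (c.u 0 - 1 / 2)), (q, p.1))) :
          (Fin (m + 1) → C) × (C × ℝ) × (C × ℝ)) := by fun_prop
      exact (Φ.continuous_D1 0).comp h1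
    have nG1 : ∀ p ∈ Icc (0 : ℝ) 1 ×ˢ Icc (0 : ℝ) 1, G1 p ≠ 0 := fun p hp =>
      c.pre.D1_ne_0j Φ hX hj ha hq hqX (w01 (wa hp.2)) hp.1
    have nG2 : ∀ p ∈ Icc (0 : ℝ) 1 ×ˢ Icc (0 : ℝ) 1, G2 p ≠ 0 := fun p hp =>
      c.pre.D1_ne_0j Φ hX hj hb hq hqX (w01 (wb hp.2)) hp.1
    have hend : ∀ t : ℝ, (t = 0 ∨ t = 1) → ∀ θ ∈ Icc (0 : ℝ) 1, ‖G1 (t, θ) / G2 (t, θ) - 1‖ ≤ 1 / 2 := by
      intro t ht θ hθ
      exact (c.four_end hX hj hq ha hb (wa hθ) (wb hθ) ht).trans (by norm_num)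
    have e1 := wn_homotopy (F := fun p => G1 p / G2 p) (cG1.continuousOn.div cG2.continuousOn nG2)
      (fun p hp => div_ne_zero (nG1 p hp) (nG2 p hp)) (hend 0 (Or.inl rfl)) (hend 1 (Or.inr rfl))
    have e2 : wn (fun s => G1 (s, 0) / G2 (s, 0)) = Φ.W X a b q := by
      unfold Sys.W
      apply wn_congr
      intro t _
      simp only [G1, G2, zero_mul, add_zero]
    have e3 : wn (fun s => G1 (s, 1) / G2 (s, 1)) = wn (fun t => f (t, 0)) := by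
      apply wn_congr
      intro t _
      have k1 : 1 / 2 + 1 * (c.v 0 - 1 / 2) = c.v 0 := by ring
      have k2 : 1 / 2 + 1 * (c.u 0 - 1 / 2) = c.u 0 := by ring
      have k3 : c.v 0 - 0 * (c.v 0 - c.u 0) = c.v 0 := by ring
      have k4 : c.u 0 + 0 * (c.v 0 - c.u 0) = c.u 0 := by ring
      simp only [f, N1, N2, G1, G2, k1, k2, k3, k4]
    have e4 : wn (fun t => f (t, 0)) ≠ 0 := by
      rw [← e3, ← e1, e2]
      exact hW
    have hNZ : NZ (fun t => f (t, 0)) 0 1 := by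
      refine ⟨hf.comp (f := fun t : ℝ => ((t, 0) : ℝ × ℝ)) (by fun_prop) ?_, ?_⟩
      · intro t ht
        exact ⟨ht, ⟨le_rfl, zero_le_one⟩⟩
      · intro t ht
        exact hf0 (t, 0) ⟨ht, ⟨le_rfl, zero_le_one⟩⟩
    have e5 := wn_ne_zero hNZ (hlr 0 (Or.inl rfl) 0 ⟨le_rfl, zero_le_one⟩).le
      (hlr 1 (Or.inr rfl) 0 ⟨le_rfl, zero_le_one⟩).le e4
    exact absurd h1 (not_lt.2 e5)
  · -- the same sign
    have h1 := hB (1 / 2) h12
    have hP : ∀ θ ∈ Icc (0 : ℝ) 1, ((1 / 2, θ) : ℝ × ℝ) ∈ Icc (0 : ℝ) 1 ×ˢ Icc (0 : ℝ) 1 := fun θ hθ =>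
      ⟨h12, hθ⟩
    have z1 : NZ (fun θ => M1 (1 / 2, θ)) 0 1 :=
      ⟨(cM1.comp (by fun_prop : Continuous fun θ : ℝ => ((1 / 2, θ) : ℝ × ℝ))).continuousOn,
        fun θ hθ => nM1 _ (hP θ hθ)⟩
    have z2 : NZ (fun θ => M2 (1 / 2, θ)) 0 1 :=
      ⟨(cM2.comp (by fun_prop : Continuous fun θ : ℝ => ((1 / 2, θ) : ℝ × ℝ))).continuousOn,
        fun θ hθ => nM2 _ (hP θ hθ)⟩
    have z3 : NZ (fun θ => M1 (1 / 2, θ) / M2 (1 / 2, θ)) 0 1 :=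
      ⟨z1.1.div z2.1 z2.2, fun θ hθ => div_ne_zero (z1.2 θ hθ) (z2.2 θ hθ)⟩
    have e1 : ac (fun θ => h (1 / 2, θ)) 0 1 =
        ac (fun θ => (K1 / K2 (1 / 2))⁻¹ * (M1 (1 / 2, θ) / M2 (1 / 2, θ))) 0 1 := by
      apply ac_congr
      intro θ _
      show M1 (1 / 2, θ) / M2 (1 / 2, θ) / (K1 / K2 (1 / 2)) = _
      rw [div_eq_mul_inv _ (K1 / K2 (1 / 2)), mul_comm]
    have e2 := ac_const_mul zero_le_one z3 (c := (K1 / K2 (1 / 2))⁻¹)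
      (inv_ne_zero (div_ne_zero nK1 (nK2 _ h12)))
    have e3 := ac_div zero_le_one z1 z2
    have e4 : ac (fun θ => M1 (1 / 2, θ)) 0 1 = c.Om X 0 a b := rfl
    have e5 : ac (fun θ => M2 (1 / 2, θ)) 0 1 = c.Om (Function.update X j q) 0 a b := by
      unfold Cfg.Om
      apply ac_congr
      intro θ _
      exact Φ.D2_self X hj q _ _
    rw [e1, e2, e3, e4, e5] at h1
    have h2 := abs_lt.1 h1
    have hX' : c.Adm (Function.update X j q) := hX.update hq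
    rcases c.order hX ha hb hab with ⟨-, k1⟩ | ⟨-, k1⟩ <;>
    rcases c.order hX' ha hb hab with ⟨-, k2⟩ | ⟨-, k2⟩ <;>
    have k3 := abs_le.1 k1 <;> have k4 := abs_le.1 k2
    · unfold Cfg.sg
      rw [if_pos (by linarith [k3.1]), if_pos (by linarith [k4.1])]
    · exfalso
      linarith [h2.1, h2.2, k3.1, k3.2, k4.1, k4.2]
    · exfalso
      linarith [h2.1, h2.2, k3.1, k3.2, k4.1, k4.2]
    · unfold Cfg.sg
      rw [if_neg (by linarith [k3.2]), if_neg (by linarith [k4.2])]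

end Pool.Agent.Lib.MP_e9314e_an.PB
end
end
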