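import Mathlib
import Pool.Agent.Lib.MP_e9314e_an.PB.FourB
import Pool.Agent.Lib.MP_e9314e_an.PB.Chart

section

/-!
# PB: base points and recurrence

`exists_base`: the set `μ.support \ Per` has measure `1` (`measure_compl_support`) and is infinite (points are null sets); choose `m + 3` different
points of it (`Set.Infinite.natEmbedding`); a non periodic point is not fixed.
`exists_return`: by Poincaré recurrence (`MeasurePreserving.conservative`, `Conservative.ae_mem_imp_frequently_image_mem`) almost every point `p ∈ V` satisfies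
`∃ᶠ n in atTop, T^[n] p ∈ V`; since `μ V > 0` there is such a `p ∈ V ∩ μ.support` which is not periodic; the points `T^[k] p` are
different, and in the support of `μ` (`T` is a homeomorphism preserving `μ`).
-/

set_option autoImplicit false

open MeasureTheory Set

namespace Pool.Agent.Lib.MP_e9314e_an.PB

variable {C : Type*} [TopologicalSpace C] [T2Space C] [SecondCountableTopology C]
  [MeasurableSpace C] [BorelSpace C] {μ : Measure C} [IsProbabilityMeasure μ] [NullSingletonClass μ]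

theorem exists_base (T : C ≃ₜ C) (hper : μ {x | ∃ k : ℕ, 0 < k ∧ T^[k] x = x} = 0) (m : ℕ) :
    ∃ (z : Fin (m + 1) → C) (e g : C), Function.Injective z ∧ (∀ j, e ≠ z j) ∧ (∀ j, g ≠ z j) ∧
      e ≠ g ∧ (∀ j, T (z j) ≠ z j) ∧ ∀ j, z j ∈ μ.support := by
  have hG : μ (μ.support \ {x | ∃ k : ℕ, 0 < k ∧ T^[k] x = x})ᶜ = 0 := by
    rw [Set.sdiff_eq, Set.compl_inter, compl_compl]
    refine measure_union_null Measure.measure_compl_support hper
  have hinf : (μ.support \ {x | ∃ k : ℕ, 0 < k ∧ T^[k] x = x}).Infinite := by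
    intro hfin
    have h1 : μ Set.univ = 0 := by
      rw [← Set.union_compl_self (μ.support \ {x | ∃ k : ℕ, 0 < k ∧ T^[k] x = x})]
      exact measure_union_null (hfin.measure_zero μ) hG
    simp at h1
  set f := hinf.natEmbedding _ with hf
  have hinj : ∀ i j : ℕ, (f i : C) = f j → i = j := fun i j h => f.injective (Subtype.ext h)
  refine ⟨fun j => f j, f (m + 1), f (m + 2), ?_, ?_, ?_, ?_, ?_, ?_⟩
  · intro i j hij
    exact Fin.ext (hinj _ _ hij)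
  · intro j h
    have := hinj _ _ h
    have := j.2
    omega
  · intro j h
    have := hinj _ _ h
    have := j.2
    omega
  · intro h
    have := hinj _ _ h
    omega
  · intro j h
    exact (f j).2.2 ⟨1, one_pos, by simpa using h⟩
  · intro j
    exact (f j).2.1

omit [NullSingletonClass μ] in
theorem exists_return (T : C ≃ₜ C) (hT : MeasurePreserving T μ μ)
    (hper : μ {x | ∃ k : ℕ, 0 < k ∧ T^[k] x = x} = 0) {V : Set C} (hV : IsOpen V) {z : C} (hz : z ∈ V)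
    (hzs : z ∈ μ.support) :
    ∃ (p : C) (k l : ℕ), 0 < k ∧ 0 < l ∧ p ∈ V ∧ T^[k] p ∈ V ∧ T^[l + k] p ∈ V ∧
      T^[k] p ≠ p ∧ T^[l + k] p ≠ p ∧ T^[l + k] p ≠ T^[k] p ∧
      p ∈ μ.support ∧ T^[k] p ∈ μ.support ∧ T^[l + k] p ∈ μ.support := by
  have hV0 : 0 < μ V := (Measure.mem_support_iff_forall z).1 hzs V (hV.mem_nhds hz)
  have hrec := hT.conservative.ae_mem_imp_frequently_image_mem hV.measurableSet.nullMeasurableSet
  have hsup : ∀ᵐ x ∂μ, x ∈ μ.support := Measure.support_mem_ae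
  have hnp : ∀ᵐ x ∂μ, ¬ ∃ k : ℕ, 0 < k ∧ T^[k] x = x := by
    rw [ae_iff]
    simpa only [not_not] using hper
  have hex : ∃ x ∈ V, (x ∈ V → ∃ᶠ n in Filter.atTop, T^[n] x ∈ V) ∧ x ∈ μ.support ∧
      ¬ ∃ k : ℕ, 0 < k ∧ T^[k] x = x := by
    by_contra hcon
    have h1 : ∀ᵐ x ∂μ, x ∉ V := by
      filter_upwards [hrec, hsup, hnp] with x h1 h2 h3 hxV
      exact hcon ⟨x, hxV, h1, h2, h3⟩
    have h2 : μ V = 0 := by
      rw [ae_iff] at h1
      simpa only [not_not, Set.ofPred_mem_eq] using h1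
    exact hV0.ne' h2
  obtain ⟨p, hpV, hfreq, hps, hpn⟩ := hex
  have hsupp : ∀ n : ℕ, T^[n] p ∈ μ.support := by
    intro n
    rw [Measure.mem_support_iff_forall]
    intro U hU
    obtain ⟨U', hU'U, hU'o, hpU'⟩ := mem_nhds_iff.1 hU
    refine lt_of_lt_of_le ?_ (measure_mono hU'U)
    rw [← (hT.iterate n).measure_preimage hU'o.measurableSet.nullMeasurableSet]
    refine (Measure.mem_support_iff_forall p).1 hps _ ?_
    exact (T.continuous.iterate n).continuousAt.preimage_mem_nhds (hU'o.mem_nhds hpU')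
  obtain ⟨k, hk, hkV⟩ := Filter.frequently_atTop.1 (hfreq hpV) 1
  obtain ⟨n, hn, hnV⟩ := Filter.frequently_atTop.1 (hfreq hpV) (k + 1)
  have hnl : n - k + k = n := by omega
  refine ⟨p, k, n - k, by omega, by omega, hpV, hkV, ?_, ?_, ?_, ?_, hps, hsupp k, hsupp _⟩
  · rw [hnl]
    exact hnV
  · intro h
    exact hpn ⟨k, by omega, h⟩
  · intro h
    exact hpn ⟨n - k + k, by omega, h⟩
  · intro h
    have h1 : T^[k] (T^[n - k] p) = T^[k] p := by
      rw [← Function.iterate_add_apply, Nat.add_comm]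
      exact h
    exact hpn ⟨n - k, by omega, T.injective.iterate k h1⟩

end Pool.Agent.Lib.MP_e9314e_an.PB
end

section

/-!
# PB: product neighbourhoods by clopen sets

`C` is compact Hausdorff and totally disconnected: every neighbourhood of a point contains a clopen neighbourhood
(`compact_exists_isClopen_in_isOpen`, or the basis of clopen sets `isTopologicalBasis_isClopen`).  Use `nhds_prod_eq`, `nhds_pi` (`Filter.mem_pi`,
`Finite`), `Filter.eventually_prod_iff` or `mem_nhds_prod_iff`; if `i` (or `j`) is one of the coordinates of `X` intersect the neighbourhoods.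
-/

set_option autoImplicit false

open Set Topology

namespace Pool.Agent.Lib.MP_e9314e_an.PB

variable {C : Type*} [TopologicalSpace C] [CompactSpace C] [T2Space C] [TotallyDisconnectedSpace C]
  {m : ℕ}

private theorem box_pi {z : Fin (m + 1) → C} {Q : (Fin (m + 1) → C) → Prop} (h : ∀ᶠ X in 𝓝 z, Q X) :
    ∃ U : Fin (m + 1) → Set C, (∀ l, IsClopen (U l)) ∧ (∀ l, z l ∈ U l) ∧
      ∀ X : Fin (m + 1) → C, (∀ l, X l ∈ U l) → Q X := by
  have h' : {X | Q X} ∈ 𝓝 z := h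
  rw [nhds_pi, Filter.mem_pi] at h'
  obtain ⟨I, -, t, ht, hsub⟩ := h'
  have h1 : ∀ l, ∃ U : Set C, IsClopen U ∧ z l ∈ U ∧ U ⊆ t l := by
    intro l
    obtain ⟨U, ⟨hU1, hU2⟩, hU3⟩ := (nhds_basis_clopen (z l)).mem_iff.1 (ht l)
    exact ⟨U, hU2, hU1, hU3⟩
  choose U hU hz hUt using h1
  refine ⟨U, hU, hz, fun X hX => ?_⟩
  exact hsub fun l _ => hUt l (hX l)

private theorem box_one {x : C} {Q : C → Prop} (h : ∀ᶠ y in 𝓝 x, Q y) :
    ∃ U : Set C, IsClopen U ∧ x ∈ U ∧ ∀ y ∈ U, Q y := by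
  have h' : {y | Q y} ∈ 𝓝 x := h
  obtain ⟨U, ⟨hU1, hU2⟩, hU3⟩ := (nhds_basis_clopen x).mem_iff.1 h'
  exact ⟨U, hU2, hU1, fun y hy => hU3 hy⟩

/-- Intersect with one more clopen set at the coordinate `i`. -/
private theorem box_upd {z : Fin (m + 1) → C} {i : Fin (m + 1)} {U : Fin (m + 1) → Set C} {A : Set C}
    (hU : ∀ l, IsClopen (U l)) (hz : ∀ l, z l ∈ U l) (hA : IsClopen A) (hzA : z i ∈ A) :
    ∃ U' : Fin (m + 1) → Set C, (∀ l, IsClopen (U' l)) ∧ (∀ l, z l ∈ U' l) ∧ (∀ l, U' l ⊆ U l) ∧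
      U' i ⊆ A := by
  classical
  refine ⟨fun l => if l = i then U l ∩ A else U l, fun l => ?_, fun l => ?_, fun l => ?_, ?_⟩
  · dsimp only
    split_ifs
    · exact (hU l).inter hA
    · exact hU l
  · dsimp only
    split_ifs with h
    · subst h
      exact ⟨hz l, hzA⟩
    · exact hz l
  · dsimp only
    split_ifs
    · exact inter_subset_left
    · exact Subset.rfl
  · dsimp only
    rw [if_pos rfl]
    exact inter_subset_right

theorem exists_box0 {z : Fin (m + 1) → C} {i : Fin (m + 1)} {P : (Fin (m + 1) → C) → C → Prop}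
    (h : ∀ᶠ p : (Fin (m + 1) → C) × C in 𝓝 (z, z i), P p.1 p.2) :
    ∃ U : Fin (m + 1) → Set C, (∀ l, IsClopen (U l)) ∧ (∀ l, z l ∈ U l) ∧
      ∀ X : Fin (m + 1) → C, (∀ l, X l ∈ U l) → ∀ a ∈ U i, P X a := by
  rw [nhds_prod_eq, Filter.eventually_prod_iff] at h
  obtain ⟨pa, hpa, pb, hpb, hP⟩ := h
  obtain ⟨U, hU, hz, hUP⟩ := box_pi hpa
  obtain ⟨A, hA, hzA, hAP⟩ := box_one hpb
  obtain ⟨U', hU', hz', hsub, hi⟩ := box_upd hU hz hA hzA
  exact ⟨U', hU', hz', fun X hX a ha => hP (hUP X fun l => hsub l (hX l)) (hAP a (hi ha))⟩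

theorem exists_box1 {z : Fin (m + 1) → C} {i : Fin (m + 1)} {P : (Fin (m + 1) → C) → C → ℝ → Prop}
    (h : ∀ᶠ p : (Fin (m + 1) → C) × C × ℝ in 𝓝 (z, z i, 1 / 2), P p.1 p.2.1 p.2.2) :
    ∃ h0 : ℝ, 0 < h0 ∧ ∃ U : Fin (m + 1) → Set C, (∀ l, IsClopen (U l)) ∧ (∀ l, z l ∈ U l) ∧
      ∀ X : Fin (m + 1) → C, (∀ l, X l ∈ U l) → ∀ a ∈ U i, ∀ s ∈ Icc (1 / 2 - h0) (1 / 2 + h0), P X a s := by
  rw [nhds_prod_eq, Filter.eventually_prod_iff] at h
  obtain ⟨pa, hpa, pb, hpb, hP⟩ := h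
  rw [nhds_prod_eq, Filter.eventually_prod_iff] at hpb
  obtain ⟨pc, hpc, pd, hpd, hQ⟩ := hpb
  obtain ⟨U, hU, hz, hUP⟩ := box_pi hpa
  obtain ⟨A, hA, hzA, hAP⟩ := box_one hpc
  obtain ⟨U', hU', hz', hsub, hi⟩ := box_upd hU hz hA hzA
  obtain ⟨r, hr, hrP⟩ := Metric.eventually_nhds_iff.1 hpd
  refine ⟨r / 2, by positivity, U', hU', hz', fun X hX a ha s hs => ?_⟩
  refine hP (hUP X fun l => hsub l (hX l)) (hQ (hAP a (hi ha)) (hrP ?_))
  rw [Real.dist_eq, abs_lt]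
  constructor
  · linarith [hs.1]
  · linarith [hs.2]

theorem exists_box2 {z : Fin (m + 1) → C} {i j : Fin (m + 1)} {P : (Fin (m + 1) → C) → C → C → Prop}
    (h : ∀ᶠ p : (Fin (m + 1) → C) × C × C in 𝓝 (z, z i, z j), P p.1 p.2.1 p.2.2) :
    ∃ U : Fin (m + 1) → Set C, (∀ l, IsClopen (U l)) ∧ (∀ l, z l ∈ U l) ∧
      ∀ X : Fin (m + 1) → C, (∀ l, X l ∈ U l) → ∀ a ∈ U i, ∀ b ∈ U j, P X a b := by
  rw [nhds_prod_eq, Filter.eventually_prod_iff] at h
  obtain ⟨pa, hpa, pb, hpb, hP⟩ := h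
  rw [nhds_prod_eq, Filter.eventually_prod_iff] at hpb
  obtain ⟨pc, hpc, pd, hpd, hQ⟩ := hpb
  obtain ⟨U, hU, hz, hUP⟩ := box_pi hpa
  obtain ⟨A, hA, hzA, hAP⟩ := box_one hpc
  obtain ⟨B, hB, hzB, hBP⟩ := box_one hpd
  obtain ⟨U', hU', hz', hsub, hi⟩ := box_upd hU hz hA hzA
  obtain ⟨U'', hU'', hz'', hsub', hj⟩ := box_upd hU' hz' hB hzB
  exact ⟨U'', hU'', hz'', fun X hX a ha b hb => hP (hUP X fun l => hsub l (hsub' l (hX l)))
    (hQ (hAP a (hi (hsub' i ha))) (hBP b (hj hb)))⟩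

end Pool.Agent.Lib.MP_e9314e_an.PB
end

section

/-!
# PB: integrals of coboundaries

`int_cob`: let `H_N = max (-N) (min N H)`.  Then `|H_N (T x) - H_N x| ≤ |H (T x) - H x| = |W x|`, `∫ (H_N ∘ T - H_N) = 0` since `H_N` is bounded (integrable) and
`T` preserves `μ`, and `H_N (T x) - H_N x → W x`; dominated convergence.
`no_atoms`: if `μ {x} > 0` then `x` is not periodic, the points `T^n x` are different and have the same measure: contradiction
to `μ univ < ∞`.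
-/

set_option autoImplicit false

open MeasureTheory Set

namespace Pool.Agent.Lib.MP_e9314e_an.PB

theorem int_cob {α : Type*} [MeasurableSpace α] {μ : Measure α} [IsFiniteMeasure μ] {T : α → α}
    (hT : MeasurePreserving T μ μ) {H W : α → ℝ} (hH : AEStronglyMeasurable H μ) (hW : Integrable W μ)
    (h : ∀ᵐ x ∂μ, W x = H (T x) - H x) : ∫ x, W x ∂μ = 0 := by
  have hc : ∀ N : ℕ, Continuous (fun t : ℝ => max (-(N : ℝ)) (min (N : ℝ) t)) := fun N => by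
    fun_prop
  have hb : ∀ (N : ℕ) (t : ℝ), ‖max (-(N : ℝ)) (min (N : ℝ) t)‖ ≤ (N : ℝ) := fun N t => by
    rw [Real.norm_eq_abs, abs_le]
    have hN : (0 : ℝ) ≤ (N : ℝ) := Nat.cast_nonneg _
    exact ⟨le_max_left _ _, max_le (by linarith) (min_le_left _ _)⟩
  have hTH : AEStronglyMeasurable (fun x => H (T x)) μ := hH.comp_measurePreserving hT
  have hm1 : ∀ N : ℕ, AEStronglyMeasurable (fun x => max (-(N : ℝ)) (min (N : ℝ) (H x))) μ :=
    fun N => (hc N).comp_aestronglyMeasurable hH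
  have hm2 : ∀ N : ℕ, AEStronglyMeasurable (fun x => max (-(N : ℝ)) (min (N : ℝ) (H (T x)))) μ :=
    fun N => (hc N).comp_aestronglyMeasurable hTH
  have hi1 : ∀ N : ℕ, Integrable (fun x => max (-(N : ℝ)) (min (N : ℝ) (H x))) μ := fun N =>
    Integrable.of_bound (hm1 N) (N : ℝ) (Filter.Eventually.of_forall fun x => hb N _)
  have hi2 : ∀ N : ℕ, Integrable (fun x => max (-(N : ℝ)) (min (N : ℝ) (H (T x)))) μ := fun N =>
    Integrable.of_bound (hm2 N) (N : ℝ) (Filter.Eventually.of_forall fun x => hb N _)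
  have hzero : ∀ N : ℕ, ∫ x, (max (-(N : ℝ)) (min (N : ℝ) (H (T x))) -
      max (-(N : ℝ)) (min (N : ℝ) (H x))) ∂μ = 0 := by
    intro N
    rw [integral_sub (hi2 N) (hi1 N)]
    have h1 : ∫ y, max (-(N : ℝ)) (min (N : ℝ) (H y)) ∂(Measure.map T μ) =
        ∫ x, max (-(N : ℝ)) (min (N : ℝ) (H (T x))) ∂μ := by
      apply integral_map hT.measurable.aemeasurable
      rw [hT.map_eq]
      exact hm1 N
    rw [hT.map_eq] at h1
    rw [h1, sub_self]
  have hlip : ∀ (N : ℕ) (s t : ℝ), |max (-(N : ℝ)) (min (N : ℝ) s) - max (-(N : ℝ)) (min (N : ℝ) t)|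
      ≤ |s - t| := by
    intro N s t
    refine (abs_max_sub_max_le_max _ _ _ _).trans ?_
    rw [sub_self, abs_zero, max_eq_right (abs_nonneg _)]
    refine (abs_min_sub_min_le_max _ _ _ _).trans ?_
    rw [sub_self, abs_zero, max_eq_right (abs_nonneg _)]
  have hlim : Filter.Tendsto (fun N : ℕ => ∫ x, (max (-(N : ℝ)) (min (N : ℝ) (H (T x))) -
      max (-(N : ℝ)) (min (N : ℝ) (H x))) ∂μ) Filter.atTop (nhds (∫ x, W x ∂μ)) := by
    apply tendsto_integral_of_dominated_convergence (fun x => |W x|)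
    · exact fun N => (hm2 N).sub (hm1 N)
    · exact hW.abs
    · intro N
      filter_upwards [h] with x hx
      rw [hx]
      exact hlip N _ _
    · filter_upwards [h] with x hx
      rw [hx]
      apply tendsto_const_nhds.congr'
      obtain ⟨M, hM⟩ := exists_nat_ge (max |H (T x)| |H x|)
      filter_upwards [Filter.eventually_ge_atTop M] with N hN
      have hMN : (M : ℝ) ≤ (N : ℝ) := by exact_mod_cast hN
      have h1 : |H (T x)| ≤ (N : ℝ) := (le_max_left _ _).trans (hM.trans hMN)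
      have h2 : |H x| ≤ (N : ℝ) := (le_max_right _ _).trans (hM.trans hMN)
      rw [abs_le] at h1 h2
      rw [min_eq_right h1.2, min_eq_right h2.2, max_eq_right h1.1, max_eq_right h2.1]
  simp only [hzero] at hlim
  exact tendsto_nhds_unique hlim tendsto_const_nhds

theorem no_atoms {α : Type*} [MeasurableSpace α] [MeasurableSingletonClass α] {μ : Measure α}
    [IsFiniteMeasure μ] {T : α → α} (hT : MeasurePreserving T μ μ) (hinj : Function.Injective T)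
    (hper : μ {x | ∃ k : ℕ, 0 < k ∧ T^[k] x = x} = 0) : NullSingletonClass μ := by
  refine ⟨fun x => ?_⟩
  by_contra hx
  have hmass : ∀ n : ℕ, μ {T^[n] x} = μ {x} := by
    intro n
    have h1 := (hT.iterate n).measure_preimage (s := {T^[n] x})
      (measurableSet_singleton _).nullMeasurableSet
    rw [← h1]
    congr 1
    ext y
    constructor
    · intro hy
      exact hinj.iterate n hy
    · rintro rfl
      rfl
  have hinj2 : Function.Injective (fun n : ℕ => T^[n] x) := by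
    have key : ∀ n m : ℕ, n < m → T^[n] x ≠ T^[m] x := by
      intro n m hnm h
      have h2 : T^[n] (T^[m - n] x) = T^[n] x := by
        rw [← Function.iterate_add_apply, show n + (m - n) = m by omega, h]
      have h3 := hinj.iterate n h2
      apply hx
      refine measure_mono_null ?_ hper
      rintro y rfl
      exact ⟨m - n, by omega, h3⟩
    intro n m h
    rcases lt_trichotomy n m with hlt | heq | hgt
    · exact absurd h (key n m hlt)
    · exact heq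
    · exact absurd h.symm (key m n hgt)
  have hdisj : Pairwise (Function.onFun Disjoint (fun n : ℕ => ({T^[n] x} : Set α))) := by
    intro n m hnm
    rw [Function.onFun, Set.disjoint_singleton]
    exact fun h => hnm (hinj2 h)
  have hsum := measure_iUnion hdisj (fun n => measurableSet_singleton (T^[n] x)) (μ := μ)
  simp only [hmass] at hsum
  rw [ENNReal.tsum_const_eq_top_of_ne_zero hx] at hsum
  exact measure_ne_top μ _ hsum

end Pool.Agent.Lib.MP_e9314e_an.PB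
end

section

/-!
# PB: a pair of points at maximal distance on an arc

`(s, t) ↦ ‖Γ s - Γ t‖` attains its maximum on the compact set `[a, b]²` at `(s₁, s₂)`; `s₁ ≠ s₂` since `Γ` is injective and
`a < b`; `u = min s₁ s₂`, `v = max s₁ s₂`.
-/

set_option autoImplicit false

open Set

namespace Pool.Agent.Lib.MP_e9314e_an.PB

/-- A pair of points at maximal distance on an arc. -/
theorem exists_diam {Γ : ℝ → ℂ} {a b : ℝ} (hab : a < b) (hΓ : ContinuousOn Γ (Icc a b))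
    (hinj : InjOn Γ (Icc a b)) :
    ∃ u v, a ≤ u ∧ u < v ∧ v ≤ b ∧ ∀ s ∈ Icc u v, ∀ t ∈ Icc u v, ‖Γ s - Γ t‖ ≤ ‖Γ v - Γ u‖ := by
  have hc : IsCompact (Icc a b ×ˢ Icc a b) := isCompact_Icc.prod isCompact_Icc
  have hne : (Icc a b ×ˢ Icc a b).Nonempty :=
    ⟨(a, a), ⟨left_mem_Icc.2 hab.le, left_mem_Icc.2 hab.le⟩⟩
  have hf : ContinuousOn (fun x : ℝ × ℝ => ‖Γ x.1 - Γ x.2‖) (Icc a b ×ˢ Icc a b) := by
    apply ContinuousOn.norm
    apply ContinuousOn.sub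
    · exact hΓ.comp continuousOn_fst fun x hx => hx.1
    · exact hΓ.comp continuousOn_snd fun x hx => hx.2
  obtain ⟨x, hx, hmax⟩ := hc.exists_isMaxOn hne hf
  obtain ⟨s₁, s₂⟩ := x
  have hm : ∀ s ∈ Icc a b, ∀ t ∈ Icc a b, ‖Γ s - Γ t‖ ≤ ‖Γ s₁ - Γ s₂‖ := by
    intro s hs t ht
    exact hmax (show ((s, t) : ℝ × ℝ) ∈ Icc a b ×ˢ Icc a b from ⟨hs, ht⟩)
  have h1 : s₁ ∈ Icc a b := hx.1
  have h2 : s₂ ∈ Icc a b := hx.2
  have hne' : s₁ ≠ s₂ := by
    intro h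
    have h3 := hm a (left_mem_Icc.2 hab.le) b (right_mem_Icc.2 hab.le)
    rw [h, sub_self, norm_zero] at h3
    have h4 : Γ a - Γ b = 0 := norm_eq_zero.1 (le_antisymm h3 (norm_nonneg _))
    exact hab.ne (hinj (left_mem_Icc.2 hab.le) (right_mem_Icc.2 hab.le) (sub_eq_zero.1 h4))
  rcases lt_or_gt_of_ne hne' with h | h
  · refine ⟨s₁, s₂, h1.1, h, h2.2, fun s hs t ht => ?_⟩
    rw [norm_sub_rev (Γ s₂)]
    exact hm s ⟨h1.1.trans hs.1, hs.2.trans h2.2⟩ t ⟨h1.1.trans ht.1, ht.2.trans h2.2⟩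
  · refine ⟨s₂, s₁, h2.1, h, h1.2, fun s hs t ht => ?_⟩
    exact hm s ⟨h2.1.trans hs.1, hs.2.trans h1.2⟩ t ⟨h2.1.trans ht.1, ht.2.trans h1.2⟩

end Pool.Agent.Lib.MP_e9314e_an.PB
end

section

/-!
# PB: the square rule
-/

set_option autoImplicit false

open Set Complex

namespace Pool.Agent.Lib.MP_e9314e_an.PB

/-- The affine path from `p` to `q`. -/
private noncomputable def wsPath (p q : ℝ × ℝ) (θ : ℝ) : ℝ × ℝ :=
  (p.1 + θ * (q.1 - p.1), p.2 + θ * (q.2 - p.2))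

private theorem wsPath_zero (p q : ℝ × ℝ) : wsPath p q 0 = p := by
  simp [wsPath]

private theorem wsPath_one (p q : ℝ × ℝ) : wsPath p q 1 = q := by
  simp [wsPath]

private theorem wsPath_cont (p q : ℝ × ℝ) : Continuous (wsPath p q) := by
  unfold wsPath
  fun_prop

private theorem ws_comb {a b θ : ℝ} (ha : a ∈ Icc (0 : ℝ) 1) (hb : b ∈ Icc (0 : ℝ) 1)
    (hθ : θ ∈ Icc (0 : ℝ) 1) : a + θ * (b - a) ∈ Icc (0 : ℝ) 1 := by
  obtain ⟨a0, a1⟩ := ha
  obtain ⟨b0, b1⟩ := hb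
  obtain ⟨t0, t1⟩ := hθ
  constructor
  · nlinarith [mul_nonneg t0 b0, mul_nonneg (sub_nonneg.2 t1) a0]
  · nlinarith [mul_nonneg t0 (sub_nonneg.2 b1), mul_nonneg (sub_nonneg.2 t1) (sub_nonneg.2 a1)]

private theorem wsPath_mem {p q : ℝ × ℝ} (hp : p ∈ Icc (0 : ℝ) 1 ×ˢ Icc (0 : ℝ) 1)
    (hq : q ∈ Icc (0 : ℝ) 1 ×ˢ Icc (0 : ℝ) 1) {θ : ℝ} (hθ : θ ∈ Icc (0 : ℝ) 1) :
    wsPath p q θ ∈ Icc (0 : ℝ) 1 ×ˢ Icc (0 : ℝ) 1 :=
  ⟨ws_comb hp.1 hq.1 hθ, ws_comb hp.2 hq.2 hθ⟩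

/-- The change of the argument along an affine path from a logarithm on the square. -/
private theorem ws_ac {f g : ℝ × ℝ → ℂ} (hg : ContinuousOn g (Icc 0 1 ×ˢ Icc 0 1))
    (hgf : ∀ p ∈ Icc (0 : ℝ) 1 ×ˢ Icc (0 : ℝ) 1, exp (g p) = f p) {p q : ℝ × ℝ}
    (hp : p ∈ Icc (0 : ℝ) 1 ×ˢ Icc (0 : ℝ) 1) (hq : q ∈ Icc (0 : ℝ) 1 ×ˢ Icc (0 : ℝ) 1) :
    ac (fun θ => f (wsPath p q θ)) 0 1 = (g q - g p).im := by
  have h := ac_eq (f := fun θ => f (wsPath p q θ)) (g := fun θ => g (wsPath p q θ)) zero_le_one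
    (hg.comp (wsPath_cont p q).continuousOn fun θ hθ => wsPath_mem hp hq hθ)
    (fun θ hθ => hgf _ (wsPath_mem hp hq hθ))
  rw [h]
  simp only [wsPath_zero, wsPath_one]

/-- Along a path far from the diagonal `Im g - arg f` does not change. -/
private theorem ws_far {f g : ℝ × ℝ → ℂ} (hf : ContinuousOn f (Icc 0 1 ×ˢ Icc 0 1))
    (hg : ContinuousOn g (Icc 0 1 ×ˢ Icc 0 1))
    (hgf : ∀ p ∈ Icc (0 : ℝ) 1 ×ˢ Icc (0 : ℝ) 1, exp (g p) = f p) {p q : ℝ × ℝ}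
    (hp : p ∈ Icc (0 : ℝ) 1 ×ˢ Icc (0 : ℝ) 1) (hq : q ∈ Icc (0 : ℝ) 1 ×ˢ Icc (0 : ℝ) 1)
    (hn : ∀ θ ∈ Icc (0 : ℝ) 1, ‖f (wsPath p q θ) - 1‖ ≤ 1 / 2) :
    (g q - g p).im = arg (f q) - arg (f p) := by
  rw [← ws_ac hg hgf hp hq]
  have h := ac_slit (f := fun θ => f (wsPath p q θ)) zero_le_one
    (hf.comp (wsPath_cont p q).continuousOn fun θ hθ => wsPath_mem hp hq hθ)
    (fun θ hθ => by
      have h1 : ‖f (wsPath p q θ) - 1‖ < 1 := (hn θ hθ).trans_lt (by norm_num)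
      have h2 := mem_slitPlane_of_norm_lt_one h1
      simpa using h2)
  rw [h]
  simp only [wsPath_zero, wsPath_one]

/-- The square rule: if `f` is near `1` off a neighbourhood of the diagonal, the winding of
`s ↦ f (s, 1/2)` is the winding along the diagonal path from `(u, v)` to `(v, u)`.
Proof: with a continuous logarithm `g` of `f` on the square, `Im g - arg f` is constant along
the path `(0, 1/2) → (0, v) → (u, v)` and along `(1, 1/2) → (1, u) → (v, u)`, where `f` is in the slit plane. -/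
theorem wn_square {f : ℝ × ℝ → ℂ} {η u v : ℝ} (hf : ContinuousOn f (Icc 0 1 ×ˢ Icc 0 1))
    (h0 : ∀ p ∈ Icc (0 : ℝ) 1 ×ˢ Icc (0 : ℝ) 1, f p ≠ 0) (hη : 0 < η) (hη' : η ≤ 1 / 4)
    (hu : 1 / 4 ≤ u) (huv : u + η ≤ v) (hv : v ≤ 3 / 4)
    (hfar : ∀ p ∈ Icc (0 : ℝ) 1 ×ˢ Icc (0 : ℝ) 1, η ≤ |p.1 - p.2| → ‖f p - 1‖ ≤ 1 / 2) :
    wn (fun s => f (s, 1 / 2)) =
      (ac (fun θ => f (u + θ * (v - u), v - θ * (v - u))) 0 1 - arg (f (v, u)) + arg (f (u, v))) /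
        (2 * Real.pi) := by
  obtain ⟨g, hg, hgf⟩ := exists_log2 zero_le_one zero_le_one hf h0
  have m01 : ((0, 1 / 2) : ℝ × ℝ) ∈ Icc (0 : ℝ) 1 ×ˢ Icc (0 : ℝ) 1 := by
    constructor <;> constructor <;> norm_num
  have m11 : ((1, 1 / 2) : ℝ × ℝ) ∈ Icc (0 : ℝ) 1 ×ˢ Icc (0 : ℝ) 1 := by
    constructor <;> constructor <;> norm_num
  have muv : ((u, v) : ℝ × ℝ) ∈ Icc (0 : ℝ) 1 ×ˢ Icc (0 : ℝ) 1 := by
    constructor <;> constructor <;> simp only [] <;> linarith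
  have mvu : ((v, u) : ℝ × ℝ) ∈ Icc (0 : ℝ) 1 ×ˢ Icc (0 : ℝ) 1 := by
    constructor <;> constructor <;> simp only [] <;> linarith
  -- the two sides
  have e1 : ac (fun s => f (s, 1 / 2)) 0 1 = (g (1, 1 / 2) - g (0, 1 / 2)).im := by
    rw [← ws_ac hg hgf m01 m11]
    apply ac_congr
    intro t _
    simp [wsPath]
  have e2 : ac (fun θ => f (u + θ * (v - u), v - θ * (v - u))) 0 1 = (g (v, u) - g (u, v)).im := by
    rw [← ws_ac hg hgf muv mvu]
    apply ac_congr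
    intro t _
    simp only [wsPath]
    congr 2
    ring
  have d1 : (g (u, v) - g (0, 1 / 2)).im = arg (f (u, v)) - arg (f (0, 1 / 2)) := by
    refine ws_far hf hg hgf m01 muv fun θ hθ => hfar _ (wsPath_mem m01 muv hθ) ?_
    obtain ⟨t0, t1⟩ := hθ
    simp only [wsPath]
    rw [abs_sub_comm]
    refine le_trans ?_ (le_abs_self _)
    nlinarith [mul_nonneg t0 (show 0 ≤ v - u - η by linarith),
      mul_nonneg (sub_nonneg.2 t1) (show 0 ≤ 1 / 2 - η by linarith)]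
  have d2 : (g (v, u) - g (1, 1 / 2)).im = arg (f (v, u)) - arg (f (1, 1 / 2)) := by
    refine ws_far hf hg hgf m11 mvu fun θ hθ => hfar _ (wsPath_mem m11 mvu hθ) ?_
    obtain ⟨t0, t1⟩ := hθ
    simp only [wsPath]
    refine le_trans ?_ (le_abs_self _)
    nlinarith [mul_nonneg t0 (show 0 ≤ v - u - η by linarith),
      mul_nonneg (sub_nonneg.2 t1) (show 0 ≤ 1 / 2 - η by linarith)]
  unfold wn
  rw [e1, e2]
  congr 1
  rw [sub_im] at d1 d2 ⊢
  rw [sub_im]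
  linarith

end Pool.Agent.Lib.MP_e9314e_an.PB
end

section

/-!
# PB: clopen neighbourhoods

`C` is compact Hausdorff and totally disconnected: every neighbourhood of a point contains a clopen neighbourhood
(`compact_exists_isClopen_in_isOpen` or `isTopologicalBasis_isClopen`).
`exists_pre`: choose disjoint neighbourhoods of the finitely many different points `z j`, `e`, `g` (for pairs, then intersect), and a clopen
neighbourhood of `z j` whose image under `T` is disjoint from it (`T (z j) ≠ z j`: separate `z j` and `T (z j)` by a clopen set `A ∋ z j`, take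
`A ∩ T⁻¹ Aᶜ`).
-/

set_option autoImplicit false

open Set Topology

namespace Pool.Agent.Lib.MP_e9314e_an.PB

variable {C : Type*} [TopologicalSpace C] [CompactSpace C] [T2Space C] [TotallyDisconnectedSpace C]
  {m : ℕ}

theorem exists_pre {T : C ≃ₜ C} {z : Fin (m + 1) → C} {e g : C} (hz : Function.Injective z)
    (he : ∀ j, e ≠ z j) (hg : ∀ j, g ≠ z j) (heg : e ≠ g) (hT : ∀ j, T (z j) ≠ z j) :
    ∃ S, Pre T z e g S := by
  classical
  have hsep : ∀ x y : C, x ≠ y → ∃ U : Set C, IsClopen U ∧ x ∈ U ∧ y ∉ U := by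
    intro x y hxy
    obtain ⟨U, h1, h2, h3⟩ := exists_isClopen_of_totally_separated hxy
    exact ⟨U, h1, h2, h3⟩
  have hpair : ∀ i j : Fin (m + 1), ∃ U : Set C, IsClopen U ∧ (i ≠ j → z i ∈ U ∧ z j ∉ U) := by
    intro i j
    by_cases hij : i = j
    · exact ⟨univ, isClopen_univ, fun h => absurd hij h⟩
    · obtain ⟨U, h1, h2, h3⟩ := hsep (z i) (z j) fun h => hij (hz h)
      exact ⟨U, h1, fun _ => ⟨h2, h3⟩⟩
  choose U hU1 hU2 using hpair
  choose Ae hAe1 hAe2 hAe3 using fun j => hsep (z j) e fun h => he j h.symm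
  choose Ag hAg1 hAg2 hAg3 using fun j => hsep (z j) g fun h => hg j h.symm
  choose At hAt1 hAt2 hAt3 using fun j => hsep (z j) (T (z j)) fun h => hT j h.symm
  set V : Fin (m + 1) → Fin (m + 1) → Set C := fun i j =>
    if i < j then U i j else if j < i then (U j i)ᶜ else univ with hV
  have hV1 : ∀ i j, IsClopen (V i j) := by
    intro i j
    simp only [hV]
    split_ifs
    · exact hU1 i j
    · exact (hU1 j i).compl
    · exact isClopen_univ
  have hV2 : ∀ i j, z i ∈ V i j := by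
    intro i j
    simp only [hV]
    split_ifs with h1 h2
    · exact (hU2 i j h1.ne).1
    · exact (hU2 j i h2.ne).2
    · exact mem_univ _
  have hV3 : ∀ i j, i ≠ j → Disjoint (V i j) (V j i) := by
    intro i j hij
    rw [Set.disjoint_left]
    intro x hx hy
    simp only [hV] at hx hy
    rcases lt_or_gt_of_ne hij with h | h
    · rw [if_pos h] at hx
      rw [if_neg (not_lt.2 h.le), if_pos h] at hy
      exact hy hx
    · rw [if_pos h] at hy
      rw [if_neg (not_lt.2 h.le), if_pos h] at hx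
      exact hx hy
  refine ⟨fun j => (⋂ i, V j i) ∩ (Ae j ∩ (Ag j ∩ (At j ∩ T ⁻¹' (At j)ᶜ))), ?_, ?_, ?_, ?_, ?_,
    heg, ?_⟩
  · intro j
    exact (isClopen_iInter_of_finite fun i => hV1 j i).inter ((hAe1 j).inter ((hAg1 j).inter
      ((hAt1 j).inter ((hAt1 j).compl.preimage T.continuous))))
  · intro i j hij
    refine (hV3 i j hij).mono ?_ ?_
    · exact fun x hx => mem_iInter.1 hx.1 j
    · exact fun x hx => mem_iInter.1 hx.1 i
  · intro j
    exact ⟨mem_iInter.2 fun i => hV2 j i, hAe2 j, hAg2 j, hAt2 j, hAt3 j⟩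
  · intro j h
    exact hAe3 j h.2.1
  · intro j h
    exact hAg3 j h.2.2.1
  · intro j c hc hTc
    exact hc.2.2.2.2 hTc.2.2.2.1

end Pool.Agent.Lib.MP_e9314e_an.PB
end

section

/-!
# PB: estimates near the base configuration

Each statement says that a quotient which is `1` at the base point `p = (z, z 0, …)` is close to `1` near the base point, uniformly for the
remaining variables in a compact set: `IsCompact.eventually_forall_of_forall_eventually` (or the tube lemma), continuity of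
`D1`, `D2` (`continuous_D1`, `continuous_D2`) and the nonvanishing of the denominators (`Pre.D1_ne_e`, `Pre.D2_ne_e`, `Pre.D2_ne_S0`,
`Pre.D2_ne_Sj` with `X = z`).
-/

set_option autoImplicit false

open Set Topology

namespace Pool.Agent.Lib.MP_e9314e_an.PB

private theorem ev_gen {P Y : Type*} [TopologicalSpace P] [TopologicalSpace Y] {K : Set Y} (hK : IsCompact K)
    {A : P × Y → ℂ} (hA : Continuous A) {p₀ : P} (h0 : ∀ y ∈ K, A (p₀, y) ≠ 0) {ε : ℝ} (hε : 0 < ε) :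
    ∀ᶠ p in 𝓝 p₀, ∀ y ∈ K, ‖A (p, y) / A (p₀, y) - 1‖ ≤ ε := by
  refine hK.eventually_forall_of_forall_eventually (P := fun p y => ‖A (p, y) / A (p₀, y) - 1‖ ≤ ε) ?_
  intro y hy
  have hc : ContinuousAt (fun x : P × Y => ‖A x / A (p₀, x.2) - 1‖) (p₀, y) := by
    have h1 : Continuous fun x : P × Y => A (p₀, x.2) := hA.comp (continuous_const.prodMk continuous_snd)
    exact ((hA.continuousAt.div h1.continuousAt (h0 y hy)).sub continuousAt_const).norm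
  have hv : ‖A (p₀, y) / A (p₀, (p₀, y).2) - 1‖ < ε := by
    have : A (p₀, y) / A (p₀, (p₀, y).2) = 1 := div_self (h0 y hy)
    rw [this, sub_self, norm_zero]
    exact hε
  exact (hc.tendsto.eventually_lt_const hv).mono fun x hx => le_of_lt hx

variable {C : Type*} [TopologicalSpace C] [CompactSpace C] [T2Space C] {T : C ≃ₜ C} {m : ℕ}

namespace Pre

variable {z : Fin (m + 1) → C} {e g : C} {S : Fin (m + 1) → Set C} (hS : Pre T z e g S) (Φ : Sys T m)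

include hS

omit [CompactSpace C] [T2Space C] in
theorem ev_c1 (j : Fin (m + 1)) : ∀ᶠ p : (Fin (m + 1) → C) × C × ℝ in 𝓝 (z, z j, 1 / 2),
    ‖Φ.D1 p.1 j (p.2.1, p.2.2) (e, 1 / 2) / Φ.D1 z j (z j, 1 / 2) (e, 1 / 2) - 1‖ ≤ 1 / 1000 := by
  have hA : Continuous fun x : ((Fin (m + 1) → C) × C × ℝ) × Unit =>
      Φ.D1 x.1.1 j (x.1.2.1, x.1.2.2) (e, 1 / 2) :=
    (Φ.continuous_D1 j).comp ((continuous_fst.comp continuous_fst).prodMk
      ((continuous_snd.comp continuous_fst).prodMk continuous_const))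
  have h := ev_gen (isCompact_univ (X := Unit)) hA (p₀ := (z, z j, 1 / 2))
    (fun _ _ => hS.D1_ne_e Φ hS.zS (hS.zS j) ⟨by norm_num, by norm_num⟩) (ε := 1 / 1000) (by norm_num)
  exact h.mono fun p hp => hp () (Set.mem_univ _)

theorem ev_c2 {j : Fin (m + 1)} (hj : j ≠ 0) :
    ∀ᶠ p : (Fin (m + 1) → C) × C × ℝ in 𝓝 (z, z 0, 1 / 2), ∀ q ∈ S j, ∀ t ∈ Icc (0 : ℝ) 1,
    ‖Φ.D2 p.1 j (p.2.1, p.2.2) (q, t) (e, 1 / 2) / Φ.D2 z j (z 0, 1 / 2) (q, t) (e, 1 / 2) - 1‖ ≤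
      1 / 1000 := by
  have hK : IsCompact (S j ×ˢ Icc (0 : ℝ) 1) := (hS.clopen j).isClosed.isCompact.prod isCompact_Icc
  have hA : Continuous fun x : ((Fin (m + 1) → C) × C × ℝ) × (C × ℝ) =>
      Φ.D2 x.1.1 j (x.1.2.1, x.1.2.2) x.2 (e, 1 / 2) :=
    (Φ.continuous_D2 j).comp ((continuous_fst.comp continuous_fst).prodMk
      ((continuous_snd.comp continuous_fst).prodMk (continuous_snd.prodMk continuous_const)))
  have h := ev_gen hK hA (p₀ := (z, z 0, 1 / 2))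
    (fun y hy => hS.D2_ne_e Φ hS.zS hj (hS.zS 0) hy.1 ⟨by norm_num, by norm_num⟩ hy.2) (ε := 1 / 1000)
    (by norm_num)
  exact h.mono fun p hp q hq t ht => hp (q, t) ⟨hq, ht⟩

theorem ev_c3 {j : Fin (m + 1)} (hj : j ≠ 0) :
    ∀ᶠ p : (Fin (m + 1) → C) × C × ℝ in 𝓝 (z, z 0, 1 / 2), ∀ r ∈ S j, ∀ q ∈ S j,
    ∀ t : ℝ, (t = 0 ∨ t = 1) →
    ‖Φ.D2 p.1 j (p.2.1, p.2.2) (r, 1 / 2) (q, t) / Φ.D2 z j (z 0, 1 / 2) (r, 1 / 2) (q, t) - 1‖ ≤
      1 / 100 := by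
  have hT : IsCompact ({0, 1} : Set ℝ) := (Set.toFinite _).isCompact
  have hC : IsCompact (S j) := (hS.clopen j).isClosed.isCompact
  have hK : IsCompact (S j ×ˢ (S j ×ˢ ({0, 1} : Set ℝ))) := hC.prod (hC.prod hT)
  have hA : Continuous fun x : ((Fin (m + 1) → C) × C × ℝ) × (C × C × ℝ) =>
      Φ.D2 x.1.1 j (x.1.2.1, x.1.2.2) (x.2.1, 1 / 2) x.2.2 :=
    (Φ.continuous_D2 j).comp ((continuous_fst.comp continuous_fst).prodMk
      ((continuous_snd.comp continuous_fst).prodMk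
        (((continuous_fst.comp continuous_snd).prodMk continuous_const).prodMk
          (continuous_snd.comp continuous_snd))))
  have h := ev_gen hK hA (p₀ := (z, z 0, 1 / 2))
    (fun y hy => by
      have h1 : y.1 ∈ S j := hy.1
      have h2 : y.2.1 ∈ S j := hy.2.1
      have h3 : y.2.2 = 0 ∨ y.2.2 = 1 := hy.2.2
      have h4 : y.2.2 ∈ Icc (0 : ℝ) 1 := by
        rcases h3 with h3 | h3 <;> rw [h3] <;> constructor <;> norm_num
      have h5 : (1 / 2 : ℝ) ≠ y.2.2 := by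
        rcases h3 with h3 | h3 <;> rw [h3] <;> norm_num
      exact hS.D2_ne_Sj Φ hS.zS hj (hS.zS 0) h1 h2 ⟨by norm_num, by norm_num⟩ ⟨by norm_num, by norm_num⟩
        h4 (Or.inr h5)) (ε := 1 / 100) (by norm_num)
  exact h.mono fun p hp r hr q hq t ht => hp (r, q, t) ⟨hr, hq, ht⟩

theorem ev_c4 {j : Fin (m + 1)} (hj : j ≠ 0) {u v : ℝ} (hu : u ∈ Ioo (0 : ℝ) 1)
    (hv : v ∈ Ioo (0 : ℝ) 1) (huv : u ≠ v) :
    ∀ᶠ p : (Fin (m + 1) → C) × C × C in 𝓝 (z, z 0, z 0), ∀ q ∈ S j, ∀ t ∈ Icc (0 : ℝ) 1,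
    ‖Φ.D2 p.1 j (p.2.1, v) (q, t) (p.2.2, u) / Φ.D2 z j (z 0, v) (q, t) (z 0, u) - 1‖ ≤ 1 / 100 := by
  have hK : IsCompact (S j ×ˢ Icc (0 : ℝ) 1) := (hS.clopen j).isClosed.isCompact.prod isCompact_Icc
  have hA : Continuous fun x : ((Fin (m + 1) → C) × C × C) × (C × ℝ) =>
      Φ.D2 x.1.1 j (x.1.2.1, v) x.2 (x.1.2.2, u) :=
    (Φ.continuous_D2 j).comp ((continuous_fst.comp continuous_fst).prodMk
      (((continuous_fst.comp (continuous_snd.comp continuous_fst)).prodMk continuous_const).prodMk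
        (continuous_snd.prodMk
          ((continuous_snd.comp (continuous_snd.comp continuous_fst)).prodMk continuous_const))))
  have h := ev_gen hK hA (p₀ := (z, z 0, z 0))
    (fun y hy => hS.D2_ne_S0 Φ hS.zS hj (hS.zS 0) hy.1 (hS.zS 0) hv hy.2 hu (Or.inr huv.symm))
    (ε := 1 / 100) (by norm_num)
  exact h.mono fun p hp q hq t ht => hp (q, t) ⟨hq, ht⟩

end Pre

end Pool.Agent.Lib.MP_e9314e_an.PB
end

section

/-!
# PB: the time scale

`exists_h`: `ev_c1` (all `j`), `ev_c2`, `ev_c3` (all `j ≠ 0`) with `exists_box1`; finitely many conditions: take the minimum of the numbers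
`h0` (and `1/4`) and the intersections of the clopen sets, also with `S`.
-/

set_option autoImplicit false

open Set Topology

namespace Pool.Agent.Lib.MP_e9314e_an.PB

variable {C : Type*} [TopologicalSpace C] {T : C ≃ₜ C} {m : ℕ}

namespace Pre

variable {z : Fin (m + 1) → C} {e g : C} {S : Fin (m + 1) → Set C} (hS : Pre T z e g S) (Φ : Sys T m)

include hS

theorem exists_h [CompactSpace C] [T2Space C] [TotallyDisconnectedSpace C] :
    ∃ h : ℝ, 0 < h ∧ h ≤ 1 / 4 ∧ ∃ U : Fin (m + 1) → Set C, (∀ l, IsClopen (U l)) ∧ (∀ l, z l ∈ U l) ∧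
      (∀ l, U l ⊆ S l) ∧
      (∀ j, ∀ X : Fin (m + 1) → C, (∀ l, X l ∈ U l) → ∀ a ∈ U j, ∀ s ∈ Icc (1 / 2 - h) (1 / 2 + h),
        ‖Φ.D1 X j (a, s) (e, 1 / 2) / Φ.D1 z j (z j, 1 / 2) (e, 1 / 2) - 1‖ ≤ 1 / 1000) ∧
      (∀ j, j ≠ 0 → ∀ X : Fin (m + 1) → C, (∀ l, X l ∈ U l) → ∀ a ∈ U 0,
        ∀ s ∈ Icc (1 / 2 - h) (1 / 2 + h), ∀ q ∈ S j, ∀ t ∈ Icc (0 : ℝ) 1,
        ‖Φ.D2 X j (a, s) (q, t) (e, 1 / 2) / Φ.D2 z j (z 0, 1 / 2) (q, t) (e, 1 / 2) - 1‖ ≤ 1 / 1000) ∧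
      (∀ j, j ≠ 0 → ∀ X : Fin (m + 1) → C, (∀ l, X l ∈ U l) → ∀ a ∈ U 0,
        ∀ s ∈ Icc (1 / 2 - h) (1 / 2 + h), ∀ p ∈ S j, ∀ q ∈ S j, ∀ t, (t = 0 ∨ t = 1) →
        ‖Φ.D2 X j (a, s) (p, 1 / 2) (q, t) / Φ.D2 z j (z 0, 1 / 2) (p, 1 / 2) (q, t) - 1‖ ≤ 1 / 100) := by
  have h1 : ∀ j : Fin (m + 1), ∃ h0 : ℝ, 0 < h0 ∧ ∃ U : Fin (m + 1) → Set C,
      (∀ l, IsClopen (U l)) ∧ (∀ l, z l ∈ U l) ∧
      ∀ X : Fin (m + 1) → C, (∀ l, X l ∈ U l) → ∀ a ∈ U j, ∀ s ∈ Icc (1 / 2 - h0) (1 / 2 + h0),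
        ‖Φ.D1 X j (a, s) (e, 1 / 2) / Φ.D1 z j (z j, 1 / 2) (e, 1 / 2) - 1‖ ≤ 1 / 1000 := by
    intro j
    exact exists_box1 (P := fun X a s =>
      ‖Φ.D1 X j (a, s) (e, 1 / 2) / Φ.D1 z j (z j, 1 / 2) (e, 1 / 2) - 1‖ ≤ 1 / 1000)
      (hS.ev_c1 Φ j)
  have h2 : ∃ h0 : ℝ, 0 < h0 ∧ ∃ U : Fin (m + 1) → Set C,
      (∀ l, IsClopen (U l)) ∧ (∀ l, z l ∈ U l) ∧
      ∀ X : Fin (m + 1) → C, (∀ l, X l ∈ U l) → ∀ a ∈ U 0, ∀ s ∈ Icc (1 / 2 - h0) (1 / 2 + h0),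
        ∀ j : Fin (m + 1), j ≠ 0 → (∀ q ∈ S j, ∀ t ∈ Icc (0 : ℝ) 1,
          ‖Φ.D2 X j (a, s) (q, t) (e, 1 / 2) / Φ.D2 z j (z 0, 1 / 2) (q, t) (e, 1 / 2) - 1‖ ≤
            1 / 1000) ∧ (∀ p ∈ S j, ∀ q ∈ S j, ∀ t : ℝ, (t = 0 ∨ t = 1) →
          ‖Φ.D2 X j (a, s) (p, 1 / 2) (q, t) / Φ.D2 z j (z 0, 1 / 2) (p, 1 / 2) (q, t) - 1‖ ≤
            1 / 100) := by
    apply exists_box1 (P := fun X a s =>
        ∀ j : Fin (m + 1), j ≠ 0 → (∀ q ∈ S j, ∀ t ∈ Icc (0 : ℝ) 1,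
          ‖Φ.D2 X j (a, s) (q, t) (e, 1 / 2) / Φ.D2 z j (z 0, 1 / 2) (q, t) (e, 1 / 2) - 1‖ ≤
            1 / 1000) ∧ (∀ p ∈ S j, ∀ q ∈ S j, ∀ t : ℝ, (t = 0 ∨ t = 1) →
          ‖Φ.D2 X j (a, s) (p, 1 / 2) (q, t) / Φ.D2 z j (z 0, 1 / 2) (p, 1 / 2) (q, t) - 1‖ ≤
            1 / 100))
    rw [Filter.eventually_all]
    intro j
    by_cases hj : j = 0
    · exact Filter.Eventually.of_forall fun p hj' => absurd hj hj'
    · filter_upwards [hS.ev_c2 Φ hj, hS.ev_c3 Φ hj] with p hp1 hp2 _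
      exact ⟨hp1, hp2⟩
  choose h0 hh0 U hU1 hU2 hU3 using h1
  obtain ⟨k0, hk0, V, hV1, hV2, hV3⟩ := h2
  have hne : (Finset.univ : Finset (Fin (m + 1))).Nonempty := Finset.univ_nonempty
  have hle : ∀ j, min (1 / 4) (min k0 (Finset.univ.inf' hne h0)) ≤ h0 j := fun j =>
    (min_le_right _ _).trans ((min_le_right _ _).trans (Finset.inf'_le h0 (Finset.mem_univ j)))
  have hle2 : min (1 / 4) (min k0 (Finset.univ.inf' hne h0)) ≤ k0 :=
    (min_le_right _ _).trans (min_le_left _ _)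
  have hIcc : ∀ {a b : ℝ}, a ≤ b → ∀ s ∈ Icc (1 / 2 - a) (1 / 2 + a),
      s ∈ Icc (1 / 2 - b) (1 / 2 + b) := by
    intro a b hab s hs
    exact ⟨by linarith [hs.1], by linarith [hs.2]⟩
  refine ⟨min (1 / 4) (min k0 (Finset.univ.inf' hne h0)), ?_, min_le_left _ _,
    fun l => S l ∩ (V l ∩ ⋂ j, U j l), ?_, ?_, ?_, ?_, ?_, ?_⟩
  · apply lt_min (by norm_num) (lt_min hk0 _)
    rw [Finset.lt_inf'_iff]
    intro j _
    exact hh0 j
  · intro l
    exact (hS.clopen l).inter ((hV1 l).inter (isClopen_iInter_of_finite fun j => hU1 j l))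
  · intro l
    exact ⟨hS.zS l, hV2 l, mem_iInter.2 fun j => hU2 j l⟩
  · intro l
    exact inter_subset_left
  · intro j X hX a ha s hs
    exact hU3 j X (fun l => mem_iInter.1 (hX l).2.2 j) a (mem_iInter.1 ha.2.2 j) s
      (hIcc (hle j) s hs)
  · intro j hj X hX a ha s hs q hq t ht
    exact (hV3 X (fun l => (hX l).2.1) a ha.2.1 s (hIcc hle2 s hs) j hj).1 q hq t ht
  · intro j hj X hX a ha s hs p hp q hq t ht
    exact (hV3 X (fun l => (hX l).2.1) a ha.2.1 s (hIcc hle2 s hs) j hj).2 p hp q hq t ht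

end Pre

end Pool.Agent.Lib.MP_e9314e_an.PB
end

section

/-!
# PB: the windows

`Γ s = chart e g z j (z j, s)` is continuous and injective on `[0, 1]` (`chart_continuousOn`, `chart_ne` with `X = z`); `exists_diam` on
`[1/2 - h, 1/2 + h]`, then `plane_order`, and `ε` = minimum of its `ε` and `‖Γ v - Γ u‖ / 1000` (`PlaneOK` is monotone in `ε`).
-/

set_option autoImplicit false

open Set Topology

namespace Pool.Agent.Lib.MP_e9314e_an.PB

variable {C : Type*} [TopologicalSpace C] {T : C ≃ₜ C} {m : ℕ}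

namespace Pre

variable {z : Fin (m + 1) → C} {e g : C} {S : Fin (m + 1) → Set C} (hS : Pre T z e g S) (Φ : Sys T m)

include hS

theorem exists_window {h : ℝ} (h0 : 0 < h) (h4 : h ≤ 1 / 4) (j : Fin (m + 1)) :
    ∃ (u v ε : ℝ) (y : (ℝ → ℂ) → ℝ), 1 / 2 - h ≤ u ∧ u < v ∧ v ≤ 1 / 2 + h ∧ 0 < ε ∧
      ε ≤ ‖Φ.chart e g z j (z j, v) - Φ.chart e g z j (z j, u)‖ / 1000 ∧
      (∀ s ∈ Icc u v, ∀ t ∈ Icc u v, ‖Φ.chart e g z j (z j, s) - Φ.chart e g z j (z j, t)‖ ≤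
        ‖Φ.chart e g z j (z j, v) - Φ.chart e g z j (z j, u)‖) ∧
      PlaneOK u v (fun s => Φ.chart e g z j (z j, s)) ε y := by
  have hsub : Icc (1 / 2 - h) (1 / 2 + h) ⊆ Icc (0 : ℝ) 1 :=
    Icc_subset_Icc (by linarith) (by linarith)
  have hcont : ContinuousOn (fun s : ℝ => Φ.chart e g z j (z j, s)) (Icc 0 1) :=
    hS.chart_continuousOn Φ hS.zS (hS.zS j)
  have hinj : InjOn (fun s : ℝ => Φ.chart e g z j (z j, s)) (Icc 0 1) := by
    intro s hs t ht hst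
    by_contra hne
    exact hS.chart_ne Φ hS.zS (hS.zS j) (hS.zS j) hs ht (Or.inr hne) hst
  obtain ⟨u, v, hu, huv, hv, hd⟩ := exists_diam (by linarith) (hcont.mono hsub) (hinj.mono hsub)
  have hsub2 : Icc u v ⊆ Icc (0 : ℝ) 1 := Icc_subset_Icc (by linarith) (by linarith)
  obtain ⟨ε, hε, y, hy⟩ := plane_order huv (hcont.mono hsub2) (hinj.mono hsub2) hd
  have hpos : 0 < ‖Φ.chart e g z j (z j, v) - Φ.chart e g z j (z j, u)‖ := by
    rw [norm_pos_iff, sub_ne_zero]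
    intro hvu
    exact huv.ne' (hinj (hsub2 (right_mem_Icc.2 huv.le)) (hsub2 (left_mem_Icc.2 huv.le)) hvu)
  refine ⟨u, v, min ε (‖Φ.chart e g z j (z j, v) - Φ.chart e g z j (z j, u)‖ / 1000), y, hu, huv, hv,
    lt_min hε (by positivity), min_le_right _ _, hd, ?_⟩
  intro A B hA hB hAe hBe hAB
  exact hy A B hA hB (fun s hs => (hAe s hs).trans (min_le_left _ _))
    (fun s hs => (hBe s hs).trans (min_le_left _ _)) hAB

end Pre

end Pool.Agent.Lib.MP_e9314e_an.PB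
end

section

/-!
# PB: existence of a configuration of boxes

`exists_pre` gives `S⁰`; `exists_h` gives `h` and `U ⊆ S⁰`; `exists_window` gives `u j, v j, ε j, y j`; `ev_c4` (for `(u 0, v 0)` and
`(v 0, u 0)`, all `j ≠ 0`, with `exists_box2`) and `Pre.ev_c5` (all `j`, with `exists_box0`) give further clopen neighbourhoods.  `S` = intersection of all of
them (`Pre.mono`; the conditions `c2`, `c3`, `c4` hold for `q ∈ S⁰ j`, hence for `q ∈ S j`).
-/

set_option autoImplicit false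

open Set Topology

namespace Pool.Agent.Lib.MP_e9314e_an.PB

variable {C : Type*} [TopologicalSpace C] [CompactSpace C] [T2Space C] [TotallyDisconnectedSpace C]
  {T : C ≃ₜ C} {m : ℕ}

theorem exists_cfg (Φ : Sys T m) {z : Fin (m + 1) → C} {e g : C} (hz : Function.Injective z)
    (he : ∀ j, e ≠ z j) (hg : ∀ j, g ≠ z j) (heg : e ≠ g) (hT : ∀ j, T (z j) ≠ z j) :
    ∃ c : Cfg Φ, c.z = z := by
  obtain ⟨S0, hS0⟩ := exists_pre hz he hg heg hT
  obtain ⟨h, h0, h4, U, hUc, hUz, hUS, hc1, hc2, hc3⟩ := hS0.exists_h Φ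
  choose u v ε y hu huv hv hε hεd hdm hpl using fun j => hS0.exists_window Φ h0 h4 j
  have hu01 : ∀ j, u j ∈ Ioo (0 : ℝ) 1 := fun j =>
    ⟨by linarith [hu j], by linarith [hu j, huv j, hv j]⟩
  have hv01 : ∀ j, v j ∈ Ioo (0 : ℝ) 1 := fun j =>
    ⟨by linarith [hu j, huv j], by linarith [hv j]⟩
  have hA : ∀ j : Fin (m + 1), ∃ A : Fin (m + 1) → Set C, (∀ l, IsClopen (A l)) ∧ (∀ l, z l ∈ A l) ∧
      (j ≠ 0 → ∀ X : Fin (m + 1) → C, (∀ l, X l ∈ A l) → ∀ a ∈ A 0, ∀ b ∈ A 0,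
        ∀ q ∈ S0 j, ∀ t ∈ Icc (0 : ℝ) 1,
        ‖Φ.D2 X j (a, v 0) (q, t) (b, u 0) / Φ.D2 z j (z 0, v 0) (q, t) (z 0, u 0) - 1‖ ≤ 1 / 100) := by
    intro j
    rcases eq_or_ne j 0 with hj | hj
    · exact ⟨fun _ => univ, fun _ => isClopen_univ, fun _ => mem_univ _, fun h => absurd hj h⟩
    · obtain ⟨A, h1, h2, h3⟩ := exists_box2 (i := 0) (j := 0)
        (P := fun X a b => ∀ q ∈ S0 j, ∀ t ∈ Icc (0 : ℝ) 1,
          ‖Φ.D2 X j (a, v 0) (q, t) (b, u 0) / Φ.D2 z j (z 0, v 0) (q, t) (z 0, u 0) - 1‖ ≤ 1 / 100)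
        (hS0.ev_c4 Φ hj (hu01 0) (hv01 0) (huv 0).ne)
      exact ⟨A, h1, h2, fun _ => h3⟩
  have hA' : ∀ j : Fin (m + 1), ∃ A : Fin (m + 1) → Set C, (∀ l, IsClopen (A l)) ∧ (∀ l, z l ∈ A l) ∧
      (j ≠ 0 → ∀ X : Fin (m + 1) → C, (∀ l, X l ∈ A l) → ∀ a ∈ A 0, ∀ b ∈ A 0,
        ∀ q ∈ S0 j, ∀ t ∈ Icc (0 : ℝ) 1,
        ‖Φ.D2 X j (a, u 0) (q, t) (b, v 0) / Φ.D2 z j (z 0, u 0) (q, t) (z 0, v 0) - 1‖ ≤ 1 / 100) := by
    intro j
    rcases eq_or_ne j 0 with hj | hj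
    · exact ⟨fun _ => univ, fun _ => isClopen_univ, fun _ => mem_univ _, fun h => absurd hj h⟩
    · obtain ⟨A, h1, h2, h3⟩ := exists_box2 (i := 0) (j := 0)
        (P := fun X a b => ∀ q ∈ S0 j, ∀ t ∈ Icc (0 : ℝ) 1,
          ‖Φ.D2 X j (a, u 0) (q, t) (b, v 0) / Φ.D2 z j (z 0, u 0) (q, t) (z 0, v 0) - 1‖ ≤ 1 / 100)
        (hS0.ev_c4 Φ hj (hv01 0) (hu01 0) (huv 0).ne')
      exact ⟨A, h1, h2, fun _ => h3⟩
  have hB : ∀ j : Fin (m + 1), ∃ A : Fin (m + 1) → Set C, (∀ l, IsClopen (A l)) ∧ (∀ l, z l ∈ A l) ∧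
      (∀ X : Fin (m + 1) → C, (∀ l, X l ∈ A l) → ∀ a ∈ A j, ∀ s ∈ Icc (u j) (v j),
        ‖Φ.chart e g X j (a, s) - Φ.chart e g z j (z j, s)‖ ≤ ε j) := fun j =>
    exists_box0 (hS0.ev_c5 Φ (hu01 j).1.le (hv01 j).2.le (hε j) j)
  choose A hAc hAz hAP using hA
  choose A' hAc' hAz' hAP' using hA'
  choose B hBc hBz hBP using hB
  set S : Fin (m + 1) → Set C := fun l =>
    U l ∩ ((⋂ j, A j l) ∩ ((⋂ j, A' j l) ∩ ⋂ j, B j l)) with hS
  have hSU : ∀ l, S l ⊆ U l := fun l x hx => hx.1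
  have hSA : ∀ j l, S l ⊆ A j l := fun j l x hx => mem_iInter.1 hx.2.1 j
  have hSA' : ∀ j l, S l ⊆ A' j l := fun j l x hx => mem_iInter.1 hx.2.2.1 j
  have hSB : ∀ j l, S l ⊆ B j l := fun j l x hx => mem_iInter.1 hx.2.2.2 j
  have hSS : ∀ l, S l ⊆ S0 l := fun l => (hSU l).trans (hUS l)
  have hSc : ∀ l, IsClopen (S l) := fun l =>
    (hUc l).inter ((isClopen_iInter_of_finite fun j => hAc j l).inter
      ((isClopen_iInter_of_finite fun j => hAc' j l).inter (isClopen_iInter_of_finite fun j => hBc j l)))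
  have hSz : ∀ l, z l ∈ S l := fun l =>
    ⟨hUz l, mem_iInter.2 fun j => hAz j l, mem_iInter.2 fun j => hAz' j l, mem_iInter.2 fun j => hBz j l⟩
  refine ⟨{ z := z, e := e, g := g, S := S, h := h, u := u, v := v, ε := ε, y := y
            pre := hS0.mono hSS hSc hSz
            h0 := h0
            h4 := h4
            hu := hu
            uv := huv
            hv := hv
            c1 := fun j X hX a ha => hc1 j X (fun l => hSU l (hX l)) a (hSU j ha)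
            c2 := fun j hj X hX a ha s hs q hq =>
              hc2 j hj X (fun l => hSU l (hX l)) a (hSU 0 ha) s hs q (hSS j hq)
            c3 := fun j hj X hX a ha s hs p hp q hq =>
              hc3 j hj X (fun l => hSU l (hX l)) a (hSU 0 ha) s hs p (hSS j hp) q (hSS j hq)
            c4 := fun j hj X hX a ha b hb q hq =>
              hAP j hj X (fun l => hSA j l (hX l)) a (hSA j 0 ha) b (hSA j 0 hb) q (hSS j hq)
            c4' := fun j hj X hX a ha b hb q hq =>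
              hAP' j hj X (fun l => hSA' j l (hX l)) a (hSA' j 0 ha) b (hSA' j 0 hb) q (hSS j hq)
            c5 := fun j X hX a ha => hBP j X (fun l => hSB j l (hX l)) a (hSB j j ha)
            c6 := hεd
            c7 := hdm
            c8 := hpl }, rfl⟩

end Pool.Agent.Lib.MP_e9314e_an.PB
end

section

/-!
# PB: fine pieces of the transversal `S 0`

`ev_f2`, `ev_f3`, `ev_f4`: at `a = b = z 0` the quotient is `1`; it is continuous in
`(a, b, X, x, s, s')` at points where the denominator is not zero (`Pre.D1_ne`, `Pre.D2_ne_Sj`, `Pre.D1_ne_S`), and the remaining variables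
run through a compact set (`X l ∈ S l`, `x` in a clopen set, times in a compact set):
`IsCompact.eventually_forall_of_forall_eventually` with `x₀ = (z 0, z 0)`.
`exists_fine`: intersect the neighbourhoods (a set `V` with `V × V` inside, `V ⊆ S 0` open).
-/

set_option autoImplicit false

open Set Complex Topology

namespace Pool.Agent.Lib.MP_e9314e_an.PB

variable {C : Type*} [TopologicalSpace C] {T : C ≃ₜ C} {m : ℕ} {Φ : Sys T m} (c : Cfg Φ)

/-- A fine piece of the transversal `S 0`. -/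
structure Fine (V : Set C) (η : ℝ) : Prop where
  opn : IsOpen V
  zV : c.z 0 ∈ V
  VS : V ⊆ c.S 0
  η0 : 0 < η
  η4 : η ≤ 1 / 4
  ηuv : ∀ j, c.u j + η ≤ c.v j
  f2 : ∀ X : Fin (m + 1) → C, c.Adm X → ∀ a ∈ V, ∀ b ∈ V, ∀ x, (∀ j, x ∉ c.S j) → ∀ s ∈ Icc (0 : ℝ) 1,
    ‖Φ.D1 X 0 (a, 1 / 2) (x, s) / Φ.D1 X 0 (b, 1 / 2) (x, s) - 1‖ ≤ 1 / 2
  f3 : ∀ X : Fin (m + 1) → C, c.Adm X → ∀ j, j ≠ 0 → ∀ a ∈ V, ∀ b ∈ V, ∀ x ∈ c.S j,
    ∀ s ∈ Icc (0 : ℝ) 1, ∀ s' ∈ Icc (0 : ℝ) 1, η ≤ |s - s'| →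
    ‖Φ.D2 X j (a, 1 / 2) (X j, s') (x, s) / Φ.D2 X j (b, 1 / 2) (X j, s') (x, s) - 1‖ ≤ 1 / 2
  f4 : ∀ X : Fin (m + 1) → C, c.Adm X → ∀ a ∈ V, ∀ b ∈ V, ∀ x ∈ c.S 0,
    ∀ s ∈ Icc (0 : ℝ) 1, ∀ s' ∈ Icc (0 : ℝ) 1, η ≤ |s - s'| →
    ‖Φ.D1 X 0 (a, s') (x, s) / Φ.D1 X 0 (b, s') (x, s) - 1‖ ≤ 1 / 2

theorem exists_eta : ∃ η : ℝ, 0 < η ∧ η ≤ 1 / 4 ∧ ∀ j, c.u j + η ≤ c.v j := by
  obtain ⟨j0, hj0⟩ := Finite.exists_min (fun j : Fin (m + 1) => c.v j - c.u j)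
  refine ⟨min (1 / 4) (c.v j0 - c.u j0), lt_min (by norm_num) (sub_pos.2 (c.uv j0)), min_le_left _ _, fun j => ?_⟩
  have h1 : min (1 / 4) (c.v j0 - c.u j0) ≤ c.v j0 - c.u j0 := min_le_right _ _
  have h2 := hj0 j
  linarith

/-- Compactness: ratios are near `1`. -/
private theorem fine_ratio {Y : Type*} [TopologicalSpace Y] {K : Set Y} (hK : IsCompact K)
    (f : C × Y → ℂ) (hf : Continuous f) (z : C) (hz : ∀ y ∈ K, f (z, y) ≠ 0) :
    ∀ᶠ p : C × C in 𝓝 (z, z), ∀ y ∈ K, ‖f (p.1, y) / f (p.2, y) - 1‖ ≤ 1 / 2 := by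
  refine hK.eventually_forall_of_forall_eventually ?_
  intro y hy
  have h1 : ContinuousAt (fun q : (C × C) × Y => f (q.1.1, q.2) / f (q.1.2, q.2)) ((z, z), y) := by
    refine ContinuousAt.div ?_ ?_ (hz y hy)
    · exact (hf.comp (by fun_prop)).continuousAt
    · exact (hf.comp (by fun_prop)).continuousAt
  have h2 : ContinuousAt (fun q : (C × C) × Y => ‖f (q.1.1, q.2) / f (q.1.2, q.2) - 1‖) ((z, z), y) :=
    (h1.sub continuousAt_const).norm
  have h3 : ‖f (z, y) / f (z, y) - 1‖ < 1 / 2 := by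
    rw [div_self (hz y hy), sub_self, norm_zero]
    norm_num
  have h4 := h2.eventually (Iio_mem_nhds h3)
  filter_upwards [h4] with q hq
  exact le_of_lt hq

private theorem fine_compact_adm [CompactSpace C] : IsCompact (Set.univ.pi c.S) :=
  isCompact_univ_pi fun j => (c.pre.clopen j).isClosed.isCompact

private theorem fine_compact_times {η : ℝ} :
    IsCompact {r : ℝ × ℝ | r.1 ∈ Icc (0 : ℝ) 1 ∧ r.2 ∈ Icc (0 : ℝ) 1 ∧ η ≤ |r.1 - r.2|} := by
  have h1 : IsCompact (Icc (0 : ℝ) 1 ×ˢ Icc (0 : ℝ) 1) := isCompact_Icc.prod isCompact_Icc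
  have h2 : IsClosed {r : ℝ × ℝ | η ≤ |r.1 - r.2|} :=
    isClosed_le continuous_const (by fun_prop)
  have h3 := h1.inter_right h2
  refine h3.of_isClosed_subset ?_ ?_
  · have : {r : ℝ × ℝ | r.1 ∈ Icc (0 : ℝ) 1 ∧ r.2 ∈ Icc (0 : ℝ) 1 ∧ η ≤ |r.1 - r.2|} =
        (Icc (0 : ℝ) 1 ×ˢ Icc (0 : ℝ) 1) ∩ {r : ℝ × ℝ | η ≤ |r.1 - r.2|} := by
      ext r
      constructor
      · rintro ⟨h1, h2, h3⟩
        exact ⟨⟨h1, h2⟩, h3⟩
      · rintro ⟨⟨h1, h2⟩, h3⟩
        exact ⟨h1, h2, h3⟩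
    rw [this]
    exact h3.isClosed
  · rintro r ⟨h1, h2, h3⟩
    exact ⟨⟨h1, h2⟩, h3⟩

section
variable [CompactSpace C] [T2Space C]

theorem ev_f2 : ∀ᶠ p : C × C in 𝓝 (c.z 0, c.z 0), ∀ X : Fin (m + 1) → C, c.Adm X →
    ∀ x, (∀ j, x ∉ c.S j) → ∀ s ∈ Icc (0 : ℝ) 1,
    ‖Φ.D1 X 0 (p.1, 1 / 2) (x, s) / Φ.D1 X 0 (p.2, 1 / 2) (x, s) - 1‖ ≤ 1 / 2 := by
  have hK : IsCompact ((Set.univ.pi c.S) ×ˢ ((⋂ j, (c.S j)ᶜ) ×ˢ Icc (0 : ℝ) 1)) := by
    refine (fine_compact_adm c).prod (IsCompact.prod ?_ isCompact_Icc)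
    exact (isClosed_iInter fun j => (c.pre.clopen j).compl.isClosed).isCompact
  have h := fine_ratio hK (fun q : C × ((Fin (m + 1) → C) × (C × ℝ)) => Φ.D1 q.2.1 0 (q.1, 1 / 2) q.2.2)
    ((Φ.continuous_D1 0).comp (f := fun q : C × ((Fin (m + 1) → C) × (C × ℝ)) =>
      (q.2.1, ((q.1, (1 / 2 : ℝ)), q.2.2))) (by fun_prop)) (c.z 0) ?_
  · filter_upwards [h] with p hp X hX x hx s hs
    exact hp (X, (x, s)) ⟨fun j _ => hX j, Set.mem_iInter.2 fun j => hx j, hs⟩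
  · rintro ⟨X, x, s⟩ ⟨hX, hx, hs⟩
    have hX' : ∀ l, X l ∈ c.S l := fun l => hX l (Set.mem_univ l)
    have hx' : ∀ j, x ∉ c.S j := fun j => Set.mem_iInter.1 hx j
    refine c.pre.D1_ne Φ hX' (c.pre.zS 0) (by norm_num) hs (fun l _ hl => hx' l (hl ▸ hX' l)) ?_
    intro he
    have h1 := he.eq_of_lt (by
      rw [abs_lt]
      have := hs.1
      have := hs.2
      constructor <;> simp only <;> linarith)
    have h2 : c.z 0 = x := congrArg Prod.fst h1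
    exact hx' 0 (h2 ▸ c.pre.zS 0)

theorem ev_f3 {η : ℝ} (hη : 0 < η) {j : Fin (m + 1)} (hj : j ≠ 0) :
    ∀ᶠ p : C × C in 𝓝 (c.z 0, c.z 0), ∀ X : Fin (m + 1) → C, c.Adm X → ∀ x ∈ c.S j,
    ∀ s ∈ Icc (0 : ℝ) 1, ∀ s' ∈ Icc (0 : ℝ) 1, η ≤ |s - s'| →
    ‖Φ.D2 X j (p.1, 1 / 2) (X j, s') (x, s) / Φ.D2 X j (p.2, 1 / 2) (X j, s') (x, s) - 1‖ ≤ 1 / 2 := by
  have hK : IsCompact ((Set.univ.pi c.S) ×ˢ ((c.S j) ×ˢ
      {r : ℝ × ℝ | r.1 ∈ Icc (0 : ℝ) 1 ∧ r.2 ∈ Icc (0 : ℝ) 1 ∧ η ≤ |r.1 - r.2|})) :=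
    (fine_compact_adm c).prod ((c.pre.clopen j).isClosed.isCompact.prod fine_compact_times)
  have h := fine_ratio hK (fun q : C × ((Fin (m + 1) → C) × (C × (ℝ × ℝ))) =>
      Φ.D2 q.2.1 j (q.1, 1 / 2) (q.2.1 j, q.2.2.2.2) (q.2.2.1, q.2.2.2.1))
    ((Φ.continuous_D2 j).comp (f := fun q : C × ((Fin (m + 1) → C) × (C × (ℝ × ℝ))) =>
      (q.2.1, ((q.1, (1 / 2 : ℝ)), ((q.2.1 j, q.2.2.2.2), (q.2.2.1, q.2.2.2.1))))) (by fun_prop)) (c.z 0) ?_
  · filter_upwards [h] with p hp X hX x hx s hs s' hs' hss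
    exact hp (X, (x, (s, s'))) ⟨fun j _ => hX j, hx, hs, hs', hss⟩
  · rintro ⟨X, x, s, s'⟩ ⟨hX, hx, hs, hs', hss⟩
    have hX' : ∀ l, X l ∈ c.S l := fun l => hX l (Set.mem_univ l)
    refine c.pre.D2_ne_Sj Φ hX' hj (c.pre.zS 0) (hX' j) hx (by norm_num) hs' hs (Or.inr ?_)
    intro he
    have he' : s' = s := he
    have hss' : η ≤ |s - s'| := hss
    rw [he', sub_self, abs_zero] at hss'
    linarith

theorem ev_f4 {η : ℝ} (hη : 0 < η) :
    ∀ᶠ p : C × C in 𝓝 (c.z 0, c.z 0), ∀ X : Fin (m + 1) → C, c.Adm X → ∀ x ∈ c.S 0,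
    ∀ s ∈ Icc (0 : ℝ) 1, ∀ s' ∈ Icc (0 : ℝ) 1, η ≤ |s - s'| →
    ‖Φ.D1 X 0 (p.1, s') (x, s) / Φ.D1 X 0 (p.2, s') (x, s) - 1‖ ≤ 1 / 2 := by
  have hK : IsCompact ((Set.univ.pi c.S) ×ˢ ((c.S 0) ×ˢ
      {r : ℝ × ℝ | r.1 ∈ Icc (0 : ℝ) 1 ∧ r.2 ∈ Icc (0 : ℝ) 1 ∧ η ≤ |r.1 - r.2|})) :=
    (fine_compact_adm c).prod ((c.pre.clopen 0).isClosed.isCompact.prod fine_compact_times)
  have h := fine_ratio hK (fun q : C × ((Fin (m + 1) → C) × (C × (ℝ × ℝ))) =>
      Φ.D1 q.2.1 0 (q.1, q.2.2.2.2) (q.2.2.1, q.2.2.2.1))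
    ((Φ.continuous_D1 0).comp (f := fun q : C × ((Fin (m + 1) → C) × (C × (ℝ × ℝ))) =>
      (q.2.1, ((q.1, q.2.2.2.2), (q.2.2.1, q.2.2.2.1)))) (by fun_prop)) (c.z 0) ?_
  · filter_upwards [h] with p hp X hX x hx s hs s' hs' hss
    exact hp (X, (x, (s, s'))) ⟨fun j _ => hX j, hx, hs, hs', hss⟩
  · rintro ⟨X, x, s, s'⟩ ⟨hX, hx, hs, hs', hss⟩
    have hX' : ∀ l, X l ∈ c.S l := fun l => hX l (Set.mem_univ l)
    refine c.pre.D1_ne_S Φ hX' (c.pre.zS 0) hx hs' hs (Or.inr ?_)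
    intro he
    have he' : s' = s := he
    have hss' : η ≤ |s - s'| := hss
    rw [he', sub_self, abs_zero] at hss'
    linarith

theorem exists_fine {η : ℝ} (h0 : 0 < η) (h4 : η ≤ 1 / 4)
    (huv : ∀ j, c.u j + η ≤ c.v j) : ∃ V, Fine c V η := by
  have h2 := ev_f2 c
  have h3 : ∀ᶠ p : C × C in 𝓝 (c.z 0, c.z 0), ∀ j : Fin (m + 1), j ≠ 0 → ∀ X : Fin (m + 1) → C, c.Adm X →
      ∀ x ∈ c.S j, ∀ s ∈ Icc (0 : ℝ) 1, ∀ s' ∈ Icc (0 : ℝ) 1, η ≤ |s - s'| →
      ‖Φ.D2 X j (p.1, 1 / 2) (X j, s') (x, s) / Φ.D2 X j (p.2, 1 / 2) (X j, s') (x, s) - 1‖ ≤ 1 / 2 := by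
    rw [Filter.eventually_all]
    intro j
    by_cases hj : j = 0
    · exact Filter.Eventually.of_forall fun p h => absurd hj h
    · filter_upwards [ev_f3 c h0 hj] with p hp _
      exact hp
  have h4' := ev_f4 c h0
  have hall := h2.and (h3.and h4')
  rw [nhds_prod_eq, Filter.eventually_prod_iff] at hall
  obtain ⟨pa, hpa, pb, hpb, hab⟩ := hall
  have hS : ∀ᶠ x in 𝓝 (c.z 0), x ∈ c.S 0 := (c.pre.clopen 0).isOpen.mem_nhds (c.pre.zS 0)
  obtain ⟨V, hV, hVo, hzV⟩ := eventually_nhds_iff.1 (hpa.and (hpb.and hS))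
  refine ⟨V, hVo, hzV, fun x hx => (hV x hx).2.2, h0, h4, huv, ?_, ?_, ?_⟩
  · intro X hX a ha b hb x hx s hs
    exact (hab (hV a ha).1 (hV b hb).2.1).1 X hX x hx s hs
  · intro X hX j hj a ha b hb x hx s hs s' hs' hss
    exact (hab (hV a ha).1 (hV b hb).2.1).2.1 j hj X hX x hx s hs s' hs' hss
  · intro X hX a ha b hb x hx s hs s' hs' hss
    exact (hab (hV a ha).1 (hV b hb).2.1).2.2 X hX x hx s hs s' hs' hss

end

end Pool.Agent.Lib.MP_e9314e_an.PB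
end

section

/-!
# PB: the values of `W`

`W_out`: `wn_slit`.  `W_zero`: `wn_square` for box `0` and `f (s, s') = D1 X 0 (a, s') (x, s) / D1 X 0 (b, s') (x, s)` (`f4`; no zero: `Pre.D1_ne_S`);
the path integral is `Om X 0 a x - Om X 0 b x` (`ac_div`); by `order` these are within `π/4` of `± π`, the
principal arguments are at most `π/4` (`arg_near`), and `W` is an integer (`wn_int`).
`ends`: `f2`, `f3`, `f4` with `s' = 1/2`.
-/

set_option autoImplicit false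

open Set Complex Topology

namespace Pool.Agent.Lib.MP_e9314e_an.PB

variable {C : Type*} [TopologicalSpace C] {T : C ≃ₜ C} {m : ℕ} {Φ : Sys T m} {c : Cfg Φ}

private theorem arg_quarter {x : ℂ} (hx : ‖x - 1‖ ≤ 1 / 2) : |arg x| ≤ Real.pi / 4 := by
  have h := arg_near hx
  have hpi := Real.pi_pos
  nlinarith [norm_nonneg (x - 1)]

private theorem slit_of_near {x : ℂ} (hx : ‖x - 1‖ ≤ 1 / 2) : x ∈ slitPlane := by
  have h1 : ‖x - 1‖ < 1 := by linarith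
  have h2 := mem_slitPlane_of_norm_lt_one h1
  have h3 : 1 + (x - 1) = x := by ring
  rwa [h3] at h2

private theorem den_ne {x y : ℂ} (hx : ‖x / y - 1‖ ≤ 1 / 2) : y ≠ 0 := by
  rintro rfl
  rw [div_zero, zero_sub, norm_neg, norm_one] at hx
  linarith

/-- The value of `sg` in terms of the angle. -/
private theorem Cfg.sg_near {X : Fin (m + 1) → C} (hX : c.Adm X) {j : Fin (m + 1)} {a b : C} (ha : a ∈ c.S j)
    (hb : b ∈ c.S j) (hab : a ≠ b) :
    |c.Om X j a b - Real.pi * (2 * c.sg X j a b - 1)| ≤ Real.pi / 4 := by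
  have hpi := Real.pi_pos
  rcases c.order hX ha hb hab with ⟨-, h⟩ | ⟨-, h⟩
  · have h1 : 0 < c.Om X j a b := by
      rw [abs_le] at h
      linarith [h.1]
    have h2 : c.sg X j a b = 1 := by
      unfold Cfg.sg
      rw [if_pos h1]
    rw [h2]
    have h3 : Real.pi * (2 * 1 - 1) = Real.pi := by ring
    rw [h3]
    exact h
  · have h1 : ¬ 0 < c.Om X j a b := by
      rw [abs_le] at h
      linarith [h.2]
    have h2 : c.sg X j a b = 0 := by
      unfold Cfg.sg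
      rw [if_neg h1]
    rw [h2]
    have h3 : c.Om X j a b - Real.pi * (2 * 0 - 1) = c.Om X j a b + Real.pi := by ring
    rw [h3]
    exact h

/-- An integer near a difference of two signs. -/
private theorem wn_eq_of_near {w A B α β : ℝ} {sa sb : ℝ} (hw : ∃ k : ℤ, w = k)
    (hsa : sa = 0 ∨ sa = 1) (hsb : sb = 0 ∨ sb = 1)
    (hA : |A - Real.pi * (2 * sa - 1)| ≤ Real.pi / 4) (hB : |B - Real.pi * (2 * sb - 1)| ≤ Real.pi / 4)
    (hα : |α| ≤ Real.pi / 4) (hβ : |β| ≤ Real.pi / 4)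
    (h : w = (A - B - α + β) / (2 * Real.pi)) : w = sa - sb := by
  have hpi := Real.pi_pos
  obtain ⟨k, hk⟩ := hw
  obtain ⟨l, hl⟩ : ∃ l : ℤ, sa - sb = l := by
    rcases hsa with rfl | rfl <;> rcases hsb with rfl | rfl
    · exact ⟨0, by norm_num⟩
    · exact ⟨-1, by norm_num⟩
    · exact ⟨1, by norm_num⟩
    · exact ⟨0, by norm_num⟩
  rw [eq_div_iff (by positivity)] at h
  rw [abs_le] at hA hB hα hβ
  obtain ⟨a1, a2⟩ := hA
  obtain ⟨b1, b2⟩ := hB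
  obtain ⟨c1, c2⟩ := hα
  obtain ⟨d1, d2⟩ := hβ
  have e1 : (w - (sa - sb)) * (2 * Real.pi) ≤ Real.pi := by nlinarith
  have e2 : -Real.pi ≤ (w - (sa - sb)) * (2 * Real.pi) := by nlinarith
  rw [hk, hl] at e1 e2
  have f1 : ((k : ℝ) - l) ≤ 1 / 2 := by
    by_contra hcon
    push Not at hcon
    nlinarith
  have f2 : -(1 / 2) ≤ ((k : ℝ) - l) := by
    by_contra hcon
    push Not at hcon
    nlinarith
  have g1 : k - l < 1 := by
    have : ((k - l : ℤ) : ℝ) < ((1 : ℤ) : ℝ) := by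
      push_cast
      linarith
    exact_mod_cast this
  have g2 : -1 < k - l := by
    have : ((-1 : ℤ) : ℝ) < ((k - l : ℤ) : ℝ) := by
      push_cast
      linarith
    exact_mod_cast this
  have g3 : k = l := by omega
  rw [hk, hl, g3]

namespace Fine

variable {V : Set C} {η : ℝ} (hV : Fine c V η)

include hV

/-- The quotient is near `1` at the times `0` and `1`. -/
theorem ends {X : Fin (m + 1) → C} (hX : c.Adm X) {a b x : C} (ha : a ∈ V) (hb : b ∈ V) {s : ℝ}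
    (hs : s = 0 ∨ s = 1) :
    ‖Φ.D1 X 0 (a, 1 / 2) (x, s) / Φ.D1 X 0 (b, 1 / 2) (x, s) - 1‖ ≤ 1 / 2 := by
  have hs01 : s ∈ Icc (0 : ℝ) 1 := by
    rcases hs with rfl | rfl
    · exact ⟨le_rfl, zero_le_one⟩
    · exact ⟨zero_le_one, le_rfl⟩
  have hh : (1 / 2 : ℝ) ∈ Icc (0 : ℝ) 1 := ⟨by norm_num, by norm_num⟩
  have hη : η ≤ |s - 1 / 2| := by
    have h4 := hV.η4
    have : |s - 1 / 2| = 1 / 2 := by
      rcases hs with rfl | rfl
      · rw [abs_of_nonpos (by norm_num)]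
        norm_num
      · rw [abs_of_nonneg (by norm_num)]
        norm_num
    rw [this]
    linarith
  by_cases hx : ∃ j, x ∈ c.S j
  · obtain ⟨j, hj⟩ := hx
    by_cases hj0 : j = 0
    · subst hj0
      exact hV.f4 X hX a ha b hb x hj s hs01 (1 / 2) hh hη
    · have h := hV.f3 X hX j hj0 a ha b hb x hj s hs01 (1 / 2) hh hη
      rw [Φ.D2_self X hj0, Φ.D2_self X hj0, Function.update_eq_self] at h
      exact h
  · push Not at hx
    exact hV.f2 X hX a ha b hb x hx s hs01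

theorem W_out {X : Fin (m + 1) → C} (hX : c.Adm X) {a b x : C} (ha : a ∈ V) (hb : b ∈ V)
    (hx : ∀ j, x ∉ c.S j) : Φ.W X a b x = 0 := by
  unfold Sys.W
  have h2 := fun s hs => hV.f2 X hX a ha b hb x hx s hs
  apply wn_slit
  · apply ContinuousOn.div
    · exact ((Φ.continuous_D1 0).comp (f := fun s : ℝ => (X, ((a, (1 / 2 : ℝ)), (x, s)))) (by fun_prop)).continuousOn
    · exact ((Φ.continuous_D1 0).comp (f := fun s : ℝ => (X, ((b, (1 / 2 : ℝ)), (x, s)))) (by fun_prop)).continuousOn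
    · intro s hs
      exact den_ne (h2 s hs)
  · intro s hs
    exact slit_of_near (h2 s hs)

theorem W_zero {X : Fin (m + 1) → C} (hX : c.Adm X) {a b x : C} (ha : a ∈ V) (hb : b ∈ V)
    (hx : x ∈ c.S 0) (hxa : x ≠ a) (hxb : x ≠ b) :
    Φ.W X a b x = c.sg X 0 a x - c.sg X 0 b x := by
  have hpi := Real.pi_pos
  have haS := hV.VS ha
  have hbS := hV.VS hb
  have hη := hV.η0
  have hη4 := hV.η4
  have hu : 1 / 4 ≤ c.u 0 := by
    have := c.hu 0
    have := c.h4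
    linarith
  have hv : c.v 0 ≤ 3 / 4 := by
    have := c.hv 0
    have := c.h4
    linarith
  have huv := hV.ηuv 0
  set u := c.u 0 with hudef
  set v := c.v 0 with hvdef
  have hA0 : ∀ s ∈ Icc (0 : ℝ) 1, ∀ s' ∈ Icc (0 : ℝ) 1, Φ.D1 X 0 (a, s') (x, s) ≠ 0 := fun s hs s' hs' =>
    c.pre.D1_ne_S Φ hX haS hx hs' hs (Or.inl hxa.symm)
  have hB0 : ∀ s ∈ Icc (0 : ℝ) 1, ∀ s' ∈ Icc (0 : ℝ) 1, Φ.D1 X 0 (b, s') (x, s) ≠ 0 := fun s hs s' hs' =>
    c.pre.D1_ne_S Φ hX hbS hx hs' hs (Or.inl hxb.symm)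
  have hcA : Continuous fun p : ℝ × ℝ => Φ.D1 X 0 (a, p.2) (x, p.1) :=
    (Φ.continuous_D1 0).comp (f := fun p : ℝ × ℝ => (X, ((a, p.2), (x, p.1)))) (by fun_prop)
  have hcB : Continuous fun p : ℝ × ℝ => Φ.D1 X 0 (b, p.2) (x, p.1) :=
    (Φ.continuous_D1 0).comp (f := fun p : ℝ × ℝ => (X, ((b, p.2), (x, p.1)))) (by fun_prop)
  set f : ℝ × ℝ → ℂ := fun p => Φ.D1 X 0 (a, p.2) (x, p.1) / Φ.D1 X 0 (b, p.2) (x, p.1) with hf
  have hfc : ContinuousOn f (Icc 0 1 ×ˢ Icc 0 1) := by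
    apply ContinuousOn.div hcA.continuousOn hcB.continuousOn
    rintro ⟨s, s'⟩ ⟨hs, hs'⟩
    exact hB0 s hs s' hs'
  have hf0 : ∀ p ∈ Icc (0 : ℝ) 1 ×ˢ Icc (0 : ℝ) 1, f p ≠ 0 := by
    rintro ⟨s, s'⟩ ⟨hs, hs'⟩
    exact div_ne_zero (hA0 s hs s' hs') (hB0 s hs s' hs')
  have hfar : ∀ p ∈ Icc (0 : ℝ) 1 ×ˢ Icc (0 : ℝ) 1, η ≤ |p.1 - p.2| → ‖f p - 1‖ ≤ 1 / 2 := by
    rintro ⟨s, s'⟩ ⟨hs, hs'⟩ hss
    exact hV.f4 X hX a ha b hb x hx s hs s' hs' hss
  have hsq := wn_square hfc hf0 hη hη4 hu huv hv hfar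
  have hW : Φ.W X a b x = wn (fun s => f (s, 1 / 2)) := rfl
  have hint : ∃ k : ℤ, Φ.W X a b x = k := by
    rw [hW]
    apply wn_int
    refine ⟨?_, ?_⟩
    · exact hfc.comp (f := fun s : ℝ => (s, (1 / 2 : ℝ))) (by fun_prop) fun s hs => ⟨hs, by norm_num, by norm_num⟩
    · intro s hs
      exact hf0 _ ⟨hs, by norm_num, by norm_num⟩
  have hmem1 : ∀ θ ∈ Icc (0 : ℝ) 1, u + θ * (v - u) ∈ Icc (0 : ℝ) 1 := by
    intro θ hθ
    have h1 : 0 ≤ θ * (v - u) := mul_nonneg hθ.1 (by linarith)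
    have h2 : θ * (v - u) ≤ 1 * (v - u) := mul_le_mul_of_nonneg_right hθ.2 (by linarith)
    constructor <;> linarith
  have hmem2 : ∀ θ ∈ Icc (0 : ℝ) 1, v - θ * (v - u) ∈ Icc (0 : ℝ) 1 := by
    intro θ hθ
    have h1 : 0 ≤ θ * (v - u) := mul_nonneg hθ.1 (by linarith)
    have h2 : θ * (v - u) ≤ 1 * (v - u) := mul_le_mul_of_nonneg_right hθ.2 (by linarith)
    constructor <;> linarith
  have hpath : ac (fun θ => f (u + θ * (v - u), v - θ * (v - u))) 0 1 = c.Om X 0 a x - c.Om X 0 b x := by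
    unfold Cfg.Om
    rw [← hudef, ← hvdef]
    rw [← ac_div zero_le_one]
    · refine ⟨?_, ?_⟩
      · exact (hcA.comp (f := fun θ : ℝ => (u + θ * (v - u), v - θ * (v - u))) (by fun_prop)).continuousOn
      · intro θ hθ
        exact hA0 _ (hmem1 θ hθ) _ (hmem2 θ hθ)
    · refine ⟨?_, ?_⟩
      · exact (hcB.comp (f := fun θ : ℝ => (u + θ * (v - u), v - θ * (v - u))) (by fun_prop)).continuousOn
      · intro θ hθ
        exact hB0 _ (hmem1 θ hθ) _ (hmem2 θ hθ)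
  have hu01 : u ∈ Icc (0 : ℝ) 1 := ⟨by linarith, by linarith⟩
  have hv01 : v ∈ Icc (0 : ℝ) 1 := ⟨by linarith, by linarith⟩
  have ha1 : |arg (f (v, u))| ≤ Real.pi / 4 := by
    apply arg_quarter
    apply hfar _ ⟨hv01, hu01⟩
    have : v - u ≤ |v - u| := le_abs_self _
    simp only
    linarith
  have ha2 : |arg (f (u, v))| ≤ Real.pi / 4 := by
    apply arg_quarter
    apply hfar _ ⟨hu01, hv01⟩
    have : -(u - v) ≤ |u - v| := neg_le_abs _
    simp only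
    linarith
  rw [hpath] at hsq
  rw [← hW] at hsq
  exact wn_eq_of_near hint (c.sg_cases X 0 a x) (c.sg_cases X 0 b x)
    (Cfg.sg_near hX haS hx hxa.symm) (Cfg.sg_near hX hbS hx hxb.symm) ha1 ha2 hsq

end Fine

end Pool.Agent.Lib.MP_e9314e_an.PB
end

section

/-!
# PB: existence of an invariant measure (Krylov–Bogoliubov)

`ProbabilityMeasure C` is compact (`Mathlib/MeasureTheory/Measure/Prokhorov.lean`, instance `CompactSpace (ProbabilityMeasure E)`).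
Let `μ N = (1 / (N + 1)) ∑_{i ≤ N} dirac (T^[i] x₀)` and `μ` a cluster point (limit along an ultrafilter `≤ atTop`).  For every bounded
continuous `f`: `∫ f ∘ T ∂(μ N) - ∫ f ∂(μ N) = (f (T^[N+1] x₀) - f x₀) / (N + 1) → 0`, so `∫ f ∘ T ∂μ = ∫ f ∂μ`
(`ProbabilityMeasure.tendsto_iff_forall_integral_tendsto`), hence `μ.map T = μ` (`ext_of_forall_integral_eq_of_IsFiniteMeasure`; `C` is metrizable:
`TopologicalSpace.metrizableSpaceMetric` or `letI := TopologicalSpace.metrizableSpaceMetric C`).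
-/

set_option autoImplicit false

open MeasureTheory Set

namespace Pool.Agent.Lib.MP_e9314e_an.PB

open Filter Topology in
theorem exists_invariant {C : Type*} [TopologicalSpace C] [CompactSpace C]
    [TopologicalSpace.MetrizableSpace C] [MeasurableSpace C] [BorelSpace C] [Nonempty C] {T : C → C}
    (hT : Continuous T) : ∃ μ : Measure C, IsProbabilityMeasure μ ∧ MeasurePreserving T μ μ := by
  letI := TopologicalSpace.metrizableSpaceMetric C
  obtain ⟨x₀⟩ := (inferInstance : Nonempty C)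
  let ν : ℕ → Measure C := fun N =>
    (((N + 1 : ℕ) : ENNReal))⁻¹ • ∑ i ∈ Finset.range (N + 1), Measure.dirac (T^[i] x₀)
  have hν : ∀ N, IsProbabilityMeasure (ν N) := by
    intro N
    constructor
    simp only [ν, Measure.smul_apply, Measure.finset_sum_apply, measure_univ, Finset.sum_const,
      Finset.card_range, smul_eq_mul, nsmul_eq_mul, mul_one]
    exact ENNReal.inv_mul_cancel (by simp) (ENNReal.natCast_ne_top _)
  let μN : ℕ → ProbabilityMeasure C := fun N => ⟨ν N, hν N⟩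
  have hint : ∀ (f : BoundedContinuousFunction C ℝ) (N : ℕ),
      ∫ x, f x ∂(ν N) = ((N : ℝ) + 1)⁻¹ * ∑ i ∈ Finset.range (N + 1), f (T^[i] x₀) := by
    intro f N
    simp only [ν]
    rw [integral_smul_measure, integral_finset_sum_measure (fun i _ => f.integrable _)]
    simp only [integral_dirac]
    rw [smul_eq_mul, ENNReal.toReal_inv, ENNReal.toReal_natCast]
    push_cast
    rfl
  obtain ⟨μ, -, hμ⟩ := isCompact_univ.ultrafilter_le_nhds
    (Ultrafilter.map μN (Ultrafilter.of atTop)) (by simp)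
  have hμ' : Tendsto μN (Ultrafilter.of (atTop : Filter ℕ) : Filter ℕ) (𝓝 μ) := hμ
  rw [ProbabilityMeasure.tendsto_iff_forall_integral_tendsto] at hμ'
  refine ⟨(μ : Measure C), inferInstance, hT.measurable, ?_⟩
  haveI : IsProbabilityMeasure (Measure.map T (μ : Measure C)) :=
    Measure.isProbabilityMeasure_map hT.aemeasurable
  refine ext_of_forall_integral_eq_of_IsFiniteMeasure fun f => ?_
  rw [integral_map hT.aemeasurable f.continuous.aestronglyMeasurable]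
  have h1 := hμ' f
  have h2 := hμ' (f.compContinuous ⟨T, hT⟩)
  have h3 := h2.sub h1
  have h4 : Tendsto (fun N : ℕ => ∫ x, (f.compContinuous ⟨T, hT⟩) x ∂((μN N : ProbabilityMeasure C) : Measure C) -
      ∫ x, f x ∂((μN N : ProbabilityMeasure C) : Measure C)) atTop (𝓝 0) := by
    have h5 : ∀ N : ℕ, ∫ x, (f.compContinuous ⟨T, hT⟩) x ∂((μN N : ProbabilityMeasure C) : Measure C) -
        ∫ x, f x ∂((μN N : ProbabilityMeasure C) : Measure C) =
          ((N : ℝ) + 1)⁻¹ * (f (T^[N + 1] x₀) - f x₀) := by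
      intro N
      have e1 : ∫ x, (f.compContinuous ⟨T, hT⟩) x ∂((μN N : ProbabilityMeasure C) : Measure C) =
          ((N : ℝ) + 1)⁻¹ * ∑ i ∈ Finset.range (N + 1), f (T^[i + 1] x₀) := by
        have := hint (f.compContinuous ⟨T, hT⟩) N
        refine this.trans ?_
        congr 1
        refine Finset.sum_congr rfl fun i _ => ?_
        rw [Function.iterate_succ_apply']
        rfl
      have e2 : ∫ x, f x ∂((μN N : ProbabilityMeasure C) : Measure C) =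
          ((N : ℝ) + 1)⁻¹ * ∑ i ∈ Finset.range (N + 1), f (T^[i] x₀) := hint f N
      rw [e1, e2, ← mul_sub, ← Finset.sum_sub_distrib,
        Finset.sum_range_sub (fun i => f (T^[i] x₀))]
      rfl
    simp only [h5]
    have h6 : Tendsto (fun N : ℕ => 2 * ‖f‖ * ((N : ℝ) + 1)⁻¹) atTop (𝓝 0) := by
      have := (tendsto_one_div_add_atTop_nhds_zero_nat (𝕜 := ℝ)).const_mul (2 * ‖f‖)
      simpa using this
    refine squeeze_zero_norm (fun N => ?_) h6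
    have hN : (0 : ℝ) < (N : ℝ) + 1 := by positivity
    rw [norm_mul, Real.norm_of_nonneg (inv_nonneg.2 hN.le), mul_comm]
    refine mul_le_mul_of_nonneg_right ?_ (inv_nonneg.2 hN.le)
    have a1 := f.norm_coe_le_norm (T^[N + 1] x₀)
    have a2 := f.norm_coe_le_norm x₀
    exact (norm_sub_le _ _).trans (by linarith)
  have h7 := h4.mono_left (Ultrafilter.of_le (atTop : Filter ℕ))
  have h8 := tendsto_nhds_unique h3 h7
  have h9 : ∫ x, (f.compContinuous ⟨T, hT⟩) x ∂(μ : Measure C) = ∫ x, f (T x) ∂(μ : Measure C) := rfl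
  rw [← h9]
  linarith

end Pool.Agent.Lib.MP_e9314e_an.PB
end
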