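import Pool.Agent.Lib.MP_e9314e_an.PB.FourB
import Pool.Agent.Lib.MP_e9314e_an.PB.Krylov

section

/-!
# PB: `W` is a coboundary if the two positions of viewer `0` are on one orbit

`W_cob`: `D1_shift'` `k` times: `D1 X 0 (T^[k] a, 1/2) b = D1 X 0 (a, 1/2 + k) b`; rectangle rule `ac_rect` for
`(s, τ) ↦ D1 X 0 (a, τ) (x, s)` on `[0, 1] × [1/2, 1/2 + k]`; `D1 X 0 _ (x, 1) = D1 X 0 _ (T x, 0)` (`D1_shift` with `s = 0`).  No zeros: `Sys.D_ne` and
the cases of `Eqv` (`i ≤ k`).
-/

set_option autoImplicit false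

open MeasureTheory Set Complex

namespace Pool.Agent.Lib.MP_e9314e_an.PB

variable {C : Type*} [TopologicalSpace C] {T : C ≃ₜ C} {m : ℕ}

/-- The transfer function. -/
noncomputable def Sys.HH (Φ : Sys T m) (X : Fin (m + 1) → C) (a : C) (k : ℕ) (x : C) : ℝ :=
  ac (fun τ => Φ.D1 X 0 (a, τ) (x, 0)) (1 / 2) (1 / 2 + k) -
    arg (Φ.D1 X 0 (T^[k] a, 1 / 2) (x, 0) / Φ.D1 X 0 (a, 1 / 2) (x, 0))

private theorem D1_iter (Φ : Sys T m) (X : Fin (m + 1) → C) (b : C × ℝ) (s : ℝ) (k : ℕ) (a : C) :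
    Φ.D1 X 0 (a, s + k) b = Φ.D1 X 0 (T^[k] a, s) b := by
  induction k generalizing a with
  | zero => simp
  | succ k ih =>
    have h : (a, s + ((k + 1 : ℕ) : ℝ)) = (a, (s + k) + 1) := by
      rw [Nat.cast_succ, add_assoc]
    rw [h, Φ.D1_shift', ih, Function.iterate_succ_apply]

namespace Pre

variable {z : Fin (m + 1) → C} {e g : C} {S : Fin (m + 1) → Set C} (hS : Pre T z e g S) (Φ : Sys T m)

include hS

private theorem W_ne {X : Fin (m + 1) → C} (hX : ∀ l, X l ∈ S l) {a : C} {k : ℕ}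
    (hXa : ∀ l, l ≠ 0 → ∀ i ≤ k, X l ≠ T^[i] a) {x : C} (hx : ∀ i ≤ k, x ≠ T^[i] a)
    (hxX : ∀ l, l ≠ 0 → x ≠ X l) {s τ : ℝ} (hs : s ∈ Icc (0 : ℝ) 1)
    (hτ : τ ∈ Icc (1 / 2 : ℝ) (1 / 2 + k)) : Φ.D1 X 0 (a, τ) (x, s) ≠ 0 := by
  have hk : ∀ k' : ℕ, (k' : ℝ) < k + 1 → k' ≤ k := by
    intro k' h
    have : k' < k + 1 := by exact_mod_cast h
    omega
  have h0 : ∀ k' : ℕ, (k' : ℝ) < 1 → k' = 0 := by
    intro k' h
    have : k' < 1 := by exact_mod_cast h
    omega
  -- viewer 0 against the others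
  have key1 : ∀ j, j ≠ 0 → ¬ Eqv T (a, τ) (X j, 1 / 2) := by
    intro j hj h
    rcases h with ⟨k', h1, h2⟩ | ⟨k', h1, h2⟩
    · simp only at h1 h2
      exact hXa j hj k' (hk k' (by linarith [hτ.2])) h1
    · simp only at h1 h2
      have hk' := h0 k' (by linarith [hτ.1])
      subst hk'
      exact hXa j hj 0 (Nat.zero_le k) (by simpa using h1.symm)
  have key2 : ¬ Eqv T (a, τ) (x, s) := by
    intro h
    rcases h with ⟨k', h1, h2⟩ | ⟨k', h1, h2⟩
    · simp only at h1 h2
      exact hx k' (hk k' (by linarith [hτ.2, hs.1])) h1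
    · simp only at h1 h2
      have hk' := h0 k' (by linarith [hτ.1, hs.2])
      subst hk'
      exact hx 0 (Nat.zero_le k) (by simpa using h1.symm)
  unfold Sys.D1
  apply Φ.D_ne
  · intro i j hij
    rcases eq_or_ne i 0 with rfl | hi
    · have hj : j ≠ 0 := fun h => hij h.symm
      rw [Function.update_self, Function.update_of_ne hj]
      exact key1 j hj
    · rcases eq_or_ne j 0 with rfl | hj
      · rw [Function.update_self, Function.update_of_ne hi]
        exact fun h => key1 i hi h.symm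
      · rw [Function.update_of_ne hj, Function.update_of_ne hi]
        intro h
        have h' := h.eq_of_lt (by simp [Sys.vw])
        have h'' : X i = X j := congrArg Prod.fst h'
        exact Set.disjoint_left.1 (hS.disj i j hij) (hX i) (h'' ▸ hX j)
  · intro i
    rcases eq_or_ne i 0 with rfl | hi
    · rw [Function.update_self]
      exact key2
    · rw [Function.update_of_ne hi]
      intro h
      have hlt : |(Sys.vw X i).2 - s| < 1 := by
        simp only [Sys.vw]
        rw [abs_lt]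
        constructor <;> linarith [hs.1, hs.2]
      have h' := h.eq_of_lt hlt
      exact hxX i hi (congrArg Prod.fst h').symm

theorem W_cob {X : Fin (m + 1) → C} (hX : ∀ l, X l ∈ S l) {a : C} (ha : a ∈ S 0) {k : ℕ}
    (hXa : ∀ l, l ≠ 0 → ∀ i ≤ k, X l ≠ T^[i] a) {x : C} (hx : ∀ i ≤ k, x ≠ T^[i] a)
    (hxX : ∀ l, l ≠ 0 → x ≠ X l) :
    2 * Real.pi * Φ.W X (T^[k] a) a x = Φ.HH X a k (T x) - Φ.HH X a k x := by
  have hk0 : (0 : ℝ) ≤ k := Nat.cast_nonneg k
  have hkk : (1 / 2 : ℝ) ≤ 1 / 2 + k := by linarith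
  have hne : ∀ s ∈ Icc (0 : ℝ) 1, ∀ τ ∈ Icc (1 / 2 : ℝ) (1 / 2 + k), Φ.D1 X 0 (a, τ) (x, s) ≠ 0 :=
    fun s hs τ hτ => hS.W_ne Φ hX hXa hx hxX hs hτ
  have hcont : Continuous fun p : ℝ × ℝ => Φ.D1 X 0 (a, p.2) (x, p.1) :=
    (Φ.continuous_D1 0).comp (continuous_const.prodMk
      ((continuous_const.prodMk continuous_snd).prodMk (continuous_const.prodMk continuous_fst)))
  have hrect := ac_rect (f := fun p : ℝ × ℝ => Φ.D1 X 0 (a, p.2) (x, p.1)) (a := 0) (b := 1)
    (c := 1 / 2) (d := 1 / 2 + k) zero_le_one hkk hcont.continuousOn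
    (fun p hp => hne p.1 hp.1 p.2 hp.2)
  simp only at hrect
  -- shift in time of the moving point
  have hsh : ∀ τ : ℝ, Φ.D1 X 0 (a, τ) (x, 1) = Φ.D1 X 0 (a, τ) (T x, 0) := by
    intro τ
    have := Φ.D1_shift X 0 (a, τ) x 0
    rwa [zero_add] at this
  have hsh' : Φ.D1 X 0 (T^[k] a, 1 / 2) (x, 1) = Φ.D1 X 0 (T^[k] a, 1 / 2) (T x, 0) := by
    have := Φ.D1_shift X 0 (T^[k] a, 1 / 2) x 0
    rwa [zero_add] at this
  have hit : ∀ b, Φ.D1 X 0 (T^[k] a, 1 / 2) b = Φ.D1 X 0 (a, 1 / 2 + k) b := fun b =>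
    (D1_iter Φ X b (1 / 2) k a).symm
  have hNZ : ∀ τ ∈ Icc (1 / 2 : ℝ) (1 / 2 + k), NZ (fun s => Φ.D1 X 0 (a, τ) (x, s)) 0 1 := by
    intro τ hτ
    refine ⟨(hcont.comp (continuous_id.prodMk continuous_const)).continuousOn, fun s hs => hne s hs τ hτ⟩
  have hdiv : ac (fun s => Φ.D1 X 0 (T^[k] a, 1 / 2) (x, s) / Φ.D1 X 0 (a, 1 / 2) (x, s)) 0 1 =
      ac (fun s => Φ.D1 X 0 (a, 1 / 2 + k) (x, s)) 0 1 - ac (fun s => Φ.D1 X 0 (a, 1 / 2) (x, s)) 0 1 := by
    have h := ac_div zero_le_one (hNZ (1 / 2 + k) ⟨hkk, le_refl _⟩) (hNZ (1 / 2) ⟨le_refl _, hkk⟩)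
    rw [← h]
    exact ac_congr fun s _ => by rw [hit]
  have hpi : (2 * Real.pi : ℝ) ≠ 0 := by positivity
  unfold Sys.W wn Sys.HH
  rw [mul_div_cancel₀ _ hpi, hdiv, ← hsh', ← hsh (1 / 2)]
  have hT : ac (fun τ => Φ.D1 X 0 (a, τ) (T x, 0)) (1 / 2) (1 / 2 + k) =
      ac (fun τ => Φ.D1 X 0 (a, τ) (x, 1)) (1 / 2) (1 / 2 + k) :=
    ac_congr fun τ _ => (hsh τ).symm
  rw [hT]
  linarith

end Pre

end Pool.Agent.Lib.MP_e9314e_an.PB
end

section

/-!
# PB: the transfer function is measurable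

The first term of `HH` is continuous in `x` off the finite set `{T^[i] a | i ≤ k}` (`ac_continuousAt`, `continuous_D1`; no zero there: `Sys.D_ne` and the cases of
`Eqv`), which is a null set; so it is a.e. strongly measurable (`ContinuousOn.aestronglyMeasurable` on the open complement `O`, and
`μ.restrict O = μ`).  In the second one the quotient is
continuous on `C` (no zero: times `0` and `1/2`, `Eqv.eq_of_lt`) and `arg` is measurable (`Complex.measurable_arg`).
-/

set_option autoImplicit false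

open MeasureTheory Set Complex

namespace Pool.Agent.Lib.MP_e9314e_an.PB

variable {C : Type*} [TopologicalSpace C] {T : C ≃ₜ C} {m : ℕ}

namespace Pre

variable {z : Fin (m + 1) → C} {e g : C} {S : Fin (m + 1) → Set C} (hS : Pre T z e g S) (Φ : Sys T m)

include hS

theorem HH_aemeas [T2Space C] [SecondCountableTopology C] [MeasurableSpace C] [BorelSpace C]
    {μ : Measure C} [NullSingletonClass μ] {X : Fin (m + 1) → C} (hX : ∀ l, X l ∈ S l) {a : C} (ha : a ∈ S 0) {k : ℕ}
    (hXa : ∀ l, l ≠ 0 → ∀ i ≤ k, X l ≠ T^[i] a) : AEStronglyMeasurable (Φ.HH X a k) μ := by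
  have hc : ∀ p : C × ℝ, Continuous fun x : C => Φ.D1 X 0 p (x, 0) := by
    intro p
    exact (Φ.continuous_D1 0).comp
      (f := fun x : C => ((X, p, (x, (0 : ℝ))) : (Fin (m + 1) → C) × (C × ℝ) × (C × ℝ))) (by fun_prop)
  have hF : Continuous fun p : C × ℝ => Φ.D1 X 0 (a, p.2) (p.1, 0) :=
    (Φ.continuous_D1 0).comp
      (f := fun p : C × ℝ => ((X, (a, p.2), (p.1, (0 : ℝ))) : (Fin (m + 1) → C) × (C × ℝ) × (C × ℝ)))
      (by fun_prop)
  have hfin : Set.Finite {x : C | ∃ i ≤ k, x = T^[i] a} := by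
    refine Set.Finite.subset ((Set.finite_Iic k).image fun i => T^[i] a) ?_
    rintro x ⟨i, hi, rfl⟩
    exact ⟨i, hi, rfl⟩
  have hne : ∀ x : C, (∀ i ≤ k, x ≠ T^[i] a) → ∀ t ∈ Icc (1 / 2 : ℝ) (1 / 2 + k),
      Φ.D1 X 0 (a, t) (x, 0) ≠ 0 := by
    intro x hx t ht
    have hal : ∀ l : Fin (m + 1), l ≠ 0 → ¬ Eqv T (a, t) (X l, 1 / 2) := by
      rintro l hl (⟨i, h1, h2⟩ | ⟨i, h1, h2⟩)
      · simp only at h1 h2
        have h3 : (i : ℝ) ≤ k := by linarith [ht.2]
        exact hXa l hl i (by exact_mod_cast h3) h1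
      · simp only at h1 h2
        have h3 : (i : ℝ) ≤ 0 := by linarith [ht.1]
        have h4 : i = 0 := by
          have : i ≤ 0 := by exact_mod_cast h3
          omega
        subst h4
        exact hXa l hl 0 (Nat.zero_le _) (by simpa using h1.symm)
    refine Φ.D_ne ?_ ?_
    · intro i j hij
      rcases eq_or_ne i 0 with rfl | hi
      · rw [Function.update_self, Function.update_of_ne hij.symm]
        exact hal j hij.symm
      · rcases eq_or_ne j 0 with rfl | hj
        · rw [Function.update_self, Function.update_of_ne hi]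
          exact fun h => hal i hi h.symm
        · rw [Function.update_of_ne hi, Function.update_of_ne hj]
          intro h
          have h1 : Sys.vw X i = Sys.vw X j := h.eq_of_lt (by simp [Sys.vw])
          have h2 : X i = X j := congrArg Prod.fst h1
          exact (Set.disjoint_left.1 (hS.disj i j hij) (hX i)) (h2 ▸ hX j)
    · intro i
      rcases eq_or_ne i 0 with rfl | hi
      · rw [Function.update_self]
        rintro (⟨i, h1, h2⟩ | ⟨i, h1, h2⟩)
        · simp only at h1 h2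
          have h3 : (i : ℝ) < k + 1 := by linarith [ht.2]
          have h4 : i < k + 1 := by exact_mod_cast h3
          exact hx i (by omega) h1
        · simp only at h1 h2
          have h3 : (0 : ℝ) ≤ i := Nat.cast_nonneg i
          linarith [ht.1]
      · rw [Function.update_of_ne hi]
        intro h
        have h1 : Sys.vw X i = (x, 0) := h.eq_of_lt (by simp only [Sys.vw]; norm_num [abs_lt])
        have h2 : (1 / 2 : ℝ) = 0 := congrArg Prod.snd h1
        norm_num at h2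
  have hO : MeasurableSet ({x : C | ∃ i ≤ k, x = T^[i] a}ᶜ) := hfin.measurableSet.compl
  have h1 : AEStronglyMeasurable (fun x => ac (fun τ => Φ.D1 X 0 (a, τ) (x, 0)) (1 / 2) (1 / 2 + k)) μ := by
    have h2 : ContinuousOn (fun x => ac (fun τ => Φ.D1 X 0 (a, τ) (x, 0)) (1 / 2) (1 / 2 + k))
        ({x : C | ∃ i ≤ k, x = T^[i] a}ᶜ) := by
      intro x hx
      refine ContinuousAt.continuousWithinAt ?_
      refine ac_continuousAt hF (by linarith [(Nat.cast_nonneg k : (0 : ℝ) ≤ k)]) ?_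
      intro t ht
      refine hne x (fun i hi h => hx ⟨i, hi, h⟩) t ht
    have h3 := h2.aestronglyMeasurable (μ := μ) hO
    rwa [Measure.restrict_eq_self_of_ae_mem] at h3
    rw [ae_iff]
    simp only [mem_compl_iff, not_not]
    exact hfin.measure_zero μ
  refine h1.sub ?_
  exact (Complex.measurable_arg.comp ((hc _).measurable.div (hc _).measurable)).aestronglyMeasurable

end Pre

end Pool.Agent.Lib.MP_e9314e_an.PB
end

section

/-!
# PB: the values of `W` on the transversal `S j`, `j ≠ 0`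

`wn_square` for box `j` and `f (s, s') = D2 X j (a, 1/2) (X j, s') (x, s) / D2 X j (b, 1/2) (X j, s') (x, s)` (`f3`; no zeros: `Pre.D2_ne_Sj`).
At `s' = 1/2`: `D2 X j (a, 1/2) (X j, 1/2) (x, s) = D1 X 0 (a, 1/2) (x, s)` (`D2_self`, `Function.update_eq_self`), so the left hand side is `W`.
The path integral is `Om (update X 0 a) j (X j) x - Om (update X 0 b) j (X j) x` (`D2_zero`, `ac_div`); by `order` (for the admissible viewers
`update X 0 a`, `update X 0 b`) these numbers are within `π/4` of `± π`, the principal arguments are at most `π/4` (`arg_near`), and `W` is an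
integer (`wn_int`).
-/

set_option autoImplicit false

open Set Complex Topology

namespace Pool.Agent.Lib.MP_e9314e_an.PB

variable {C : Type*} [TopologicalSpace C] {T : C ≃ₜ C} {m : ℕ} {Φ : Sys T m} {c : Cfg Φ}

namespace Fine

variable {V : Set C} {η : ℝ} (hV : Fine c V η)

omit [TopologicalSpace C] in
/-- An integer within `π` of `2 π` times an integer. -/
private theorem int_close {w σ : ℝ} {k l : ℤ} (hw : w = k) (hσ : σ = l)
    (h : |2 * Real.pi * w - 2 * Real.pi * σ| ≤ Real.pi) : w = σ := by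
  rw [hw, hσ] at h ⊢
  have hπ := Real.pi_pos
  have h1 : 2 * Real.pi * (k : ℝ) - 2 * Real.pi * l = 2 * Real.pi * ((k - l : ℤ) : ℝ) := by
    push_cast
    ring
  rw [h1, abs_mul, abs_of_pos (by positivity)] at h
  have h2 : |((k - l : ℤ) : ℝ)| < 1 := by
    by_contra h3
    push Not at h3
    nlinarith
  have h3 : |k - l| < 1 := by exact_mod_cast h2
  have h4 : k - l = 0 := Int.abs_lt_one_iff.1 h3
  have h5 : k = l := by omega
  rw [h5]

/-- The value of `sg` from the alternative in `order`. -/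
private theorem sg_close {X : Fin (m + 1) → C} (hX : c.Adm X) {j : Fin (m + 1)} {a b : C} (ha : a ∈ c.S j)
    (hb : b ∈ c.S j) (hab : a ≠ b) :
    (∃ k : ℤ, c.sg X j a b = k) ∧ |c.Om X j a b - (2 * Real.pi * c.sg X j a b - Real.pi)| ≤ Real.pi / 4 := by
  have hπ := Real.pi_pos
  rcases c.order hX ha hb hab with ⟨_, h⟩ | ⟨_, h⟩
  · have hpos : 0 < c.Om X j a b := by
      have := (abs_le.1 h).1
      linarith
    have hs : c.sg X j a b = 1 := by
      unfold Cfg.sg
      rw [if_pos hpos]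
    rw [hs]
    refine ⟨⟨1, by simp⟩, ?_⟩
    have e : c.Om X j a b - (2 * Real.pi * 1 - Real.pi) = c.Om X j a b - Real.pi := by ring
    rw [e]
    exact h
  · have hneg : ¬ 0 < c.Om X j a b := by
      have := (abs_le.1 h).2
      linarith
    have hs : c.sg X j a b = 0 := by
      unfold Cfg.sg
      rw [if_neg hneg]
    rw [hs]
    refine ⟨⟨0, by simp⟩, ?_⟩
    have e : c.Om X j a b - (2 * Real.pi * 0 - Real.pi) = c.Om X j a b + Real.pi := by ring
    rw [e]
    exact h

include hV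

theorem W_j {X : Fin (m + 1) → C} (hX : c.Adm X) {j : Fin (m + 1)} (hj : j ≠ 0) {a b x : C}
    (ha : a ∈ V) (hb : b ∈ V) (hx : x ∈ c.S j) (hxX : x ≠ X j) :
    Φ.W X a b x = c.sg (Function.update X 0 a) j (X j) x - c.sg (Function.update X 0 b) j (X j) x := by
  have hπ := Real.pi_pos
  have haS : a ∈ c.S 0 := hV.VS ha
  have hbS : b ∈ c.S 0 := hV.VS hb
  have hhalf : (1 / 2 : ℝ) ∈ Ioo (0 : ℝ) 1 := ⟨by norm_num, by norm_num⟩
  have hD : ∀ y ∈ c.S 0, ∀ s ∈ Icc (0 : ℝ) 1, ∀ s' ∈ Icc (0 : ℝ) 1,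
      Φ.D2 X j (y, 1 / 2) (X j, s') (x, s) ≠ 0 := fun y hy s hs s' hs' =>
    c.pre.D2_ne_Sj Φ hX hj hy (hX j) hx hhalf hs' hs (Or.inl (Ne.symm hxX))
  have hDc : ∀ y : C, Continuous fun p : ℝ × ℝ => Φ.D2 X j (y, 1 / 2) (X j, p.2) (x, p.1) := by
    intro y
    have h1 : Continuous fun p : ℝ × ℝ =>
        ((X, ((y, (1 / 2 : ℝ)), ((X j, p.2), (x, p.1)))) :
          (Fin (m + 1) → C) × (C × ℝ) × (C × ℝ) × (C × ℝ)) := by fun_prop
    exact (Φ.continuous_D2 j).comp h1
  have hu1 : 1 / 4 ≤ c.u j := by linarith [c.hu j, c.h4]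
  have hv1 : c.v j ≤ 3 / 4 := by linarith [c.hv j, c.h4]
  have huv : c.u j + η ≤ c.v j := hV.ηuv j
  have hη0 := hV.η0
  -- the function of two times
  set f : ℝ × ℝ → ℂ := fun p =>
    Φ.D2 X j (a, 1 / 2) (X j, p.2) (x, p.1) / Φ.D2 X j (b, 1 / 2) (X j, p.2) (x, p.1) with hfdef
  have hfc : ContinuousOn f (Icc 0 1 ×ˢ Icc 0 1) :=
    (hDc a).continuousOn.div (hDc b).continuousOn fun p hp => hD b hbS p.1 hp.1 p.2 hp.2
  have hf0 : ∀ p ∈ Icc (0 : ℝ) 1 ×ˢ Icc (0 : ℝ) 1, f p ≠ 0 := fun p hp =>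
    div_ne_zero (hD a haS p.1 hp.1 p.2 hp.2) (hD b hbS p.1 hp.1 p.2 hp.2)
  have hfar : ∀ p ∈ Icc (0 : ℝ) 1 ×ˢ Icc (0 : ℝ) 1, η ≤ |p.1 - p.2| → ‖f p - 1‖ ≤ 1 / 2 := fun p hp h =>
    hV.f3 X hX j hj a ha b hb x hx p.1 hp.1 p.2 hp.2 h
  have hsq := wn_square hfc hf0 hη0 hV.η4 hu1 huv hv1 hfar
  -- the left hand side
  have hself : ∀ (y : C) (s : ℝ), Φ.D2 X j (y, 1 / 2) (X j, 1 / 2) (x, s) = Φ.D1 X 0 (y, 1 / 2) (x, s) := by
    intro y s
    rw [Φ.D2_self X hj, Function.update_eq_self]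
  have hW : wn (fun s => f (s, 1 / 2)) = Φ.W X a b x := by
    unfold Sys.W
    refine wn_congr fun s _ => ?_
    simp only [hfdef, hself]
  have hWnz : NZ (fun s => f (s, 1 / 2)) 0 1 := by
    have hh : (1 / 2 : ℝ) ∈ Icc (0 : ℝ) 1 := ⟨hhalf.1.le, hhalf.2.le⟩
    exact ⟨hfc.comp (by fun_prop) fun s hs => ⟨hs, hh⟩, fun s hs => hf0 _ ⟨hs, hh⟩⟩
  obtain ⟨k, hk⟩ := wn_int hWnz
  rw [hW] at hk hsq
  -- the path
  have hpath : ∀ θ ∈ Icc (0 : ℝ) 1, c.u j + θ * (c.v j - c.u j) ∈ Icc (0 : ℝ) 1 ∧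
      c.v j - θ * (c.v j - c.u j) ∈ Icc (0 : ℝ) 1 := by
    intro θ hθ
    have h1 : 0 ≤ c.v j - c.u j := by linarith
    have h2 : 0 ≤ θ * (c.v j - c.u j) := mul_nonneg hθ.1 h1
    have h3 : θ * (c.v j - c.u j) ≤ c.v j - c.u j := mul_le_of_le_one_left h1 hθ.2
    exact ⟨⟨by linarith, by linarith⟩, ⟨by linarith, by linarith⟩⟩
  have hnz : ∀ y ∈ c.S 0, NZ (fun θ => Φ.D1 (Function.update X 0 y) j
      (X j, c.v j - θ * (c.v j - c.u j)) (x, c.u j + θ * (c.v j - c.u j))) 0 1 := by
    intro y hy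
    have e : (fun θ => Φ.D1 (Function.update X 0 y) j (X j, c.v j - θ * (c.v j - c.u j))
        (x, c.u j + θ * (c.v j - c.u j))) = fun θ => (fun p : ℝ × ℝ =>
          Φ.D2 X j (y, 1 / 2) (X j, p.2) (x, p.1))
          (c.u j + θ * (c.v j - c.u j), c.v j - θ * (c.v j - c.u j)) := by
      funext θ
      rw [← Φ.D2_zero X hj]
    rw [e]
    refine ⟨((hDc y).comp (by fun_prop)).continuousOn, fun θ hθ => ?_⟩
    exact hD y hy _ (hpath θ hθ).1 _ (hpath θ hθ).2
  have hac : ac (fun θ => f (c.u j + θ * (c.v j - c.u j), c.v j - θ * (c.v j - c.u j))) 0 1 =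
      c.Om (Function.update X 0 a) j (X j) x - c.Om (Function.update X 0 b) j (X j) x := by
    unfold Cfg.Om
    rw [← ac_div zero_le_one (hnz a haS) (hnz b hbS)]
    refine ac_congr fun θ _ => ?_
    simp only [hfdef]
    rw [Φ.D2_zero X hj, Φ.D2_zero X hj]
  rw [hac] at hsq
  -- the principal arguments
  have huI : c.u j ∈ Icc (0 : ℝ) 1 := ⟨by linarith, by linarith⟩
  have hvI : c.v j ∈ Icc (0 : ℝ) 1 := ⟨by linarith, by linarith⟩
  have harg : ∀ z : ℂ, ‖z - 1‖ ≤ 1 / 2 → |arg z| ≤ Real.pi / 4 := by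
    intro z hz
    refine (arg_near hz).trans ?_
    have := mul_le_mul_of_nonneg_left hz (by positivity : (0 : ℝ) ≤ Real.pi / 2)
    linarith
  have ha1 : |arg (f (c.v j, c.u j))| ≤ Real.pi / 4 := by
    refine harg _ (hfar _ ⟨hvI, huI⟩ ?_)
    simp only
    rw [abs_of_nonneg (by linarith)]
    linarith
  have ha2 : |arg (f (c.u j, c.v j))| ≤ Real.pi / 4 := by
    refine harg _ (hfar _ ⟨huI, hvI⟩ ?_)
    simp only
    rw [abs_sub_comm, abs_of_nonneg (by linarith)]
    linarith
  obtain ⟨⟨ka, hka⟩, hca⟩ := sg_close (hX.update haS) (j := j) (a := X j) (b := x)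
    (hX j) hx (Ne.symm hxX)
  obtain ⟨⟨kb, hkb⟩, hcb⟩ := sg_close (hX.update hbS) (j := j) (a := X j) (b := x)
    (hX j) hx (Ne.symm hxX)
  refine int_close (k := k) (l := ka - kb) hk (by rw [hka, hkb]; push_cast; ring) ?_
  have h2π : 2 * Real.pi * Φ.W X a b x = c.Om (Function.update X 0 a) j (X j) x -
      c.Om (Function.update X 0 b) j (X j) x - arg (f (c.v j, c.u j)) + arg (f (c.u j, c.v j)) := by
    rw [hsq]
    field_simp
  rw [h2π]
  rw [abs_le] at ha1 ha2 hca hcb ⊢
  constructor <;> nlinarith [ha1.1, ha1.2, ha2.1, ha2.2, hca.1, hca.2, hcb.1, hcb.2]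

end Fine

end Pool.Agent.Lib.MP_e9314e_an.PB
end

section

/-!
# PB: local constancy of `sg` and `W`

`sg_eventually`: `Om` is continuous in the parameter at `y₀` (`ac_continuousAt`, `continuous_D1`, `Pre.D1_ne_S`: no zero on the path, the times
on the path are in `[0, 1]`) and by `order` it is not zero at `y₀`.
`W_eventually`: `W` is an integer (`wn_int`) near `y₀` and it is continuous at `y₀`: `ac` of the quotient is the difference of the `ac` of numerator and
denominator near `y₀` (`ac_div`; both have no zeros near `y₀`, tube lemma), `ac_continuousAt`; the principal arguments at the times `0` and `1` are continuous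
since the quotient is in the slit plane there (`Fine.ends`).
-/

set_option autoImplicit false

open Set Complex Topology

namespace Pool.Agent.Lib.MP_e9314e_an.PB

variable {C : Type*} [TopologicalSpace C] {T : C ≃ₜ C} {m : ℕ} {Φ : Sys T m} {c : Cfg Φ}

theorem Cfg.sg_eventually {Y : Type*} [TopologicalSpace Y] {X : Y → Fin (m + 1) → C} {p q : Y → C}
    (hX : Continuous X) (hp : Continuous p) (hq : Continuous q) {j : Fin (m + 1)} {y₀ : Y}
    (hA : c.Adm (X y₀)) (hpS : p y₀ ∈ c.S j) (hqS : q y₀ ∈ c.S j) (hpq : p y₀ ≠ q y₀) :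
    ∀ᶠ y in 𝓝 y₀, c.sg (X y) j (p y) (q y) = c.sg (X y₀) j (p y₀) (q y₀) := by
  have hF : Continuous fun w : Y × ℝ => Φ.D1 (X w.1) j (p w.1, c.v j - w.2 * (c.v j - c.u j))
      (q w.1, c.u j + w.2 * (c.v j - c.u j)) := by
    have h1 : Continuous fun w : Y × ℝ =>
        (X w.1, (p w.1, c.v j - w.2 * (c.v j - c.u j)), (q w.1, c.u j + w.2 * (c.v j - c.u j))) := by
      refine (hX.comp continuous_fst).prodMk (Continuous.prodMk ?_ ?_)
      · exact (hp.comp continuous_fst).prodMk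
          (continuous_const.sub (continuous_snd.mul continuous_const))
      · exact (hq.comp continuous_fst).prodMk
          (continuous_const.add (continuous_snd.mul continuous_const))
    exact (Sys.continuous_D1 Φ j).comp h1
  have hu := c.hu j
  have hv := c.hv j
  have huv := c.uv j
  have h4 := c.h4
  have h0 : ∀ t ∈ Icc (0 : ℝ) 1, Φ.D1 (X y₀) j (p y₀, c.v j - t * (c.v j - c.u j))
      (q y₀, c.u j + t * (c.v j - c.u j)) ≠ 0 := by
    intro t ht
    have ht0 : 0 ≤ t * (c.v j - c.u j) := mul_nonneg ht.1 (by linarith)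
    have ht1 : t * (c.v j - c.u j) ≤ c.v j - c.u j := by
      have := mul_le_mul_of_nonneg_right ht.2 (by linarith : (0 : ℝ) ≤ c.v j - c.u j)
      linarith
    exact c.pre.D1_ne_S Φ hA hpS hqS ⟨by linarith, by linarith⟩ ⟨by linarith, by linarith⟩ (Or.inl hpq)
  have hC : ContinuousAt (fun y => c.Om (X y) j (p y) (q y)) y₀ :=
    ac_continuousAt hF zero_le_one h0
  have hpi := Real.pi_pos
  rcases c.order hA hpS hqS hpq with ⟨-, h⟩ | ⟨-, h⟩
  · have hpos : 0 < c.Om (X y₀) j (p y₀) (q y₀) := by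
      have := abs_le.1 h
      linarith [this.1]
    filter_upwards [hC.eventually (lt_mem_nhds hpos)] with y hy
    unfold Cfg.sg
    rw [if_pos hy, if_pos hpos]
  · have hneg : c.Om (X y₀) j (p y₀) (q y₀) < 0 := by
      have := abs_le.1 h
      linarith [this.2]
    filter_upwards [hC.eventually (gt_mem_nhds hneg)] with y hy
    unfold Cfg.sg
    rw [if_neg (not_lt.2 (le_of_lt hy)), if_neg (not_lt.2 hneg.le)]

theorem Fine.W_eventually {V : Set C} {η : ℝ} (hV : Fine c V η) {Y : Type*} [TopologicalSpace Y]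
    {X : Y → Fin (m + 1) → C} {x : Y → C} (hX : Continuous X) (hx : Continuous x) {a b : C}
    (ha : a ∈ V) (hb : b ∈ V) {y₀ : Y} (hA : c.Adm (X y₀)) (h1 : x y₀ ≠ a) (h2 : x y₀ ≠ b)
    (h3 : ∀ l, l ≠ 0 → x y₀ ≠ X y₀ l) :
    ∀ᶠ y in 𝓝 y₀, Φ.W (X y) a b (x y) = Φ.W (X y₀) a b (x y₀) := by
  have hF : ∀ d : C, Continuous fun w : Y × ℝ => Φ.D1 (X w.1) 0 (d, 1 / 2) (x w.1, w.2) := by
    intro d
    have h1 : Continuous fun w : Y × ℝ =>
        (X w.1, ((d, 1 / 2) : C × ℝ), ((x w.1, w.2) : C × ℝ)) :=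
      (hX.comp continuous_fst).prodMk
        (continuous_const.prodMk ((hx.comp continuous_fst).prodMk continuous_snd))
    exact (Sys.continuous_D1 Φ 0).comp h1
  have h0 : ∀ d ∈ V, x y₀ ≠ d → ∀ s ∈ Icc (0 : ℝ) 1, Φ.D1 (X y₀) 0 (d, 1 / 2) (x y₀, s) ≠ 0 := by
    intro d hd hxd s hs
    refine c.pre.D1_ne Φ hA (hV.VS hd) ⟨by norm_num, by norm_num⟩ hs (fun l hl => h3 l hl) ?_
    intro hE
    have hlt : |((d, 1 / 2) : C × ℝ).2 - ((x y₀, s) : C × ℝ).2| < 1 := by
      show |1 / 2 - s| < 1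
      rw [abs_lt]
      constructor <;> linarith [hs.1, hs.2]
    have := hE.eq_of_lt hlt
    exact hxd (congrArg Prod.fst this).symm
  have hev : ∀ d ∈ V, x y₀ ≠ d → ∀ᶠ y in 𝓝 y₀, ∀ s ∈ Icc (0 : ℝ) 1,
      Φ.D1 (X y) 0 (d, 1 / 2) (x y, s) ≠ 0 := by
    intro d hd hxd
    refine IsCompact.eventually_forall_of_forall_eventually isCompact_Icc ?_
    intro s hs
    exact (hF d).continuousAt.eventually_ne (h0 d hd hxd s hs)
  have hac : ∀ d ∈ V, x y₀ ≠ d →
      ContinuousAt (fun y => ac (fun s => Φ.D1 (X y) 0 (d, 1 / 2) (x y, s)) 0 1) y₀ := by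
    intro d hd hxd
    exact ac_continuousAt (hF d) zero_le_one (h0 d hd hxd)
  have hq : ∀ s ∈ Icc (0 : ℝ) 1, ContinuousAt
      (fun y => Φ.D1 (X y) 0 (a, 1 / 2) (x y, s) / Φ.D1 (X y) 0 (b, 1 / 2) (x y, s)) y₀ := by
    intro s hs
    have e1 : ∀ d, ContinuousAt (fun y => Φ.D1 (X y) 0 (d, 1 / 2) (x y, s)) y₀ := by
      intro d
      have : Continuous fun y => Φ.D1 (X y) 0 (d, 1 / 2) (x y, s) :=
        (hF d).comp (continuous_id.prodMk continuous_const)
      exact this.continuousAt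
    exact (e1 a).div (e1 b) (h0 b hb h2 s hs)
  have harg : ∀ s : ℝ, (s = 0 ∨ s = 1) → ContinuousAt
      (fun y => arg (Φ.D1 (X y) 0 (a, 1 / 2) (x y, s) / Φ.D1 (X y) 0 (b, 1 / 2) (x y, s))) y₀ := by
    intro s hs
    have hs' : s ∈ Icc (0 : ℝ) 1 := by
      rcases hs with rfl | rfl
      · exact ⟨le_rfl, zero_le_one⟩
      · exact ⟨zero_le_one, le_rfl⟩
    have hsl : Φ.D1 (X y₀) 0 (a, 1 / 2) (x y₀, s) / Φ.D1 (X y₀) 0 (b, 1 / 2) (x y₀, s) ∈ slitPlane := by
      have hn := hV.ends (x := x y₀) hA ha hb hs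
      have : Φ.D1 (X y₀) 0 (a, 1 / 2) (x y₀, s) / Φ.D1 (X y₀) 0 (b, 1 / 2) (x y₀, s) =
          1 + (Φ.D1 (X y₀) 0 (a, 1 / 2) (x y₀, s) / Φ.D1 (X y₀) 0 (b, 1 / 2) (x y₀, s) - 1) := by
        ring
      rw [this]
      exact mem_slitPlane_of_norm_lt_one (by linarith)
    exact (continuousAt_arg hsl).comp_of_eq (hq s hs') rfl
  have hNZ : ∀ d ∈ V, ∀ y, (∀ s ∈ Icc (0 : ℝ) 1, Φ.D1 (X y) 0 (d, 1 / 2) (x y, s) ≠ 0) →
      NZ (fun s => Φ.D1 (X y) 0 (d, 1 / 2) (x y, s)) 0 1 := by
    intro d _ y hy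
    refine ⟨Continuous.continuousOn ?_, hy⟩
    exact (hF d).comp (continuous_const.prodMk continuous_id)
  -- a continuous expression for `W`
  set w : Y → ℝ := fun y =>
    (ac (fun s => Φ.D1 (X y) 0 (a, 1 / 2) (x y, s)) 0 1 - ac (fun s => Φ.D1 (X y) 0 (b, 1 / 2) (x y, s)) 0 1
      - arg (Φ.D1 (X y) 0 (a, 1 / 2) (x y, 1) / Φ.D1 (X y) 0 (b, 1 / 2) (x y, 1))
      + arg (Φ.D1 (X y) 0 (a, 1 / 2) (x y, 0) / Φ.D1 (X y) 0 (b, 1 / 2) (x y, 0))) / (2 * Real.pi) with hw
  have hwc : ContinuousAt w y₀ :=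
    ((((hac a ha h1).sub (hac b hb h2)).sub (harg 1 (Or.inr rfl))).add
      (harg 0 (Or.inl rfl))).div_const _
  have hWw : ∀ y, (∀ s ∈ Icc (0 : ℝ) 1, Φ.D1 (X y) 0 (a, 1 / 2) (x y, s) ≠ 0) →
      (∀ s ∈ Icc (0 : ℝ) 1, Φ.D1 (X y) 0 (b, 1 / 2) (x y, s) ≠ 0) →
      Φ.W (X y) a b (x y) = w y ∧ ∃ k : ℤ, w y = k := by
    intro y hya hyb
    have e1 : Φ.W (X y) a b (x y) = w y := by
      unfold Sys.W wn
      rw [ac_div zero_le_one (hNZ a ha y hya) (hNZ b hb y hyb)]
    refine ⟨e1, ?_⟩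
    rw [← e1]
    refine wn_int ⟨?_, ?_⟩
    · exact ContinuousOn.div (hNZ a ha y hya).1 (hNZ b hb y hyb).1 hyb
    · intro s hs
      exact div_ne_zero (hya s hs) (hyb s hs)
  obtain ⟨e0, k0, hk0⟩ := hWw y₀ (h0 a ha h1) (h0 b hb h2)
  have hnear : ∀ᶠ y in 𝓝 y₀, |w y - w y₀| < 1 := by
    have := Metric.tendsto_nhds.1 hwc 1 one_pos
    simpa only [Real.dist_eq] using this
  filter_upwards [hnear, hev a ha h1, hev b hb h2] with y hy hya hyb
  obtain ⟨e1, k, hk⟩ := hWw y hya hyb
  rw [e1, e0, hk, hk0]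
  rw [hk, hk0] at hy
  have : |k - k0| < 1 := by exact_mod_cast hy
  have : k - k0 = 0 := by
    rw [abs_lt] at this
    omega
  have : k = k0 := by omega
  rw [this]

end Pool.Agent.Lib.MP_e9314e_an.PB
end

section

/-!
# PB: the integral of `W` over the moving strand vanishes

`abs_W_le`: `W_out`, `W_zero`, `W_j` and `sg ∈ {0, 1}` (`Cfg.sg_cases`).
`integrable_W`: `W` is locally constant off the finite set `{a, b} ∪ {X l}` (`Fine.W_eventually` with constant `X`), hence a.e. strongly measurable (finite sets are null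
sets), and bounded.
`integral_W`: `int_cob` with `H = HH / (2 π)`, `Pre.W_cob`, `Pre.HH_aemeas`.
-/

set_option autoImplicit false

open MeasureTheory Set Complex

namespace Pool.Agent.Lib.MP_e9314e_an.PB

variable {C : Type*} [TopologicalSpace C] {T : C ≃ₜ C} {m : ℕ} {Φ : Sys T m} {c : Cfg Φ}
  {V : Set C} {η : ℝ} (hV : Fine c V η)

include hV

theorem Fine.abs_W_le {X : Fin (m + 1) → C} (hX : c.Adm X) {a b x : C} (ha : a ∈ V) (hb : b ∈ V)
    (hxa : x ≠ a) (hxb : x ≠ b) (hxX : ∀ l, l ≠ 0 → x ≠ X l) : |Φ.W X a b x| ≤ 1 := by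
  have key : ∀ u v : ℝ, (u = 0 ∨ u = 1) → (v = 0 ∨ v = 1) → |u - v| ≤ 1 := by
    rintro u v (rfl | rfl) (rfl | rfl) <;> norm_num
  by_cases h : ∃ j, x ∈ c.S j
  · obtain ⟨j, hj⟩ := h
    by_cases hj0 : j = 0
    · subst hj0
      rw [hV.W_zero hX ha hb hj hxa hxb]
      exact key _ _ (c.sg_cases _ _ _ _) (c.sg_cases _ _ _ _)
    · rw [hV.W_j hX hj0 ha hb hj (hxX j hj0)]
      exact key _ _ (c.sg_cases _ _ _ _) (c.sg_cases _ _ _ _)
  · rw [hV.W_out hX ha hb fun j hj => h ⟨j, hj⟩, abs_zero]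
    exact zero_le_one

variable [T2Space C] [SecondCountableTopology C] [MeasurableSpace C] [BorelSpace C]
  {μ : Measure C} [IsFiniteMeasure μ] [NullSingletonClass μ]

theorem Fine.integrable_W {X : Fin (m + 1) → C} (hX : c.Adm X) {a b : C} (ha : a ∈ V) (hb : b ∈ V) :
    Integrable (fun x => Φ.W X a b x) μ := by
  set N : Set C := {a, b} ∪ range X with hN
  have hNfin : N.Finite := (Set.toFinite {a, b}).union (Set.finite_range X)
  have hae : ∀ᵐ x ∂μ, x ∈ Nᶜ := by
    rw [MeasureTheory.ae_iff]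
    simp only [mem_compl_iff, not_not]
    exact hNfin.measure_zero μ
  have hO : IsOpen Nᶜ := hNfin.isClosed.isOpen_compl
  have hcont : ContinuousOn (fun x => Φ.W X a b x) Nᶜ := by
    intro x hx
    have h1 : x ≠ a := fun h => hx (Or.inl (by simp [h]))
    have h2 : x ≠ b := fun h => hx (Or.inl (by simp [h]))
    have h3 : ∀ l, l ≠ 0 → x ≠ X l := fun l _ h => hx (Or.inr ⟨l, h.symm⟩)
    have h4 := hV.W_eventually (Y := C) (X := fun _ => X) (x := fun y => y) continuous_const
      continuous_id ha hb (y₀ := x) hX h1 h2 h3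
    refine ContinuousAt.continuousWithinAt ?_
    refine (continuousAt_const (y := Φ.W X a b x)).congr ?_
    filter_upwards [h4] with y hy
    exact hy.symm
  have hmeas : AEStronglyMeasurable (fun x => Φ.W X a b x) μ := by
    have h5 : μ.restrict Nᶜ = μ := Measure.restrict_eq_self_of_ae_mem hae
    rw [← h5]
    exact hcont.aestronglyMeasurable hO.measurableSet
  refine Integrable.of_bound hmeas 1 ?_
  filter_upwards [hae] with x hx
  rw [Real.norm_eq_abs]
  exact hV.abs_W_le hX ha hb (fun h => hx (Or.inl (by simp [h]))) (fun h => hx (Or.inl (by simp [h])))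
    fun l _ h => hx (Or.inr ⟨l, h.symm⟩)

theorem Fine.integral_W (hT : MeasurePreserving T μ μ) {X : Fin (m + 1) → C} (hX : c.Adm X) {a : C}
    {k : ℕ} (ha : a ∈ V) (hb : T^[k] a ∈ V) (hXa : ∀ l, l ≠ 0 → ∀ i ≤ k, X l ≠ T^[i] a) :
    ∫ x, Φ.W X (T^[k] a) a x ∂μ = 0 := by
  have hpi : (2 * Real.pi) ≠ 0 := by positivity
  have hH : AEStronglyMeasurable (fun x => Φ.HH X a k x / (2 * Real.pi)) μ := by
    have h0 : AEStronglyMeasurable (Φ.HH X a k) μ := c.pre.HH_aemeas Φ hX (hV.VS ha) hXa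
    have h1 := h0.mul_const (2 * Real.pi)⁻¹
    exact h1
  refine int_cob (T := T) (H := fun x => Φ.HH X a k x / (2 * Real.pi)) hT hH
    (hV.integrable_W hX hb ha) ?_
  set N : Set C := (⋃ i ∈ Set.Iic k, {T^[i] a}) ∪ range X with hN
  have hNfin : N.Finite :=
    ((Set.finite_Iic k).biUnion fun i _ => Set.finite_singleton _).union (Set.finite_range X)
  have hae : ∀ᵐ x ∂μ, x ∈ Nᶜ := by
    rw [MeasureTheory.ae_iff]
    simp only [mem_compl_iff, not_not]
    exact hNfin.measure_zero μ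
  filter_upwards [hae] with x hx
  have h2 := c.pre.W_cob Φ hX (hV.VS ha) hXa (x := x)
    (fun i hi h => hx (Or.inl (mem_iUnion₂.2 ⟨i, hi, h⟩))) fun l _ h => hx (Or.inr ⟨l, h.symm⟩)
  rw [← sub_div, ← h2]
  field_simp

end Pool.Agent.Lib.MP_e9314e_an.PB
end

section

/-!
# PB: the product integral

`x : Fin (m + 1) → C`; `x 0` is the moving strand, `x l` (`l ≠ 0`) the viewers; `up x` has the viewers `x l` and `z 0` in place `0`.
`G a b x = (sg (up x) 0 a b - 1/2) * W (up x) a b (x 0)` on the open set `U a b`.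

* `isOpen_U`: `S l` clopen, `C` Hausdorff.
* `abs_G_le`: `Fine.abs_W_le`, `sg_cases`.  `G_continuousOn`: `G` is locally constant on `U` (`sg_eventually` with `Y = Fin (m+1) → C`, `X = up`,
  constant `p`, `q`; `W_eventually` with `x = fun y => y 0`).
* `integrableOn_G`: bounded, continuous on the open set `U`, finite measure.
* `G_out`: `W_out`.  `G_nonneg`: `W_zero`, `sg_mono`.
* `G_swap`: for `x ∈ U a b` with `x 0 ∈ S j`, `x' = x ∘ Equiv.swap 0 j` is again in `U a b` (`a, b ∈ S 0`, `x j ∈ S j`) with `x' 0 = x j ∈ S j` and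
  `G x' = - G x`: `up x' = update (up x) j (x 0)`; by `W_j` and `sg_swap` (in box `j`; `Om` does not depend on `X j`: `D1_update`) `W (up x') a b (x j) = - W (up x) a b (x 0)`; if this is not `0`
  then `sg (up x) 0 a b = sg (up x') 0 a b` (`Cfg.four`).
* `setIntegral_G_j`: substitution `x ↦ x ∘ Equiv.swap 0 j`, measure preserving for `Measure.pi fun _ => μ`
  (`MeasureTheory.measurePreserving_piCongrLeft` or `measurePreserving_arrowCongr'`, see also `MeasureTheory.volume_preserving_piCongrLeft`), `integral = - integral`.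
* `integral_U`: Fubini with respect to `x 0` (`MeasureTheory.measurePreserving_piFinSuccAbove (fun _ => μ) 0`, `integral_prod_symm` or `integral_prod`): for almost all `(x l)`, `l ≠ 0`, either some
  `x l ∉ S l` (section empty) or `x l ≠ T^[i] p` for all `l ≠ 0`, `i` (countable set) and the section of `U` is `C` without a finite set, where
  the integral is `(sg - 1/2) * ∫ W = 0` (`Fine.integral_W`).
-/

set_option autoImplicit false

open MeasureTheory Set Complex

namespace Pool.Agent.Lib.MP_e9314e_an.PB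

variable {C : Type*} [TopologicalSpace C] {T : C ≃ₜ C} {m : ℕ} {Φ : Sys T m}

namespace Cfg

variable (c : Cfg Φ)

/-- Viewers `x l`, `l ≠ 0`, and `z 0` in place `0`. -/
def up (x : Fin (m + 1) → C) : Fin (m + 1) → C := Function.update x 0 (c.z 0)

/-- Good points for the pair `a, b`. -/
def U (a b : C) : Set (Fin (m + 1) → C) :=
  {x | (∀ l, l ≠ 0 → x l ∈ c.S l) ∧ x 0 ≠ a ∧ x 0 ≠ b ∧ ∀ l, l ≠ 0 → x 0 ≠ x l}

/-- The integrand. -/
noncomputable def G (a b : C) (x : Fin (m + 1) → C) : ℝ :=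
  (c.sg (c.up x) 0 a b - 1 / 2) * Φ.W (c.up x) a b (x 0)

theorem adm_up {x : Fin (m + 1) → C} (hx : ∀ l, l ≠ 0 → x l ∈ c.S l) : c.Adm (c.up x) := by
  intro l
  unfold up
  rcases eq_or_ne l 0 with rfl | h
  · rw [Function.update_self]
    exact c.pre.zS 0
  · rw [Function.update_of_ne h]
    exact hx l h

theorem continuous_up : Continuous c.up := by
  unfold up
  exact continuous_id.update 0 continuous_const

end Cfg

variable {c : Cfg Φ} {V : Set C} {η : ℝ} (hV : Fine c V η)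

theorem isOpen_U [T2Space C] (a b : C) : IsOpen (c.U a b) := by
  have h0 : Continuous fun x : Fin (m + 1) → C => x 0 := continuous_apply 0
  have h1 : IsOpen {x : Fin (m + 1) → C | ∀ l, l ≠ 0 → x l ∈ c.S l} := by
    have : {x : Fin (m + 1) → C | ∀ l, l ≠ 0 → x l ∈ c.S l} =
        ⋂ l, {x : Fin (m + 1) → C | l ≠ 0 → x l ∈ c.S l} := by
      ext x
      simp
    rw [this]
    refine isOpen_iInter_of_finite fun l => ?_
    by_cases hl : l = 0
    · simp [hl]
    · have : {x : Fin (m + 1) → C | l ≠ 0 → x l ∈ c.S l} =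
          (fun x : Fin (m + 1) → C => x l) ⁻¹' c.S l := by
        ext x
        simp [hl]
      rw [this]
      exact (c.pre.clopen l).isOpen.preimage (continuous_apply l)
  have h2 : IsOpen {x : Fin (m + 1) → C | ∀ l, l ≠ 0 → x 0 ≠ x l} := by
    have : {x : Fin (m + 1) → C | ∀ l, l ≠ 0 → x 0 ≠ x l} =
        ⋂ l, {x : Fin (m + 1) → C | l ≠ 0 → x 0 ≠ x l} := by
      ext x
      simp
    rw [this]
    refine isOpen_iInter_of_finite fun l => ?_
    by_cases hl : l = 0
    · simp [hl]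
    · have : {x : Fin (m + 1) → C | l ≠ 0 → x 0 ≠ x l} = {x : Fin (m + 1) → C | x 0 ≠ x l} := by
        ext x
        simp [hl]
      rw [this]
      exact isOpen_ne_fun h0 (continuous_apply l)
  have h3 : IsOpen {x : Fin (m + 1) → C | x 0 ≠ a} := isOpen_ne_fun h0 continuous_const
  have h4 : IsOpen {x : Fin (m + 1) → C | x 0 ≠ b} := isOpen_ne_fun h0 continuous_const
  exact h1.inter (h3.inter (h4.inter h2))

private theorem up_ne (x : Fin (m + 1) → C) {l : Fin (m + 1)} (hl : l ≠ 0) : c.up x l = x l := by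
  unfold Cfg.up
  exact Function.update_of_ne hl _ _

include hV

theorem abs_G_le {a b : C} (ha : a ∈ V) (hb : b ∈ V) {x : Fin (m + 1) → C} (hx : x ∈ c.U a b) :
    |c.G a b x| ≤ 1 / 2 := by
  obtain ⟨h1, h2, h3, h4⟩ := hx
  have hW := hV.abs_W_le (c.adm_up h1) ha hb h2 h3 (fun l hl => by rw [up_ne x hl]; exact h4 l hl)
  have hs : |c.sg (c.up x) 0 a b - 1 / 2| ≤ 1 / 2 := by
    rcases c.sg_cases (c.up x) 0 a b with h | h
    · rw [h]
      norm_num
    · rw [h]
      norm_num
  unfold Cfg.G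
  rw [abs_mul]
  calc |c.sg (c.up x) 0 a b - 1 / 2| * |Φ.W (c.up x) a b (x 0)|
      ≤ 1 / 2 * 1 := mul_le_mul hs hW (abs_nonneg _) (by norm_num)
    _ = 1 / 2 := by norm_num

theorem G_eventually {a b : C} (ha : a ∈ V) (hb : b ∈ V) (hab : a ≠ b) {x : Fin (m + 1) → C}
    (hx : x ∈ c.U a b) : ∀ᶠ y in nhds x, c.G a b y = c.G a b x := by
  obtain ⟨h1, h2, h3, h4⟩ := hx
  have e1 := Cfg.sg_eventually (c := c) (X := c.up) (p := fun _ => a) (q := fun _ => b)
    c.continuous_up continuous_const continuous_const (j := 0) (y₀ := x) (c.adm_up h1) (hV.VS ha)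
    (hV.VS hb) hab
  have e2 := hV.W_eventually (X := c.up) (x := fun y : Fin (m + 1) → C => y 0)
    c.continuous_up (continuous_apply 0) ha hb (y₀ := x) (c.adm_up h1) h2 h3
    (fun l hl => by rw [up_ne x hl]; exact h4 l hl)
  filter_upwards [e1, e2] with y hy1 hy2
  unfold Cfg.G
  rw [hy1, hy2]

theorem G_out {a b : C} (ha : a ∈ V) (hb : b ∈ V) {x : Fin (m + 1) → C} (hx : x ∈ c.U a b)
    (h0 : ∀ j, x 0 ∉ c.S j) : c.G a b x = 0 := by
  unfold Cfg.G
  rw [hV.W_out (c.adm_up hx.1) ha hb h0, mul_zero]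

theorem G_nonneg {a b : C} (ha : a ∈ V) (hb : b ∈ V) (hab : a ≠ b) {x : Fin (m + 1) → C}
    (hx : x ∈ c.U a b) (h0 : x 0 ∈ c.S 0) : 0 ≤ c.G a b x := by
  obtain ⟨h1, h2, h3, h4⟩ := hx
  unfold Cfg.G
  rw [hV.W_zero (c.adm_up h1) ha hb h0 h2 h3]
  exact c.sg_mono (c.adm_up h1) (hV.VS ha) (hV.VS hb) h0 hab h2 h3

end Pool.Agent.Lib.MP_e9314e_an.PB
end

section

/-!
# PB: the swap of the moving strand and viewer `j`

See the item `G_swap` in the docstring of `Prod.lean`.
-/

set_option autoImplicit false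

open MeasureTheory Set Complex

namespace Pool.Agent.Lib.MP_e9314e_an.PB

variable {C : Type*} [TopologicalSpace C] {T : C ≃ₜ C} {m : ℕ} {Φ : Sys T m}
  {c : Cfg Φ} {V : Set C} {η : ℝ} (hV : Fine c V η)

/-- `sg` in the box `j` does not depend on viewer `j`. -/
private theorem sg_update_self (c : Cfg Φ) (X : Fin (m + 1) → C) (j : Fin (m + 1)) (y a b : C) :
    c.sg (Function.update X j y) j a b = c.sg X j a b := by
  have h : c.Om (Function.update X j y) j a b = c.Om X j a b := by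
    simp only [Cfg.Om, Sys.D1_update]
  unfold Cfg.sg
  rw [h]

private theorem upd_comm (f : Fin (m + 1) → C) {j : Fin (m + 1)} (hj : j ≠ 0) (x a : C) :
    Function.update (Function.update f j x) 0 a = Function.update (Function.update f 0 a) j x :=
  Function.update_comm hj x a f

/-- The viewers after the swap. -/
private theorem up_swap (c : Cfg Φ) {j : Fin (m + 1)} (hj : j ≠ 0) (x : Fin (m + 1) → C) :
    c.up (x ∘ Equiv.swap 0 j) = Function.update (c.up x) j (x 0) := by
  funext l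
  unfold Cfg.up
  rcases eq_or_ne l j with rfl | hl
  · rw [Function.update_self, Function.update_of_ne hj, Function.comp_apply, Equiv.swap_apply_right]
  · rw [Function.update_of_ne hl]
    rcases eq_or_ne l 0 with rfl | hl0
    · rw [Function.update_self, Function.update_self]
    · rw [Function.update_of_ne hl0, Function.update_of_ne hl0, Function.comp_apply,
        Equiv.swap_apply_of_ne_of_ne hl0 hl]

private theorem mem_swap (hV : Fine c V η) {a b : C} (ha : a ∈ V) (hb : b ∈ V) {j : Fin (m + 1)}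
    (hj : j ≠ 0) {x : Fin (m + 1) → C} (hx : x ∈ c.U a b) (h0 : x 0 ∈ c.S j) :
    (x ∘ Equiv.swap 0 j) ∈ c.U a b := by
  obtain ⟨hS, -, -, hne⟩ := hx
  have hd : ∀ i k : Fin (m + 1), i ≠ k → ∀ p ∈ c.S i, ∀ q ∈ c.S k, p ≠ q := by
    intro i k hik p hp q hq hpq
    subst hpq
    exact Set.disjoint_left.1 (c.pre.disj i k hik) hp hq
  refine ⟨?_, ?_, ?_, ?_⟩
  · intro l hl
    rw [Function.comp_apply]
    rcases eq_or_ne l j with rfl | hlj
    · rw [Equiv.swap_apply_right]
      exact h0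
    · rw [Equiv.swap_apply_of_ne_of_ne hl hlj]
      exact hS l hl
  · rw [Function.comp_apply, Equiv.swap_apply_left]
    exact hd j 0 hj _ (hS j hj) _ (hV.VS ha)
  · rw [Function.comp_apply, Equiv.swap_apply_left]
    exact hd j 0 hj _ (hS j hj) _ (hV.VS hb)
  · intro l hl
    rw [Function.comp_apply, Function.comp_apply, Equiv.swap_apply_left]
    rcases eq_or_ne l j with rfl | hlj
    · rw [Equiv.swap_apply_right]
      exact (hne l hj).symm
    · rw [Equiv.swap_apply_of_ne_of_ne hl hlj]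
      exact hd j l (Ne.symm hlj) _ (hS j hj) _ (hS l hl)

include hV

theorem G_swap {a b : C} (ha : a ∈ V) (hb : b ∈ V) (hab : a ≠ b) {j : Fin (m + 1)} (hj : j ≠ 0)
    {x : Fin (m + 1) → C} (hx : x ∈ c.U a b) (h0 : x 0 ∈ c.S j) :
    (x ∘ Equiv.swap 0 j) ∈ c.U a b ∧ (x ∘ Equiv.swap 0 j) 0 ∈ c.S j ∧
      c.G a b (x ∘ Equiv.swap 0 j) = - c.G a b x := by
  have hmem := mem_swap hV ha hb hj hx h0
  obtain ⟨hS, -, -, hne⟩ := id hx
  have hx'0 : (x ∘ Equiv.swap 0 j) 0 = x j := by
    rw [Function.comp_apply, Equiv.swap_apply_left]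
  refine ⟨hmem, ?_, ?_⟩
  · rw [hx'0]
    exact hS j hj
  · have hadm : c.Adm (c.up x) := c.adm_up hS
    have hadm' : c.Adm (Function.update (c.up x) j (x 0)) := hadm.update h0
    have hupj : c.up x j = x j := by
      unfold Cfg.up
      rw [Function.update_of_ne hj]
    have hxj : x 0 ≠ x j := hne j hj
    have hW : Φ.W (c.up x) a b (x 0) =
        c.sg (Function.update (c.up x) 0 a) j (x j) (x 0) -
          c.sg (Function.update (c.up x) 0 b) j (x j) (x 0) := by
      have := hV.W_j hadm hj ha hb h0 (by rw [hupj]; exact hxj)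
      rw [hupj] at this
      exact this
    have hW' : Φ.W (Function.update (c.up x) j (x 0)) a b (x j) =
        c.sg (Function.update (c.up x) 0 a) j (x 0) (x j) -
          c.sg (Function.update (c.up x) 0 b) j (x 0) (x j) := by
      have h1 := hV.W_j hadm' hj ha hb (hS j hj)
        (by rw [Function.update_self]; exact hxj.symm)
      rw [Function.update_self, upd_comm _ hj, upd_comm _ hj,
        sg_update_self, sg_update_self] at h1
      exact h1
    have hsa : c.sg (Function.update (c.up x) 0 a) j (x 0) (x j) +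
        c.sg (Function.update (c.up x) 0 a) j (x j) (x 0) = 1 :=
      c.sg_swap (hadm.update (hV.VS ha)) h0 (hS j hj) hxj
    have hsb : c.sg (Function.update (c.up x) 0 b) j (x 0) (x j) +
        c.sg (Function.update (c.up x) 0 b) j (x j) (x 0) = 1 :=
      c.sg_swap (hadm.update (hV.VS hb)) h0 (hS j hj) hxj
    have hWW : Φ.W (Function.update (c.up x) j (x 0)) a b (x j) = - Φ.W (c.up x) a b (x 0) := by
      rw [hW, hW']
      linarith
    unfold Cfg.G
    rw [up_swap c hj x, hx'0, hWW]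
    by_cases hz : Φ.W (c.up x) a b (x 0) = 0
    · rw [hz]
      ring
    · have := c.four hadm hj h0 (by rw [hupj]; exact hxj) (hV.VS ha) (hV.VS hb) hab hz
      rw [← this]
      ring

end Pool.Agent.Lib.MP_e9314e_an.PB
end

section

/-!
# PB: the product integral, parts `x 0 ∈ S j`

See the items `integrableOn_G` and `setIntegral_G_j` in the docstring of `Prod.lean`.
-/

set_option autoImplicit false

open MeasureTheory Set Complex

namespace Pool.Agent.Lib.MP_e9314e_an.PB

variable {C : Type*} [TopologicalSpace C] [T2Space C] [SecondCountableTopology C]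
  [MeasurableSpace C] [BorelSpace C] {μ : Measure C} [IsProbabilityMeasure μ] 
  {T : C ≃ₜ C} {m : ℕ} {Φ : Sys T m} {c : Cfg Φ} {V : Set C} {η : ℝ} (hV : Fine c V η)

include hV

theorem integrableOn_G {a b : C} (ha : a ∈ V) (hb : b ∈ V) (hab : a ≠ b) :
    IntegrableOn (c.G a b) (c.U a b) (Measure.pi fun _ : Fin (m + 1) => μ) := by
  have hU : IsOpen (c.U a b) := isOpen_U a b
  have hc : ContinuousOn (c.G a b) (c.U a b) := by
    intro x hx
    refine ContinuousAt.continuousWithinAt ?_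
    have h1 : c.G a b =ᶠ[nhds x] fun _ => c.G a b x := G_eventually hV ha hb hab hx
    exact (continuousAt_const (y := c.G a b x)).congr h1.symm
  have hm : AEStronglyMeasurable (c.G a b)
      ((Measure.pi fun _ : Fin (m + 1) => μ).restrict (c.U a b)) :=
    hc.aestronglyMeasurable hU.measurableSet
  refine Integrable.of_bound hm (1 / 2) ?_
  rw [ae_restrict_iff' hU.measurableSet]
  refine Filter.Eventually.of_forall fun x hx => ?_
  rw [Real.norm_eq_abs]
  exact abs_G_le hV ha hb hx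

theorem setIntegral_G_j {a b : C} (ha : a ∈ V) (hb : b ∈ V) (hab : a ≠ b) {j : Fin (m + 1)}
    (hj : j ≠ 0) :
    ∫ x in c.U a b ∩ {x | x 0 ∈ c.S j}, c.G a b x ∂(Measure.pi fun _ : Fin (m + 1) => μ) = 0 := by
  set A : Set (Fin (m + 1) → C) := c.U a b ∩ {x | x 0 ∈ c.S j} with hA
  have hAm : MeasurableSet A :=
    (isOpen_U a b).measurableSet.inter ((c.pre.clopen j).isOpen.measurableSet.preimage (measurable_pi_apply 0))
  set φ : (Fin (m + 1) → C) ≃ᵐ (Fin (m + 1) → C) :=
    MeasurableEquiv.arrowCongr' (Equiv.swap 0 j) (MeasurableEquiv.refl C) with hφ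
  have hφx : ∀ x, φ x = x ∘ Equiv.swap 0 j := by
    intro x
    rfl
  have hmp : MeasurePreserving φ (Measure.pi fun _ : Fin (m + 1) => μ)
      (Measure.pi fun _ : Fin (m + 1) => μ) :=
    measurePreserving_arrowCongr' (fun _ => μ) (fun _ => μ) (Equiv.swap 0 j) (MeasurableEquiv.refl C)
      fun _ => MeasurePreserving.id μ
  have hinv : ∀ x : Fin (m + 1) → C, (x ∘ Equiv.swap 0 j) ∘ Equiv.swap 0 j = x := by
    intro x
    funext i
    simp
  have hpre : φ ⁻¹' A = A := by
    ext x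
    rw [mem_preimage, hφx]
    constructor
    · intro hx
      have h1 := G_swap hV ha hb hab hj hx.1 hx.2
      rw [hinv] at h1
      exact ⟨h1.1, h1.2.1⟩
    · intro hx
      have h1 := G_swap hV ha hb hab hj hx.1 hx.2
      exact ⟨h1.1, h1.2.1⟩
  have h1 := hmp.setIntegral_preimage_emb φ.measurableEmbedding (c.G a b) A
  rw [hpre] at h1
  have h2 : ∫ x in A, c.G a b (φ x) ∂(Measure.pi fun _ : Fin (m + 1) => μ) =
      ∫ x in A, - c.G a b x ∂(Measure.pi fun _ : Fin (m + 1) => μ) := by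
    refine setIntegral_congr_fun hAm fun x hx => ?_
    show c.G a b (φ x) = - c.G a b x
    rw [hφx]
    exact (G_swap hV ha hb hab hj hx.1 hx.2).2.2
  rw [h2, integral_neg] at h1
  linarith

end Pool.Agent.Lib.MP_e9314e_an.PB
end

section

/-!
# PB: the product integral vanishes (Fubini)

See the item `integral_U` in the docstring of `Prod.lean`.
-/

set_option autoImplicit false

open MeasureTheory Set Complex

namespace Pool.Agent.Lib.MP_e9314e_an.PB

variable {C : Type*} [TopologicalSpace C] [T2Space C] [SecondCountableTopology C]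
  [MeasurableSpace C] [BorelSpace C] {μ : Measure C} [IsProbabilityMeasure μ] [NullSingletonClass μ]
  {T : C ≃ₜ C} {m : ℕ} {Φ : Sys T m} {c : Cfg Φ} {V : Set C} {η : ℝ} (hV : Fine c V η)

include hV

theorem integral_U (hT : MeasurePreserving T μ μ) {p : C} {k : ℕ} (hp : p ∈ V) (hq : T^[k] p ∈ V)
    (hne : T^[k] p ≠ p) :
    ∫ x in c.U (T^[k] p) p, c.G (T^[k] p) p x ∂(Measure.pi fun _ : Fin (m + 1) => μ) = 0 := by
  classical
  set q : C := T^[k] p with hqdef
  have hU : MeasurableSet (c.U q p) := (isOpen_U q p).measurableSet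
  have hint : IntegrableOn (c.G q p) (c.U q p) (Measure.pi fun _ : Fin (m + 1) => μ) :=
    integrableOn_G hV hq hp hne
  rw [← integral_indicator hU]
  have hint' : Integrable ((c.U q p).indicator (c.G q p)) (Measure.pi fun _ : Fin (m + 1) => μ) :=
    hint.integrable_indicator hU
  set f : (Fin (m + 1) → C) → ℝ := (c.U q p).indicator (c.G q p) with hf
  set e : (Fin (m + 1) → C) ≃ᵐ C × (Fin m → C) :=
    MeasurableEquiv.piFinSuccAbove (fun _ : Fin (m + 1) => C) 0 with he
  have hmp : MeasurePreserving e (Measure.pi fun _ : Fin (m + 1) => μ)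
      (μ.prod (Measure.pi fun _ : Fin m => μ)) :=
    measurePreserving_piFinSuccAbove (fun _ : Fin (m + 1) => μ) 0
  have hmp' := hmp.symm
  rw [← hmp'.integral_comp' f]
  have hint2 : Integrable (fun z => f (e.symm z)) (μ.prod (Measure.pi fun _ : Fin m => μ)) :=
    (hmp'.integrable_comp_emb e.symm.measurableEmbedding).2 hint'
  rw [integral_prod_symm _ hint2]
  have hes : ∀ (x : C) (y : Fin m → C), e.symm (x, y) = Fin.cons x y := by
    intro x y
    rw [he, MeasurableEquiv.piFinSuccAbove_symm_apply]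
    exact Fin.insertNth_zero' x y
  -- almost all viewers avoid the orbit of `p`
  have hae : ∀ᵐ y ∂(Measure.pi fun _ : Fin m => μ), ∀ (l : Fin m) (i : ℕ), y l ≠ T^[i] p := by
    rw [ae_all_iff]
    intro l
    rw [ae_all_iff]
    intro i
    have h0 := Measure.pi_hyperplane (fun _ : Fin m => μ) l (T^[i] p)
    rw [ae_iff]
    simpa using h0
  have hzero : ∀ᵐ y ∂(Measure.pi fun _ : Fin m => μ), ∫ x, f (e.symm (x, y)) ∂μ = 0 := by
    filter_upwards [hae] with y hy
    by_cases hS : ∀ l : Fin m, y l ∈ c.S l.succ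
    · -- the frozen viewers
      set X : Fin (m + 1) → C := Fin.cons (c.z 0) y with hX
      have hup : ∀ x : C, c.up (Fin.cons x y : Fin (m + 1) → C) = X := by
        intro x
        unfold Cfg.up
        rw [hX]
        exact Fin.update_cons_zero (α := fun _ : Fin (m + 1) => C) x y (c.z 0)
      have hadm : c.Adm X := by
        intro l
        refine Fin.cases ?_ (fun l => ?_) l
        · rw [hX, Fin.cons_zero]
          exact c.pre.zS 0
        · rw [hX, Fin.cons_succ]
          exact hS l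
      have hXne : ∀ l, l ≠ 0 → ∀ i ≤ k, X l ≠ T^[i] p := by
        intro l hl i _
        obtain ⟨l', rfl⟩ := Fin.exists_succ_eq.2 hl
        rw [hX, Fin.cons_succ]
        exact hy l' i
      have hW := hV.integral_W hT hadm hp hq hXne
      have hfin : (({q, p} : Set C) ∪ Set.range X).Finite :=
        (Set.toFinite _).union (Set.finite_range X)
      have hnull : ∀ᵐ x ∂μ, x ∉ (({q, p} : Set C) ∪ Set.range X) := by
        rw [ae_iff]
        simp only [not_not]
        exact hfin.measure_zero μ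
      have hcongr : (fun x => f (e.symm (x, y))) =ᵐ[μ]
          fun x => (c.sg X 0 q p - 1 / 2) * Φ.W X q p x := by
        filter_upwards [hnull] with x hx
        rw [hes]
        have hmem : (Fin.cons x y : Fin (m + 1) → C) ∈ c.U q p := by
          have hx1 : x ≠ q := fun h => hx (Or.inl (by simp [h]))
          have hx2 : x ≠ p := fun h => hx (Or.inl (by simp [h]))
          refine ⟨?_, ?_, ?_, ?_⟩
          · intro l hl
            obtain ⟨l', rfl⟩ := Fin.exists_succ_eq.2 hl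
            rw [Fin.cons_succ]
            exact hS l'
          · rw [Fin.cons_zero]
            exact hx1
          · rw [Fin.cons_zero]
            exact hx2
          · intro l hl
            obtain ⟨l', rfl⟩ := Fin.exists_succ_eq.2 hl
            rw [Fin.cons_zero, Fin.cons_succ]
            intro h
            refine hx (Or.inr ⟨l'.succ, ?_⟩)
            rw [hX, Fin.cons_succ]
            exact h.symm
        rw [hf, Set.indicator_of_mem hmem]
        unfold Cfg.G
        rw [hup, Fin.cons_zero]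
      rw [integral_congr_ae hcongr, integral_const_mul, hW, mul_zero]
    · push Not at hS
      obtain ⟨l, hl⟩ := hS
      have hz : ∀ x, f (e.symm (x, y)) = 0 := by
        intro x
        rw [hes, hf]
        apply Set.indicator_of_notMem
        intro hmem
        have h1 := hmem.1 l.succ (Fin.succ_ne_zero l)
        rw [Fin.cons_succ] at h1
        exact hl h1
      simp [hz]
  rw [integral_congr_ae hzero]
  simp

end Pool.Agent.Lib.MP_e9314e_an.PB
end

section

/-!
# PB: no strand of an orbit is between two others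

`final_mid`: suppose `sg z 0 (T^[k] p) r ≠ sg z 0 p r` (`z = c.z`).  Put `a = T^[k] p`, `b = p`.  The point `x* = update z 0 r` is in `U a b`
(`r, a, b ∈ V ⊆ S 0`), `up x* = z`, `W z a b r = sg z 0 a r - sg z 0 b r = ± 1` (`W_zero`), so `|G x*| = 1/2` and by `G_nonneg` `G x* = 1/2`; `G = 1/2` on a neighbourhood
of `x*` inside `U a b ∩ {x 0 ∈ S 0}` (`G_eventually`), which has positive product measure since all coordinates of `x*` are in the support of `μ`
(a product of open sets of positive measure, `Measure.pi_pi`).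
`U` is the disjoint union of its parts with `x 0 ∈ S j` (`j = 0, …, m`) and `x 0 ∉ ⋃ S j`; the integral of `G` over `U` is `0` (`integral_U`), over the parts
`j ≠ 0` it is `0` (`setIntegral_G_j`), over the last part `0` (`G_out`), so over the part `j = 0` it is `0`, but `G ≥ 0` there (`G_nonneg`) and
`G = 1/2` on a set of positive measure.
-/

set_option autoImplicit false

open MeasureTheory Set Complex

namespace Pool.Agent.Lib.MP_e9314e_an.PB

variable {C : Type*} [TopologicalSpace C] [T2Space C] [SecondCountableTopology C]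
  [MeasurableSpace C] [BorelSpace C] {μ : Measure C} [IsProbabilityMeasure μ] [NullSingletonClass μ]
  {T : C ≃ₜ C} {m : ℕ} {Φ : Sys T m} {c : Cfg Φ} {V : Set C} {η : ℝ} (hV : Fine c V η)

include hV

theorem final_mid (hT : MeasurePreserving T μ μ) (hz : ∀ l, c.z l ∈ μ.support) {p r : C} {k : ℕ}
    (hp : p ∈ V) (hq : T^[k] p ∈ V) (hne : T^[k] p ≠ p) (hr : r ∈ V) (hrp : r ≠ p)
    (hrq : r ≠ T^[k] p) (hrs : r ∈ μ.support) :
    c.sg c.z 0 (T^[k] p) r = c.sg c.z 0 p r := by
  classical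
  by_contra hcon
  set a : C := T^[k] p with ha_def
  set P : Measure (Fin (m + 1) → C) := Measure.pi fun _ : Fin (m + 1) => μ with hP
  set xs : Fin (m + 1) → C := Function.update c.z 0 r with hxs
  have hupx : c.up xs = c.z := by
    rw [Cfg.up, hxs, Function.update_idem, Function.update_eq_self]
  have hxs0 : xs 0 = r := by rw [hxs, Function.update_self]
  have hxsl : ∀ l, l ≠ 0 → xs l = c.z l := fun l hl => by rw [hxs, Function.update_of_ne hl]
  have hxU : xs ∈ c.U a p := by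
    refine ⟨fun l hl => ?_, ?_, ?_, fun l hl => ?_⟩
    · rw [hxsl l hl]
      exact c.pre.zS l
    · rw [hxs0]
      exact hrq
    · rw [hxs0]
      exact hrp
    · rw [hxs0, hxsl l hl]
      intro he
      exact Set.disjoint_left.1 (c.pre.disj 0 l (Ne.symm hl)) (hV.VS hr) (he ▸ c.pre.zS l)
  have hx0 : xs 0 ∈ c.S 0 := by
    rw [hxs0]
    exact hV.VS hr
  have hadm : c.Adm c.z := fun l => c.pre.zS l
  have hW : Φ.W c.z a p r = c.sg c.z 0 a r - c.sg c.z 0 p r :=
    hV.W_zero hadm hq hp (hV.VS hr) hrq hrp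
  have hG0 : 0 ≤ c.G a p xs := G_nonneg hV hq hp hne hxU hx0
  have hGval : c.G a p xs = 1 / 2 := by
    have h1 : c.G a p xs = (c.sg c.z 0 a p - 1 / 2) * (c.sg c.z 0 a r - c.sg c.z 0 p r) := by
      unfold Cfg.G
      rw [hupx, hxs0, hW]
    rw [h1] at hG0 ⊢
    rcases c.sg_cases c.z 0 a p with h | h <;> rcases c.sg_cases c.z 0 a r with h' | h' <;>
      rcases c.sg_cases c.z 0 p r with h'' | h'' <;> rw [h, h', h''] at hG0 ⊢ <;>
      first
        | (exact absurd (h'.trans h''.symm) hcon)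
        | (exfalso; norm_num at hG0; done)
        | norm_num
  -- neighbourhood
  have hcont0 : Continuous fun x : Fin (m + 1) → C => x 0 := continuous_apply 0
  have hUo : IsOpen (c.U a p) := isOpen_U (c := c) a p
  have hSj : ∀ j, MeasurableSet {x : Fin (m + 1) → C | x 0 ∈ c.S j} := fun j =>
    ((c.pre.clopen j).isOpen.preimage hcont0).measurableSet
  have hev : ∀ᶠ y in nhds xs, c.G a p y = 1 / 2 ∧ y ∈ c.U a p ∧ y 0 ∈ c.S 0 := by
    have h1 := G_eventually hV hq hp hne hxU
    have h2 : ∀ᶠ y in nhds xs, y ∈ c.U a p := hUo.mem_nhds hxU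
    have h3 : ∀ᶠ y in nhds xs, y 0 ∈ c.S 0 :=
      ((c.pre.clopen 0).isOpen.preimage hcont0).mem_nhds hx0
    filter_upwards [h1, h2, h3] with y hy1 hy2 hy3
    exact ⟨hy1.trans hGval, hy2, hy3⟩
  obtain ⟨O, hO, hOo, hxO⟩ := eventually_nhds_iff.1 hev
  obtain ⟨u, hu, huO⟩ := isOpen_pi_iff'.1 hOo xs hxO
  set B : Set (Fin (m + 1) → C) := Set.univ.pi u with hB
  have hBm : MeasurableSet B := (isOpen_set_pi Set.finite_univ fun i _ => (hu i).1).measurableSet
  have hBpos : 0 < P B := by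
    rw [hP, hB, Measure.pi_pi]
    rw [pos_iff_ne_zero, Finset.prod_ne_zero_iff]
    intro l _
    have hsup : xs l ∈ μ.support := by
      rcases eq_or_ne l 0 with rfl | hl
      · rw [hxs0]
        exact hrs
      · rw [hxsl l hl]
        exact hz l
    exact ((Measure.mem_support_iff_forall _).1 hsup (u l) ((hu l).1.mem_nhds (hu l).2)).ne'
  -- the parts
  have hint : IntegrableOn (c.G a p) (c.U a p) P := integrableOn_G hV hq hp hne
  have hUm : MeasurableSet (c.U a p) := hUo.measurableSet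
  have htot : ∫ x in c.U a p, c.G a p x ∂P = 0 := integral_U hV hT hp hq hne
  have hpart : ∫ x in ⋃ j, (c.U a p ∩ {x | x 0 ∈ c.S j}), c.G a p x ∂P =
      ∑ j, ∫ x in c.U a p ∩ {x | x 0 ∈ c.S j}, c.G a p x ∂P := by
    refine integral_iUnion_fintype (fun j => hUm.inter (hSj j)) ?_ fun j => hint.mono_set inter_subset_left
    intro i j hij
    refine Set.disjoint_left.2 ?_
    rintro x ⟨_, h1⟩ ⟨_, h2⟩
    exact Set.disjoint_left.1 (c.pre.disj i j hij) h1 h2
  have hsum : ∑ j, ∫ x in c.U a p ∩ {x | x 0 ∈ c.S j}, c.G a p x ∂P =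
      ∫ x in c.U a p ∩ {x | x 0 ∈ c.S 0}, c.G a p x ∂P :=
    Finset.sum_eq_single_of_mem 0 (Finset.mem_univ _) fun j _ hj => setIntegral_G_j hV hq hp hne hj
  have hout : ∫ x in c.U a p \ ⋃ j, {x : Fin (m + 1) → C | x 0 ∈ c.S j}, c.G a p x ∂P = 0 := by
    refine setIntegral_eq_zero_of_forall_eq_zero ?_
    rintro x ⟨hx, hx'⟩
    refine G_out hV hq hp hx fun j hj => hx' ?_
    exact Set.mem_iUnion.2 ⟨j, hj⟩
  have hsplit := integral_inter_add_sdiff (μ := P) (f := c.G a p) (s := c.U a p)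
    (t := ⋃ j, {x : Fin (m + 1) → C | x 0 ∈ c.S j}) (MeasurableSet.iUnion hSj) hint
  rw [hout, add_zero, htot, Set.inter_iUnion, hpart, hsum] at hsplit
  -- lower bound
  have hBsub : B ⊆ c.U a p ∩ {x | x 0 ∈ c.S 0} := fun x hx => (hO x (huO hx)).2
  have hmono : ∫ x in B, c.G a p x ∂P ≤ ∫ x in c.U a p ∩ {x | x 0 ∈ c.S 0}, c.G a p x ∂P := by
    refine setIntegral_mono_set (hint.mono_set inter_subset_left) ?_ hBsub.eventuallyLE
    refine (ae_restrict_iff' (hUm.inter (hSj 0))).2 (Filter.Eventually.of_forall ?_)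
    rintro x ⟨h1, h2⟩
    exact G_nonneg hV hq hp hne h1 h2
  have hBint : ∫ x in B, c.G a p x ∂P = P.real B * (1 / 2) := by
    rw [setIntegral_congr_fun hBm (g := fun _ => (1 / 2 : ℝ)) fun x hx => (hO x (huO hx)).1]
    rw [setIntegral_const, smul_eq_mul]
  have hBr : 0 < P.real B := by
    rw [Measure.real, ENNReal.toReal_pos_iff]
    exact ⟨hBpos, measure_lt_top P B⟩
  rw [hsplit, hBint] at hmono
  linarith

end Pool.Agent.Lib.MP_e9314e_an.PB
end

section

/-!
# PB: no Chebyshev system on a suspension with an aperiodic invariant measure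
-/

set_option autoImplicit false

open MeasureTheory Set

namespace Pool.Agent.Lib.MP_e9314e_an.PB

variable {C : Type*} [TopologicalSpace C] [CompactSpace C] [T2Space C] [SecondCountableTopology C]
  [TotallyDisconnectedSpace C] [MeasurableSpace C] [BorelSpace C] {μ : Measure C}
  [IsProbabilityMeasure μ]

theorem no_sys {T : C ≃ₜ C} (hT : MeasurePreserving T μ μ)
    (hper : μ {x | ∃ k : ℕ, 0 < k ∧ T^[k] x = x} = 0) {m : ℕ} (Φ : Sys T m) : False := by
  have : NullSingletonClass μ := no_atoms hT T.injective hper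
  obtain ⟨z, e, g, hz, he, hg, heg, hTz, hzs⟩ := exists_base (μ := μ) T hper m
  obtain ⟨c, rfl⟩ := exists_cfg Φ hz he hg heg hTz
  obtain ⟨η, h0, h4, huv⟩ := exists_eta c
  obtain ⟨V, hV⟩ := exists_fine c h0 h4 huv
  obtain ⟨p, k, l, hk, hl, hp, hq, hr, hqp, hrp, hrq, hps, hqs, hrs⟩ :=
    exists_return T hT hper hV.opn hV.zV (hzs 0)
  have hSp := hV.VS hp
  have hSq := hV.VS hq
  have hSr := hV.VS hr
  have hA : c.Adm c.z := c.pre.zS
  have e1 : T^[l + k] p = T^[l] (T^[k] p) := Function.iterate_add_apply _ _ _ _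
  have h1 := final_mid hV hT hzs hp hq hqp hr hrp hrq hrs
  have h2 := final_mid hV hT hzs hp hr hrp hq hqp hrq.symm hqs
  have h3 := final_mid (k := l) (p := T^[k] p) hV hT hzs hq (e1 ▸ hr) (e1 ▸ hrq) hp hqp.symm
    (e1 ▸ hrp.symm) hps
  rw [← e1] at h3
  rcases c.sg_between hA hSp hSq hSr hqp.symm hrp hrq with h | h | h
  · exact h h1.symm
  · exact h h2.symm
  · exact h h3.symm

end Pool.Agent.Lib.MP_e9314e_an.PB
end

section

/-!
# PB: from a Chebyshev system on a space containing a suspension to `Sys`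
-/

set_option autoImplicit false

open MeasureTheory Set

namespace Pool.Agent.Lib.MP_e9314e_an.PB

/-- `Eqv` in terms of integer powers of `T`: for `k : ℕ` use `Homeomorph` powers = iterates
(`(T ^ k : C ≃ₜ C) x = T^[k] x` by induction), for negative `k` the inverse. -/
theorem eqv_iff {C : Type*} [TopologicalSpace C] (T : C ≃ₜ C) (p q : C × ℝ) :
    Eqv T p q ↔ ∃ k : ℤ, q.1 = (T ^ k) p.1 ∧ p.2 = q.2 + k := by
  have hpow : ∀ (k : ℕ) (x : C), (T ^ k) x = T^[k] x := by
    intro k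
    induction k with
    | zero => intro x; simp
    | succ k ih =>
      intro x
      rw [pow_succ', Homeomorph.mul_apply, ih, Function.iterate_succ_apply']
  constructor
  · rintro (⟨k, h1, h2⟩ | ⟨k, h1, h2⟩)
    · refine ⟨k, ?_, ?_⟩
      · rw [zpow_natCast, hpow, h1]
      · rw [h2]
        push_cast
        ring
    · refine ⟨-(k : ℤ), ?_, ?_⟩
      · rw [zpow_neg, zpow_natCast]
        have h3 : (T ^ k) q.1 = p.1 := by rw [hpow, h1]
        rw [← h3]
        have : ((T ^ k)⁻¹) ((T ^ k) q.1) = q.1 := (T ^ k).symm_apply_apply q.1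
        exact this.symm
      · rw [h2]
        push_cast
        ring
  · rintro ⟨k, h1, h2⟩
    obtain ⟨n, rfl | rfl⟩ := Int.eq_nat_or_neg k
    · left
      refine ⟨n, ?_, ?_⟩
      · rw [h1, zpow_natCast, hpow]
      · rw [h2]
        push_cast
        ring
    · right
      refine ⟨n, ?_, ?_⟩
      · rw [← hpow, h1, zpow_neg, zpow_natCast]
        have : (T ^ n) ((T ^ n)⁻¹ p.1) = p.1 := (T ^ n).apply_symm_apply p.1
        exact this.symm
      · rw [h2]
        push_cast
        ring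

variable {C Q : Type*} [TopologicalSpace C] [TopologicalSpace Q] {T : C ≃ₜ C}

/-- The system on the suspension. -/
noncomputable def mkSys {m : ℕ} {φ : C × ℝ → Q} (hφ : Continuous φ)
    (hφ' : ∀ p q : C × ℝ, φ p = φ q ↔ ∃ k : ℤ, q.1 = (T ^ k) p.1 ∧ p.2 = q.2 + k)
    (x : Fin (m + 2) → C(Q, ℂ))
    (hx : ∀ q : Fin (m + 2) → Q, Function.Injective q → (Matrix.of fun j k => x k (q j)).det ≠ 0) :
    Sys T m where
  F p k := x k (φ p)
  cont := by
    refine continuous_pi fun k => ?_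
    exact (x k).continuous.comp hφ
  shift c s := by
    have : φ (c, s + 1) = φ (T c, s) := by
      rw [hφ']
      refine ⟨1, ?_, ?_⟩
      · simp
      · simp
    funext k
    rw [this]
  indep y hy := by
    have hinj : Function.Injective fun j => φ (y j) := by
      intro i j hij
      by_contra hne
      exact hy i j hne ((eqv_iff T _ _).2 ((hφ' _ _).1 hij))
    exact hx _ hinj

theorem main [CompactSpace C] [TopologicalSpace.MetrizableSpace C]
    [TotallyDisconnectedSpace C] [Nonempty C] [MeasurableSpace C] [BorelSpace C]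
    (hT : (∀ x : C, ∀ k : ℕ, 0 < k → T^[k] x ≠ x) ∨
      ∃ μ : Measure C, IsProbabilityMeasure μ ∧ MeasurePreserving T μ μ ∧
        μ {x | ∃ k : ℕ, 0 < k ∧ T^[k] x = x} = 0)
    {φ : C × ℝ → Q} (hφ : Continuous φ)
    (hφ' : ∀ p q : C × ℝ, φ p = φ q ↔ ∃ k : ℤ, q.1 = (T ^ k) p.1 ∧ p.2 = q.2 + k)
    {n : ℕ} (hn : 2 ≤ n) (x : Fin n → C(Q, ℂ)) :
    ∃ q : Fin n → Q, Function.Injective q ∧ (Matrix.of fun j k => x k (q j)).det = 0 := by
  by_contra hcon
  push Not at hcon
  obtain ⟨m, rfl⟩ : ∃ m, n = m + 2 := ⟨n - 2, by omega⟩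
  letI := TopologicalSpace.metrizableSpaceMetric C
  obtain ⟨μ, hμ, hμT, hper⟩ : ∃ μ : Measure C, IsProbabilityMeasure μ ∧ MeasurePreserving T μ μ ∧
      μ {x | ∃ k : ℕ, 0 < k ∧ T^[k] x = x} = 0 := by
    rcases hT with h | h
    · obtain ⟨μ, hμ, hμT⟩ := exists_invariant T.continuous
      refine ⟨μ, hμ, hμT, ?_⟩
      have : {x : C | ∃ k : ℕ, 0 < k ∧ T^[k] x = x} = ∅ := by
        ext x
        simp only [mem_setOf_eq, mem_empty_iff_false, iff_false, not_exists, not_and]
        exact fun k hk => h x k hk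
      rw [this]
      exact measure_empty
    · exact h
  exact no_sys hμT hper (mkSys hφ hφ' x hcon)

end Pool.Agent.Lib.MP_e9314e_an.PB
end
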